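import Pool.Agent.Lib.MP_f9aece_nt_n4.Piece

/-!
Module D3: truncated sums at distance `δ` from the critical line.
-/

set_option autoImplicit false

namespace Pool.Agent.Lib.N4

open MeasureTheory Set Filter Topology Complex
open Pool.Agent.Lib.MP_f9aece_nt (DP pair BK K1 ev PP VV Smo expo EE continuous_ev)
open Pool.Agent.Lib.MP_f9aece_nt_h5 (tw coeff_tw ev_tw)
open Pool.Agent.Lib.MP_f9aece_nt_h40 (ind)
open Pool.Agent.Lib.MP_f9aece_nt_h85 (rz Rst Pst rset mem_rset)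
open Pool.Agent.Lib.MP_f9aece_nt_h97 (Psm Dsm evs)
open Pool.Agent.Lib.J4 (Sg Yg rg Jok Bt Wt Vs En Wgt dv V2 SU Rg Iw)
open Pool.Agent.Lib.NL (pt B0 F0 SS ML)

lemma d3_pow3 (h6 : PowSum) {q : ℝ} (hq : 1 ≤ q) (hq4 : q ≤ 4) (n : ℕ) {a b : ℝ} (ha : 0 ≤ a)
    (hb : 0 ≤ b) (c : ℕ → ℝ) (hc : ∀ i, 0 ≤ c i) :
    (a + b + ∑ i ∈ Finset.range n, c i) ^ q ≤
      8 * a ^ q + 64 * b ^ q + 512 * ∑ i ∈ Finset.range n, 8 ^ i * c i ^ q := by
  have h := h6 q hq hq4 (n + 2) (fun i => match i with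
    | 0 => a
    | 1 => b
    | (j + 2) => c j) (by
      intro i
      match i with
      | 0 => exact ha
      | 1 => exact hb
      | (j + 2) => exact hc j)
  rw [Finset.sum_range_succ', Finset.sum_range_succ', Finset.sum_range_succ',
    Finset.sum_range_succ'] at h
  simp only [zero_add, pow_zero, pow_one, one_mul] at h
  have e1 : ∑ i ∈ Finset.range n, (8 : ℝ) ^ (i + 1 + 1) * c i ^ q =
      64 * ∑ i ∈ Finset.range n, 8 ^ i * c i ^ q := by
    rw [Finset.mul_sum]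
    refine Finset.sum_congr rfl fun i _ => ?_
    rw [pow_succ, pow_succ]
    ring
  rw [e1] at h
  calc (a + b + ∑ i ∈ Finset.range n, c i) ^ q = (∑ i ∈ Finset.range n, c i + b + a) ^ q := by
        congr 1
        ring
    _ ≤ _ := h
    _ = _ := by ring

lemma d3_Iw_add {w : ℝ → ℝ} {θ C T : ℝ} (hw : Wgt w θ C) (hT : 0 < T) {f g : ℝ → ℝ}
    (hf : ContinuousOn f (Icc (θ * T) (2 * T))) (hg : ContinuousOn g (Icc (θ * T) (2 * T))) :
    Iw w T (f + g) = Iw w T f + Iw w T g := J4.Iw_add hw hT hf hg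

lemma d3_coeff_sum (s : Finset ℕ) (n : ℕ) :
    (∑ m ∈ s, (MonoidAlgebra.single m 1 : DP)).coeff n = if n ∈ s then 1 else 0 := by
  classical
  rw [MP_f9aece_nt_h97.coeff_eq_pair, MP_f9aece_nt.pair_sum]
  simp

lemma d3_supp {v p0 : ℕ} {Y z : ℝ} (n : ℕ) (hn : (rz p0 Y z - smz p0 z).coeff n ≠ 0) (hz : 0 ≤ z) :
    n ∈ Smo (Rst p0 (Yg v Y 0)) ∧ (n : ℝ) ≤ z := by
  classical
  rw [J4.Yg_zero]
  have h1 : (rz p0 Y z).coeff n ≠ 0 ∨ (smz p0 z).coeff n ≠ 0 := by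
    by_contra h
    push Not at h
    apply hn
    rw [MonoidAlgebra.coeff_sub, Finsupp.sub_apply, h.1, h.2, sub_zero]
  rcases h1 with h1 | h1
  · unfold rz at h1
    rw [d3_coeff_sum] at h1
    have h2 : n ∈ rset p0 Y z := by
      by_contra h
      exact h1 (if_neg h)
    rw [mem_rset] at h2
    exact ⟨h2.2, (Nat.le_floor_iff hz).1 h2.1.2⟩
  · unfold smz at h1
    rw [d3_coeff_sum] at h1
    have h2 : n ∈ (Finset.Icc 1 ⌊z⌋₊).filter (fun n => n ∈ Smo (Psm p0 : Set ℕ)) := by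
      by_contra h
      exact h1 (if_neg h)
    rw [Finset.mem_filter, Finset.mem_Icc] at h2
    refine ⟨⟨h2.2.1, fun p hp hpn => ?_⟩, (Nat.le_floor_iff hz).1 h2.1.2⟩
    have h3 := h2.2.2 p hp hpn
    unfold Psm at h3
    have h4 := (Finset.mem_Ioc.1 (Finset.mem_filter.1 (Finset.mem_coe.1 h3)).1).2
    unfold Rst
    simp only [Set.mem_ofPred_eq, not_and]
    intro h5
    omega

lemma d3_Yg {v : ℕ} (hv : 1 ≤ v) {Y : ℝ} (hY : 0 < Y) (i : ℕ) :
    ((i : ℝ) + 1) ^ 2 * Yg v Y i ≤ 4 * Y := by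
  unfold Yg
  have hv1 : (1 : ℝ) ≤ v := by exact_mod_cast hv
  have hi : (0 : ℝ) ≤ i := Nat.cast_nonneg i
  have h1 : ((i : ℝ) + 1) ^ 2 ≤ 4 * Real.exp ((v : ℝ) * i * (i + 1) / 2) := by
    have h2 := Real.add_one_le_exp ((v : ℝ) * i * (i + 1) / 2)
    have h3 : (i : ℝ) * (i + 1) ≤ (v : ℝ) * i * (i + 1) := by
      have : 0 ≤ (i : ℝ) * (i + 1) := by positivity
      nlinarith
    nlinarith
  have h4 : Real.exp ((v : ℝ) * i * (i + 1) / 2) * Real.exp (-((v : ℝ) * i * (i + 1) / 2)) = 1 := by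
    rw [← Real.exp_add]
    simp
  have h5 : 0 < Real.exp (-((v : ℝ) * i * (i + 1) / 2)) := Real.exp_pos _
  calc ((i : ℝ) + 1) ^ 2 * (Y * Real.exp (-((v : ℝ) * i * (i + 1) / 2)))
      ≤ (4 * Real.exp ((v : ℝ) * i * (i + 1) / 2)) *
        (Y * Real.exp (-((v : ℝ) * i * (i + 1) / 2))) :=
        mul_le_mul_of_nonneg_right h1 (by positivity)
    _ = 4 * Y * (Real.exp ((v : ℝ) * i * (i + 1) / 2) *
        Real.exp (-((v : ℝ) * i * (i + 1) / 2))) := by ring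
    _ = 4 * Y := by rw [h4, mul_one]

lemma d3_el {v : ℕ} (hv : 1 ≤ v) {δ Λ : ℝ} (hδ : 0 < δ) (hΛ : 0 < Λ) (J i : ℕ) :
    δ * el v (Λ / δ) J i ≤ 4000000 * v * Λ := by
  have hY : 0 < Λ / δ := by positivity
  have h1 := pcEl_le v hY J i
  have h2 := d3_Yg hv hY i
  have hv1 : (0 : ℝ) ≤ v := Nat.cast_nonneg v
  calc δ * el v (Λ / δ) J i ≤ δ * ell v (Λ / δ) i := mul_le_mul_of_nonneg_left h1 hδ.le
    _ = δ * (1000000 * v * (((i : ℝ) + 1) ^ 2 * Yg v (Λ / δ) i)) := by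
        unfold ell
        ring
    _ ≤ δ * (1000000 * v * (4 * (Λ / δ))) :=
        mul_le_mul_of_nonneg_left (mul_le_mul_of_nonneg_left h2 (by positivity)) hδ.le
    _ = 4000000 * v * Λ := by
        field_simp
        ring

lemma d3_powA {δ κ Λ k : ℝ} (hδ : 0 < δ) (hκ : 0 ≤ κ) (hΛ : 1 ≤ Λ) (hk : 1 ≤ k) (hk2 : k ≤ 2) :
    (κ / δ + Λ / δ) ^ (k / 2) * (Λ / δ) ^ (k ^ 2 - k / 2) ≤
      (κ + Λ) * Λ ^ 3 * (1 / δ) ^ (k ^ 2) := by
  have hd : 0 < 1 / δ := by positivity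
  have e1 : κ / δ + Λ / δ = (κ + Λ) * (1 / δ) := by ring
  have e2 : Λ / δ = Λ * (1 / δ) := by ring
  rw [e1, e2, Real.mul_rpow (by positivity) hd.le, Real.mul_rpow (by linarith) hd.le]
  have e3 : (1 / δ) ^ (k / 2) * (1 / δ) ^ (k ^ 2 - k / 2) = (1 / δ) ^ (k ^ 2) := by
    rw [← Real.rpow_add hd]
    congr 1
    ring
  have h1 : (κ + Λ) ^ (k / 2) ≤ κ + Λ := by
    calc (κ + Λ) ^ (k / 2) ≤ (κ + Λ) ^ (1 : ℝ) :=
          Real.rpow_le_rpow_of_exponent_le (by linarith) (by linarith)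
      _ = κ + Λ := Real.rpow_one _
  have h2 : Λ ^ (k ^ 2 - k / 2) ≤ Λ ^ 3 := by
    calc Λ ^ (k ^ 2 - k / 2) ≤ Λ ^ (3 : ℝ) :=
          Real.rpow_le_rpow_of_exponent_le hΛ (by nlinarith)
      _ = Λ ^ 3 := by norm_num
  calc (κ + Λ) ^ (k / 2) * (1 / δ) ^ (k / 2) * (Λ ^ (k ^ 2 - k / 2) * (1 / δ) ^ (k ^ 2 - k / 2))
      = (κ + Λ) ^ (k / 2) * Λ ^ (k ^ 2 - k / 2) *
        ((1 / δ) ^ (k / 2) * (1 / δ) ^ (k ^ 2 - k / 2)) := by ring
    _ = (κ + Λ) ^ (k / 2) * Λ ^ (k ^ 2 - k / 2) * (1 / δ) ^ (k ^ 2) := by rw [e3]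
    _ ≤ (κ + Λ) * Λ ^ 3 * (1 / δ) ^ (k ^ 2) := by
        refine mul_le_mul_of_nonneg_right ?_ (by positivity)
        exact mul_le_mul h1 h2 (by positivity) (by linarith)

lemma d3_powB {δ Λ k : ℝ} (hδ : 0 < δ) (hΛ : 1 ≤ Λ) (hk : 1 ≤ k) (hk2 : k ≤ 2) :
    (1 / δ + Λ / δ) ^ (2 * k) * (Λ / δ) ^ (k ^ 2 - 2 * k) ≤
      (1 + Λ) ^ 4 * (1 / δ) ^ (k ^ 2) := by
  have hd : 0 < 1 / δ := by positivity
  have e1 : 1 / δ + Λ / δ = (1 + Λ) * (1 / δ) := by ring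
  have e2 : Λ / δ = Λ * (1 / δ) := by ring
  rw [e1, e2, Real.mul_rpow (by positivity) hd.le, Real.mul_rpow (by linarith) hd.le]
  have e3 : (1 / δ) ^ (2 * k) * (1 / δ) ^ (k ^ 2 - 2 * k) = (1 / δ) ^ (k ^ 2) := by
    rw [← Real.rpow_add hd]
    congr 1
    ring
  have h1 : (1 + Λ) ^ (2 * k) ≤ (1 + Λ) ^ 4 := by
    calc (1 + Λ) ^ (2 * k) ≤ (1 + Λ) ^ (4 : ℝ) :=
          Real.rpow_le_rpow_of_exponent_le (by linarith) (by linarith)
      _ = (1 + Λ) ^ 4 := by norm_num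
  have h2 : Λ ^ (k ^ 2 - 2 * k) ≤ 1 :=
    Real.rpow_le_one_of_one_le_of_nonpos hΛ (by nlinarith)
  calc (1 + Λ) ^ (2 * k) * (1 / δ) ^ (2 * k) * (Λ ^ (k ^ 2 - 2 * k) * (1 / δ) ^ (k ^ 2 - 2 * k))
      = (1 + Λ) ^ (2 * k) * Λ ^ (k ^ 2 - 2 * k) *
        ((1 / δ) ^ (2 * k) * (1 / δ) ^ (k ^ 2 - 2 * k)) := by ring
    _ = (1 + Λ) ^ (2 * k) * Λ ^ (k ^ 2 - 2 * k) * (1 / δ) ^ (k ^ 2) := by rw [e3]
    _ ≤ (1 + Λ) ^ 4 * 1 * (1 / δ) ^ (k ^ 2) := by
        refine mul_le_mul_of_nonneg_right ?_ (by positivity)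
        exact mul_le_mul h1 h2 (by positivity) (by positivity)
    _ = _ := by ring

lemma d3_expQ {δ Cm k q : ℝ} (hδ : 0 < δ) (hδ4 : δ ≤ 1 / 4) (hCm : 0 ≤ Cm) (hk : 1 ≤ k)
    (hk2 : k ≤ 2) (hq : q ≤ Real.log (1 / δ + 1) + Cm) :
    Real.exp (k ^ 2 * q) ≤ Real.exp (4 * Cm) * 4 * (1 / δ) ^ (k ^ 2) := by
  have hd : 4 ≤ 1 / δ := by
    rw [le_div_iff₀ hδ]
    linarith
  have hk4 : k ^ 2 ≤ 4 := by nlinarith
  have h1 : k ^ 2 * q ≤ k ^ 2 * Real.log (1 / δ + 1) + 4 * Cm := by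
    have := mul_le_mul_of_nonneg_left hq (sq_nonneg k)
    nlinarith
  have h2 : Real.exp (k ^ 2 * Real.log (1 / δ + 1)) = (1 / δ + 1) ^ (k ^ 2) := by
    rw [Real.rpow_def_of_pos (by linarith)]
    congr 1
    ring
  have h3 : (1 / δ + 1) ^ (k ^ 2) ≤ 4 * (1 / δ) ^ (k ^ 2) := by
    calc (1 / δ + 1) ^ (k ^ 2) ≤ (5 / 4 * (1 / δ)) ^ (k ^ 2) :=
          Real.rpow_le_rpow (by linarith) (by linarith) (sq_nonneg k)
      _ = (5 / 4 : ℝ) ^ (k ^ 2) * (1 / δ) ^ (k ^ 2) :=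
          Real.mul_rpow (by norm_num) (by linarith)
      _ ≤ 4 * (1 / δ) ^ (k ^ 2) := by
          refine mul_le_mul_of_nonneg_right ?_ (by positivity)
          calc (5 / 4 : ℝ) ^ (k ^ 2) ≤ (5 / 4 : ℝ) ^ (4 : ℝ) :=
                Real.rpow_le_rpow_of_exponent_le (by norm_num) hk4
            _ ≤ 4 := by
                norm_num
  calc Real.exp (k ^ 2 * q) ≤ Real.exp (k ^ 2 * Real.log (1 / δ + 1) + 4 * Cm) :=
        Real.exp_le_exp.2 h1
    _ = (1 / δ + 1) ^ (k ^ 2) * Real.exp (4 * Cm) := by rw [Real.exp_add, h2]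
    _ ≤ (4 * (1 / δ) ^ (k ^ 2)) * Real.exp (4 * Cm) :=
        mul_le_mul_of_nonneg_right h3 (Real.exp_pos _).le
    _ = _ := by ring

theorem sharpNear (h1 : Telescope) (h2 : QCoeff) (h3 : PieceEnergy) (h4 : Level) (h5 : Mert)
    (h6 : PowSum) (h7 : NumWin) (h8 : NumOm) (h9 : HeadEnergy) (h10 : SmallTail)
    (h11 : LenEI) : SharpNear := by
  have _h11 := h11
  intro w θ C hθ hw η hη p0 hp0
  obtain ⟨v0, h4⟩ := h4
  obtain ⟨C2, hC2, hlev⟩ := h4 w θ C hθ hw 1 le_rfl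
  obtain ⟨v0', h3⟩ := h3
  obtain ⟨Cp, hCp, hpe⟩ := h3 p0 hp0
  obtain ⟨Cm, hCm, hm⟩ := h5
  obtain ⟨CN, hCN, hno⟩ := h8
  obtain ⟨Ch, hCh, hhe⟩ := h9 p0 hp0
  obtain ⟨Cs, hCs, hst⟩ := h10 p0 (by omega)
  have hCm4 : 0 < Real.exp (4 * Cm) := Real.exp_pos _
  set E0 : ℝ := C2 * (Real.exp (4 * Cm) * 4) with hE0
  have hE0p : 0 < E0 := by positivity
  set ε1 : ℝ := min 1 (η / (32 * E0)) with hε1
  have hε1p : 0 < ε1 := lt_min one_pos (by positivity)
  refine ⟨max 1 (Ch / ε1 ^ 2), le_max_left _ _, fun Λ hΛ => ?_⟩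
  have hΛ1 : 1 ≤ Λ := (le_max_left _ _).trans hΛ
  have hΛ0 : 0 < Λ := by linarith
  have hΛ2 : Ch / Λ ≤ ε1 ^ 2 := by
    have : Ch / ε1 ^ 2 ≤ Λ := (le_max_right _ _).trans hΛ
    rw [div_le_iff₀ (by positivity)] at this
    rw [div_le_iff₀ hΛ0]
    linarith
  set GB : ℝ := 1024 * (C2 * Cp * Real.exp (4 * Cm)) * CN * (1 + Λ) ^ 4 with hGB
  have hGBp : 0 < GB := by positivity
  obtain ⟨v2, hv2⟩ : ∃ v2 : ℕ, ∀ v : ℕ, v2 ≤ v → GB * Real.exp (-(v : ℝ)) ≤ η / 4 := by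
    refine ⟨⌈Real.log (4 * GB / η)⌉₊, fun v hv => ?_⟩
    have h1 : Real.log (4 * GB / η) ≤ v :=
      (Nat.le_ceil _).trans (by exact_mod_cast hv)
    have h2 : Real.exp (-(v : ℝ)) ≤ Real.exp (-Real.log (4 * GB / η)) :=
      Real.exp_le_exp.2 (by linarith)
    rw [Real.exp_neg (Real.log _), Real.exp_log (by positivity)] at h2
    calc GB * Real.exp (-(v : ℝ)) ≤ GB * (4 * GB / η)⁻¹ := mul_le_mul_of_nonneg_left h2 hGBp.le
      _ = η / 4 := by
          field_simp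
  refine ⟨max (max v0 v0') (max 2 v2), fun v hv => ?_⟩
  have hvv0 : v0 ≤ v := le_trans (le_trans (le_max_left _ _) (le_max_left _ _)) hv
  have hvv0' : v0' ≤ v := le_trans (le_trans (le_max_right _ _) (le_max_left _ _)) hv
  have hv2' : 2 ≤ v := le_trans (le_trans (le_max_left _ _) (le_max_right _ _)) hv
  have hvB := hv2 v (le_trans (le_trans (le_max_right _ _) (le_max_right _ _)) hv)
  obtain ⟨Cv, hCv, hnw⟩ := h7 v (by omega)
  set X : ℝ := 4000000 * v * Λ with hX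
  have hX0 : 0 ≤ X := by positivity
  set ε2 : ℝ := min 1 (η / (256 * E0)) with hε2
  have hε2p : 0 < ε2 := lt_min one_pos (by positivity)
  set GA : ℝ := 1024 * (C2 * Cp * Real.exp (4 * Cm)) * Cv * Λ ^ 4 * (10 / 3) * Real.exp (2 * X)
    with hGA
  have hGAp : 0 < GA := by positivity
  refine ⟨max 1 (max (10 / 3 * (1 + X)) (max (10 / 3 * (X + 4 * Real.log (Cs / ε2)))
    (10 / 3 * Real.log (4 * GA / η)))), le_max_left _ _, ?_⟩
  intro δ T z k hδ hδ4 hT hK hz hzT hk hk2 J hJ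
  set κ : ℝ := δ * Real.log T with hκ
  have hK1 : 1 ≤ κ := (le_max_left _ _).trans hK
  have hKX : 1 + X ≤ 3 / 10 * κ := by
    have := ((le_max_left _ _).trans (le_max_right _ _)).trans hK
    linarith
  have hKs : X + 4 * Real.log (Cs / ε2) ≤ 3 / 10 * κ := by
    have := (((le_max_left _ _).trans (le_max_right _ _)).trans (le_max_right _ _)).trans hK
    linarith
  have hKA : Real.log (4 * GA / η) ≤ 3 / 10 * κ := by
    have := (((le_max_right _ _).trans (le_max_right _ _)).trans (le_max_right _ _)).trans hK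
    linarith
  have hT0 : 0 < T := by linarith
  have hlogT : Real.log T = κ / δ := by
    rw [hκ]
    field_simp
  have hlogT0 : 0 ≤ Real.log T := Real.log_nonneg hT
  have hd4 : 4 ≤ 1 / δ := by
    rw [le_div_iff₀ hδ]
    linarith
  have hlogT1 : 1 ≤ Real.log T := by
    rw [hlogT, le_div_iff₀ hδ]
    linarith
  have hz1 : 1 ≤ z := le_trans (Real.one_le_rpow hT (by norm_num)) hz
  have hz0 : 0 < z := by linarith
  have hlogz : 3 / 10 * Real.log T ≤ Real.log z := by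
    rw [← Real.log_rpow hT0]
    exact Real.log_le_log (Real.rpow_pos_of_pos hT0 _) hz
  have hlogz2 : Real.log z ≤ Real.log T := by
    apply Real.log_le_log hz0
    nlinarith
  have hY : 0 < Λ / δ := by positivity
  have hlz : ∀ i, (3 / 10 * κ - X) ≤ δ * Real.log (zc v (Λ / δ) J z i) := by
    intro i
    rw [pcLog_zc hz0]
    have h1 := d3_el (v := v) (by omega) hδ hΛ0 J i
    have h2 := mul_le_mul_of_nonneg_left hlogz hδ.le
    rw [← hX] at h1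
    have h3 : δ * (3 / 10 * Real.log T) = 3 / 10 * κ := by rw [hκ]; ring
    rw [h3] at h2
    linarith
  set z0 : ℝ := zc v (Λ / δ) J z 0 with hz0def
  have hz0p : 0 < z0 := pcZc_pos hz0 0
  have hlz0 : 3 / 10 * κ - X ≤ Real.log z0 := by
    have h1 := hlz 0
    rw [← hz0def] at h1
    have h2 : 0 ≤ 3 / 10 * κ - X := by linarith
    have h3 : 0 ≤ Real.log z0 := by
      by_contra h
      push Not at h
      nlinarith
    nlinarith
  have hz01 : 1 ≤ z0 := by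
    by_contra h
    push Not at h
    have := Real.log_neg hz0p h
    linarith
  set P : ℝ := (1 / δ) ^ (k ^ 2) with hP
  have hPp : 0 < P := Real.rpow_pos_of_pos (by positivity) _
  -- the three kinds of terms
  have hhead : 8 * Iw w T (fun t => ‖ev t (tw δ ((rz p0 (Λ / δ) z0 - smz p0 z0)
      * EI v p0 (Λ / δ) 0 J))‖ ^ (2 * k)) ≤ η / 4 * (T * P) := by
    have hl := hlev v hvv0 p0 hp0 (Λ / δ) hY J hJ 0 (Nat.zero_le _) k hk hk2 δ hδ.le T z0 hT
      hz0p.le (by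
        rw [one_mul]
        exact (pcZc_sq hY 0).trans hzT) (rz p0 (Λ / δ) z0 - smz p0 z0)
      (fun n hn => d3_supp n hn hz0p.le)
    have hE := hhe δ (Λ / δ) hδ hδ4 (by
      rw [mul_div_cancel₀ _ hδ.ne']
      exact hΛ1) z0 hz01
    rw [mul_div_cancel₀ _ hδ.ne'] at hE
    have hE' : En (tw δ ((rz p0 (Λ / δ) z0 - smz p0 z0) * (rz p0 (Λ / δ) z0 - smz p0 z0))) ^ (k / 2)
        ≤ ε1 := by
      have hs : En (tw δ ((rz p0 (Λ / δ) z0 - smz p0 z0) * (rz p0 (Λ / δ) z0 - smz p0 z0))) ≤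
        ε1 ^ 2 := hE.trans hΛ2
      calc _ ≤ (ε1 ^ 2) ^ (k / 2) := Real.rpow_le_rpow (pcEn_nonneg _) hs (by linarith)
        _ = ε1 ^ k := by
            rw [← Real.rpow_natCast ε1 2, ← Real.rpow_mul hε1p.le]
            congr 1
            push_cast
            ring
        _ ≤ ε1 ^ (1 : ℝ) := Real.rpow_le_rpow_of_exponent_ge hε1p (min_le_left _ _) hk
        _ = ε1 := Real.rpow_one _
    have hQ := d3_expQ hδ hδ4 hCm hk hk2 ((hm v p0 (Λ / δ) 0 J δ (by omega) (by omega) hY hδ.le).2 hδ)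
    unfold Iw
    calc 8 * ∫ t : ℝ, w (t / T) * ‖ev t (tw δ ((rz p0 (Λ / δ) z0 - smz p0 z0)
          * EI v p0 (Λ / δ) 0 J))‖ ^ (2 * k)
        ≤ 8 * (C2 * T * ε1 * (Real.exp (4 * Cm) * 4 * P)) := by
          refine mul_le_mul_of_nonneg_left (hl.trans ?_) (by norm_num)
          refine mul_le_mul (mul_le_mul_of_nonneg_left hE' (by positivity)) hQ
            (Real.exp_pos _).le (by positivity)
      _ = 8 * E0 * ε1 * (T * P) := by
          rw [hE0]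
          ring
      _ ≤ η / 4 * (T * P) := by
          refine mul_le_mul_of_nonneg_right ?_ (by positivity)
          have h1 : ε1 ≤ η / (32 * E0) := min_le_right _ _
          rw [le_div_iff₀ (by positivity)] at h1
          linarith
  have hu : Cs * z0 ^ (-(1 / 4) : ℝ) ≤ ε2 := by
    have h1 : z0 ^ (-(1 / 4) : ℝ) ≤ ε2 / Cs := by
      rw [Real.rpow_def_of_pos hz0p, ← Real.exp_log (show 0 < ε2 / Cs by positivity)]
      apply Real.exp_le_exp.2
      have h2 : Real.log (ε2 / Cs) = -Real.log (Cs / ε2) := by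
        rw [← Real.log_inv, inv_div]
      rw [h2]
      linarith
    rw [le_div_iff₀ (by positivity)] at h1
    linarith
  have htail : 64 * ((Cs * z0 ^ (-(1 / 4) : ℝ)) ^ (2 * k) *
      Iw w T (fun t => ‖ev t (tw δ (EI v p0 (Λ / δ) 0 J))‖ ^ (2 * k))) ≤ η / 4 * (T * P) := by
    have hel : el v (Λ / δ) J 0 ≤ Real.log T := by
      have h1 := d3_el (v := v) (by omega) hδ hΛ0 J 0
      rw [← hX] at h1
      rw [hlogT, le_div_iff₀ hδ]
      linarith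
    have hl := hlev v hvv0 p0 hp0 (Λ / δ) hY J hJ 0 (Nat.zero_le _) k hk hk2 δ hδ.le T 1 hT
      zero_le_one (by
        rw [one_pow, one_mul, one_mul]
        calc Real.exp (el v (Λ / δ) J 0) ≤ Real.exp (Real.log T) := Real.exp_le_exp.2 hel
          _ = T := Real.exp_log hT0) 1
      (by
        intro n hn
        have h1 : n = 1 := by
          by_contra h
          apply hn
          rw [MonoidAlgebra.one_def, MonoidAlgebra.coeff_single, Finsupp.single_apply,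
            if_neg (Ne.symm h)]
        subst h1
        refine ⟨⟨one_ne_zero, fun p hp hp1 => ?_⟩, by norm_num⟩
        exact absurd (Nat.dvd_one.1 hp1) hp.one_lt.ne')
    rw [one_mul, one_mul, map_one] at hl
    have hEn1 : En (1 : DP) = 1 := by
      rw [J4.En_eq_sum, MonoidAlgebra.one_def, MonoidAlgebra.coeff_single,
        Finsupp.support_single _ one_ne_zero]
      simp
    rw [hEn1, Real.one_rpow, mul_one] at hl
    have hQ := d3_expQ hδ hδ4 hCm hk hk2 ((hm v p0 (Λ / δ) 0 J δ (by omega) (by omega) hY hδ.le).2 hδ)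
    have hcs : (Cs * z0 ^ (-(1 / 4) : ℝ)) ^ (2 * k) ≤ ε2 := by
      have hp : 0 ≤ Cs * z0 ^ (-(1 / 4) : ℝ) := by positivity
      calc (Cs * z0 ^ (-(1 / 4) : ℝ)) ^ (2 * k) ≤ ε2 ^ (2 * k) :=
            Real.rpow_le_rpow hp hu (by linarith)
        _ ≤ ε2 ^ (1 : ℝ) :=
            Real.rpow_le_rpow_of_exponent_ge hε2p (min_le_left _ _) (by linarith)
        _ = ε2 := Real.rpow_one _
    have hI0 : 0 ≤ Iw w T (fun t => ‖ev t (tw δ (EI v p0 (Λ / δ) 0 J))‖ ^ (2 * k)) :=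
      J4.Iw_nonneg hw hT0 (fun t _ => by positivity)
    have hI : Iw w T (fun t => ‖ev t (tw δ (EI v p0 (Λ / δ) 0 J))‖ ^ (2 * k)) ≤
        C2 * T * (Real.exp (4 * Cm) * 4 * P) := by
      unfold Iw
      exact hl.trans (mul_le_mul_of_nonneg_left hQ (by positivity))
    calc 64 * ((Cs * z0 ^ (-(1 / 4) : ℝ)) ^ (2 * k) *
        Iw w T (fun t => ‖ev t (tw δ (EI v p0 (Λ / δ) 0 J))‖ ^ (2 * k)))
        ≤ 64 * (ε2 * (C2 * T * (Real.exp (4 * Cm) * 4 * P))) := by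
          refine mul_le_mul_of_nonneg_left ?_ (by norm_num)
          exact mul_le_mul hcs hI hI0 hε2p.le
      _ = 64 * E0 * ε2 * (T * P) := by
          rw [hE0]
          ring
      _ ≤ η / 4 * (T * P) := by
          refine mul_le_mul_of_nonneg_right ?_ (by positivity)
          have h1 : ε2 ≤ η / (256 * E0) := min_le_right _ _
          rw [le_div_iff₀ (by positivity)] at h1
          linarith
  have hpc : ∀ i ∈ Finset.range J, Iw w T (fun t => ‖ev t (tw δ (QW v p0 (Λ / δ) J z i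
      * EI v p0 (Λ / δ) (i + 1) J))‖ ^ (2 * k)) ≤
      C2 * Cp * Real.exp (4 * Cm) * (T * P) * ((1 / 16) ^ i *
        (Real.exp (2 * X - 6 / 10 * κ) * Cv * ((κ + Λ) * Λ ^ 3) +
          CN * Real.exp (-v) * (1 + Λ) ^ 4)) := by
    intro i hi
    have h := pc_piece_le (w := w) (C0 := 1) hv2' hp0 hC2 hCp hCm hCv hCN
      (hlev v hvv0 p0 hp0) h2 (hpe v hvv0')
      (fun Y i J δ hY hδ => (hm v p0 Y i J δ (by omega) (by omega) hY hδ).1)
      hnw (hno v (by omega)) (Y := Λ / δ) (T := T) (z := z) (W := 1 / δ) (L := Real.log T)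
      (δ := δ) (k := k) (J := J) (i := i) hY hJ (Finset.mem_range.1 hi) hT hz1
      (by rw [one_mul]; exact hzT) (by linarith) hδ.le
      (Or.inr (by rw [mul_div_cancel₀ _ hδ.ne'])) hlogT1 hlogz2 hk hk2
    unfold Iw
    refine h.trans ?_
    have hA := d3_powA hδ (by linarith : 0 ≤ κ) hΛ1 hk hk2
    have hB := d3_powB hδ hΛ1 hk hk2
    rw [← hP] at hA hB
    have he : Real.exp (-(2 * k * δ * Real.log (zc v (Λ / δ) J z i))) ≤
        Real.exp (2 * X - 6 / 10 * κ) := by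
      apply Real.exp_le_exp.2
      have h1 := hlz i
      have h2 : 0 ≤ 3 / 10 * κ - X := by linarith
      nlinarith
    rw [hlogT]
    calc C2 * Cp * Real.exp (4 * Cm) * T * ((1 / 16) ^ i *
        (Real.exp (-(2 * k * δ * Real.log (zc v (Λ / δ) J z i))) * Cv *
            ((κ / δ + Λ / δ) ^ (k / 2) * (Λ / δ) ^ (k ^ 2 - k / 2))
          + CN * Real.exp (-v) * ((1 / δ + Λ / δ) ^ (2 * k) * (Λ / δ) ^ (k ^ 2 - 2 * k))))
        ≤ C2 * Cp * Real.exp (4 * Cm) * T * ((1 / 16) ^ i *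
        (Real.exp (2 * X - 6 / 10 * κ) * Cv * ((κ + Λ) * Λ ^ 3 * P)
          + CN * Real.exp (-v) * ((1 + Λ) ^ 4 * P))) := by
          refine mul_le_mul_of_nonneg_left ?_ (by positivity)
          refine mul_le_mul_of_nonneg_left ?_ (by positivity)
          refine add_le_add ?_ (mul_le_mul_of_nonneg_left hB (by positivity))
          refine mul_le_mul (mul_le_mul_of_nonneg_right he (by linarith)) hA ?_ (by positivity)
          have : 0 ≤ κ / δ + Λ / δ := by positivity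
          positivity
      _ = _ := by ring
  have hpcs : 512 * ∑ i ∈ Finset.range J, 8 ^ i * Iw w T (fun t => ‖ev t (tw δ
      (QW v p0 (Λ / δ) J z i * EI v p0 (Λ / δ) (i + 1) J))‖ ^ (2 * k)) ≤ η / 2 * (T * P) := by
    set S : ℝ := Real.exp (2 * X - 6 / 10 * κ) * Cv * ((κ + Λ) * Λ ^ 3) +
          CN * Real.exp (-v) * (1 + Λ) ^ 4 with hS
    have hS0 : 0 ≤ S := by positivity
    have hSA : 1024 * (C2 * Cp * Real.exp (4 * Cm)) *
        (Real.exp (2 * X - 6 / 10 * κ) * Cv * ((κ + Λ) * Λ ^ 3)) ≤ η / 4 := by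
      have e1 : 3 / 10 * (1 + κ) ≤ Real.exp (3 / 10 * κ) := by
        have := Real.add_one_le_exp (3 / 10 * κ)
        linarith
      have e2 : κ + Λ ≤ Λ * (10 / 3 * Real.exp (3 / 10 * κ)) := by nlinarith
      have e3 : Real.exp (2 * X - 6 / 10 * κ) = Real.exp (2 * X) * Real.exp (-(3 / 10 * κ)) *
          Real.exp (-(3 / 10 * κ)) := by
        rw [← Real.exp_add, ← Real.exp_add]
        congr 1
        ring
      have e4 : Real.exp (3 / 10 * κ) * Real.exp (-(3 / 10 * κ)) = 1 := by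
        rw [← Real.exp_add]
        simp
      have e5 : Real.exp (-(3 / 10 * κ)) ≤ (4 * GA / η)⁻¹ := by
        rw [← Real.exp_log (show 0 < (4 * GA / η)⁻¹ by positivity), Real.log_inv]
        exact Real.exp_le_exp.2 (by linarith)
      have e6 : 0 < Real.exp (-(3 / 10 * κ)) := Real.exp_pos _
      calc 1024 * (C2 * Cp * Real.exp (4 * Cm)) *
          (Real.exp (2 * X - 6 / 10 * κ) * Cv * ((κ + Λ) * Λ ^ 3))
          ≤ 1024 * (C2 * Cp * Real.exp (4 * Cm)) *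
          (Real.exp (2 * X - 6 / 10 * κ) * Cv * ((Λ * (10 / 3 * Real.exp (3 / 10 * κ))) * Λ ^ 3)) := by
            refine mul_le_mul_of_nonneg_left ?_ (by positivity)
            refine mul_le_mul_of_nonneg_left ?_ (by positivity)
            exact mul_le_mul_of_nonneg_right e2 (by positivity)
        _ = GA * ((Real.exp (3 / 10 * κ) * Real.exp (-(3 / 10 * κ))) *
            Real.exp (-(3 / 10 * κ))) := by
            rw [e3, hGA]
            ring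
        _ = GA * Real.exp (-(3 / 10 * κ)) := by rw [e4, one_mul]
        _ ≤ GA * (4 * GA / η)⁻¹ := mul_le_mul_of_nonneg_left e5 hGAp.le
        _ = η / 4 := by
            field_simp
    have hSB : 1024 * (C2 * Cp * Real.exp (4 * Cm)) * (CN * Real.exp (-v) * (1 + Λ) ^ 4) ≤
        η / 4 := by
      calc _ = GB * Real.exp (-(v : ℝ)) := by
            rw [hGB]
            ring
        _ ≤ η / 4 := hvB
    have h1 : ∑ i ∈ Finset.range J, 8 ^ i * Iw w T (fun t => ‖ev t (tw δ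
        (QW v p0 (Λ / δ) J z i * EI v p0 (Λ / δ) (i + 1) J))‖ ^ (2 * k)) ≤
        (C2 * Cp * Real.exp (4 * Cm) * (T * P) * S) *
          ∑ i ∈ Finset.range J, (8 : ℝ) ^ i * (1 / 16) ^ i := by
      rw [Finset.mul_sum]
      refine Finset.sum_le_sum fun i hi => ?_
      calc (8 : ℝ) ^ i * Iw w T (fun t => ‖ev t (tw δ
          (QW v p0 (Λ / δ) J z i * EI v p0 (Λ / δ) (i + 1) J))‖ ^ (2 * k))
          ≤ 8 ^ i * (C2 * Cp * Real.exp (4 * Cm) * (T * P) * ((1 / 16) ^ i * S)) :=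
            mul_le_mul_of_nonneg_left (hpc i hi) (by positivity)
        _ = _ := by ring
    calc 512 * ∑ i ∈ Finset.range J, 8 ^ i * Iw w T (fun t => ‖ev t (tw δ
        (QW v p0 (Λ / δ) J z i * EI v p0 (Λ / δ) (i + 1) J))‖ ^ (2 * k))
        ≤ 512 * ((C2 * Cp * Real.exp (4 * Cm) * (T * P) * S) * 2) := by
          refine mul_le_mul_of_nonneg_left (h1.trans ?_) (by norm_num)
          exact mul_le_mul_of_nonneg_left (pc_geo_sum_le J) (by positivity)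
      _ = (1024 * (C2 * Cp * Real.exp (4 * Cm)) *
          (Real.exp (2 * X - 6 / 10 * κ) * Cv * ((κ + Λ) * Λ ^ 3)) +
          1024 * (C2 * Cp * Real.exp (4 * Cm)) * (CN * Real.exp (-v) * (1 + Λ) ^ 4)) *
          (T * P) := by
          rw [hS]
          ring
      _ ≤ (η / 4 + η / 4) * (T * P) :=
          mul_le_mul_of_nonneg_right (add_le_add hSA hSB) (by positivity)
      _ = η / 2 * (T * P) := by ring
  -- pointwise
  have hpt : ∀ t : ℝ, ‖ev t (tw δ (al z)) - (evs (pt δ t) (Dsm p0))⁻¹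
      * ev t (tw δ (EI v p0 (Λ / δ) 0 J))‖ ^ (2 * k) ≤
      8 * ‖ev t (tw δ ((rz p0 (Λ / δ) z0 - smz p0 z0) * EI v p0 (Λ / δ) 0 J))‖ ^ (2 * k)
      + 64 * ((Cs * z0 ^ (-(1 / 4) : ℝ)) ^ (2 * k) *
        ‖ev t (tw δ (EI v p0 (Λ / δ) 0 J))‖ ^ (2 * k))
      + 512 * ∑ i ∈ Finset.range J, 8 ^ i * ‖ev t (tw δ
        (QW v p0 (Λ / δ) J z i * EI v p0 (Λ / δ) (i + 1) J))‖ ^ (2 * k) := by
    intro t
    have hsm : ev t (tw δ (smz p0 z0)) = evs (pt δ t) (smz p0 z0) := ev_tw hδ.le t _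
    have e1 : ev t (tw δ (al z)) - (evs (pt δ t) (Dsm p0))⁻¹
        * ev t (tw δ (EI v p0 (Λ / δ) 0 J)) =
        ev t (tw δ ((rz p0 (Λ / δ) z0 - smz p0 z0) * EI v p0 (Λ / δ) 0 J)) +
        (evs (pt δ t) (smz p0 z0) - (evs (pt δ t) (Dsm p0))⁻¹)
          * ev t (tw δ (EI v p0 (Λ / δ) 0 J)) +
        ∑ i ∈ Finset.range J, ev t (tw δ
          (QW v p0 (Λ / δ) J z i * EI v p0 (Λ / δ) (i + 1) J)) := by
      rw [h1 v p0 (Λ / δ) J (by omega) (by omega) hY hJ z hz1, ← hz0def, ← hsm]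
      simp only [map_add, map_sub, map_mul, map_sum]
      ring
    have e2 : ‖ev t (tw δ (al z)) - (evs (pt δ t) (Dsm p0))⁻¹
        * ev t (tw δ (EI v p0 (Λ / δ) 0 J))‖ ≤
        ‖ev t (tw δ ((rz p0 (Λ / δ) z0 - smz p0 z0) * EI v p0 (Λ / δ) 0 J))‖ +
        Cs * z0 ^ (-(1 / 4) : ℝ) * ‖ev t (tw δ (EI v p0 (Λ / δ) 0 J))‖ +
        ∑ i ∈ Finset.range J, ‖ev t (tw δ
          (QW v p0 (Λ / δ) J z i * EI v p0 (Λ / δ) (i + 1) J))‖ := by
      rw [e1]
      refine (norm_add_le _ _).trans ?_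
      refine add_le_add ((norm_add_le _ _).trans (add_le_add le_rfl ?_)) (norm_sum_le _ _)
      rw [norm_mul]
      exact mul_le_mul_of_nonneg_right (hst δ t z0 hδ.le hz01).1 (norm_nonneg _)
    calc _ ≤ (‖ev t (tw δ ((rz p0 (Λ / δ) z0 - smz p0 z0) * EI v p0 (Λ / δ) 0 J))‖ +
        Cs * z0 ^ (-(1 / 4) : ℝ) * ‖ev t (tw δ (EI v p0 (Λ / δ) 0 J))‖ +
        ∑ i ∈ Finset.range J, ‖ev t (tw δ
          (QW v p0 (Λ / δ) J z i * EI v p0 (Λ / δ) (i + 1) J))‖) ^ (2 * k) :=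
          Real.rpow_le_rpow (norm_nonneg _) e2 (by linarith)
      _ ≤ _ := d3_pow3 h6 (by linarith) (by linarith) J (norm_nonneg _) (by positivity) _
          (fun i => norm_nonneg _)
      _ = _ := by
          rw [Real.mul_rpow (by positivity) (norm_nonneg _)]
  have c1 : ∀ f : DP, ContinuousOn (fun t : ℝ => ‖ev t f‖ ^ (2 * k)) (Icc (θ * T) (2 * T)) :=
    fun f => (pcCont hk f).continuousOn
  have hmain : Iw w T (fun t => ‖ev t (tw δ (al z)) - (evs (pt δ t) (Dsm p0))⁻¹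
      * ev t (tw δ (EI v p0 (Λ / δ) 0 J))‖ ^ (2 * k)) ≤
      8 * Iw w T (fun t => ‖ev t (tw δ ((rz p0 (Λ / δ) z0 - smz p0 z0)
        * EI v p0 (Λ / δ) 0 J))‖ ^ (2 * k))
      + 64 * ((Cs * z0 ^ (-(1 / 4) : ℝ)) ^ (2 * k) *
        Iw w T (fun t => ‖ev t (tw δ (EI v p0 (Λ / δ) 0 J))‖ ^ (2 * k)))
      + 512 * ∑ i ∈ Finset.range J, 8 ^ i * Iw w T (fun t => ‖ev t (tw δ
        (QW v p0 (Λ / δ) J z i * EI v p0 (Λ / δ) (i + 1) J))‖ ^ (2 * k)) := by
    have d1 : ContinuousOn (fun t : ℝ => 8 * ‖ev t (tw δ ((rz p0 (Λ / δ) z0 - smz p0 z0)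
        * EI v p0 (Λ / δ) 0 J))‖ ^ (2 * k)) (Icc (θ * T) (2 * T)) :=
      continuousOn_const.mul (c1 _)
    have d2 : ContinuousOn (fun t : ℝ => 64 * ((Cs * z0 ^ (-(1 / 4) : ℝ)) ^ (2 * k) *
        ‖ev t (tw δ (EI v p0 (Λ / δ) 0 J))‖ ^ (2 * k))) (Icc (θ * T) (2 * T)) :=
      continuousOn_const.mul (continuousOn_const.mul (c1 _))
    have d3 : ∀ i ∈ Finset.range J, ContinuousOn (fun t : ℝ => (8 : ℝ) ^ i * ‖ev t (tw δ
        (QW v p0 (Λ / δ) J z i * EI v p0 (Λ / δ) (i + 1) J))‖ ^ (2 * k))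
        (Icc (θ * T) (2 * T)) := fun i _ => continuousOn_const.mul (c1 _)
    have d4 : ContinuousOn (fun t : ℝ => 512 * ∑ i ∈ Finset.range J, (8 : ℝ) ^ i * ‖ev t (tw δ
        (QW v p0 (Λ / δ) J z i * EI v p0 (Λ / δ) (i + 1) J))‖ ^ (2 * k))
        (Icc (θ * T) (2 * T)) :=
      continuousOn_const.mul (continuousOn_finsetSum _ d3)
    refine (J4.Iw_mono hw hT0 ((d1.add d2).add d4) (fun t _ => by positivity)
      (fun t _ => hpt t)).trans (le_of_eq ?_)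
    rw [d3_Iw_add hw hT0 (d1.add d2) d4, d3_Iw_add hw hT0 d1 d2, J4.Iw_const_mul,
      J4.Iw_const_mul, J4.Iw_const_mul, J4.Iw_const_mul, J4.Iw_sum hw hT0 _ d3]
    congr 2
    exact Finset.sum_congr rfl fun i _ => J4.Iw_const_mul _ _
  have hfin := hmain.trans (add_le_add (add_le_add hhead htail) hpcs)
  unfold Iw at hfin
  calc _ ≤ _ := hfin
    _ = η * (T * P) := by ring

end Pool.Agent.Lib.N4
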