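import Pool.Agent.Lib.MP_f9aece_nt_n4.Stmts
import Pool.Agent.Lib.MP_f9aece_nt_h4.MVT
import Pool.Agent.Lib.MP_f9aece_nt_h20.ContZeta

/-!
L3: right order of the moments between two and four on the critical line.
-/

set_option autoImplicit false

namespace Pool.Agent.Lib.N4

open MeasureTheory Set Filter Topology Complex
open Pool.Agent.Lib.MP_f9aece_nt (DP ev continuous_ev)
open Pool.Agent.Lib.MP_f9aece_nt_h20.Cz (continuous_zeta)
open Pool.Agent.Lib.J4 (Wgt)

namespace L3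

lemma add_rpow_le {a b q : ℝ} (ha : 0 ≤ a) (hb : 0 ≤ b) (hq : 1 ≤ q) (hq4 : q ≤ 4) :
    (a + b) ^ q ≤ 8 * (a ^ q + b ^ q) := by
  have h := NNReal.rpow_add_le_mul_rpow_add_rpow ⟨a, ha⟩ ⟨b, hb⟩ hq
  have h' : (a + b) ^ q ≤ 2 ^ (q - 1) * (a ^ q + b ^ q) := by exact_mod_cast h
  refine h'.trans ?_
  have h3 : (2 : ℝ) ^ (q - 1) ≤ 2 ^ (3 : ℝ) :=
    Real.rpow_le_rpow_of_exponent_le (by norm_num) (by linarith)
  have h8 : (2 : ℝ) ^ (3 : ℝ) = 8 := by norm_num
  rw [h8] at h3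
  have h4 : 0 ≤ a ^ q + b ^ q := by positivity
  exact mul_le_mul_of_nonneg_right h3 h4

lemma jensen_Ioc {a b q : ℝ} (hab : a ≤ b) (hq : 1 ≤ q) {g : ℝ → ℝ} (hg0 : ∀ x, 0 ≤ g x)
    (hg : IntegrableOn g (Ioc a b)) (hgq : IntegrableOn (fun x => g x ^ q) (Ioc a b)) :
    (∫ x in Ioc a b, g x) ^ q ≤ (b - a) ^ (q - 1) * ∫ x in Ioc a b, g x ^ q := by
  have hq0 : 0 < q := by linarith
  rcases hab.eq_or_lt with rfl | hlt
  · simp [Real.zero_rpow hq0.ne']
  have hm : 0 < b - a := by linarith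
  have h := (convexOn_rpow hq).map_set_average_le (μ := volume) (t := Ioc a b) (f := g)
    (Real.continuous_rpow_const hq0.le).continuousOn isClosed_Ici
    (by rw [Real.volume_Ioc]; simpa using hlt) (by rw [Real.volume_Ioc]; exact ENNReal.ofReal_ne_top)
    (Eventually.of_forall fun x => hg0 x) hg hgq
  rw [setAverage_eq, setAverage_eq, Real.volume_real_Ioc_of_le hab, smul_eq_mul, smul_eq_mul] at h
  set I := ∫ x in Ioc a b, g x with hI
  set Iq := ∫ x in Ioc a b, g x ^ q with hIq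
  have hI0 : 0 ≤ I := setIntegral_nonneg measurableSet_Ioc fun x _ => hg0 x
  rw [Real.mul_rpow (inv_nonneg.2 hm.le) hI0, Real.inv_rpow hm.le] at h
  have hmq : 0 < (b - a) ^ q := by positivity
  calc I ^ q = (b - a) ^ q * (((b - a) ^ q)⁻¹ * I ^ q) := by
        rw [mul_inv_cancel_left₀ hmq.ne']
    _ ≤ (b - a) ^ q * ((b - a)⁻¹ * Iq) := mul_le_mul_of_nonneg_left h hmq.le
    _ = (b - a) ^ (q - 1) * Iq := by
        rw [Real.rpow_sub_one hm.ne']
        ring

/-- the integers up to `N` -/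
noncomputable def aln (N : ℕ) : DP := ∑ n ∈ Finset.Icc 1 N, MonoidAlgebra.single n 1

lemma al_eq (z : ℝ) : al z = aln ⌊z⌋₊ := rfl

lemma norm_ev_aln (t : ℝ) (N : ℕ) : ‖ev t (aln N)‖ ≤ N := by
  unfold aln
  rw [map_sum]
  refine (norm_sum_le _ _).trans ?_
  have h1 : ∀ n ∈ Finset.Icc 1 N, ‖ev t (MonoidAlgebra.single n 1)‖ ≤ 1 := by
    intro n hn
    have hn1 : 0 < n := (Finset.mem_Icc.1 hn).1
    have h2 : ev t (MonoidAlgebra.single n 1) = (n : ℂ) ^ (-(1 / 2 + I * t : ℂ)) := by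
      rw [ev, MonoidAlgebra.lift_single, one_smul]
      rfl
    rw [h2, Complex.norm_natCast_cpow_of_pos hn1]
    have h3 : (-(1 / 2 + I * t : ℂ)).re = -(1 / 2) := by simp
    rw [h3]
    exact Real.rpow_le_one_of_one_le_of_nonpos (by exact_mod_cast hn1) (by norm_num)
  refine (Finset.sum_le_sum h1).trans ?_
  simp

lemma meas_g : Measurable fun p : ℝ × ℝ => ‖ev p.1 (al (Real.exp p.2))‖ := by
  have h1 : Measurable (fun p : ℕ × ℝ => ‖ev p.2 (aln p.1)‖) := by
    apply measurable_from_prod_countable_right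
    intro N
    exact (continuous_ev (aln N)).norm.measurable
  have h2 : Measurable (fun p : ℝ × ℝ => (⌊Real.exp p.2⌋₊, p.1)) :=
    (Nat.measurable_floor.comp (Real.measurable_exp.comp measurable_snd)).prodMk measurable_fst
  have h3 : (fun p : ℝ × ℝ => ‖ev p.1 (al (Real.exp p.2))‖)
      = (fun p : ℕ × ℝ => ‖ev p.2 (aln p.1)‖) ∘ fun p : ℝ × ℝ => (⌊Real.exp p.2⌋₊, p.1) := by
    funext p
    simp only [Function.comp_apply, al_eq]
  rw [h3]
  exact h1.comp h2

lemma g_le {t x b : ℝ} (hx : x ≤ b) : ‖ev t (al (Real.exp x))‖ ≤ Real.exp b := by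
  rw [al_eq]
  refine (norm_ev_aln t _).trans ?_
  exact (Nat.floor_le (Real.exp_pos x).le).trans (Real.exp_le_exp.2 hx)

/-- the weighted integral bounds the integral over a dyadic block -/
lemma block_le {w : ℝ → ℝ} {θ C : ℝ} (hw : Wgt w θ C) (hw1 : ∀ u, 1 / 2 ≤ u → u ≤ 1 → w u = 1)
    {T : ℝ} (hT : 0 < T) {F : ℝ → ℝ} (hF : Continuous F) (hF0 : ∀ t, 0 ≤ F t) :
    ∫ t in Ioc (T / 2) T, F t ≤ ∫ t : ℝ, w (t / T) * F t := by
  have hc : Continuous fun t : ℝ => w (t / T) * F t :=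
    (hw.continuous.comp (continuous_id.div_const T)).mul hF
  have hz : ∀ t, t ∉ Icc (min (θ * T) 0) (2 * T) → w (t / T) * F t = 0 := by
    intro t ht
    by_contra hne
    obtain ⟨h1, h2⟩ := hw.supp _ (left_ne_zero_of_mul hne)
    rw [le_div_iff₀ hT] at h1
    rw [div_le_iff₀ hT] at h2
    exact ht ⟨(min_le_left _ _).trans h1, h2⟩
  have hi : Integrable fun t : ℝ => w (t / T) * F t :=
    hc.integrable_of_hasCompactSupport (HasCompactSupport.intro isCompact_Icc hz)
  have h1 : ∫ t in Ioc (T / 2) T, F t = ∫ t in Ioc (T / 2) T, w (t / T) * F t := by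
    refine setIntegral_congr_fun measurableSet_Ioc fun t ht => ?_
    have h2 : w (t / T) = 1 := by
      refine hw1 _ ?_ ?_
      · rw [le_div_iff₀ hT]; linarith [ht.1]
      · rw [div_le_iff₀ hT]; linarith [ht.2]
    simp only [h2, one_mul]
  rw [h1]
  exact setIntegral_le_integral hi
    (Eventually.of_forall fun t => mul_nonneg (hw.nonneg _) (hF0 t))

theorem block (h1 : SharpLine) (h2 : AfeLine) : ∃ C3 T3 : ℝ, 1 ≤ C3 ∧ 3 ≤ T3 ∧
    ∀ T k : ℝ, T3 ≤ T → 1 ≤ k → k ≤ 2 →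
    ∫ t in Ioc (T / 2) T, ‖riemannZeta (1 / 2 + I * t)‖ ^ (2 * k)
      ≤ C3 * (T * Real.log T ^ (k ^ 2)) := by
  obtain ⟨Cw, hw⟩ := Pool.Agent.Lib.J4.wgtTrap (1 / 4) 2 (1 / 4) (by norm_num) (by norm_num)
    (by norm_num) le_rfl
  set w := Pool.Agent.Lib.J4.trap (1 / 4) 2 (1 / 4) with hwdef
  have hw1 : ∀ u, 1 / 2 ≤ u → u ≤ 1 → w u = 1 := by
    intro u hu1 hu2
    exact Pool.Agent.H4.MVal.trap_one (by norm_num) (by linarith) (by linarith)
  obtain ⟨c, C, T1, hc, hC, hT1, hafe⟩ := h2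
  obtain ⟨C1, T2, hC1, hT2, hsharp⟩ := h1 w (1 / 4) Cw (by norm_num) hw (Real.exp (2 * c))
    (Real.one_le_exp (by linarith))
  set K : ℝ := 8 * (C + 1) ^ 4 with hK
  set D : ℝ := (1 + 2 * c) ^ 4 with hD
  have hK0 : 0 ≤ K := by positivity
  have hD0 : 0 ≤ D := by positivity
  refine ⟨K * (1 + D * C1) + 1, max (max T1 T2) (Real.exp (2 * c)), ?_, ?_, ?_⟩
  · have : 0 ≤ K * (1 + D * C1) := by positivity
    linarith
  · exact hT1.trans ((le_max_left _ _).trans (le_max_left _ _))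
  intro T k hT hk1 hk2
  have hTT1 : T1 ≤ T := ((le_max_left _ _).trans (le_max_left _ _)).trans hT
  have hTT2 : T2 ≤ T := ((le_max_right _ _).trans (le_max_left _ _)).trans hT
  have hTe : Real.exp (2 * c) ≤ T := (le_max_right _ _).trans hT
  have hT3 : 3 ≤ T := hT1.trans hTT1
  have hT0 : 0 < T := by linarith
  have hlog1 : 1 ≤ Real.log T := by
    rw [Real.le_log_iff_exp_le hT0]
    have := Real.exp_one_lt_d9
    linarith
  have hclog : 2 * c ≤ Real.log T := by
    rw [Real.le_log_iff_exp_le hT0]; exact hTe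
  set L := Real.log T with hL
  set q := 2 * k with hq
  have hq1 : 1 ≤ q := by rw [hq]; linarith
  have hq4 : q ≤ 4 := by rw [hq]; linarith
  have hq0 : 0 ≤ q := by linarith
  set a0 := L / 2 - c with ha0
  set b0 := L / 2 + c with hb0
  have hab : a0 ≤ b0 := by rw [ha0, hb0]; linarith
  have hba : b0 - a0 = 2 * c := by rw [ha0, hb0]; ring
  -- the function of two variables
  set G : ℝ → ℝ → ℝ := fun t x => ‖ev t (al (Real.exp x))‖ with hG
  have hG0 : ∀ t x, 0 ≤ G t x := fun t x => norm_nonneg _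
  have hGm : Measurable (Function.uncurry G) := meas_g
  have hGmt : ∀ t, Measurable (G t) := fun t => hGm.of_uncurry_left
  have hGi : ∀ t, IntegrableOn (G t) (Ioc a0 b0) := by
    intro t
    refine Measure.integrableOn_of_bounded (M := Real.exp b0) (by rw [Real.volume_Ioc]; exact ENNReal.ofReal_ne_top)
      (hGmt t).aestronglyMeasurable ?_
    filter_upwards [ae_restrict_mem measurableSet_Ioc] with x hx
    rw [Real.norm_eq_abs, abs_of_nonneg (hG0 t x)]
    exact g_le hx.2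
  have hGqi : ∀ t, IntegrableOn (fun x => G t x ^ q) (Ioc a0 b0) := by
    intro t
    refine Measure.integrableOn_of_bounded (M := Real.exp b0 ^ q) (by rw [Real.volume_Ioc]; exact ENNReal.ofReal_ne_top)
      ((hGmt t).pow_const q).aestronglyMeasurable ?_
    filter_upwards [ae_restrict_mem measurableSet_Ioc] with x hx
    rw [Real.norm_eq_abs, abs_of_nonneg (Real.rpow_nonneg (hG0 t x) q)]
    exact Real.rpow_le_rpow (hG0 t x) (g_le hx.2) hq0
  set H : ℝ → ℝ := fun t => ∫ x in Ioc a0 b0, G t x ^ q with hH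
  have hH0 : ∀ t, 0 ≤ H t := fun t =>
    setIntegral_nonneg measurableSet_Ioc fun x _ => Real.rpow_nonneg (hG0 t x) q
  -- pointwise
  have hpt : ∀ t ∈ Ioc (T / 2) T, ‖riemannZeta (1 / 2 + I * t)‖ ^ q
      ≤ K * (1 + (1 + 2 * c) ^ 3 * H t) := by
    intro t ht
    have e1 := hafe T t hTT1 (by linarith [ht.1]) (by linarith [ht.2])
    rw [intervalIntegral.integral_of_le hab] at e1
    have hI0 : 0 ≤ ∫ x in Ioc a0 b0, G t x := setIntegral_nonneg measurableSet_Ioc fun x _ => hG0 t x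
    have e2 : ‖riemannZeta (1 / 2 + I * t)‖ ^ q ≤ (C * (1 + ∫ x in Ioc a0 b0, G t x)) ^ q :=
      Real.rpow_le_rpow (norm_nonneg _) e1 hq0
    have e3 : C ^ q ≤ (C + 1) ^ 4 := by
      calc C ^ q ≤ (C + 1) ^ q := Real.rpow_le_rpow hC (by linarith) hq0
        _ ≤ (C + 1) ^ (4 : ℝ) := Real.rpow_le_rpow_of_exponent_le (by linarith) hq4
        _ = (C + 1) ^ 4 := by norm_cast
    have e4 : (∫ x in Ioc a0 b0, G t x) ^ q ≤ (1 + 2 * c) ^ 3 * H t := by
      refine (jensen_Ioc hab hq1 (hG0 t) (hGi t) (hGqi t)).trans ?_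
      refine mul_le_mul_of_nonneg_right ?_ (hH0 t)
      rw [hba]
      calc (2 * c) ^ (q - 1) ≤ (1 + 2 * c) ^ (q - 1) :=
            Real.rpow_le_rpow (by linarith) (by linarith) (by linarith)
        _ ≤ (1 + 2 * c) ^ (3 : ℝ) := Real.rpow_le_rpow_of_exponent_le (by linarith) (by linarith)
        _ = (1 + 2 * c) ^ 3 := by norm_cast
    calc ‖riemannZeta (1 / 2 + I * t)‖ ^ q ≤ (C * (1 + ∫ x in Ioc a0 b0, G t x)) ^ q := e2
      _ = C ^ q * (1 + ∫ x in Ioc a0 b0, G t x) ^ q := Real.mul_rpow hC (by linarith)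
      _ ≤ (C + 1) ^ 4 * (8 * (1 ^ q + (∫ x in Ioc a0 b0, G t x) ^ q)) := by
          refine mul_le_mul e3 (add_rpow_le zero_le_one hI0 hq1 hq4) ?_ (by positivity)
          exact Real.rpow_nonneg (by linarith) q
      _ ≤ (C + 1) ^ 4 * (8 * (1 + (1 + 2 * c) ^ 3 * H t)) := by
          rw [Real.one_rpow]
          gcongr
      _ = K * (1 + (1 + 2 * c) ^ 3 * H t) := by rw [hK]; ring
  -- Fubini
  have hfin1 : volume (Ioc (T / 2) T) ≠ ⊤ := by rw [Real.volume_Ioc]; exact ENNReal.ofReal_ne_top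
  have hfin2 : volume (Ioc a0 b0) ≠ ⊤ := by rw [Real.volume_Ioc]; exact ENNReal.ofReal_ne_top
  have hGqm : Measurable (Function.uncurry fun t x => G t x ^ q) := hGm.pow_const q
  have hprod : Integrable (Function.uncurry fun t x => G t x ^ q)
      ((volume.restrict (Ioc (T / 2) T)).prod (volume.restrict (Ioc a0 b0))) := by
    rw [Measure.prod_restrict]
    refine Measure.integrableOn_of_bounded (M := Real.exp b0 ^ q) ?_ hGqm.aestronglyMeasurable ?_
    · rw [← Measure.volume_eq_prod, Measure.volume_eq_prod, Measure.prod_prod]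
      exact ENNReal.mul_ne_top hfin1 hfin2
    · filter_upwards [ae_restrict_mem (measurableSet_Ioc.prod measurableSet_Ioc)] with p hp
      change ‖G p.1 p.2 ^ q‖ ≤ _
      rw [Real.norm_eq_abs, abs_of_nonneg (Real.rpow_nonneg (hG0 p.1 p.2) q)]
      exact Real.rpow_le_rpow (hG0 p.1 p.2) (g_le hp.2.2) hq0
  have hHi : IntegrableOn H (Ioc (T / 2) T) := hprod.integral_prod_left
  have hM : ∀ x ∈ Ioc a0 b0, ∫ t in Ioc (T / 2) T, G t x ^ q ≤ C1 * T * L ^ (k ^ 2) := by
    intro x hx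
    have hc1 : Continuous fun t : ℝ => G t x ^ q :=
      (continuous_ev (al (Real.exp x))).norm.rpow_const fun _ => Or.inr hq0
    refine (block_le hw hw1 hT0 hc1 fun t => Real.rpow_nonneg (hG0 t x) q).trans ?_
    refine hsharp T (Real.exp x) k hTT2 (Real.one_le_exp ?_) ?_ hk1 hk2
    · have := hx.1.le
      have h3 : 0 ≤ a0 := by rw [ha0]; linarith
      linarith
    · rw [← Real.exp_nat_mul]
      have h3 : T = Real.exp L := (Real.exp_log hT0).symm
      conv_rhs => rw [h3]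
      rw [← Real.exp_add]
      refine Real.exp_le_exp.2 ?_
      have := hx.2
      rw [hb0] at this
      push_cast
      linarith
  have hHint : ∫ t in Ioc (T / 2) T, H t ≤ 2 * c * (C1 * T * L ^ (k ^ 2)) := by
    have e1 : ∫ t in Ioc (T / 2) T, H t = ∫ x in Ioc a0 b0, ∫ t in Ioc (T / 2) T, G t x ^ q :=
      integral_integral_swap hprod
    rw [e1]
    have e2 : ∫ x in Ioc a0 b0, ∫ t in Ioc (T / 2) T, G t x ^ q
        ≤ ∫ x in Ioc a0 b0, C1 * T * L ^ (k ^ 2) := by
      refine setIntegral_mono_on hprod.integral_prod_right ?_ measurableSet_Ioc hM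
      exact integrableOn_const hfin2
    refine e2.trans (le_of_eq ?_)
    rw [setIntegral_const, Real.volume_real_Ioc_of_le hab, hba, smul_eq_mul]
  -- conclusion
  have hzc : Continuous fun t : ℝ => ‖riemannZeta (1 / 2 + I * t)‖ ^ q :=
    continuous_zeta.norm.rpow_const fun _ => Or.inr hq0
  have hfinal : ∫ t in Ioc (T / 2) T, ‖riemannZeta (1 / 2 + I * t)‖ ^ q
      ≤ ∫ t in Ioc (T / 2) T, K * (1 + (1 + 2 * c) ^ 3 * H t) := by
    refine setIntegral_mono_on ?_ ?_ measurableSet_Ioc hpt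
    · exact (hzc.integrableOn_Icc (a := T / 2) (b := T)).mono_set Ioc_subset_Icc_self
    · exact ((integrableOn_const hfin1).add (hHi.const_mul _)).const_mul _
  refine hfinal.trans ?_
  have hone : Integrable (fun _ : ℝ => (1 : ℝ)) (volume.restrict (Ioc (T / 2) T)) :=
    integrableOn_const hfin1
  have hHc : Integrable (fun t : ℝ => (1 + 2 * c) ^ 3 * H t) (volume.restrict (Ioc (T / 2) T)) :=
    hHi.const_mul _
  have hsum : ∫ t in Ioc (T / 2) T, (1 + (1 + 2 * c) ^ 3 * H t)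
      = T - T / 2 + (1 + 2 * c) ^ 3 * ∫ t in Ioc (T / 2) T, H t := by
    rw [integral_add hone hHc, integral_const_mul, setIntegral_const,
      Real.volume_real_Ioc_of_le (by linarith), smul_eq_mul, mul_one]
  rw [integral_const_mul, hsum]
  have hLk : 1 ≤ L ^ (k ^ 2) := Real.one_le_rpow hlog1 (by positivity)
  have h5 : T - T / 2 ≤ T * L ^ (k ^ 2) := by nlinarith
  have h6 : (1 + 2 * c) ^ 3 * ∫ t in Ioc (T / 2) T, H t ≤ D * C1 * (T * L ^ (k ^ 2)) := by
    calc (1 + 2 * c) ^ 3 * ∫ t in Ioc (T / 2) T, H t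
        ≤ (1 + 2 * c) ^ 3 * (2 * c * (C1 * T * L ^ (k ^ 2))) := by gcongr
      _ ≤ (1 + 2 * c) ^ 3 * ((1 + 2 * c) * (C1 * T * L ^ (k ^ 2))) := by
          gcongr
          linarith
      _ = D * C1 * (T * L ^ (k ^ 2)) := by rw [hD]; ring
  have h7 : 0 ≤ T * L ^ (k ^ 2) := by positivity
  calc K * (T - T / 2 + (1 + 2 * c) ^ 3 * ∫ t in Ioc (T / 2) T, H t)
      ≤ K * (T * L ^ (k ^ 2) + D * C1 * (T * L ^ (k ^ 2))) := by gcongr
    _ ≤ (K * (1 + D * C1) + 1) * (T * L ^ (k ^ 2)) := by nlinarith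

end L3

/-- L3 -/
theorem rightOrder (h1 : SharpLine) (h2 : AfeLine) : RightOrder := by
  obtain ⟨C3, T3, hC3, hT3, hb⟩ := L3.block h1 h2
  set F : ℝ → ℝ := fun t => (1 + ‖riemannZeta (1 / 2 + I * t)‖) ^ 4 with hF
  have hFc : Continuous F := (continuous_const.add continuous_zeta.norm).pow 4
  have hF0 : ∀ t, 0 ≤ F t := fun t => by rw [hF]; positivity
  set A : ℝ := ∫ t in (0 : ℝ)..T3, F t with hA
  have hA0 : 0 ≤ A := intervalIntegral.integral_nonneg (by linarith) fun t _ => hF0 t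
  refine ⟨A + 2 * C3, T3, by linarith, hT3, ?_⟩
  intro T k hT hk1 hk2
  set q := 2 * k with hq
  have hq0 : 0 ≤ q := by rw [hq]; linarith
  have hq4 : q ≤ 4 := by rw [hq]; linarith
  have hzc : Continuous fun t : ℝ => ‖riemannZeta (1 / 2 + I * t)‖ ^ q :=
    continuous_zeta.norm.rpow_const fun _ => Or.inr hq0
  have hzF : ∀ t : ℝ, ‖riemannZeta (1 / 2 + I * t)‖ ^ q ≤ F t := by
    intro t
    have h0 := norm_nonneg (riemannZeta (1 / 2 + I * t))
    calc ‖riemannZeta (1 / 2 + I * t)‖ ^ q ≤ (1 + ‖riemannZeta (1 / 2 + I * t)‖) ^ q :=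
          Real.rpow_le_rpow h0 (by linarith) hq0
      _ ≤ (1 + ‖riemannZeta (1 / 2 + I * t)‖) ^ (4 : ℝ) :=
          Real.rpow_le_rpow_of_exponent_le (by linarith) hq4
      _ = F t := by rw [hF]; norm_cast
  have hsmall : ∀ S : ℝ, 0 ≤ S → S ≤ T3 →
      ∫ t in (0 : ℝ)..S, ‖riemannZeta (1 / 2 + I * t)‖ ^ q ≤ A := by
    intro S hS0 hS
    have e1 : ∫ t in (0 : ℝ)..S, ‖riemannZeta (1 / 2 + I * t)‖ ^ q ≤ ∫ t in (0 : ℝ)..S, F t :=
      intervalIntegral.integral_mono_on hS0 (hzc.intervalIntegrable _ _)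
        (hFc.intervalIntegrable _ _) fun t _ => hzF t
    have e2 : ∫ t in (0 : ℝ)..S, F t ≤ A := by
      rw [hA, ← intervalIntegral.integral_add_adjacent_intervals (b := S)
        (hFc.intervalIntegrable 0 S) (hFc.intervalIntegrable S T3)]
      have := intervalIntegral.integral_nonneg (μ := volume) hS fun t (_ : t ∈ Icc S T3) => hF0 t
      linarith
    exact e1.trans e2
  have key : ∀ n : ℕ, ∀ S : ℝ, T3 ≤ S → S ≤ 2 ^ n * T3 →
      ∫ t in (0 : ℝ)..S, ‖riemannZeta (1 / 2 + I * t)‖ ^ q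
        ≤ A + 2 * C3 * (S * Real.log S ^ (k ^ 2)) := by
    intro n
    induction n with
    | zero =>
      intro S h3 h4
      rw [pow_zero, one_mul] at h4
      have h5 := hsmall S (by linarith) h4
      have h6 : 0 ≤ Real.log S := Real.log_nonneg (by linarith)
      have h7 : 0 ≤ 2 * C3 * (S * Real.log S ^ (k ^ 2)) := by
        have : 0 ≤ S := by linarith
        positivity
      linarith
    | succ n ih =>
      intro S h3 h4
      have hS0 : 0 < S := by linarith
      have h5 := hb S k h3 hk1 hk2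
      have h6 : ∫ t in (S / 2)..S, ‖riemannZeta (1 / 2 + I * t)‖ ^ q
          ≤ C3 * (S * Real.log S ^ (k ^ 2)) := by
        rw [intervalIntegral.integral_of_le (by linarith)]
        exact h5
      have h7 : ∫ t in (0 : ℝ)..(S / 2), ‖riemannZeta (1 / 2 + I * t)‖ ^ q
          ≤ A + C3 * (S * Real.log S ^ (k ^ 2)) := by
        have hlog0 : 0 ≤ Real.log S := Real.log_nonneg (by linarith)
        rcases le_total (S / 2) T3 with h8 | h8
        · have h9 := hsmall (S / 2) (by linarith) h8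
          have : 0 ≤ C3 * (S * Real.log S ^ (k ^ 2)) := by positivity
          linarith
        · have h9 := ih (S / 2) h8 (by rw [pow_succ] at h4; linarith)
          refine h9.trans ?_
          have h10 : Real.log (S / 2) ^ (k ^ 2) ≤ Real.log S ^ (k ^ 2) := by
            refine Real.rpow_le_rpow (Real.log_nonneg (by linarith))
              (Real.log_le_log (by linarith) (by linarith)) (by positivity)
          have h11 : 0 ≤ C3 * S := by positivity
          have h12 := mul_le_mul_of_nonneg_left h10 h11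
          linarith
      rw [← intervalIntegral.integral_add_adjacent_intervals (b := S / 2)
        (hzc.intervalIntegrable 0 (S / 2)) (hzc.intervalIntegrable (S / 2) S)]
      linarith
  obtain ⟨n, hn⟩ := pow_unbounded_of_one_lt (T / T3) (one_lt_two : (1 : ℝ) < 2)
  have hT30 : 0 < T3 := by linarith
  rw [div_lt_iff₀ hT30] at hn
  have h8 := key n T hT hn.le
  have hT0 : 0 < T := by linarith
  have hlog1 : 1 ≤ Real.log T := by
    rw [Real.le_log_iff_exp_le hT0]
    have := Real.exp_one_lt_d9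
    linarith
  have hLk : 1 ≤ Real.log T ^ (k ^ 2) := Real.one_le_rpow hlog1 (by positivity)
  have h9 : 1 ≤ T * Real.log T ^ (k ^ 2) := by nlinarith
  have h10 : A ≤ A * (T * Real.log T ^ (k ^ 2)) := le_mul_of_one_le_right hA0 h9
  calc _ ≤ A + 2 * C3 * (T * Real.log T ^ (k ^ 2)) := h8
    _ ≤ (A + 2 * C3) * T * Real.log T ^ (k ^ 2) := by linarith

end Pool.Agent.Lib.N4
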