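import Mathlib
import Pool.Agent.Lib.MP_f9aece_nt_n4.RightOrder
import Pool.Agent.Lib.MP_f9aece_nt_nl.G
import Pool.Agent.Lib.MP_f9aece_nt_nl.E
import Pool.Agent.Lib.MP_f9aece_nt_j4.Iw
import Pool.Agent.Lib.MP_f9aece_nt_h20.Smooth

/-!
D6: upper bound with a weight for the moments at distance `δ` from the critical line.
-/

set_option autoImplicit false

namespace Pool.Agent.Lib.N4

open MeasureTheory Set Filter Topology Complex
open Pool.Agent.Lib.MP_f9aece_nt (DP ev)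
open Pool.Agent.Lib.MP_f9aece_nt_h5 (tw ev_tw evS evS_apply evS_single)
open Pool.Agent.Lib.MP_f9aece_nt_h20.Cz (continuous_zeta)
open Pool.Agent.Lib.MP_f9aece_nt_h97 (Psm Dsm evs)
open Pool.Agent.Lib.J4 (Wgt Jok Yg)
open Pool.Agent.Lib.NL (pt SS continuous_evs_pt continuous_zeta_pt)
open Pool.Agent.Lib.NL.GSm (evs_Dsm norm_pow_le)

namespace D6

/-! ### the kernel of the error term -/

/-- the error term -/
noncomputable def Er (w1 t : ℝ) : ℝ :=
  ∫ v : ℝ, w1 / (1 + w1 * |v|) ^ 6 * ‖riemannZeta (1 / 2 + I * (t + v : ℝ))‖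

lemma Er_nonneg {w1 : ℝ} (hw : 0 ≤ w1) (t : ℝ) : 0 ≤ Er w1 t :=
  integral_nonneg fun v => by positivity

lemma Er_meas {w1 : ℝ} (hw : 0 ≤ w1) : Measurable (Er w1) := by
  have hc : Continuous fun p : ℝ × ℝ =>
      w1 / (1 + w1 * |p.2|) ^ 6 * ‖riemannZeta (1 / 2 + I * (p.1 + p.2 : ℝ))‖ := by
    have h1 : Continuous fun p : ℝ × ℝ => w1 / (1 + w1 * |p.2|) ^ 6 := by
      refine Continuous.div continuous_const (by fun_prop) fun p => ?_
      have : 0 < 1 + w1 * |p.2| := by positivity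
      positivity
    have h2 : Continuous fun p : ℝ × ℝ => ‖riemannZeta (1 / 2 + I * (p.1 + p.2 : ℝ))‖ :=
      (continuous_zeta.comp (by fun_prop : Continuous fun p : ℝ × ℝ => p.1 + p.2)).norm
    exact h1.mul h2
  exact (hc.stronglyMeasurable.integral_prod_right'
    (ν := (volume : Measure ℝ))).measurable

lemma Er_le {w1 : ℝ} (hw : 1 ≤ w1) {t X : ℝ} (ht : |t| ≤ X) :
    Er w1 t ≤ 20 * (1 + X) * w1 * ∫ v : ℝ, (1 + ‖v‖) ^ (-(5 : ℝ)) := by
  rw [← integral_const_mul]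
  have hi : Integrable (fun v : ℝ => (1 + ‖v‖) ^ (-(5 : ℝ))) :=
    integrable_one_add_norm (by simp)
  refine integral_mono_of_nonneg (ae_of_all _ fun v => by positivity) (hi.const_mul _)
    (ae_of_all _ fun v => ?_)
  simp only
  have h1 := Pool.Agent.H20.Smooth.norm_zeta_le_sqrt (t + v)
  have hX : 0 ≤ X := (abs_nonneg t).trans ht
  have h2 : 1 + |t + v| ≤ (1 + X) * (1 + |v|) := by
    have := abs_add_le t v
    nlinarith [abs_nonneg v]
  have h3 : Real.sqrt (1 + |t + v|) ≤ (1 + X) * (1 + |v|) := by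
    have h4 : 1 ≤ 1 + |t + v| := by linarith [abs_nonneg (t + v)]
    have h5 : Real.sqrt (1 + |t + v|) ≤ 1 + |t + v| := by
      rw [Real.sqrt_le_left (by positivity)]
      nlinarith
    linarith
  have h6 : (1 + w1 * |v|) ^ 6 ≥ (1 + |v|) ^ 6 := by
    refine pow_le_pow_left₀ (by positivity) ?_ 6
    nlinarith [abs_nonneg v]
  have h7 : (1 + ‖v‖) ^ (-(5 : ℝ)) = 1 / (1 + |v|) ^ 5 := by
    rw [Real.rpow_neg (by positivity), one_div, Real.norm_eq_abs]
    norm_cast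
  rw [h7]
  calc w1 / (1 + w1 * |v|) ^ 6 * ‖riemannZeta (1 / 2 + I * (t + v : ℝ))‖
      ≤ w1 / (1 + |v|) ^ 6 * (20 * ((1 + X) * (1 + |v|))) := by
        refine mul_le_mul ?_ (h1.trans (by linarith)) (norm_nonneg _) (by positivity)
        exact div_le_div_of_nonneg_left (by linarith) (by positivity) h6
    _ = 20 * (1 + X) * w1 * (1 / (1 + |v|) ^ 5) := by
        have : (1 + |v|) ≠ 0 := by positivity
        field_simp

/-! ### an elementary inequality -/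

lemma rpow_add_le {x y q ε : ℝ} (hx : 0 ≤ x) (hy : 0 ≤ y) (hq : 1 ≤ q) (hq4 : q ≤ 4)
    (hε : 0 < ε) (hε1 : ε ≤ 1) :
    (x + y) ^ q ≤ (1 + ε) * x ^ q + (8 / ε) ^ 3 * y ^ q := by
  obtain ⟨l, hl⟩ : ∃ l : ℝ, l = ε / 8 := ⟨_, rfl⟩
  have hl0 : 0 < l := by rw [hl]; positivity
  have hl1 : l ≤ 1 / 8 := by rw [hl]; linarith
  have hm0 : 0 < 1 - l := by linarith
  have h := (convexOn_rpow hq).2 (x := x / (1 - l)) (y := y / l)
    (by rw [mem_Ici]; positivity) (by rw [mem_Ici]; positivity) hm0.le hl0.le (by ring)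
  simp only [smul_eq_mul] at h
  have e1 : (1 - l) * (x / (1 - l)) + l * (y / l) = x + y := by field_simp
  rw [e1, Real.div_rpow hx hm0.le, Real.div_rpow hy hl0.le] at h
  refine h.trans ?_
  have hxq : 0 ≤ x ^ q := Real.rpow_nonneg hx q
  have hyq : 0 ≤ y ^ q := Real.rpow_nonneg hy q
  have e2 : ∀ s : ℝ, 0 < s → s ≤ 1 → s * (1 / s ^ q) ≤ 1 / s ^ 3 := by
    intro s hs hs1
    have h1 : s ^ (4 : ℝ) ≤ s ^ q := Real.rpow_le_rpow_of_exponent_ge hs hs1 hq4
    have h2 : s ^ (4 : ℝ) = s ^ 4 := by norm_cast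
    rw [h2] at h1
    have h3 : 1 / s ^ q ≤ 1 / s ^ 4 := one_div_le_one_div_of_le (by positivity) h1
    calc s * (1 / s ^ q) ≤ s * (1 / s ^ 4) := mul_le_mul_of_nonneg_left h3 hs.le
      _ = 1 / s ^ 3 := by field_simp
  have h1 := e2 (1 - l) hm0 (by linarith)
  have h2 := e2 l hl0 (by linarith)
  have h3 : 1 / (1 - l) ^ 3 ≤ 1 + ε := by
    rw [div_le_iff₀ (by positivity)]
    have h4 : 1 - 3 * l ≤ (1 - l) ^ 3 := by nlinarith [sq_nonneg l, mul_pos hl0 hl0]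
    have h5 : ε = 8 * l := by rw [hl]; ring
    rw [h5]
    nlinarith
  have h4 : 1 / l ^ 3 = (8 / ε) ^ 3 := by
    rw [hl]
    field_simp
  calc (1 - l) * (x ^ q / (1 - l) ^ q) + l * (y ^ q / l ^ q)
      = ((1 - l) * (1 / (1 - l) ^ q)) * x ^ q + (l * (1 / l ^ q)) * y ^ q := by ring
    _ ≤ (1 / (1 - l) ^ 3) * x ^ q + (1 / l ^ 3) * y ^ q := by gcongr
    _ ≤ (1 + ε) * x ^ q + (8 / ε) ^ 3 * y ^ q := by
        rw [h4]
        gcongr

lemma three_rpow {a b c q : ℝ} (ha : 0 ≤ a) (hb : 0 ≤ b) (hc : 0 ≤ c) (hq : 1 ≤ q)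
    (hq4 : q ≤ 4) : (a + b + c) ^ q ≤ 64 * (a ^ q + b ^ q + c ^ q) := by
  have h1 := L3.add_rpow_le (add_nonneg ha hb) hc hq hq4
  have h2 := L3.add_rpow_le ha hb hq hq4
  have h3 : 0 ≤ c ^ q := Real.rpow_nonneg hc q
  calc (a + b + c) ^ q ≤ 8 * ((a + b) ^ q + c ^ q) := h1
    _ ≤ 8 * (8 * (a ^ q + b ^ q) + c ^ q) := by gcongr
    _ ≤ _ := by nlinarith

/-! ### weighted integrals -/

section

variable {w : ℝ → ℝ} {θ C T : ℝ}

/-- Jensen and Fubini -/
lemma avg_le (hw : Wgt w θ C) (hT : 0 < T) {a b q B M : ℝ} (hab : a < b) (hq : 1 ≤ q)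
    {G : ℝ → ℝ → ℝ} (hG0 : ∀ t x, 0 ≤ G t x) (hGm : Measurable (Function.uncurry G))
    (hGb : ∀ t ∈ Icc (θ * T) (2 * T), ∀ x ∈ Ioc a b, G t x ≤ M)
    (hI : ∀ x ∈ Ioc a b, ∫ t : ℝ, w (t / T) * G t x ^ q ≤ B) :
    Integrable (fun t : ℝ => w (t / T) * ((1 / (b - a)) * ∫ x in a..b, G t x) ^ q) ∧
    ∫ t : ℝ, w (t / T) * ((1 / (b - a)) * ∫ x in a..b, G t x) ^ q ≤ B := by
  have hm : 0 < b - a := by linarith
  have hq0 : 0 ≤ q := by linarith
  obtain ⟨S, hS⟩ : ∃ S : Set ℝ, S = Icc (θ * T) (2 * T) := ⟨_, rfl⟩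
  rw [← hS] at hGb
  have hSm : MeasurableSet S := by rw [hS]; exact measurableSet_Icc
  have hSf : volume S ≠ ⊤ := by rw [hS, Real.volume_Icc]; exact ENNReal.ofReal_ne_top
  have hXf : volume (Ioc a b) ≠ ⊤ := by rw [Real.volume_Ioc]; exact ENNReal.ofReal_ne_top
  have hout : ∀ t, t ∉ S → w (t / T) = 0 := by
    intro t ht
    rw [hS] at ht
    exact hw.eq_zero hT ht
  have hwc : Continuous fun t : ℝ => w (t / T) := hw.continuous.comp (continuous_id.div_const T)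
  obtain ⟨F, hF⟩ : ∃ F : ℝ → ℝ → ℝ, F = fun t x => w (t / T) * G t x ^ q := ⟨_, rfl⟩
  have hF0 : ∀ t x, 0 ≤ F t x := fun t x => by
    rw [hF]
    exact mul_nonneg (hw.nonneg _) (Real.rpow_nonneg (hG0 t x) q)
  have hFm : Measurable (Function.uncurry F) := by
    rw [hF]
    exact (hwc.measurable.comp measurable_fst).mul (hGm.pow_const q)
  have hFle : ∀ t ∈ S, ∀ x ∈ Ioc a b, F t x ≤ M ^ q := by
    intro t ht x hx
    rw [hF]
    calc w (t / T) * G t x ^ q ≤ 1 * G t x ^ q :=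
          mul_le_mul_of_nonneg_right (hw.le_one _) (Real.rpow_nonneg (hG0 t x) q)
      _ = G t x ^ q := one_mul _
      _ ≤ M ^ q := Real.rpow_le_rpow (hG0 t x) (hGb t ht x hx) hq0
  have hprod : Integrable (Function.uncurry F)
      ((volume.restrict S).prod (volume.restrict (Ioc a b))) := by
    rw [Measure.prod_restrict]
    refine Measure.integrableOn_of_bounded (M := M ^ q) ?_ hFm.aestronglyMeasurable ?_
    · rw [Measure.prod_prod]
      exact ENNReal.mul_ne_top hSf hXf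
    · filter_upwards [ae_restrict_mem (hSm.prod measurableSet_Ioc)] with p hp
      change ‖F p.1 p.2‖ ≤ _
      rw [Real.norm_eq_abs, abs_of_nonneg (hF0 p.1 p.2)]
      exact hFle p.1 hp.1 p.2 hp.2
  -- the average
  obtain ⟨A, hA⟩ : ∃ A : ℝ → ℝ,
      A = fun t => w (t / T) * ((1 / (b - a)) * ∫ x in a..b, G t x) ^ q := ⟨_, rfl⟩
  have hIm : Measurable fun t => ∫ x in a..b, G t x := by
    simp only [intervalIntegral.integral_of_le hab.le]
    exact (hGm.stronglyMeasurable.integral_prod_right'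
      (ν := volume.restrict (Ioc a b))).measurable
  have hAm : Measurable A := by
    rw [hA]
    exact hwc.measurable.mul ((hIm.const_mul _).pow_const q)
  have hA0 : ∀ t, 0 ≤ A t := by
    intro t
    rw [hA]
    refine mul_nonneg (hw.nonneg _) (Real.rpow_nonneg (mul_nonneg (by positivity) ?_) q)
    exact intervalIntegral.integral_nonneg hab.le fun x _ => hG0 t x
  have hAle : ∀ t ∈ S, A t ≤ 1 / (b - a) * ∫ x in Ioc a b, F t x := by
    intro t ht
    have hGmt : Measurable (G t) := hGm.of_uncurry_left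
    have hg1 : IntegrableOn (G t) (Ioc a b) := by
      refine Measure.integrableOn_of_bounded (M := M) hXf hGmt.aestronglyMeasurable ?_
      filter_upwards [ae_restrict_mem measurableSet_Ioc] with x hx
      rw [Real.norm_eq_abs, abs_of_nonneg (hG0 t x)]
      exact hGb t ht x hx
    have hg2 : IntegrableOn (fun x => G t x ^ q) (Ioc a b) := by
      refine Measure.integrableOn_of_bounded (M := M ^ q) hXf
        (hGmt.pow_const q).aestronglyMeasurable ?_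
      filter_upwards [ae_restrict_mem measurableSet_Ioc] with x hx
      rw [Real.norm_eq_abs, abs_of_nonneg (Real.rpow_nonneg (hG0 t x) q)]
      exact Real.rpow_le_rpow (hG0 t x) (hGb t ht x hx) hq0
    have h1 := L3.jensen_Ioc hab.le hq (hG0 t) hg1 hg2
    have hI0 : 0 ≤ ∫ x in Ioc a b, G t x := setIntegral_nonneg measurableSet_Ioc fun x _ => hG0 t x
    have h2 : ((1 / (b - a)) * ∫ x in a..b, G t x) ^ q
        ≤ 1 / (b - a) * ∫ x in Ioc a b, G t x ^ q := by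
      rw [intervalIntegral.integral_of_le hab.le, Real.mul_rpow (by positivity) hI0]
      calc (1 / (b - a)) ^ q * (∫ x in Ioc a b, G t x) ^ q
          ≤ (1 / (b - a)) ^ q * ((b - a) ^ (q - 1) * ∫ x in Ioc a b, G t x ^ q) :=
            mul_le_mul_of_nonneg_left h1 (by positivity)
        _ = 1 / (b - a) * ∫ x in Ioc a b, G t x ^ q := by
            rw [← mul_assoc, Real.div_rpow zero_le_one hm.le, Real.one_rpow,
              Real.rpow_sub_one hm.ne']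
            have : (b - a) ^ q ≠ 0 := (Real.rpow_pos_of_pos hm q).ne'
            field_simp
    rw [hA, hF]
    simp only
    rw [integral_const_mul]
    calc w (t / T) * ((1 / (b - a)) * ∫ x in a..b, G t x) ^ q
        ≤ w (t / T) * (1 / (b - a) * ∫ x in Ioc a b, G t x ^ q) :=
          mul_le_mul_of_nonneg_left h2 (hw.nonneg _)
      _ = _ := by ring
  have hHi : IntegrableOn (fun t => ∫ x in Ioc a b, F t x) S := hprod.integral_prod_left
  have hAi : IntegrableOn A S := by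
    refine (hHi.const_mul (1 / (b - a))).mono' hAm.aestronglyMeasurable ?_
    filter_upwards [ae_restrict_mem hSm] with t ht
    rw [Real.norm_eq_abs, abs_of_nonneg (hA0 t)]
    exact hAle t ht
  have hAz : ∀ t, t ∉ S → A t = 0 := by
    intro t ht
    rw [hA]
    simp only
    rw [hout t ht, zero_mul]
  have hAi' : Integrable A := by
    refine (integrableOn_iff_integrable_of_support_subset ?_).mp hAi
    intro t ht
    by_contra h
    exact ht (hAz t h)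
  refine ⟨by rw [← hA]; exact hAi', ?_⟩
  have e1 : ∫ t : ℝ, A t = ∫ t in S, A t :=
    (setIntegral_eq_integral_of_forall_compl_eq_zero fun t ht => hAz t ht).symm
  have e2 : (∫ t : ℝ, w (t / T) * ((1 / (b - a)) * ∫ x in a..b, G t x) ^ q) = ∫ t in S, A t := by
    rw [← e1, hA]
  rw [e2]
  calc ∫ t in S, A t ≤ ∫ t in S, 1 / (b - a) * ∫ x in Ioc a b, F t x :=
        setIntegral_mono_on hAi (hHi.const_mul _) hSm hAle
    _ = 1 / (b - a) * ∫ t in S, ∫ x in Ioc a b, F t x := integral_const_mul _ _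
    _ = 1 / (b - a) * ∫ x in Ioc a b, ∫ t in S, F t x := by rw [integral_integral_swap hprod]
    _ ≤ 1 / (b - a) * ∫ x in Ioc a b, B := by
        refine mul_le_mul_of_nonneg_left ?_ (by positivity)
        refine setIntegral_mono_on hprod.integral_prod_right (integrableOn_const hXf)
          measurableSet_Ioc fun x hx => ?_
        refine le_trans (le_of_eq ?_) (hI x hx)
        have h3 : ∫ t : ℝ, F t x = ∫ t in S, F t x :=
          (setIntegral_eq_integral_of_forall_compl_eq_zero fun t ht => by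
            rw [hF]; simp only; rw [hout t ht, zero_mul]).symm
        rw [← h3, hF]
    _ = B := by
        rw [setIntegral_const, Real.volume_real_Ioc_of_le hab.le, smul_eq_mul]
        field_simp

end

/-! ### the model -/

/-- the model of zeta -/
noncomputable def Mt (δ : ℝ) (v p0 : ℕ) (Λ : ℝ) (J : ℕ) (t : ℝ) : ℂ :=
  (evs (pt δ t) (Dsm p0))⁻¹ * ev t (tw δ (EI v p0 (Λ / δ) 0 J))

lemma Dsm_ne {δ : ℝ} (hδ : 0 ≤ δ) (t : ℝ) (p0 : ℕ) : evs (pt δ t) (Dsm p0) ≠ 0 := by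
  rw [evs_Dsm]
  refine Finset.prod_ne_zero_iff.2 fun p hp => ?_
  have hpp : p.Prime := (Finset.mem_filter.1 hp).2
  intro h
  have h1 : (p : ℂ) ^ (-pt δ t) = 1 := (sub_eq_zero.1 h).symm
  have h2 := norm_pow_le hpp hδ t
  rw [h1, norm_one] at h2
  have h3 : (2 : ℝ) ^ (-(1 / 2) : ℝ) < 1 :=
    Real.rpow_lt_one_of_one_lt_of_neg (by norm_num) (by norm_num)
  linarith

lemma Mt_cont {δ : ℝ} (hδ : 0 ≤ δ) (v p0 : ℕ) (Λ : ℝ) (J : ℕ) :
    Continuous (Mt δ v p0 Λ J) :=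
  ((continuous_evs_pt hδ (Dsm p0)).inv₀ fun t => Dsm_ne hδ t p0).mul
    (Pool.Agent.Lib.MP_f9aece_nt.continuous_ev _)

lemma norm_evs_aln {δ : ℝ} (hδ : 0 ≤ δ) (t : ℝ) (N : ℕ) : ‖evs (pt δ t) (L3.aln N)‖ ≤ N := by
  rw [← evS_apply]
  unfold L3.aln
  rw [map_sum]
  refine (norm_sum_le _ _).trans ?_
  have h1 : ∀ n ∈ Finset.Icc 1 N, ‖evS (pt δ t) (MonoidAlgebra.single n 1)‖ ≤ 1 := by
    intro n hn
    have hn1 : 0 < n := (Finset.mem_Icc.1 hn).1
    rw [evS_single, Complex.ofReal_one, one_mul, Complex.norm_natCast_cpow_of_pos hn1]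
    have h3 : (-pt δ t).re = -(1 / 2 + δ) := by simp [pt]
    rw [h3]
    exact Real.rpow_le_one_of_one_le_of_nonpos (by exact_mod_cast hn1) (by linarith)
  refine (Finset.sum_le_sum h1).trans ?_
  simp

/-- the difference of the truncated sum and the model -/
noncomputable def Gd (δ : ℝ) (v p0 : ℕ) (Λ : ℝ) (J : ℕ) (t x : ℝ) : ℝ :=
  ‖evs (pt δ t) (al (Real.exp x)) - Mt δ v p0 Λ J t‖

lemma Gd_meas {δ : ℝ} (hδ : 0 ≤ δ) (v p0 : ℕ) (Λ : ℝ) (J : ℕ) :
    Measurable (Function.uncurry (Gd δ v p0 Λ J)) := by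
  have h1 : Measurable (fun p : ℕ × ℝ => ‖evs (pt δ p.2) (L3.aln p.1) - Mt δ v p0 Λ J p.2‖) := by
    apply measurable_from_prod_countable_right
    intro N
    exact ((continuous_evs_pt hδ (L3.aln N)).sub (Mt_cont hδ v p0 Λ J)).norm.measurable
  have h2 : Measurable (fun p : ℝ × ℝ => (⌊Real.exp p.2⌋₊, p.1)) :=
    (Nat.measurable_floor.comp (Real.measurable_exp.comp measurable_snd)).prodMk measurable_fst
  have h3 : Function.uncurry (Gd δ v p0 Λ J)
      = (fun p : ℕ × ℝ => ‖evs (pt δ p.2) (L3.aln p.1) - Mt δ v p0 Λ J p.2‖)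
        ∘ fun p : ℝ × ℝ => (⌊Real.exp p.2⌋₊, p.1) := by
    funext p
    simp only [Function.comp_apply, Function.uncurry, Gd, L3.al_eq]
  rw [h3]
  exact h1.comp h2

lemma exists_J {v p0 : ℕ} (hv : 1 ≤ v) (hp0 : 1000 ≤ p0) (Y : ℝ) :
    ∃ J : ℕ, Jok v p0 Y J := by
  have hlog : 0 < Real.log p0 := Real.log_pos (by
    have : (1000 : ℝ) ≤ p0 := by exact_mod_cast hp0
    linarith)
  have hex : ∃ g : ℕ, Yg v Y g ≤ Real.log p0 := by
    obtain ⟨n, hn⟩ := exists_nat_ge (Y / Real.log p0)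
    refine ⟨n + 1, ?_⟩
    unfold Pool.Agent.Lib.J4.Yg
    have h1 : (n : ℝ) ≤ Real.exp n := by
      have := Real.add_one_le_exp (n : ℝ)
      linarith
    have h2 : (n : ℝ) ≤ (v : ℝ) * ((n + 1 : ℕ) : ℝ) * (((n + 1 : ℕ) : ℝ) + 1) / 2 := by
      have hv1 : (1 : ℝ) ≤ v := by exact_mod_cast hv
      have hn0 : (0 : ℝ) ≤ n := Nat.cast_nonneg n
      push_cast
      nlinarith [mul_nonneg hn0 hn0, mul_nonneg (sub_nonneg.2 hv1)
        (by positivity : (0 : ℝ) ≤ ((n : ℝ) + 1) * (n + 1 + 1))]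
    have h3 : Real.exp (-((v : ℝ) * ((n + 1 : ℕ) : ℝ) * (((n + 1 : ℕ) : ℝ) + 1) / 2))
        ≤ Real.exp (-(n : ℝ)) := Real.exp_le_exp.2 (by linarith)
    have h4 : Y ≤ Real.log p0 * Real.exp n := by
      rw [div_le_iff₀ hlog] at hn
      nlinarith
    calc Y * Real.exp (-((v : ℝ) * ((n + 1 : ℕ) : ℝ) * (((n + 1 : ℕ) : ℝ) + 1) / 2))
        ≤ (Real.log p0 * Real.exp n) * Real.exp (-(n : ℝ)) :=
          mul_le_mul h4 h3 (Real.exp_pos _).le (by positivity)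
      _ = Real.log p0 := by
          rw [mul_assoc, ← Real.exp_add, add_neg_cancel, Real.exp_zero, mul_one]
  classical
  refine ⟨Nat.find hex, Nat.find_spec hex, fun g hg => ?_⟩
  exact not_le.1 (Nat.find_min hex hg)

/-- the size of the error term -/
lemma exp_small {y k : ℝ} (hy : 1 ≤ y) (hk1 : 1 ≤ k) (hk2 : k ≤ 2) :
    Real.exp (-(9 / 10 * (k * y))) * y ^ (k ^ 2) ≤ 204 / y := by
  have hy0 : 0 < y := by linarith
  have h1 : y ^ (k ^ 2) ≤ y ^ 4 := by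
    calc y ^ (k ^ 2) ≤ y ^ (4 : ℝ) := Real.rpow_le_rpow_of_exponent_le hy (by nlinarith)
      _ = y ^ 4 := by norm_cast
  have h2 : Real.exp (-(9 / 10 * (k * y))) ≤ Real.exp (-(9 / 10 * y)) :=
    Real.exp_le_exp.2 (by nlinarith)
  have h3 := Real.pow_div_factorial_le_exp (x := 9 / 10 * y) (by positivity) 5
  have h4 : ((Nat.factorial 5 : ℕ) : ℝ) = 120 := by norm_num [Nat.factorial]
  rw [h4, div_le_iff₀ (by norm_num)] at h3
  have h5 : y ^ 5 ≤ 204 * Real.exp (9 / 10 * y) := by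
    have h6 : (9 / 10 * y) ^ 5 = 59049 / 100000 * y ^ 5 := by ring
    rw [h6] at h3
    nlinarith [Real.exp_pos (9 / 10 * y)]
  calc Real.exp (-(9 / 10 * (k * y))) * y ^ (k ^ 2) ≤ Real.exp (-(9 / 10 * y)) * y ^ 4 :=
        mul_le_mul h2 h1 (by positivity) (by positivity)
    _ ≤ 204 / y := by
        rw [le_div_iff₀ hy0, Real.exp_neg]
        have h7 := Real.exp_pos (9 / 10 * y)
        rw [inv_mul_eq_div, div_mul_eq_mul_div, div_le_iff₀ h7]
        calc y ^ 4 * y = y ^ 5 := by ring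
          _ ≤ _ := h5

end D6

open D6 in
/-- D6: upper bound with a weight -/
theorem upperWN (h1 : SharpNear) (h2 : MainNear) (h3 : KernelFormula) (h4 : KernelError)
    (h5 : SSLow) : UpperWN := by
  intro w C hw η hη
  obtain ⟨c5, hc5, hss⟩ := h5
  obtain ⟨C1, hC1, hker⟩ := h3
  obtain ⟨C4, T4, hC4, hT4, hkerr⟩ := h4
  obtain ⟨ε, hε⟩ : ∃ ε : ℝ, ε = min 1 (η / 8) := ⟨_, rfl⟩
  have hε0 : 0 < ε := by rw [hε]; positivity
  have hε1 : ε ≤ 1 := by rw [hε]; exact min_le_left _ _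
  have hε8 : ε ≤ η / 8 := by rw [hε]; exact min_le_right _ _
  obtain ⟨D, hD⟩ : ∃ D : ℝ, D = 64 * (8 / ε) ^ 3 * (C1 + 1) ^ 4 := ⟨_, rfl⟩
  have hD0 : 0 < D := by rw [hD]; positivity
  obtain ⟨κ, hκ⟩ : ∃ κ : ℝ, κ = c5 * η / (8 * D) := ⟨_, rfl⟩
  have hκ0 : 0 < κ := by rw [hκ]; positivity
  obtain ⟨p0, hp0, hM⟩ := h2 w (1 / 4) C (by norm_num) hw (η / 8) (by positivity)
  obtain ⟨Λ, hΛ, hS⟩ := h1 w (1 / 4) C (by norm_num) hw κ hκ0 p0 hp0
  obtain ⟨v1, hv1⟩ := hS Λ le_rfl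
  obtain ⟨v2, hv2⟩ := hM p0 le_rfl Λ hΛ
  obtain ⟨v, hv⟩ : ∃ v : ℕ, v = max (max v1 v2) 1 := ⟨_, rfl⟩
  have hvv1 : v1 ≤ v := by omega
  have hvv2 : v2 ≤ v := by omega
  have hv0 : 1 ≤ v := by omega
  obtain ⟨K1, hK1, hSh⟩ := hv1 v hvv1
  obtain ⟨K2, hK2, hMn⟩ := hv2 v hvv2
  obtain ⟨K0, hK0⟩ : ∃ K0 : ℝ, K0 = max (max K1 K2) (max (max 25 (Real.log T4))
    (max (204 * C4 / κ) (8 * C1 * (1 + 2 / κ)))) := ⟨_, rfl⟩
  have b1 : K1 ≤ K0 := by rw [hK0]; exact (le_max_left _ _).trans (le_max_left _ _)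
  have b2 : K2 ≤ K0 := by rw [hK0]; exact (le_max_right _ _).trans (le_max_left _ _)
  have b3 : 25 ≤ K0 := by
    rw [hK0]
    exact (le_max_left _ _).trans ((le_max_left _ _).trans (le_max_right _ _))
  have b4 : Real.log T4 ≤ K0 := by
    rw [hK0]
    exact (le_max_right _ _).trans ((le_max_left _ _).trans (le_max_right _ _))
  have b5 : 204 * C4 / κ ≤ K0 := by
    rw [hK0]
    exact (le_max_left _ _).trans ((le_max_right _ _).trans (le_max_right _ _))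
  have b6 : 8 * C1 * (1 + 2 / κ) ≤ K0 := by
    rw [hK0]
    exact (le_max_right _ _).trans ((le_max_right _ _).trans (le_max_right _ _))
  refine ⟨K0, by linarith, ?_⟩
  intro δ T k hδ hδ4 hT1 hK hk1 hk2
  obtain ⟨L, hL⟩ : ∃ L : ℝ, L = Real.log T := ⟨_, rfl⟩
  obtain ⟨y, hy⟩ : ∃ y : ℝ, y = δ * L := ⟨_, rfl⟩
  have hKy : K0 ≤ y := by rw [hy, hL]; exact hK
  have hT0 : 0 < T := by linarith
  have hTL : T = Real.exp L := by rw [hL, Real.exp_log hT0]
  have hL0 : 0 ≤ L := by rw [hL]; exact Real.log_nonneg hT1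
  have hLy : 4 * y ≤ L := by
    rw [hy]
    have := mul_le_mul_of_nonneg_right hδ4 hL0
    linarith
  have hL100 : 100 ≤ L := by linarith
  have hy1 : 1 ≤ y := by linarith
  have hT4' : T4 ≤ T := by
    rw [hTL, ← Real.log_le_iff_le_exp (by linarith)]
    linarith
  have hT100 : 4 ≤ T := by
    rw [hTL]
    have := Real.add_one_le_exp L
    linarith
  obtain ⟨q, hq⟩ : ∃ q : ℝ, q = 2 * k := ⟨_, rfl⟩
  have hq1 : 1 ≤ q := by linarith
  have hq4 : q ≤ 4 := by linarith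
  have hq0 : 0 ≤ q := by linarith
  rw [← hq]
  obtain ⟨J, hJ⟩ := exists_J (p0 := p0) hv0 hp0 (Λ / δ)
  obtain ⟨x0, hx0⟩ : ∃ x0 : ℝ, x0 = 45 / 100 * L := ⟨_, rfl⟩
  obtain ⟨w1, hw1⟩ : ∃ w1 : ℝ, w1 = 4 / 100 * L := ⟨_, rfl⟩
  have hw11 : 1 ≤ w1 := by rw [hw1]; linarith
  have hw10 : 0 < w1 := by linarith
  have hδw : 1 ≤ δ * w1 := by
    have : δ * w1 = 4 / 100 * y := by rw [hw1, hy]; ring
    rw [this]
    linarith
  obtain ⟨R, hR⟩ : ∃ R : ℝ, R = T * (1 / δ) ^ (k ^ 2) := ⟨_, rfl⟩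
  have hRk : 1 ≤ (1 / δ) ^ (k ^ 2) := by
    refine Real.one_le_rpow ?_ (by positivity)
    rw [le_div_iff₀ hδ]
    linarith
  have hR0 : 0 < R := by rw [hR]; positivity
  have hTR : T ≤ R := by rw [hR]; exact le_mul_of_one_le_right hT0.le hRk
  -- the constant term
  obtain ⟨c3, hc3⟩ : ∃ c3 : ℝ, c3 = 4 * C1 * Real.exp ((x0 + w1) / 2) / T := ⟨_, rfl⟩
  have hc30 : 0 ≤ c3 := by rw [hc3]; positivity
  have hc3s : c3 * (1 + 2 / κ) ≤ 1 := by
    have e1 : c3 = 4 * C1 * Real.exp (-(755 / 1000 * L)) := by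
      rw [hc3, hTL, mul_div_assoc, ← Real.exp_sub, hx0, hw1]
      congr 2
      ring
    have e2 : Real.exp (-(755 / 1000 * L)) ≤ 2 / L := by
      rw [Real.exp_neg, inv_eq_one_div, div_le_div_iff₀ (Real.exp_pos _) (by linarith)]
      have := Real.add_one_le_exp (755 / 1000 * L)
      linarith
    have e3 : 0 ≤ 1 + 2 / κ := by positivity
    have hLpos : 0 < L := by linarith
    calc c3 * (1 + 2 / κ) ≤ 4 * C1 * (2 / L) * (1 + 2 / κ) := by
          rw [e1]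
          gcongr
      _ = 8 * C1 * (1 + 2 / κ) / L := by ring
      _ ≤ 1 := by
          rw [div_le_one hLpos]
          linarith
  have hc3e : c3 * (1 + 2 / κ) = c3 + c3 * (2 / κ) := by ring
  rw [hc3e] at hc3s
  have hc31 : c3 ≤ 1 := by
    have : 0 ≤ c3 * (2 / κ) := by positivity
    linarith
  have hc3κ : 2 * c3 ≤ κ := by
    have h6 : c3 * (2 / κ) ≤ 1 := by linarith
    have h7 : c3 * (2 / κ) = 2 * c3 / κ := by ring
    rw [h7, div_le_one hκ0] at h6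
    exact h6
  have hc3q : c3 ^ q ≤ c3 := by
    rcases hc30.eq_or_lt with h | h
    · rw [← h, Real.zero_rpow (by linarith)]
    · calc c3 ^ q ≤ c3 ^ (1 : ℝ) := Real.rpow_le_rpow_of_exponent_ge h hc31 hq1
        _ = c3 := Real.rpow_one _
  -- the four functions
  obtain ⟨Av, hAv⟩ : ∃ Av : ℝ → ℝ,
      Av = fun t => (1 / (x0 + w1 - x0)) * ∫ x in x0..(x0 + w1), Gd δ v p0 Λ J t x := ⟨_, rfl⟩
  have hGd0 : ∀ t x, 0 ≤ Gd δ v p0 Λ J t x := fun t x => norm_nonneg _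
  have hAv0 : ∀ t, 0 ≤ Av t := by
    intro t
    rw [hAv]
    refine mul_nonneg ?_ (intervalIntegral.integral_nonneg (by linarith) fun x _ => hGd0 t x)
    rw [add_sub_cancel_left]
    positivity
  have hpt : ∀ t ∈ Icc (1 / 4 * T) (2 * T), ‖riemannZeta (pt δ t)‖ ^ q
      ≤ (1 + ε) * ‖Mt δ v p0 Λ J t‖ ^ q + (8 / ε) ^ 3 * (64 * ((C1 * Av t) ^ q
        + (C1 * Real.exp (-(δ * x0)) * Er w1 t) ^ q + c3 ^ q)) := by
    intro t ht
    have ht1 : 1 ≤ t := by linarith [ht.1]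
    have e1 := hker δ x0 w1 hδ hδ4 (by rw [hx0]; linarith) hw10 hδw t ht1 (Mt δ v p0 Λ J t)
    have e2 : C1 / w1 * (∫ x in x0..(x0 + w1),
        ‖evs (pt δ t) (al (Real.exp x)) - Mt δ v p0 Λ J t‖) = C1 * Av t := by
      rw [hAv, add_sub_cancel_left]
      simp only [Gd]
      ring
    have e3 : C1 * Real.exp ((x0 + w1) / 2) / t ≤ c3 := by
      rw [hc3, div_le_div_iff₀ (by linarith) hT0]
      have h8 : T ≤ 4 * t := by linarith [ht.1]
      have h9 : 0 ≤ C1 * Real.exp ((x0 + w1) / 2) := by positivity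
      calc C1 * Real.exp ((x0 + w1) / 2) * T ≤ C1 * Real.exp ((x0 + w1) / 2) * (4 * t) :=
            mul_le_mul_of_nonneg_left h8 h9
        _ = 4 * C1 * Real.exp ((x0 + w1) / 2) * t := by ring
    rw [e2] at e1
    have e4 : ‖riemannZeta (pt δ t)‖ ≤ ‖Mt δ v p0 Λ J t‖
        + (C1 * Av t + C1 * Real.exp (-(δ * x0)) * Er w1 t + c3) := by
      have h8 : ‖riemannZeta (pt δ t)‖ ≤ ‖riemannZeta (pt δ t) - Mt δ v p0 Λ J t‖
          + ‖Mt δ v p0 Λ J t‖ := by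
        have := norm_add_le (riemannZeta (pt δ t) - Mt δ v p0 Λ J t) (Mt δ v p0 Λ J t)
        rwa [sub_add_cancel] at this
      have h9 : (∫ v : ℝ, w1 / (1 + w1 * |v|) ^ 6
        * ‖riemannZeta (1 / 2 + I * (t + v : ℝ))‖) = Er w1 t := rfl
      rw [h9] at e1
      linarith
    have hE0 : 0 ≤ Er w1 t := Er_nonneg hw10.le t
    have ha := mul_nonneg hC1 (hAv0 t)
    have hb : 0 ≤ C1 * Real.exp (-(δ * x0)) * Er w1 t := by positivity
    refine (Real.rpow_le_rpow (norm_nonneg _) e4 hq0).trans ?_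
    refine (rpow_add_le (norm_nonneg _) (by positivity) hq1 hq4 hε0 hε1).trans ?_
    have h10 := three_rpow ha hb hc30 hq1 hq4
    gcongr
  -- integrability
  have hMc := Mt_cont hδ.le v p0 Λ J
  have hi1 : Integrable (fun t : ℝ => w (t / T) * ‖Mt δ v p0 Λ J t‖ ^ q) := by
    refine hw.integrable_mul hT0 ?_
    exact (hMc.norm.rpow_const fun _ => Or.inr hq0).continuousOn
  obtain ⟨BM, hBM⟩ : ∃ BM : ℝ, ∀ t ∈ Icc (1 / 4 * T) (2 * T), ‖Mt δ v p0 Λ J t‖ ≤ BM := by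
    obtain ⟨B, hB⟩ := (isCompact_Icc (a := 1 / 4 * T) (b := 2 * T)).exists_bound_of_continuousOn
      hMc.continuousOn
    exact ⟨B, hB⟩
  have hGb : ∀ t ∈ Icc (1 / 4 * T) (2 * T), ∀ x ∈ Ioc x0 (x0 + w1),
      Gd δ v p0 Λ J t x ≤ Real.exp (x0 + w1) + BM := by
    intro t ht x hx
    have e1 : Gd δ v p0 Λ J t x ≤ ‖evs (pt δ t) (al (Real.exp x))‖ + ‖Mt δ v p0 Λ J t‖ :=
      norm_sub_le _ _
    have e2 : ‖evs (pt δ t) (al (Real.exp x))‖ ≤ Real.exp (x0 + w1) := by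
      rw [L3.al_eq]
      refine (norm_evs_aln hδ.le t _).trans ?_
      exact (Nat.floor_le (Real.exp_pos x).le).trans (Real.exp_le_exp.2 hx.2)
    linarith [hBM t ht]
  have hsharp : ∀ x ∈ Ioc x0 (x0 + w1), ∫ t : ℝ, w (t / T) * Gd δ v p0 Λ J t x ^ q ≤ κ * R := by
    intro x hx
    have e1 := hSh δ T (Real.exp x) k hδ hδ4 hT1 (by rw [← hL, ← hy]; linarith) ?_ ?_ hk1 hk2 J hJ
    · rw [← hq, ← hR] at e1
      refine le_trans (le_of_eq ?_) e1
      refine integral_congr_ae (ae_of_all _ fun t => ?_)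
      simp only [Gd, Mt]
      rw [ev_tw hδ.le t (al (Real.exp x))]
      rfl
    · rw [hTL, ← Real.exp_mul, Real.exp_le_exp]
      have := hx.1
      rw [hx0] at this
      linarith
    · rw [hTL, ← Real.exp_nat_mul, Real.exp_le_exp]
      have := hx.2
      rw [hx0, hw1] at this
      push_cast
      linarith
  obtain ⟨hi2, hI2⟩ := avg_le hw hT0 (a := x0) (b := x0 + w1) (by linarith) hq1 hGd0
    (Gd_meas hδ.le v p0 Λ J) hGb hsharp
  have hAvf : ∀ t, (1 / (x0 + w1 - x0)) * ∫ x in x0..(x0 + w1), Gd δ v p0 Λ J t x = Av t := by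
    intro t
    rw [hAv]
  simp only [hAvf] at hi2 hI2
  have hErm := Er_meas hw10.le
  have hEr0 : ∀ t, 0 ≤ Er w1 t := Er_nonneg hw10.le
  obtain ⟨BE, hBE⟩ : ∃ BE : ℝ, ∀ t ∈ Ioc 0 (2 * T), Er w1 t ≤ BE := by
    refine ⟨20 * (1 + 2 * T) * w1 * ∫ v : ℝ, (1 + ‖v‖) ^ (-(5 : ℝ)), fun t ht => ?_⟩
    refine Er_le hw11 ?_
    rw [abs_of_pos ht.1]
    exact ht.2
  have hEi : IntegrableOn (fun t => Er w1 t ^ q) (Ioc 0 (2 * T)) := by
    refine Measure.integrableOn_of_bounded (M := BE ^ q)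
      (by rw [Real.volume_Ioc]; exact ENNReal.ofReal_ne_top)
      (hErm.pow_const q).aestronglyMeasurable ?_
    filter_upwards [ae_restrict_mem measurableSet_Ioc] with t ht
    rw [Real.norm_eq_abs, abs_of_nonneg (Real.rpow_nonneg (hEr0 t) q)]
    exact Real.rpow_le_rpow (hEr0 t) (hBE t ht) hq0
  have hwz : ∀ t, t ∉ Ioc 0 (2 * T) → w (t / T) = 0 := by
    intro t ht
    refine hw.eq_zero hT0 fun h => ht ⟨?_, h.2⟩
    have : 0 < 1 / 4 * T := by positivity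
    linarith [h.1]
  have hwm : Measurable fun t : ℝ => w (t / T) :=
    (hw.continuous.comp (continuous_id.div_const T)).measurable
  have hwE : IntegrableOn (fun t => w (t / T) * Er w1 t ^ q) (Ioc 0 (2 * T)) := by
    refine hEi.mono' (hwm.mul (hErm.pow_const q)).aestronglyMeasurable (ae_of_all _ fun t => ?_)
    have h0 := Real.rpow_nonneg (hEr0 t) q
    rw [Real.norm_eq_abs, abs_of_nonneg (mul_nonneg (hw.nonneg _) h0)]
    calc w (t / T) * Er w1 t ^ q ≤ 1 * Er w1 t ^ q := mul_le_mul_of_nonneg_right (hw.le_one _) h0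
      _ = _ := one_mul _
  have hi3 : Integrable (fun t : ℝ => w (t / T) * Er w1 t ^ q) := by
    refine (integrableOn_iff_integrable_of_support_subset ?_).mp hwE
    intro t ht
    by_contra h
    exact ht (by simp only; rw [hwz t h, zero_mul])
  have hI3 : ∫ t : ℝ, w (t / T) * Er w1 t ^ q ≤ C4 * T * L ^ (k ^ 2) := by
    have e1 : ∫ t : ℝ, w (t / T) * Er w1 t ^ q = ∫ t in Ioc 0 (2 * T), w (t / T) * Er w1 t ^ q :=
      (setIntegral_eq_integral_of_forall_compl_eq_zero fun t ht => by rw [hwz t ht, zero_mul]).symm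
    have e2 := hkerr T w1 k hT4' hw11 hk1 hk2
    rw [intervalIntegral.integral_of_le (by linarith), ← hq, ← hL] at e2
    rw [e1]
    refine le_trans ?_ e2
    refine setIntegral_mono_on hwE hEi measurableSet_Ioc fun t _ => ?_
    have h0 := Real.rpow_nonneg (hEr0 t) q
    calc w (t / T) * Er w1 t ^ q ≤ 1 * Er w1 t ^ q := mul_le_mul_of_nonneg_right (hw.le_one _) h0
      _ = _ := one_mul _
  have hi4 : Integrable (fun t : ℝ => w (t / T)) := by
    have := hw.integrable_mul hT0 (f := fun _ => 1) continuousOn_const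
    simpa using this
  obtain ⟨W, hW⟩ : ∃ W : ℝ, W = ∫ u, w u := ⟨_, rfl⟩
  have hI4 : ∫ t : ℝ, w (t / T) = T * W := by
    have := Measure.integral_comp_div (fun u => w u) T
    rw [this, abs_of_pos hT0, smul_eq_mul, hW]
  have hW0 : 0 ≤ W := by
    rw [hW]
    exact integral_nonneg fun u => hw.nonneg u
  have hW2 : W ≤ 2 := by
    have e1 : ∫ u, w u = ∫ u in Icc (0 : ℝ) 2, w u :=
      (setIntegral_eq_integral_of_forall_compl_eq_zero fun u hu => by
        by_contra hne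
        obtain ⟨h8, h9⟩ := hw.supp u hne
        exact hu ⟨by linarith, h9⟩).symm
    have e2 : ∫ u in Icc (0 : ℝ) 2, w u ≤ ∫ u in Icc (0 : ℝ) 2, (1 : ℝ) := by
      refine setIntegral_mono_on ?_ ?_ measurableSet_Icc fun u _ => hw.le_one u
      · exact hw.continuous.integrableOn_Icc
      · exact continuous_const.integrableOn_Icc
    rw [hW, e1]
    refine e2.trans (le_of_eq ?_)
    rw [setIntegral_const, Real.volume_real_Icc_of_le (by norm_num)]
    norm_num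
  have hI1 : ∫ t : ℝ, w (t / T) * ‖Mt δ v p0 Λ J t‖ ^ q
      ≤ (W + η / 8) * (T * SS k (1 + 2 * δ)) := by
    have e1 := hMn δ T k hδ hδ4 hT1 (by rw [← hL, ← hy]; linarith) hk1 hk2 J hJ
    rw [← hq, ← hW] at e1
    exact e1
  -- the error term
  have hI3' : (Real.exp (-(δ * x0))) ^ q * ∫ t : ℝ, w (t / T) * Er w1 t ^ q ≤ κ * R := by
    have e1 : (Real.exp (-(δ * x0))) ^ q = Real.exp (-(9 / 10 * (k * y))) := by
      rw [← Real.exp_mul, hx0, hq, hy]
      congr 1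
      ring
    have e2 : L ^ (k ^ 2) = y ^ (k ^ 2) * (1 / δ) ^ (k ^ 2) := by
      rw [← Real.mul_rpow (by linarith) (by positivity)]
      congr 1
      rw [hy]
      field_simp
    have e3 := exp_small hy1 hk1 hk2
    have hy0 : 0 < y := by linarith
    rw [e1]
    calc Real.exp (-(9 / 10 * (k * y))) * ∫ t : ℝ, w (t / T) * Er w1 t ^ q
        ≤ Real.exp (-(9 / 10 * (k * y))) * (C4 * T * L ^ (k ^ 2)) :=
          mul_le_mul_of_nonneg_left hI3 (Real.exp_pos _).le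
      _ = C4 * (Real.exp (-(9 / 10 * (k * y))) * y ^ (k ^ 2)) * R := by
          rw [e2, hR]
          ring
      _ ≤ C4 * (204 / y) * R := by gcongr
      _ ≤ κ * R := by
          refine mul_le_mul_of_nonneg_right ?_ hR0.le
          rw [div_le_iff₀ hκ0] at b5
          rw [← mul_div_assoc, div_le_iff₀ hy0]
          have := mul_le_mul_of_nonneg_right hKy hκ0.le
          linarith
  -- sum
  obtain ⟨g, hg⟩ : ∃ g : ℝ → ℝ, g = fun t => (1 + ε) * (w (t / T) * ‖Mt δ v p0 Λ J t‖ ^ q)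
      + (8 / ε) ^ 3 * 64 * (C1 ^ q * (w (t / T) * Av t ^ q)
        + C1 ^ q * (Real.exp (-(δ * x0))) ^ q * (w (t / T) * Er w1 t ^ q)
        + c3 ^ q * w (t / T)) := ⟨_, rfl⟩
  have hgi : Integrable g := by
    rw [hg]
    exact (hi1.const_mul _).add
      ((((hi2.const_mul _).add (hi3.const_mul _)).add (hi4.const_mul _)).const_mul _)
  have hle : ∫ t : ℝ, w (t / T) * ‖riemannZeta (pt δ t)‖ ^ q ≤ ∫ t, g t := by
    refine integral_mono_of_nonneg
      (ae_of_all _ fun t => mul_nonneg (hw.nonneg _) (Real.rpow_nonneg (norm_nonneg _) q)) hgi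
      (ae_of_all _ fun t => ?_)
    simp only [hg]
    by_cases ht : t ∈ Icc (1 / 4 * T) (2 * T)
    · have e1 := mul_le_mul_of_nonneg_left (hpt t ht) (hw.nonneg (t / T))
      refine e1.trans (le_of_eq ?_)
      rw [Real.mul_rpow hC1 (hAv0 t), Real.mul_rpow (by positivity) (hEr0 t),
        Real.mul_rpow hC1 (Real.exp_pos _).le]
      ring
    · rw [hw.eq_zero hT0 ht]
      simp
  have hgI : ∫ t, g t = (1 + ε) * (∫ t : ℝ, w (t / T) * ‖Mt δ v p0 Λ J t‖ ^ q)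
      + (8 / ε) ^ 3 * 64 * (C1 ^ q * (∫ t : ℝ, w (t / T) * Av t ^ q)
        + C1 ^ q * (Real.exp (-(δ * x0))) ^ q * (∫ t : ℝ, w (t / T) * Er w1 t ^ q)
        + c3 ^ q * (T * W)) := by
    rw [hg]
    have j1 : Integrable fun t : ℝ => C1 ^ q * (w (t / T) * Av t ^ q) := hi2.const_mul _
    have j2 : Integrable fun t : ℝ =>
      C1 ^ q * (Real.exp (-(δ * x0))) ^ q * (w (t / T) * Er w1 t ^ q) := hi3.const_mul _
    have j3 : Integrable fun t : ℝ => c3 ^ q * w (t / T) := hi4.const_mul _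
    have j4 : Integrable fun t : ℝ => (1 + ε) * (w (t / T) * ‖Mt δ v p0 Λ J t‖ ^ q) :=
      hi1.const_mul _
    have j5 : Integrable fun t : ℝ => (8 / ε) ^ 3 * 64 * (C1 ^ q * (w (t / T) * Av t ^ q)
        + C1 ^ q * (Real.exp (-(δ * x0))) ^ q * (w (t / T) * Er w1 t ^ q)
        + c3 ^ q * w (t / T)) := ((j1.add j2).add j3).const_mul _
    have e0 : ∫ t : ℝ, ((1 + ε) * (w (t / T) * ‖Mt δ v p0 Λ J t‖ ^ q)
      + (8 / ε) ^ 3 * 64 * (C1 ^ q * (w (t / T) * Av t ^ q)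
        + C1 ^ q * (Real.exp (-(δ * x0))) ^ q * (w (t / T) * Er w1 t ^ q)
        + c3 ^ q * w (t / T))) = (∫ t : ℝ, (1 + ε) * (w (t / T) * ‖Mt δ v p0 Λ J t‖ ^ q))
        + ∫ t : ℝ, (8 / ε) ^ 3 * 64 * (C1 ^ q * (w (t / T) * Av t ^ q)
        + C1 ^ q * (Real.exp (-(δ * x0))) ^ q * (w (t / T) * Er w1 t ^ q)
        + c3 ^ q * w (t / T)) := integral_add j4 j5
    rw [e0, integral_const_mul, integral_const_mul]
    congr 2
    have e1 : ∫ t : ℝ, (C1 ^ q * (w (t / T) * Av t ^ q)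
        + C1 ^ q * (Real.exp (-(δ * x0))) ^ q * (w (t / T) * Er w1 t ^ q)
        + c3 ^ q * w (t / T)) = (∫ t : ℝ, (C1 ^ q * (w (t / T) * Av t ^ q)
        + C1 ^ q * (Real.exp (-(δ * x0))) ^ q * (w (t / T) * Er w1 t ^ q)))
        + ∫ t : ℝ, c3 ^ q * w (t / T) := integral_add (j1.add j2) j3
    rw [e1, integral_add j1 j2, integral_const_mul, integral_const_mul, integral_const_mul, hI4]
  have hC1q : C1 ^ q ≤ (C1 + 1) ^ 4 := by
    calc C1 ^ q ≤ (C1 + 1) ^ q := Real.rpow_le_rpow hC1 (by linarith) hq0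
      _ ≤ (C1 + 1) ^ (4 : ℝ) := Real.rpow_le_rpow_of_exponent_le (by linarith) hq4
      _ = (C1 + 1) ^ 4 := by norm_cast
  have hC1q0 : 0 ≤ C1 ^ q := Real.rpow_nonneg hC1 q
  have hC11 : 1 ≤ (C1 + 1) ^ 4 := one_le_pow₀ (by linarith)
  have hsum : C1 ^ q * (∫ t : ℝ, w (t / T) * Av t ^ q)
        + C1 ^ q * (Real.exp (-(δ * x0))) ^ q * (∫ t : ℝ, w (t / T) * Er w1 t ^ q)
        + c3 ^ q * (T * W) ≤ (C1 + 1) ^ 4 * (3 * (κ * R)) := by
    have f1 : C1 ^ q * (∫ t : ℝ, w (t / T) * Av t ^ q) ≤ (C1 + 1) ^ 4 * (κ * R) := by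
      calc C1 ^ q * (∫ t : ℝ, w (t / T) * Av t ^ q) ≤ C1 ^ q * (κ * R) :=
            mul_le_mul_of_nonneg_left hI2 hC1q0
        _ ≤ _ := mul_le_mul_of_nonneg_right hC1q (by positivity)
    have f2 : C1 ^ q * (Real.exp (-(δ * x0))) ^ q * (∫ t : ℝ, w (t / T) * Er w1 t ^ q)
        ≤ (C1 + 1) ^ 4 * (κ * R) := by
      calc C1 ^ q * (Real.exp (-(δ * x0))) ^ q * (∫ t : ℝ, w (t / T) * Er w1 t ^ q)
          = C1 ^ q * ((Real.exp (-(δ * x0))) ^ q * (∫ t : ℝ, w (t / T) * Er w1 t ^ q)) := by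
            ring
        _ ≤ C1 ^ q * (κ * R) := mul_le_mul_of_nonneg_left hI3' hC1q0
        _ ≤ _ := mul_le_mul_of_nonneg_right hC1q (by positivity)
    have f3 : c3 ^ q * (T * W) ≤ (C1 + 1) ^ 4 * (κ * R) := by
      calc c3 ^ q * (T * W) ≤ c3 * (T * 2) := by gcongr
        _ = 2 * c3 * T := by ring
        _ ≤ κ * R := by gcongr
        _ = 1 * (κ * R) := (one_mul _).symm
        _ ≤ _ := mul_le_mul_of_nonneg_right hC11 (by positivity)
    linarith
  have hSS : c5 * R ≤ T * SS k (1 + 2 * δ) := by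
    have := hss k δ hk1 hk2 hδ hδ4
    rw [hR]
    calc c5 * (T * (1 / δ) ^ (k ^ 2)) = T * (c5 * (1 / δ) ^ (k ^ 2)) := by ring
      _ ≤ _ := mul_le_mul_of_nonneg_left this hT0.le
  have hZ0 : 0 ≤ T * SS k (1 + 2 * δ) := le_trans (by positivity) hSS
  obtain ⟨Z, hZ⟩ : ∃ Z : ℝ, Z = T * SS k (1 + 2 * δ) := ⟨_, rfl⟩
  rw [← hZ] at hSS hZ0 hI1 ⊢
  rw [← hW]
  have herr : (8 / ε) ^ 3 * 64 * ((C1 + 1) ^ 4 * (3 * (κ * R))) ≤ 3 / 8 * η * Z := by
    have e1 : (8 / ε) ^ 3 * 64 * ((C1 + 1) ^ 4 * (3 * (κ * R))) = 3 * (D * κ) * R := by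
      rw [hD]
      ring
    have e2 : D * κ = c5 * η / 8 := by
      rw [hκ]
      field_simp
    rw [e1, e2]
    have := mul_le_mul_of_nonneg_left hSS (by positivity : 0 ≤ 3 / 8 * η)
    linarith
  have hmain : (1 + ε) * ((W + η / 8) * Z) ≤ (W + η / 2) * Z := by
    rw [← mul_assoc]
    refine mul_le_mul_of_nonneg_right ?_ hZ0
    have i1 := mul_le_mul_of_nonneg_left hW2 hε0.le
    have i2 := mul_le_mul_of_nonneg_right hε1 (by positivity : 0 ≤ η / 8)
    linarith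
  calc ∫ t : ℝ, w (t / T) * ‖riemannZeta (pt δ t)‖ ^ q ≤ ∫ t, g t := hle
    _ ≤ (1 + ε) * ((W + η / 8) * Z)
        + (8 / ε) ^ 3 * 64 * ((C1 + 1) ^ 4 * (3 * (κ * R))) := by
        rw [hgI]
        gcongr
    _ ≤ (W + η / 2) * Z + 3 / 8 * η * Z := add_le_add hmain herr
    _ ≤ (W + η) * Z := by
        have := mul_nonneg hη.le hZ0
        linarith

end Pool.Agent.Lib.N4
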