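import Mathlib
import Pool.Agent.Lib.MP_f9aece_nt_j4.Stmts
import Pool.Agent.Lib.MP_f9aece_nt_h5.EvS
import Pool.Agent.Lib.MP_f9aece_nt_h40.RightA
import Pool.Agent.Lib.MP_f9aece_nt_h85.RoughSums
import Pool.Agent.Lib.MP_f9aece_nt_nl.Stmts

/-!
Moments of zeta of order between two and four, on and near the critical line, without the
twisted fourth moment: definitions.
-/

set_option autoImplicit false

namespace Pool.Agent.Lib.N4

open MeasureTheory Set Filter Topology Complex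
open Pool.Agent.Lib.MP_f9aece_nt (DP pair BK K1 ev PP VV Smo expo EE)
open Pool.Agent.Lib.MP_f9aece_nt_h5 (tw)
open Pool.Agent.Lib.MP_f9aece_nt_h40 (ind)
open Pool.Agent.Lib.MP_f9aece_nt_h85 (rz Rst Pst)
open Pool.Agent.Lib.MP_f9aece_nt_h97 (Psm Dsm evs)
open Pool.Agent.Lib.J4 (Sg Yg rg Jok Bt Wt Vs En Wgt dv V2 SU Rg)
open Pool.Agent.Lib.NL (pt B0 F0 SS ML)

/-- limit for the number of prime factors in the group `g` -/
def kap (v g : ℕ) : ℕ := 50000 * v * (g + 1) ^ 2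

/-- bound for the lengths of the polynomials over the groups `≥ g` -/
noncomputable def ell (v : ℕ) (Y : ℝ) (g : ℕ) : ℝ := 1000000 * v * (g + 1) ^ 2 * Yg v Y g

/-- the same, zero from `J` on -/
noncomputable def el (v : ℕ) (Y : ℝ) (J g : ℕ) : ℝ := if g < J then ell v Y g else 0

/-- cut points -/
noncomputable def zc (v : ℕ) (Y : ℝ) (J : ℕ) (z : ℝ) (i : ℕ) : ℝ := z * Real.exp (-el v Y J i)

/-- smooth polynomial of the groups `i ≤ g < J` -/
noncomputable def EI (v p0 : ℕ) (Y : ℝ) (i J : ℕ) : DP :=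
  ∏ g ∈ Finset.Ico i J, ind (kap v g) (Sg v p0 Y g)

/-- window polynomials -/
noncomputable def QW (v p0 : ℕ) (Y : ℝ) (J : ℕ) (z : ℝ) (i : ℕ) : DP :=
  rz p0 (Yg v Y (i + 1)) (zc v Y J z (i + 1))
    - rz p0 (Yg v Y i) (zc v Y J z i) * ind (kap v i) (Sg v p0 Y i)

/-- all integers up to `z` -/
noncomputable def al (z : ℝ) : DP := ∑ n ∈ Finset.Icc 1 ⌊z⌋₊, MonoidAlgebra.single n 1

open Classical in
/-- the integers up to `z` composed of primes `≤ p0` -/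
noncomputable def smz (p0 : ℕ) (z : ℝ) : DP :=
  ∑ n ∈ (Finset.Icc 1 ⌊z⌋₊).filter (fun n => n ∈ Smo (Psm p0 : Set ℕ)), MonoidAlgebra.single n 1

/-- number of prime factors in `S` -/
noncomputable def OmS (S : Finset ℕ) (n : ℕ) : ℕ := ∑ p ∈ S, n.factorization p

/-- `∑_{p ∈ S} p^{-1-2δ}` -/
noncomputable def Qd (δ : ℝ) (S : Finset ℕ) : ℝ := ∑ p ∈ S, (p : ℝ) ^ (-(1 + 2 * δ))

/-- the same over the groups `i ≤ g < J` -/
noncomputable def Qs (δ : ℝ) (v p0 : ℕ) (Y : ℝ) (i J : ℕ) : ℝ :=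
  ∑ g ∈ Finset.Ico i J, Qd δ (Sg v p0 Y g)

/-- the bounded function replacing a power of zeta, for general values of the prime sums -/
noncomputable def GX (a : ℝ) (v i J : ℕ) (P : ℕ → ℂ) : ℝ :=
  ∏ g ∈ Finset.Ico i J, if ‖P g‖ ≤ Rg v g then Real.exp (-4 * a * (P g).re) else 1

/-- energy bound of a window -/
noncomputable def WE (v : ℕ) (Y : ℝ) (J : ℕ) (z W δ : ℝ) (i : ℕ) : ℝ :=
  Real.exp (-(4 * δ * Real.log (zc v Y J z i)))
      * (((Real.log z + Yg v Y (i + 1) + 1) / (Yg v Y (i + 1) + 1))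
        * ((ell v Y i + Yg v Y (i + 1) + 1) / (Yg v Y (i + 1) + 1)) ^ 3)
    + (1 / 2) ^ kap v i * Real.exp (40 * (v * (i + 1))) * ((W + Yg v Y i) / Yg v Y i) ^ 4

end Pool.Agent.Lib.N4
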