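import Mathlib
import Pool.Agent.Lib.MP_f9aece_nt_n4.Defs

/-!
Moments of zeta of order between two and four: the statements of the modules, as propositions.
Module `X` proves `theorem x : X`; modules using `X` take it as a hypothesis.
-/

set_option autoImplicit false

namespace Pool.Agent.Lib.N4

open MeasureTheory Set Filter Topology Complex
open Pool.Agent.Lib.MP_f9aece_nt (DP pair BK K1 ev PP VV Smo expo EE)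
open Pool.Agent.Lib.MP_f9aece_nt_h5 (tw)
open Pool.Agent.Lib.MP_f9aece_nt_h40 (ind)
open Pool.Agent.Lib.MP_f9aece_nt_h85 (rz Rst Pst)
open Pool.Agent.Lib.MP_f9aece_nt_h97 (Psm Dsm evs)
open Pool.Agent.Lib.J4 (Sg Yg rg Jok Bt Wt Vs En Wgt dv V2 SU Rg)
open Pool.Agent.Lib.NL (pt B0 F0 SS ML)

/-! ### A: the level decomposition -/

/-- A1: telescoping -/
def Telescope : Prop := ∀ (v p0 : ℕ) (Y : ℝ) (J : ℕ), 1 ≤ v → 2 ≤ p0 → 0 < Y → Jok v p0 Y J →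
  ∀ z : ℝ, 1 ≤ z → al z = rz p0 Y (zc v Y J z 0) * EI v p0 Y 0 J
    + ∑ i ∈ Finset.range J, QW v p0 Y J z i * EI v p0 Y (i + 1) J

/-- A2: coefficients and support of the window polynomials -/
def QCoeff : Prop := ∀ (v p0 : ℕ) (Y : ℝ) (J : ℕ), 2 ≤ v → 2 ≤ p0 → 0 < Y → Jok v p0 Y J →
  ∀ z : ℝ, 1 ≤ z → ∀ i < J, ∀ n : ℕ,
  0 ≤ (QW v p0 Y J z i).coeff n ∧ (QW v p0 Y J z i).coeff n ≤ 1 ∧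
  ((QW v p0 Y J z i).coeff n ≠ 0 → n ∈ Smo (Rst p0 (Yg v Y (i + 1))) ∧
    (n : ℝ) ≤ zc v Y J z (i + 1) ∧ (zc v Y J z i < n ∨ kap v i < OmS (Sg v p0 Y i) n))

/-! ### R: rough numbers and energies of the windows -/

/-- R1: reciprocals of rough numbers in a window -/
def RoughSum : Prop := ∀ p0 : ℕ, 2 ≤ p0 → ∃ C : ℝ, 1 ≤ C ∧ ∀ y : ℝ, 0 ≤ y → ∀ x x' : ℝ, x ≤ x' →
  ∀ B : Finset ℕ, (∀ n ∈ B, n ∈ Smo (Rst p0 y) ∧ x < Real.log n ∧ Real.log n ≤ x') →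
  ∑ n ∈ B, (n : ℝ)⁻¹ ≤ C * ((x' - x + y + 1) / (y + 1))

/-- R2: energy of the square of a window -/
def WinEnergy : Prop := ∀ p0 : ℕ, 2 ≤ p0 → ∃ C : ℝ, 1 ≤ C ∧ ∀ y : ℝ, 0 ≤ y → ∀ x x' : ℝ, x ≤ x' →
  0 ≤ x' → ∀ f : DP, (∀ n, 0 ≤ f.coeff n ∧ f.coeff n ≤ 1 ∧
    (f.coeff n ≠ 0 → n ∈ Smo (Rst p0 y) ∧ x < Real.log n ∧ Real.log n ≤ x')) →
  En (f * f) ≤ C * (((x' + y + 1) / (y + 1)) * ((x' - x + y + 1) / (y + 1)) ^ 3)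

/-- R3: energy of the numbers with many prime factors in one group -/
def OmEnergy : Prop := ∀ p0 : ℕ, 1000 ≤ p0 → ∃ C : ℝ, 1 ≤ C ∧ ∀ y y' W X δ : ℝ, 0 ≤ y' → y' ≤ y →
  1 / 2 ≤ y → 0 ≤ δ → 1 ≤ W → (X ≤ W ∨ 1 ≤ δ * W) → ∀ S : Finset ℕ,
  (∀ p, p ∈ S ↔ p.Prime ∧ p0 < p ∧ y' < Real.log p ∧ Real.log p ≤ y) → ∀ (κ : ℕ) (B : Finset ℕ),
  (∀ n ∈ B, n ∈ Smo (Rst p0 y') ∧ Real.log n ≤ X ∧ κ ≤ OmS S n) →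
  ∑ n ∈ B, dv n ^ 2 * (n : ℝ) ^ (-(1 + 2 * δ))
    ≤ C * ((1 / 2) ^ κ * Real.exp (20 * VV S) * ((W + y) / y) ^ 4)

/-- R4: energy of the window polynomials -/
def PieceEnergy : Prop := ∃ v0 : ℕ, ∀ p0 : ℕ, 1000 ≤ p0 → ∃ C : ℝ, 1 ≤ C ∧ ∀ v : ℕ, v0 ≤ v →
  ∀ Y : ℝ, 0 < Y → ∀ J : ℕ, Jok v p0 Y J → ∀ z W δ : ℝ, 1 ≤ z → 1 ≤ W → 0 ≤ δ →
  (2 * Real.log z ≤ W ∨ 1 ≤ δ * W) → ∀ i < J,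
  En (tw δ (QW v p0 Y J z i * QW v p0 Y J z i)) ≤ C * WE v Y J z W δ i

/-- R5: the part of the head with a large prime factor -/
def HeadEnergy : Prop := ∀ p0 : ℕ, 1000 ≤ p0 → ∃ C : ℝ, 1 ≤ C ∧ ∀ δ Y : ℝ, 0 < δ → δ ≤ 1 / 4 →
  1 ≤ δ * Y → ∀ z : ℝ, 1 ≤ z →
  En (tw δ ((rz p0 Y z - smz p0 z) * (rz p0 Y z - smz p0 z))) ≤ C / (δ * Y)

/-- R6: the tail of the small primes -/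
def SmallTail : Prop := ∀ p0 : ℕ, 2 ≤ p0 → ∃ C : ℝ, 1 ≤ C ∧ ∀ δ t z : ℝ, 0 ≤ δ → 1 ≤ z →
  ‖evs (pt δ t) (smz p0 z) - (evs (pt δ t) (Dsm p0))⁻¹‖ ≤ C * z ^ (-(1 / 4) : ℝ) ∧
  ‖(evs (pt δ t) (Dsm p0))⁻¹‖ ≤ C

/-! ### B: block energies -/

/-- B1: indicator squared times truncated exponential -/
def BlockE : Prop := ∃ C : ℝ, 0 ≤ C ∧ ∀ (S : Finset ℕ) (r κ : ℕ) (c δ : ℝ),
  (∀ p ∈ S, p.Prime ∧ 1000 ≤ p) → 1 ≤ r → VV S ≤ 2 * r → -1 ≤ c → c ≤ 0 → 0 ≤ δ → 50000 * r ≤ κ →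
  En (tw δ (ind κ S ^ 2 * expo c (50000 * r) S))
    ≤ Real.exp ((2 + c) ^ 2 * Qd δ S + C * V2 S + Real.exp (-r))

/-- B2: indicator squared times a power of the prime sum -/
def BlockP : Prop := ∀ (S : Finset ℕ) (r κ : ℕ) (δ : ℝ),
  (∀ p ∈ S, p.Prime ∧ 1000 ≤ p) → 1 ≤ r → VV S ≤ 2 * r → 0 ≤ δ →
  Real.exp (8 * (1000 * (r : ℝ))) / (1000 * (r : ℝ)) ^ (2 * (100000 * r))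
    * En (tw δ (ind κ S ^ 2 * PP S ^ (100000 * r))) ≤ Real.exp (-r)

/-- B3: sums over the sets of groups, fourth moment side -/
def SumEI : Prop := ∃ C : ℝ, 0 ≤ C ∧ ∃ v0 : ℕ, ∀ v : ℕ, v0 ≤ v → ∀ p0 : ℕ, 1000 ≤ p0 →
  ∀ Y : ℝ, 0 < Y → ∀ (i J : ℕ) (c δ : ℝ), -1 ≤ c → c ≤ 0 → 0 ≤ δ →
  ∑ s ∈ (Finset.Ico i J).powerset, Wt v s * En (tw δ (EI v p0 Y i J ^ 2 * Bt c v p0 Y i J s))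
    ≤ Real.exp ((2 + c) ^ 2 * Qs δ v p0 Y i J + C / p0 + 4 * Real.exp (-v))

/-- B4: sums over the sets of groups, second moment side -/
def SumB : Prop := ∃ v0 : ℕ, ∀ v : ℕ, v0 ≤ v → ∀ p0 : ℕ, 1000 ≤ p0 →
  ∀ Y : ℝ, 0 < Y → ∀ (i J : ℕ) (c δ : ℝ), 0 ≤ δ →
  ∑ s ∈ (Finset.Ico i J).powerset, Wt v s * En (tw δ (Bt c v p0 Y i J s))
    ≤ Real.exp (c ^ 2 * Qs δ v p0 Y i J + 4 * Real.exp (-v))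

/-- B5: sums over primes -/
def Mert : Prop := ∃ C : ℝ, 0 ≤ C ∧ ∀ (v p0 : ℕ) (Y : ℝ) (i J : ℕ) (δ : ℝ), 1 ≤ v → 1 ≤ p0 → 0 < Y →
  0 ≤ δ → Qs δ v p0 Y i J ≤ Real.log (Yg v Y i + 1) + C ∧
  (0 < δ → Qs δ v p0 Y i J ≤ Real.log (1 / δ + 1) + C)

/-! ### P: pointwise inequality, lengths, the inequality for one level -/

/-- P1: the pointwise inequality, for general values of the prime sums, and the two majorants -/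
def PtYoung : Prop := ∀ v : ℕ, 1 ≤ v → ∀ (p0 : ℕ) (Y : ℝ) (i J : ℕ) (a : ℝ), 0 ≤ a → a ≤ 1 / 2 →
  ∀ (δ t : ℝ), ∃ G H : ℝ, 0 < G ∧ 0 ≤ H ∧
    (∀ z : ℂ, ‖z‖ ^ (4 * (1 - a)) ≤ (1 - a) * (‖z‖ ^ 4 * G) + a * H) ∧
    G ≤ Real.exp (Real.exp (-v)) * ∑ s ∈ (Finset.Ico i J).powerset,
      Wt v s * ‖ev t (tw δ (Bt (-2 * a) v p0 Y i J s))‖ ^ 2 ∧
    H ≤ Real.exp (Real.exp (-v)) * ∑ s ∈ (Finset.Ico i J).powerset,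
      Wt v s * ‖ev t (tw δ (Bt (2 * (1 - a)) v p0 Y i J s))‖ ^ 2

/-- P2: lengths -/
def LenEI : Prop := ∀ v p0 : ℕ, 2 ≤ v → 1000 ≤ p0 → ∀ Y : ℝ, 0 < Y → ∀ i J : ℕ, i ≤ J → ∀ (c : ℝ)
  (s : Finset ℕ), s ∈ (Finset.Ico i J).powerset → ∀ n : ℕ,
  ((EI v p0 Y i J ^ 2 * Bt c v p0 Y i J s).coeff n ≠ 0 →
    n ∈ Smo (SU v p0 Y i J : Set ℕ) ∧ 1 ≤ n ∧ Real.log n ≤ el v Y J i) ∧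
  ((Bt c v p0 Y i J s).coeff n ≠ 0 →
    n ∈ Smo (SU v p0 Y i J : Set ℕ) ∧ 1 ≤ n ∧ Real.log n ≤ el v Y J i)

/-- P3: one level -/
def Level : Prop := ∃ v0 : ℕ, ∀ (w : ℝ → ℝ) (θ C : ℝ), 0 < θ → Wgt w θ C → ∀ C0 : ℝ, 1 ≤ C0 →
  ∃ C2 : ℝ, 1 ≤ C2 ∧ ∀ v : ℕ, v0 ≤ v → ∀ p0 : ℕ, 1000 ≤ p0 → ∀ Y : ℝ, 0 < Y → ∀ J : ℕ,
  Jok v p0 Y J → ∀ i : ℕ, i ≤ J → ∀ k : ℝ, 1 ≤ k → k ≤ 2 → ∀ δ : ℝ, 0 ≤ δ → ∀ T N : ℝ, 1 ≤ T →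
  0 ≤ N → N ^ 2 * Real.exp (el v Y J i) ≤ C0 * T → ∀ F : DP,
  (∀ n, F.coeff n ≠ 0 → n ∈ Smo (Rst p0 (Yg v Y i)) ∧ (n : ℝ) ≤ N) →
  ∫ t : ℝ, w (t / T) * ‖ev t (tw δ (F * EI v p0 Y i J))‖ ^ (2 * k)
    ≤ C2 * T * En (tw δ (F * F)) ^ (k / 2) * Real.exp (k ^ 2 * Qs δ v p0 Y i J)

/-! ### N: numerical inequalities -/

/-- N1: powers of sums -/
def PowSum : Prop := ∀ (q : ℝ), 1 ≤ q → q ≤ 4 → ∀ (n : ℕ) (x : ℕ → ℝ), (∀ i, 0 ≤ x i) →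
  (∑ i ∈ Finset.range n, x i) ^ q ≤ 8 * ∑ i ∈ Finset.range n, 8 ^ i * x i ^ q

/-- N2: the windows, part one -/
def NumWin : Prop := ∀ v : ℕ, 1 ≤ v → ∃ C : ℝ, 1 ≤ C ∧ ∀ Y L : ℝ, 0 < Y → 1 ≤ L → ∀ i : ℕ,
  1 / 2 ≤ Yg v Y i → ∀ k : ℝ, 1 ≤ k → k ≤ 2 →
  (Yg v Y (i + 1) + 1) ^ (k ^ 2) * (((L + Yg v Y (i + 1) + 1) / (Yg v Y (i + 1) + 1))
    * ((ell v Y i + Yg v Y (i + 1) + 1) / (Yg v Y (i + 1) + 1)) ^ 3) ^ (k / 2)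
  ≤ C * (1 / 16) ^ i * ((L + Y) ^ (k / 2) * Y ^ (k ^ 2 - k / 2))

/-- N3: the windows, part two -/
def NumOm : Prop := ∃ C : ℝ, 1 ≤ C ∧ ∀ v : ℕ, 1 ≤ v → ∀ Y W : ℝ, 0 < Y → 1 ≤ W → ∀ i : ℕ,
  1 / 2 ≤ Yg v Y i → ∀ k : ℝ, 1 ≤ k → k ≤ 2 →
  (Yg v Y (i + 1) + 1) ^ (k ^ 2) * ((1 / 2) ^ kap v i * Real.exp (40 * (v * (i + 1)))
    * ((W + Yg v Y i) / Yg v Y i) ^ 4) ^ (k / 2)
  ≤ C * Real.exp (-v) * (1 / 16) ^ i * ((W + Y) ^ (2 * k) * Y ^ (k ^ 2 - 2 * k))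

/-! ### L: the critical line -/

/-- L1: truncated sums on the critical line -/
def SharpLine : Prop := ∀ (w : ℝ → ℝ) (θ C : ℝ), 0 < θ → Wgt w θ C → ∀ C0 : ℝ, 1 ≤ C0 →
  ∃ C1 T0 : ℝ, 1 ≤ C1 ∧ 3 ≤ T0 ∧ ∀ T z k : ℝ, T0 ≤ T → 1 ≤ z → z ^ 2 ≤ C0 * T → 1 ≤ k → k ≤ 2 →
  ∫ t : ℝ, w (t / T) * ‖ev t (al z)‖ ^ (2 * k) ≤ C1 * T * Real.log T ^ (k ^ 2)

/-- L2: approximate functional equation -/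
def AfeLine : Prop := ∃ c C T0 : ℝ, 0 ≤ c ∧ 0 ≤ C ∧ 3 ≤ T0 ∧ ∀ T t : ℝ, T0 ≤ T → T / 4 ≤ t →
  t ≤ 2 * T → ‖riemannZeta (1 / 2 + I * t)‖
    ≤ C * (1 + ∫ x in (Real.log T / 2 - c)..(Real.log T / 2 + c), ‖ev t (al (Real.exp x))‖)

/-- L3: right order of the moments between two and four on the critical line -/
def RightOrder : Prop := ∃ C T0 : ℝ, 1 ≤ C ∧ 3 ≤ T0 ∧ ∀ T k : ℝ, T0 ≤ T → 1 ≤ k → k ≤ 2 →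
  ∫ t in (0 : ℝ)..T, ‖riemannZeta (1 / 2 + I * t)‖ ^ (2 * k) ≤ C * T * Real.log T ^ (k ^ 2)

/-! ### D: near the critical line -/

/-- D1: zeta at distance `δ` -/
def KernelFormula : Prop := ∃ C : ℝ, 0 ≤ C ∧ ∀ δ x0 w1 : ℝ, 0 < δ → δ ≤ 1 / 4 → 1 ≤ x0 → 0 < w1 →
  1 ≤ δ * w1 → ∀ t : ℝ, 1 ≤ t → ∀ M : ℂ,
  ‖riemannZeta (pt δ t) - M‖
    ≤ C / w1 * (∫ x in x0..(x0 + w1), ‖evs (pt δ t) (al (Real.exp x)) - M‖)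
      + C * Real.exp (-(δ * x0)) * (∫ v : ℝ, w1 / (1 + w1 * |v|) ^ 6
        * ‖riemannZeta (1 / 2 + I * (t + v : ℝ))‖)
      + C * Real.exp ((x0 + w1) / 2) / t

/-- D2: the error of the kernel formula -/
def KernelError : Prop := ∃ C T0 : ℝ, 1 ≤ C ∧ 3 ≤ T0 ∧ ∀ T w1 k : ℝ, T0 ≤ T → 1 ≤ w1 → 1 ≤ k →
  k ≤ 2 → ∫ t in (0 : ℝ)..(2 * T), (∫ v : ℝ, w1 / (1 + w1 * |v|) ^ 6
        * ‖riemannZeta (1 / 2 + I * (t + v : ℝ))‖) ^ (2 * k) ≤ C * T * Real.log T ^ (k ^ 2)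

/-- D3: truncated sums at distance `δ` -/
def SharpNear : Prop := ∀ (w : ℝ → ℝ) (θ C : ℝ), 0 < θ → Wgt w θ C → ∀ η : ℝ, 0 < η →
  ∀ p0 : ℕ, 1000 ≤ p0 → ∃ Λ0 : ℝ, 1 ≤ Λ0 ∧ ∀ Λ : ℝ, Λ0 ≤ Λ → ∃ v1 : ℕ, ∀ v : ℕ, v1 ≤ v →
  ∃ K0 : ℝ, 1 ≤ K0 ∧ ∀ δ T z k : ℝ, 0 < δ → δ ≤ 1 / 4 → 1 ≤ T → K0 ≤ δ * Real.log T →
  T ^ (3 / 10 : ℝ) ≤ z → z ^ 2 ≤ T → 1 ≤ k → k ≤ 2 → ∀ J : ℕ, Jok v p0 (Λ / δ) J →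
  ∫ t : ℝ, w (t / T) * ‖ev t (tw δ (al z))
      - (evs (pt δ t) (Dsm p0))⁻¹ * ev t (tw δ (EI v p0 (Λ / δ) 0 J))‖ ^ (2 * k)
    ≤ η * (T * (1 / δ) ^ (k ^ 2))

/-- D4: the main term -/
def MainNear : Prop := ∀ (w : ℝ → ℝ) (θ C : ℝ), 0 < θ → Wgt w θ C → ∀ η : ℝ, 0 < η →
  ∃ p1 : ℕ, 1000 ≤ p1 ∧ ∀ p0 : ℕ, p1 ≤ p0 → ∀ Λ : ℝ, 1 ≤ Λ → ∃ v1 : ℕ, ∀ v : ℕ, v1 ≤ v →
  ∃ K0 : ℝ, 1 ≤ K0 ∧ ∀ δ T k : ℝ, 0 < δ → δ ≤ 1 / 4 → 1 ≤ T → K0 ≤ δ * Real.log T →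
  1 ≤ k → k ≤ 2 → ∀ J : ℕ, Jok v p0 (Λ / δ) J →
  ∫ t : ℝ, w (t / T) * ‖(evs (pt δ t) (Dsm p0))⁻¹ * ev t (tw δ (EI v p0 (Λ / δ) 0 J))‖ ^ (2 * k)
    ≤ ((∫ u, w u) + η) * (T * SS k (1 + 2 * δ))

/-- D5: size of the series -/
def SSLow : Prop := ∃ c : ℝ, 0 < c ∧ ∀ k δ : ℝ, 1 ≤ k → k ≤ 2 → 0 < δ → δ ≤ 1 / 4 →
  c * (1 / δ) ^ (k ^ 2) ≤ SS k (1 + 2 * δ)

/-- D6: upper bound with a weight -/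
def UpperWN : Prop := ∀ (w : ℝ → ℝ) (C : ℝ), Wgt w (1 / 4) C → ∀ η : ℝ, 0 < η →
  ∃ K0 : ℝ, 1 ≤ K0 ∧ ∀ δ T k : ℝ, 0 < δ → δ ≤ 1 / 4 → 1 ≤ T → K0 ≤ δ * Real.log T →
  1 ≤ k → k ≤ 2 → ∫ t : ℝ, w (t / T) * ‖riemannZeta (pt δ t)‖ ^ (2 * k)
    ≤ ((∫ u, w u) + η) * (T * SS k (1 + 2 * δ))

/-- D7: upper bound over `[0,T]` -/
def UpperNear : Prop := ∀ ε : ℝ, 0 < ε → ∃ K0 : ℝ, 1 ≤ K0 ∧ ∀ δ T k : ℝ, 0 < δ → δ ≤ 1 / 4 →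
  1 ≤ T → K0 ≤ δ * Real.log T → 1 ≤ k → k ≤ 2 → ML k δ T ≤ (1 + ε) * (T * SS k (1 + 2 * δ))

/-! ### E: the line, uniformly in the exponent -/

/-- E1: zeta at distance `δ` in terms of its values on the line -/
def KernelFull : Prop := ∃ C : ℝ, 0 ≤ C ∧ ∀ δ : ℝ, 0 < δ → δ ≤ 1 / 4 → ∀ t : ℝ, 1 ≤ t →
  ‖riemannZeta (pt δ t)‖ ≤ C * (∫ v : ℝ, (1 / δ) / (1 + (1 / δ) * |v|) ^ 6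
    * ‖riemannZeta (1 / 2 + I * (t + v : ℝ))‖) + C / t

/-- E2: lower bound of the right order, uniform in the exponent -/
def LowerOrder : Prop := ∃ c T0 : ℝ, 0 < c ∧ 3 ≤ T0 ∧ ∀ T k : ℝ, T0 ≤ T → 1 ≤ k → k ≤ 2 →
  c * T * Real.log T ^ (k ^ 2) ≤ ∫ t in (0 : ℝ)..T, ‖riemannZeta (1 / 2 + I * t)‖ ^ (2 * k)

end Pool.Agent.Lib.N4
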