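import Mathlib
import Pool.Agent.Lib.MP_f9aece_nt_n4.Stmts
import Pool.Agent.Lib.MP_f9aece_nt_h4.UpperFour
import Pool.Agent.Lib.MP_f9aece_nt.EM

/-!
Module D7 (UpperNear): from smooth weights to the moments over `[0,T]` at distance `δ` from the
critical line.
-/

set_option autoImplicit false

namespace Pool.Agent.Lib.N4

open MeasureTheory Set Filter Topology Complex
open Pool.Agent.Lib.MP_f9aece_nt (quad zeta_eq_quad quad_ne_one trap_bound' tail_sum_sq)
open Pool.Agent.Lib.NL (pt SS ML)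
open Pool.Agent.Lib.J4 (Wgt wgtTrap trap_eq_trap)
open Pool.Agent.Lib.J4.M1 (int_le_of_one)

namespace D7

lemma pt_re (δ t : ℝ) : (pt δ t).re = 1 / 2 + δ := by simp [pt]

lemma pt_im (δ t : ℝ) : (pt δ t).im = t := by simp [pt]

lemma pt_ne_one {δ : ℝ} (hδ : δ ≤ 1 / 4) (t : ℝ) : pt δ t ≠ 1 := by
  intro h
  have h1 := congrArg Complex.re h
  rw [pt_re, Complex.one_re] at h1
  linarith

lemma continuous_pt {δ : ℝ} (hδ : δ ≤ 1 / 4) : Continuous fun t : ℝ => riemannZeta (pt δ t) := by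
  rw [continuous_iff_continuousAt]
  intro t
  have h1 : ContinuousAt riemannZeta (pt δ t) :=
    (differentiableAt_riemannZeta (pt_ne_one hδ t)).continuousAt
  have h2 : ContinuousAt (fun t : ℝ => pt δ t) t := by
    unfold pt
    fun_prop
  exact ContinuousAt.comp (f := fun t : ℝ => pt δ t) h1 h2

/-- crude bound -/
lemma zeta_crude {δ t : ℝ} (h0 : 0 ≤ δ) (h1 : δ ≤ 1 / 4) (ht : 0 < t) :
    ‖riemannZeta (pt δ t)‖ ≤ 7 * (1 + t) ^ 2 := by
  set s := pt δ t with hs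
  have hre : s.re = 1 / 2 + δ := pt_re δ t
  have him : s.im = t := pt_im δ t
  have hq : s ∈ quad := ⟨by rw [hre]; linarith, by rw [him]; exact ht⟩
  have hs1 : s ≠ 1 := quad_ne_one hq
  have hn : ‖s‖ ≤ 1 + t := by
    refine (Complex.norm_le_abs_re_add_abs_im s).trans ?_
    rw [hre, him, abs_of_pos (by linarith), abs_of_pos ht]
    linarith
  have hn1 : ‖s + 1‖ ≤ 2 + t := by
    refine (norm_add_le _ _).trans ?_
    rw [norm_one]
    linarith
  have hd : 1 / 4 ≤ ‖s - 1‖ := by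
    have h2 := Complex.abs_re_le_norm (s - 1)
    rw [Complex.sub_re, hre, Complex.one_re] at h2
    have h3 : 1 / 4 ≤ |1 / 2 + δ - 1| := by
      rw [abs_of_nonpos (by linarith)]
      linarith
    linarith
  have hsum : Summable (fun n : ℕ => 1 / ((n + 1 : ℕ) : ℝ) ^ 2) :=
    (summable_nat_add_iff (f := fun n : ℕ => 1 / ((n : ℕ) : ℝ) ^ 2) 1).mpr
      (Real.summable_one_div_nat_pow.mpr (by norm_num : 1 < 2))
  have hterm : ∀ n : ℕ, ‖Pool.Agent.Lib.MP_f9aece_nt.trap (n + 1) s‖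
      ≤ ((1 + t) * (2 + t) / 2) * (1 / ((n + 1 : ℕ) : ℝ) ^ 2) := by
    intro n
    refine (trap_bound' (by omega) hq.1.le hs1).trans ?_
    gcongr
  have hB : ‖∑' n : ℕ, Pool.Agent.Lib.MP_f9aece_nt.trap (n + 1) s‖ ≤ (1 + t) * (2 + t) := by
    calc ‖∑' n : ℕ, Pool.Agent.Lib.MP_f9aece_nt.trap (n + 1) s‖
        ≤ ∑' n : ℕ, ((1 + t) * (2 + t) / 2) * (1 / ((n + 1 : ℕ) : ℝ) ^ 2) :=
          tsum_of_norm_bounded ((hsum.mul_left _).hasSum) hterm
      _ = ((1 + t) * (2 + t) / 2) * ∑' n : ℕ, (1 / ((n + 1 : ℕ) : ℝ) ^ 2) := tsum_mul_left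
      _ ≤ ((1 + t) * (2 + t) / 2) * (2 / (1 : ℕ)) := by
          gcongr
          exact tail_sum_sq 1 le_rfl
      _ = (1 + t) * (2 + t) := by
          push_cast
          ring
  have hC : ‖(1 : ℂ) / (s - 1)‖ ≤ 4 := by
    rw [norm_div, norm_one, div_le_iff₀ (by linarith)]
    linarith
  rw [zeta_eq_quad hq]
  refine (norm_add_le _ _).trans ?_
  have h4 : ‖(1 : ℂ) / 2 + 1 / (s - 1)‖ ≤ 1 / 2 + 4 := by
    refine (norm_add_le _ _).trans ?_
    have : ‖(1 : ℂ) / 2‖ = 1 / 2 := by norm_num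
    rw [this]
    linarith
  nlinarith

/-- the trivial range -/
lemma trivial_range {δ k X : ℝ} (h0 : 0 ≤ δ) (h1 : δ ≤ 1 / 4) (hk1 : 1 ≤ k) (hk2 : k ≤ 2)
    (hX : 1 ≤ X) :
    ∫ t in (0 : ℝ)..X, ‖riemannZeta (pt δ t)‖ ^ (2 * k) ≤ 614656 * X ^ 9 := by
  have hc : Continuous fun t : ℝ => ‖riemannZeta (pt δ t)‖ ^ (2 * k) :=
    (continuous_pt h1).norm.rpow_const fun _ => Or.inr (by linarith)
  have h2 : ∀ t ∈ Ioc (0 : ℝ) X, ‖riemannZeta (pt δ t)‖ ^ (2 * k) ≤ 614656 * X ^ 8 := by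
    intro t ht
    have h3 := zeta_crude h0 h1 ht.1
    have h4 : 1 ≤ 7 * (1 + t) ^ 2 := by nlinarith [ht.1]
    calc ‖riemannZeta (pt δ t)‖ ^ (2 * k) ≤ (7 * (1 + t) ^ 2) ^ (2 * k) :=
          Real.rpow_le_rpow (norm_nonneg _) h3 (by linarith)
      _ ≤ (7 * (1 + t) ^ 2) ^ (4 : ℝ) := Real.rpow_le_rpow_of_exponent_le h4 (by linarith)
      _ = (7 * (1 + t) ^ 2) ^ 4 := by exact_mod_cast Real.rpow_natCast _ 4
      _ ≤ (7 * (2 * X) ^ 2) ^ 4 := by
          have h5 : 0 ≤ 1 + t := by linarith [ht.1]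
          have h6 : 1 + t ≤ 2 * X := by linarith [ht.2]
          gcongr
      _ = 614656 * X ^ 8 := by ring
  have h3 : ∫ t in (0 : ℝ)..X, ‖riemannZeta (pt δ t)‖ ^ (2 * k)
      ≤ ∫ _t in (0 : ℝ)..X, 614656 * X ^ 8 := by
    refine intervalIntegral.integral_mono_on_of_le_Ioo (by linarith) (hc.intervalIntegrable _ _)
      (continuous_const.intervalIntegrable _ _) fun t ht => h2 t ⟨ht.1, ht.2.le⟩
  refine h3.trans (le_of_eq ?_)
  rw [intervalIntegral.integral_const, smul_eq_mul]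
  ring

/-- dyadic summation -/
lemma dyadic {F : ℝ → ℝ} (hF : Continuous F) (hF0 : ∀ t, 0 ≤ F t) {X1 A c : ℝ} (hX1 : 1 ≤ X1)
    (hc : 0 ≤ c) (hA : ∫ t in (0 : ℝ)..X1, F t ≤ A)
    {T : ℝ} (h : ∀ X : ℝ, X1 ≤ X → X ≤ T → ∫ t in (X / 2)..X, F t ≤ c * X) :
    ∀ n : ℕ, ∀ X : ℝ, X1 ≤ X → X ≤ T → X ≤ 2 ^ n * X1 →
      ∫ t in (0 : ℝ)..X, F t ≤ A + 2 * c * X := by
  have hint : ∀ x y : ℝ, IntervalIntegrable F volume x y := fun x y => hF.intervalIntegrable x y
  intro n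
  induction n with
  | zero =>
    intro X h1 _ h2
    have h3 : X = X1 := le_antisymm (by simpa using h2) h1
    rw [h3]
    have h4 : 0 ≤ 2 * c * X1 := by positivity
    linarith
  | succ n ih =>
    intro X h1 hXT h2
    have hX : 0 < X := by linarith
    rw [← intervalIntegral.integral_add_adjacent_intervals (hint 0 (X / 2)) (hint (X / 2) X)]
    have h3 := h X h1 hXT
    have h4 : 0 ≤ c * X := by positivity
    rcases le_total (X / 2) X1 with h5 | h5
    · have h6 : ∫ t in (0 : ℝ)..(X / 2), F t ≤ ∫ t in (0 : ℝ)..X1, F t := by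
        refine intervalIntegral.integral_mono_interval le_rfl (by linarith) h5
          (Eventually.of_forall fun t => hF0 t) (hint _ _)
      linarith
    · have h6 := ih (X / 2) h5 (by linarith) (by rw [pow_succ] at h2; linarith)
      linarith

end D7

open D7

/-- D7: upper bound over `[0,T]` -/
theorem upperNear (h1 : UpperWN) (h2 : SSLow) : UpperNear := by
  intro ε hε
  obtain ⟨c0, hc0, hSS⟩ := h2
  set e : ℝ := min (ε / 8) (1 / 4) with he
  have he0 : 0 < e := lt_min (by positivity) (by norm_num)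
  have heε : e ≤ ε / 8 := min_le_left _ _
  have he4 : e ≤ 1 / 4 := min_le_right _ _
  obtain ⟨C, hw⟩ := wgtTrap (1 / 2 - e) (1 + e) e (by linarith) he0 (by linarith) (by linarith)
  have hw' : Wgt (Pool.Agent.Lib.J4.trap (1 / 2 - e) (1 + e) e) (1 / 4) C :=
    { nonneg := hw.nonneg
      le_one := hw.le_one
      supp := fun u hu => ⟨by linarith [(hw.supp u hu).1], (hw.supp u hu).2⟩
      lip := hw.lip
      four := hw.four }
  obtain ⟨K1, hK1, hU⟩ := h1 _ C hw' e he0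
  have hi : ∫ u, Pool.Agent.Lib.J4.trap (1 / 2 - e) (1 + e) e u = 1 / 2 + e := by
    rw [trap_eq_trap, Pool.Agent.H4.MVal.integral_trap he0 (by linarith)]
    ring
  set K2 : ℝ := 614656 * 2 / (c0 * ε) with hK2
  have hK20 : 0 < K2 := by positivity
  refine ⟨max (18 * K1) K2, le_max_of_le_left (by linarith), fun δ T k hδ hδ1 hT hKT hk1 hk2 => ?_⟩
  have hKT1 : 18 * K1 ≤ δ * Real.log T := (le_max_left _ _).trans hKT
  have hKT2 : K2 ≤ δ * Real.log T := (le_max_right _ _).trans hKT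
  have hT0 : 0 < T := by linarith
  have hlog : 0 ≤ Real.log T := Real.log_nonneg hT
  set X1 : ℝ := T ^ (1 / 18 : ℝ) with hX1
  have hX11 : 1 ≤ X1 := Real.one_le_rpow hT (by norm_num)
  have hX1T : X1 ≤ T := by
    calc X1 ≤ T ^ (1 : ℝ) := Real.rpow_le_rpow_of_exponent_le hT (by norm_num)
      _ = T := Real.rpow_one T
  have hlogX : Real.log X1 = Real.log T / 18 := by
    rw [hX1, Real.log_rpow hT0]
    ring
  set S := SS k (1 + 2 * δ) with hS
  have hSlow : c0 ≤ S := by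
    refine le_trans ?_ (hSS k δ hk1 hk2 hδ hδ1)
    have h3 : 1 ≤ (1 / δ) ^ (k ^ 2) := by
      refine Real.one_le_rpow ?_ (by positivity)
      rw [le_div_iff₀ hδ]
      linarith
    nlinarith
  have hS0 : 0 < S := lt_of_lt_of_le hc0 hSlow
  have hF : Continuous fun t : ℝ => ‖riemannZeta (pt δ t)‖ ^ (2 * k) :=
    (continuous_pt hδ1).norm.rpow_const fun _ => Or.inr (by linarith)
  have hF0 : ∀ t : ℝ, 0 ≤ ‖riemannZeta (pt δ t)‖ ^ (2 * k) := fun t => by positivity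
  have hblock : ∀ X : ℝ, X1 ≤ X → X ≤ T →
      ∫ t in (X / 2)..X, ‖riemannZeta (pt δ t)‖ ^ (2 * k) ≤ ((1 / 2 + e + e) * S) * X := by
    intro X hX _
    have hX0 : 0 < X := by linarith
    have h3 : K1 ≤ δ * Real.log X := by
      have h4 : Real.log X1 ≤ Real.log X := Real.log_le_log (by linarith) hX
      rw [hlogX] at h4
      have h5 : δ * (Real.log T / 18) ≤ δ * Real.log X := mul_le_mul_of_nonneg_left h4 hδ.le
      linarith
    have h4 := hU δ X k hδ hδ1 (by linarith) h3 hk1 hk2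
    rw [hi, ← hS] at h4
    have h5 := int_le_of_one hw' hX0 (by linarith : X / 2 ≤ X) hF hF0 (by
      intro t ht1 ht2
      rw [trap_eq_trap]
      refine Pool.Agent.H4.MVal.trap_one he0 ?_ ?_
      · rw [le_div_iff₀ hX0]
        linarith
      · rw [div_le_iff₀ hX0]
        linarith)
    refine (h5.trans h4).trans (le_of_eq ?_)
    ring
  obtain ⟨n, hn⟩ := pow_unbounded_of_one_lt (T / X1) (by norm_num : (1 : ℝ) < 2)
  rw [div_lt_iff₀ (by linarith)] at hn
  have hdy := dyadic hF hF0 hX11 (by positivity : (0 : ℝ) ≤ (1 / 2 + e + e) * S)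
    (trivial_range hδ.le hδ1 hk1 hk2 hX11) hblock n T hX1T le_rfl hn.le
  have hML : ML k δ T = ∫ t in (0 : ℝ)..T, ‖riemannZeta (pt δ t)‖ ^ (2 * k) := rfl
  rw [hML]
  refine hdy.trans ?_
  -- the trivial part
  have hX9 : X1 ^ 9 = T ^ (1 / 2 : ℝ) := by
    rw [hX1, ← Real.rpow_natCast, ← Real.rpow_mul hT0.le]
    norm_num
  have hroot : K2 ≤ T ^ (1 / 2 : ℝ) := by
    have h3 : Real.log (T ^ (1 / 2 : ℝ)) ≤ T ^ (1 / 2 : ℝ) :=
      (Real.log_le_sub_one_of_pos (by positivity)).trans (by linarith)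
    rw [Real.log_rpow hT0] at h3
    have h4 : δ * Real.log T ≤ 1 / 4 * Real.log T := mul_le_mul_of_nonneg_right hδ1 hlog
    linarith
  have hA : 614656 * X1 ^ 9 ≤ ε / 2 * (T * S) := by
    rw [hX9]
    have h3 : T ^ (1 / 2 : ℝ) * T ^ (1 / 2 : ℝ) = T := by
      rw [← Real.rpow_add hT0]
      norm_num
    have h4 : 614656 = ε / 2 * K2 * c0 := by
      rw [hK2]
      field_simp
    have hr0 : 0 < T ^ (1 / 2 : ℝ) := by positivity
    calc 614656 * T ^ (1 / 2 : ℝ) = ε / 2 * (K2 * T ^ (1 / 2 : ℝ) * c0) := by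
          rw [h4]
          ring
      _ ≤ ε / 2 * (T ^ (1 / 2 : ℝ) * T ^ (1 / 2 : ℝ) * S) := by
          gcongr
      _ = ε / 2 * (T * S) := by rw [h3]
  have hTS : 0 ≤ T * S := by positivity
  have h5 : 2 * ((1 / 2 + e + e) * S) * T = (1 + 4 * e) * (T * S) := by ring
  rw [h5]
  have h6 : (1 + 4 * e) * (T * S) ≤ (1 + ε / 2) * (T * S) :=
    mul_le_mul_of_nonneg_right (by linarith) hTS
  have h7 : (1 + ε / 2) * (T * S) + ε / 2 * (T * S) = (1 + ε) * (T * S) := by ring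
  linarith

end Pool.Agent.Lib.N4
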