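import Pool.Agent.Lib.MP_f9aece_nt_n4.RightOrder
import Pool.Agent.Lib.MP_f9aece_nt_h20.Smooth

/-!
Mean values of the kernel average of zeta on the critical line; D2 (`KernelError`).
-/

set_option autoImplicit false

namespace Pool.Agent.Lib.N4

open MeasureTheory Set Filter Topology Complex
open scoped ComplexConjugate
open Pool.Agent.Lib.MP_f9aece_nt_h20.Cz (continuous_zeta)

namespace KM

/-- the size of zeta on the line -/
noncomputable def Z (t : ℝ) : ℝ := ‖riemannZeta (1 / 2 + I * t)‖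

/-- the kernel -/
noncomputable def ph (w v : ℝ) : ℝ := w / (1 + w * |v|) ^ 6

lemma Z_cont : Continuous Z := continuous_zeta.norm

lemma Z_nonneg (t : ℝ) : 0 ≤ Z t := norm_nonneg _

lemma Z_neg (t : ℝ) : Z (-t) = Z t := by
  unfold Z
  have h1 : (1 / 2 + I * ((-t : ℝ) : ℂ)) = conj (1 / 2 + I * (t : ℂ)) := by
    apply Complex.ext <;> simp
  rw [h1, riemannZeta_conj, Complex.norm_conj]

lemma Z_le (t : ℝ) : Z t ≤ 20 * (1 + |t|) := by
  have h1 := Pool.Agent.H20.Smooth.norm_zeta_le_sqrt t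
  have h2 : Real.sqrt (1 + |t|) ≤ 1 + |t| := by
    rw [Real.sqrt_le_left (by positivity)]
    have := abs_nonneg t
    nlinarith
  unfold Z
  linarith

lemma ph_nonneg {w : ℝ} (hw : 0 ≤ w) (v : ℝ) : 0 ≤ ph w v := by unfold ph; positivity

lemma ph_cont {w : ℝ} (hw : 0 ≤ w) : Continuous (ph w) := by
  unfold ph
  refine continuous_const.div (by fun_prop) fun v => ?_
  positivity

lemma ph_le_inv {w : ℝ} (hw : 0 ≤ w) (v : ℝ) : ph w v ≤ w * (1 + (w * v) ^ 2)⁻¹ := by
  unfold ph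
  rw [div_eq_mul_inv]
  refine mul_le_mul_of_nonneg_left ?_ hw
  refine inv_anti₀ (by positivity) ?_
  have h1 : (w * v) ^ 2 = (w * |v|) ^ 2 := by rw [mul_pow, mul_pow, sq_abs]
  rw [h1]
  have hx : 0 ≤ w * |v| := by positivity
  set x := w * |v| with hx'
  have h2 : 1 + x ^ 2 ≤ (1 + x) ^ 2 := by nlinarith
  have h3 : (1 + x) ^ 2 ≤ (1 + x) ^ 6 := pow_le_pow_right₀ (by linarith) (by norm_num)
  linarith

lemma ph_integrable {w : ℝ} (hw : 0 < w) : Integrable (ph w) := by
  have h1 : Integrable fun v : ℝ => w * (1 + (w * v) ^ 2)⁻¹ :=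
    ((integrable_inv_one_add_sq).comp_mul_left' hw.ne').const_mul w
  refine h1.mono' (ph_cont hw.le).aestronglyMeasurable (Eventually.of_forall fun v => ?_)
  rw [Real.norm_eq_abs, abs_of_nonneg (ph_nonneg hw.le v)]
  exact ph_le_inv hw.le v

lemma ph_mass {w : ℝ} (hw : 0 < w) : ∫ v, ph w v ≤ Real.pi := by
  have h1 : Integrable fun v : ℝ => w * (1 + (w * v) ^ 2)⁻¹ :=
    ((integrable_inv_one_add_sq).comp_mul_left' hw.ne').const_mul w
  refine (integral_mono (ph_integrable hw) h1 fun v => ph_le_inv hw.le v).trans (le_of_eq ?_)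
  rw [integral_const_mul, Measure.integral_comp_mul_left (fun x : ℝ => (1 + x ^ 2)⁻¹) w,
    integral_univ_inv_one_add_sq, smul_eq_mul, abs_of_pos (inv_pos.2 hw), ← mul_assoc,
    mul_inv_cancel₀ hw.ne', one_mul]

lemma ph_mass_on {w : ℝ} (hw : 0 < w) (s : Set ℝ) : ∫ v in s, ph w v ≤ Real.pi :=
  (setIntegral_le_integral (ph_integrable hw)
    (Eventually.of_forall fun v => ph_nonneg hw.le v)).trans (ph_mass hw)

lemma ph_decay {w : ℝ} (hw : 1 ≤ w) {v : ℝ} (hv : 1 ≤ |v|) : ph w v ≤ (|v| ^ 6)⁻¹ := by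
  unfold ph
  have hv0 : 0 < |v| := by linarith
  have hw0 : 0 < w := by linarith
  rw [div_le_iff₀ (by positivity), ← div_eq_inv_mul, le_div_iff₀ (by positivity)]
  have h1 : (w * |v|) ^ 6 ≤ (1 + w * |v|) ^ 6 := by
    refine pow_le_pow_left₀ (by positivity) (by linarith) 6
  have h2 : w ≤ w ^ 6 := by
    calc w = w ^ 1 := (pow_one w).symm
      _ ≤ w ^ 6 := pow_le_pow_right₀ hw (by norm_num)
  have h3 : w * |v| ^ 6 ≤ (w * |v|) ^ 6 := by
    rw [mul_pow]
    exact mul_le_mul_of_nonneg_right h2 (by positivity)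
  linarith

/-- the tangent inequality -/
lemma tangent {y m q : ℝ} (hy : 0 ≤ y) (hm : 0 < m) (hq : 1 ≤ q) :
    m ^ q * (1 - q) + q * m ^ (q - 1) * y ≤ y ^ q := by
  have h2 := one_add_mul_self_le_rpow_one_add (s := y / m - 1) (by
    have : 0 ≤ y / m := by positivity
    linarith) hq
  have h3 : 1 + (y / m - 1) = y / m := by ring
  rw [h3, Real.div_rpow hy hm.le] at h2
  have h4 : 0 < m ^ q := by positivity
  rw [le_div_iff₀ h4] at h2
  refine le_trans (le_of_eq ?_) h2
  rw [Real.rpow_sub_one hm.ne']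
  field_simp
  ring

/-- Jensen with a weight -/
lemma jensen_w {μ : Measure ℝ} {φ g : ℝ → ℝ} {M q : ℝ} (hM : 0 < M) (hq : 1 ≤ q)
    (hφ : ∀ x, 0 ≤ φ x) (hg : ∀ x, 0 ≤ g x) (i0 : Integrable φ μ)
    (i1 : Integrable (fun x => φ x * g x) μ) (i2 : Integrable (fun x => φ x * g x ^ q) μ)
    (hm : ∫ x, φ x ∂μ ≤ M) :
    (∫ x, φ x * g x ∂μ) ^ q ≤ M ^ (q - 1) * ∫ x, φ x * g x ^ q ∂μ := by
  have hq0 : 0 < q := by linarith
  set A := ∫ x, φ x * g x ∂μ with hA
  have hA0 : 0 ≤ A := integral_nonneg fun x => mul_nonneg (hφ x) (hg x)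
  have hB0 : 0 ≤ ∫ x, φ x * g x ^ q ∂μ :=
    integral_nonneg fun x => mul_nonneg (hφ x) (Real.rpow_nonneg (hg x) q)
  rcases hA0.eq_or_lt with h0 | h0
  · rw [← h0, Real.zero_rpow hq0.ne']
    positivity
  set m := A / M with hm'
  have hmp : 0 < m := by positivity
  have h1 : ∫ x, (m ^ q * (1 - q) * φ x + q * m ^ (q - 1) * (φ x * g x)) ∂μ
      ≤ ∫ x, φ x * g x ^ q ∂μ := by
    refine integral_mono ((i0.const_mul _).add (i1.const_mul _)) i2 fun x => ?_
    have h2 := mul_le_mul_of_nonneg_left (tangent (hg x) hmp hq) (hφ x)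
    simp only
    linarith
  rw [integral_add (i0.const_mul _) (i1.const_mul _), integral_const_mul, integral_const_mul,
    ← hA] at h1
  have h2 : m ^ (q - 1) * A = m ^ q * M := by
    have h3 : A = m * M := by rw [hm']; field_simp
    rw [h3, Real.rpow_sub_one hmp.ne']
    field_simp
  have h3 : m ^ q * M ≤ m ^ q * (1 - q) * ∫ x, φ x ∂μ + q * m ^ (q - 1) * A := by
    have h4 : q * m ^ (q - 1) * A = q * (m ^ q * M) := by rw [mul_assoc, h2]
    rw [h4]
    have h5 : 0 ≤ m ^ q := by positivity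
    have h6 : 0 ≤ m ^ q * ((q - 1) * (M - ∫ x, φ x ∂μ)) :=
      mul_nonneg h5 (mul_nonneg (by linarith) (by linarith))
    linarith
  have h4 : A ^ q = M ^ (q - 1) * (m ^ q * M) := by
    have h5 : A = M * m := by rw [hm']; field_simp
    rw [h5, Real.mul_rpow hM.le hmp.le, Real.rpow_sub_one hM.ne']
    field_simp
  rw [h4]
  have h5 : 0 ≤ M ^ (q - 1) := by positivity
  exact mul_le_mul_of_nonneg_left (h3.trans h1) h5

lemma phZ_integrable {w : ℝ} (hw : 1 ≤ w) (t : ℝ) : Integrable fun v => ph w v * Z (t + v) := by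
  have hw0 : 0 < w := by linarith
  have hc : Continuous fun v => ph w v * Z (t + v) :=
    (ph_cont hw0.le).mul (Z_cont.comp (continuous_const.add continuous_id))
  refine ((integrable_inv_one_add_sq).const_mul (20 * w * (1 + |t|))).mono'
    hc.aestronglyMeasurable (Eventually.of_forall fun v => ?_)
  rw [Real.norm_eq_abs, abs_of_nonneg (mul_nonneg (ph_nonneg hw0.le v) (Z_nonneg _))]
  have hv := abs_nonneg v
  have ht := abs_nonneg t
  have h1 : ph w v ≤ w * ((1 + |v|) ^ 6)⁻¹ := by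
    unfold ph
    rw [div_eq_mul_inv]
    refine mul_le_mul_of_nonneg_left (inv_anti₀ (by positivity) ?_) hw0.le
    refine pow_le_pow_left₀ (by positivity) ?_ 6
    nlinarith
  have h2 : Z (t + v) ≤ 20 * ((1 + |t|) * (1 + |v|)) := by
    refine (Z_le _).trans ?_
    have := abs_add_le t v
    nlinarith
  have h3 : ((1 + |v|) ^ 6)⁻¹ * (1 + |v|) ≤ (1 + v ^ 2)⁻¹ := by
    rw [← div_eq_inv_mul, div_le_iff₀ (by positivity), ← div_eq_inv_mul,
      le_div_iff₀ (by positivity)]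
    have h4 : 1 + v ^ 2 ≤ (1 + |v|) ^ 2 := by
      rw [← sq_abs v]; nlinarith
    have h5 : (1 + |v|) ^ 3 ≤ (1 + |v|) ^ 6 := pow_le_pow_right₀ (by linarith) (by norm_num)
    calc (1 + |v|) * (1 + v ^ 2) ≤ (1 + |v|) * (1 + |v|) ^ 2 := by gcongr
      _ = (1 + |v|) ^ 3 := by ring
      _ ≤ _ := h5
  calc ph w v * Z (t + v) ≤ (w * ((1 + |v|) ^ 6)⁻¹) * (20 * ((1 + |t|) * (1 + |v|))) :=
        mul_le_mul h1 h2 (Z_nonneg _) (by positivity)
    _ = 20 * w * (1 + |t|) * (((1 + |v|) ^ 6)⁻¹ * (1 + |v|)) := by ring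
    _ ≤ 20 * w * (1 + |t|) * (1 + v ^ 2)⁻¹ := by gcongr

lemma tail_le {w T t : ℝ} (hw : 1 ≤ w) (hT : 1 ≤ T) (ht0 : 0 ≤ t) (htT : t ≤ T) :
    ∫ v in (Icc (-T) T)ᶜ, ph w v * Z (t + v) ≤ 120 * Real.pi / T := by
  have hT0 : 0 < T := by linarith
  have hi : Integrable fun v : ℝ => 120 / T * (1 + v ^ 2)⁻¹ :=
    (integrable_inv_one_add_sq).const_mul _
  have h1 : ∫ v in (Icc (-T) T)ᶜ, ph w v * Z (t + v)
      ≤ ∫ v in (Icc (-T) T)ᶜ, 120 / T * (1 + v ^ 2)⁻¹ := by
    refine setIntegral_mono_on (phZ_integrable hw t).integrableOn hi.integrableOn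
      measurableSet_Icc.compl fun v hv => ?_
    have hv1 : T < |v| := by
      by_contra hcon
      push Not at hcon
      exact hv (abs_le.1 hcon)
    have hv0 : 0 < |v| := by linarith
    have h2 : Z (t + v) ≤ 60 * |v| := by
      refine (Z_le _).trans ?_
      have h3 := abs_add_le t v
      rw [abs_of_nonneg ht0] at h3
      linarith
    have h4 := ph_decay hw (v := v) (by linarith)
    have h5 : (|v| ^ 6)⁻¹ * (60 * |v|) ≤ 120 / T * (1 + v ^ 2)⁻¹ := by
      rw [← div_eq_inv_mul, ← div_eq_mul_inv, div_div, div_le_div_iff₀ (by positivity)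
        (by positivity)]
      rw [← sq_abs v]
      set x := |v| with hx
      have hx1 : 1 ≤ x := by linarith
      have e1 : T * (1 + x ^ 2) ≤ x * (2 * x ^ 4) := by
        refine mul_le_mul hv1.le ?_ (by positivity) hv0.le
        have e2 : x ^ 2 ≤ x ^ 4 := pow_le_pow_right₀ hx1 (by norm_num)
        have e3 : 1 ≤ x ^ 4 := one_le_pow₀ hx1
        linarith
      calc 60 * x * (T * (1 + x ^ 2)) ≤ 60 * x * (x * (2 * x ^ 4)) := by gcongr
        _ = 120 * x ^ 6 := by ring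
    calc ph w v * Z (t + v) ≤ (|v| ^ 6)⁻¹ * (60 * |v|) :=
          mul_le_mul h4 h2 (Z_nonneg _) (by positivity)
      _ ≤ _ := h5
  refine h1.trans ?_
  have h2 : ∫ v in (Icc (-T) T)ᶜ, 120 / T * (1 + v ^ 2)⁻¹ ≤ ∫ v : ℝ, 120 / T * (1 + v ^ 2)⁻¹ :=
    setIntegral_le_integral hi (Eventually.of_forall fun v => by positivity)
  refine h2.trans (le_of_eq ?_)
  rw [integral_const_mul, integral_univ_inv_one_add_sq]
  ring

/-- mean values of the kernel average -/
theorem kernel_moment : ∃ C : ℝ, 1 ≤ C ∧ ∀ T w q : ℝ, 1 ≤ T → 1 ≤ w → 1 ≤ q → q ≤ 4 →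
    IntegrableOn (fun t : ℝ => (∫ v : ℝ, w / (1 + w * |v|) ^ 6
        * ‖riemannZeta (1 / 2 + I * (t + v : ℝ))‖) ^ q) (Ioc 0 T) ∧
    ∫ t in (0 : ℝ)..T, (∫ v : ℝ, w / (1 + w * |v|) ^ 6
        * ‖riemannZeta (1 / 2 + I * (t + v : ℝ))‖) ^ q
      ≤ C * (1 + ∫ t in (0 : ℝ)..(2 * T), ‖riemannZeta (1 / 2 + I * t)‖ ^ q) := by
  have hπ := Real.pi_gt_three
  set C : ℝ := 8 * (2 * Real.pi ^ 4 + (120 * Real.pi) ^ 4) with hC
  have hC1 : 1 ≤ C := by
    have : 1 ≤ Real.pi ^ 4 := one_le_pow₀ (by linarith)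
    have h2 : 0 ≤ (120 * Real.pi) ^ 4 := by positivity
    linarith
  refine ⟨C, hC1, ?_⟩
  intro T w q hT hw hq1 hq4
  have hT0 : 0 < T := by linarith
  have hw0 : 0 < w := by linarith
  have hq0 : 0 ≤ q := by linarith
  have hZq : Continuous fun t => Z t ^ q := Z_cont.rpow_const fun _ => Or.inr hq0
  have hZq0 : ∀ t, 0 ≤ Z t ^ q := fun t => Real.rpow_nonneg (Z_nonneg t) q
  set G : ℝ → ℝ := fun t => ∫ v : ℝ, ph w v * Z (t + v) with hG
  set H : ℝ → ℝ := fun t => ∫ v in Icc (-T) T, ph w v * Z (t + v) ^ q with hH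
  change IntegrableOn (fun t => G t ^ q) (Ioc 0 T) ∧
    ∫ t in (0 : ℝ)..T, G t ^ q ≤ C * (1 + ∫ t in (0 : ℝ)..(2 * T), Z t ^ q)
  have hG0 : ∀ t, 0 ≤ G t := fun t =>
    integral_nonneg fun v => mul_nonneg (ph_nonneg hw0.le v) (Z_nonneg _)
  have hH0 : ∀ t, 0 ≤ H t := fun t =>
    setIntegral_nonneg measurableSet_Icc fun v _ => mul_nonneg (ph_nonneg hw0.le v) (hZq0 _)
  -- pointwise
  have hpt : ∀ t ∈ Ioc 0 T, G t ^ q ≤ 8 * (Real.pi ^ (q - 1) * H t + (120 * Real.pi / T) ^ q) := by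
    intro t ht
    have e1 : G t = (∫ v in Icc (-T) T, ph w v * Z (t + v))
        + ∫ v in (Icc (-T) T)ᶜ, ph w v * Z (t + v) :=
      (integral_add_compl measurableSet_Icc (phZ_integrable hw t)).symm
    have n1 : 0 ≤ ∫ v in Icc (-T) T, ph w v * Z (t + v) :=
      setIntegral_nonneg measurableSet_Icc fun v _ => mul_nonneg (ph_nonneg hw0.le v) (Z_nonneg _)
    have n2 : 0 ≤ ∫ v in (Icc (-T) T)ᶜ, ph w v * Z (t + v) :=
      setIntegral_nonneg measurableSet_Icc.compl fun v _ =>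
        mul_nonneg (ph_nonneg hw0.le v) (Z_nonneg _)
    have e2 : (∫ v in (Icc (-T) T)ᶜ, ph w v * Z (t + v)) ^ q ≤ (120 * Real.pi / T) ^ q :=
      Real.rpow_le_rpow n2 (tail_le hw hT ht.1.le ht.2) hq0
    have hcZ : Continuous fun v => Z (t + v) := Z_cont.comp (continuous_const.add continuous_id)
    have e3 : (∫ v in Icc (-T) T, ph w v * Z (t + v)) ^ q ≤ Real.pi ^ (q - 1) * H t := by
      refine jensen_w (μ := volume.restrict (Icc (-T) T)) (φ := ph w) (g := fun v => Z (t + v))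
        Real.pi_pos hq1 (ph_nonneg hw0.le) (fun v => Z_nonneg _)
        (ph_integrable hw0).integrableOn (phZ_integrable hw t).integrableOn ?_
        (ph_mass_on hw0 _)
      exact ((ph_cont hw0.le).mul (hZq.comp (continuous_const.add continuous_id))).integrableOn_Icc
    rw [e1]
    refine (L3.add_rpow_le n1 n2 hq1 hq4).trans ?_
    linarith
  -- Fubini
  have hprod : Integrable (Function.uncurry fun t v => ph w v * Z (t + v) ^ q)
      ((volume.restrict (Ioc 0 T)).prod (volume.restrict (Icc (-T) T))) := by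
    rw [Measure.prod_restrict]
    have hc : Continuous (Function.uncurry fun t v => ph w v * Z (t + v) ^ q) :=
      ((ph_cont hw0.le).comp continuous_snd).mul (hZq.comp (continuous_fst.add continuous_snd))
    have h1 : IntegrableOn (Function.uncurry fun t v => ph w v * Z (t + v) ^ q)
        (Icc 0 T ×ˢ Icc (-T) T) (volume.prod volume) :=
      hc.continuousOn.integrableOn_compact (isCompact_Icc.prod isCompact_Icc)
    exact h1.mono_set (prod_mono Ioc_subset_Icc_self Subset.rfl)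
  have hHi : IntegrableOn H (Ioc 0 T) := hprod.integral_prod_left
  set S : ℝ := ∫ t in (0 : ℝ)..(2 * T), Z t ^ q with hS
  have hS0 : 0 ≤ S := intervalIntegral.integral_nonneg (by linarith) fun t _ => hZq0 t
  have hint : ∀ a b : ℝ, IntervalIntegrable (fun t => Z t ^ q) volume a b := fun a b =>
    hZq.intervalIntegrable a b
  have hwide : ∫ t in (-T)..(2 * T), Z t ^ q ≤ 2 * S := by
    rw [← intervalIntegral.integral_add_adjacent_intervals (hint (-T) 0) (hint 0 (2 * T))]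
    have e1 : ∫ t in (-T)..0, Z t ^ q = ∫ t in (0 : ℝ)..T, Z t ^ q := by
      have e2 := intervalIntegral.integral_comp_neg (a := 0) (b := T) fun t => Z t ^ q
      rw [neg_zero] at e2
      rw [← e2]
      refine intervalIntegral.integral_congr fun t _ => ?_
      simp only [Z_neg]
    have e3 : ∫ t in (0 : ℝ)..T, Z t ^ q ≤ S := by
      rw [hS, ← intervalIntegral.integral_add_adjacent_intervals (hint 0 T) (hint T (2 * T))]
      have := intervalIntegral.integral_nonneg (μ := volume) (by linarith : T ≤ 2 * T)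
        fun t _ => hZq0 t
      linarith
    rw [e1]
    linarith
  have hM : ∀ v ∈ Icc (-T) T, ∫ t in Ioc 0 T, ph w v * Z (t + v) ^ q ≤ ph w v * (2 * S) := by
    intro v hv
    rw [integral_const_mul]
    refine mul_le_mul_of_nonneg_left ?_ (ph_nonneg hw0.le v)
    rw [← intervalIntegral.integral_of_le hT0.le,
      intervalIntegral.integral_comp_add_right (fun t => Z t ^ q) v]
    refine le_trans ?_ hwide
    refine intervalIntegral.integral_mono_interval (by linarith [hv.1]) (by linarith)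
      (by linarith [hv.2]) (Eventually.of_forall fun t => hZq0 t) (hint _ _)
  have hHint : ∫ t in Ioc 0 T, H t ≤ Real.pi * (2 * S) := by
    have e1 : ∫ t in Ioc 0 T, H t
        = ∫ v in Icc (-T) T, ∫ t in Ioc 0 T, ph w v * Z (t + v) ^ q :=
      integral_integral_swap hprod
    rw [e1]
    have hi2 : IntegrableOn (fun v => ph w v * (2 * S)) (Icc (-T) T) :=
      ((ph_integrable hw0).mul_const _).integrableOn
    refine (setIntegral_mono_on hprod.integral_prod_right hi2 measurableSet_Icc hM).trans ?_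
    rw [integral_mul_const]
    exact mul_le_mul_of_nonneg_right (ph_mass_on hw0 _) (by positivity)
  -- conclusion
  have hfin : volume (Ioc 0 T) ≠ ⊤ := by rw [Real.volume_Ioc]; exact ENNReal.ofReal_ne_top
  have hc1 : Integrable (fun _ : ℝ => (120 * Real.pi / T) ^ q) (volume.restrict (Ioc 0 T)) :=
    integrableOn_const hfin
  have hH1 : Integrable (fun t : ℝ => Real.pi ^ (q - 1) * H t) (volume.restrict (Ioc 0 T)) :=
    hHi.const_mul _
  have hGm : Measurable G := by
    have hc : Continuous (Function.uncurry fun t v => ph w v * Z (t + v)) :=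
      ((ph_cont hw0.le).comp continuous_snd).mul (Z_cont.comp (continuous_fst.add continuous_snd))
    exact (hc.stronglyMeasurable.integral_prod_right (ν := volume)).measurable
  refine ⟨((hH1.add hc1).const_mul 8).mono' (hGm.pow_const q).aestronglyMeasurable ?_, ?_⟩
  · filter_upwards [ae_restrict_mem measurableSet_Ioc] with t ht
    rw [Real.norm_eq_abs, abs_of_nonneg (Real.rpow_nonneg (hG0 t) q)]
    exact hpt t ht
  rw [intervalIntegral.integral_of_le hT0.le]
  have hfinal : ∫ t in Ioc 0 T, G t ^ q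
      ≤ ∫ t in Ioc 0 T, 8 * (Real.pi ^ (q - 1) * H t + (120 * Real.pi / T) ^ q) := by
    refine integral_mono_of_nonneg (Eventually.of_forall fun t => Real.rpow_nonneg (hG0 t) q)
      ((hH1.add hc1).const_mul 8) ?_
    filter_upwards [ae_restrict_mem measurableSet_Ioc] with t ht
    exact hpt t ht
  refine hfinal.trans ?_
  have hsum : ∫ t in Ioc 0 T, (Real.pi ^ (q - 1) * H t + (120 * Real.pi / T) ^ q)
      = Real.pi ^ (q - 1) * (∫ t in Ioc 0 T, H t) + T * (120 * Real.pi / T) ^ q := by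
    rw [integral_add hH1 hc1, integral_const_mul, setIntegral_const,
      Real.volume_real_Ioc_of_le hT0.le, smul_eq_mul, sub_zero]
  rw [integral_const_mul, hsum]
  have h1 : Real.pi ^ (q - 1) * ∫ t in Ioc 0 T, H t ≤ 2 * Real.pi ^ 4 * S := by
    have h2 : Real.pi ^ (q - 1) * Real.pi ≤ Real.pi ^ 4 := by
      rw [Real.rpow_sub_one Real.pi_ne_zero, div_mul_cancel₀ _ Real.pi_ne_zero,
        ← Real.rpow_natCast]
      exact Real.rpow_le_rpow_of_exponent_le (by linarith) (by push_cast; linarith)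
    have h3 : 0 ≤ Real.pi ^ (q - 1) := by positivity
    calc Real.pi ^ (q - 1) * ∫ t in Ioc 0 T, H t ≤ Real.pi ^ (q - 1) * (Real.pi * (2 * S)) := by
          gcongr
      _ = Real.pi ^ (q - 1) * Real.pi * (2 * S) := by ring
      _ ≤ Real.pi ^ 4 * (2 * S) := by gcongr
      _ = 2 * Real.pi ^ 4 * S := by ring
  have h2 : T * (120 * Real.pi / T) ^ q ≤ (120 * Real.pi) ^ 4 := by
    rw [Real.div_rpow (by positivity) hT0.le]
    have h3 : (120 * Real.pi) ^ q ≤ (120 * Real.pi) ^ 4 := by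
      rw [← Real.rpow_natCast (120 * Real.pi) 4]
      exact Real.rpow_le_rpow_of_exponent_le (by linarith) (by push_cast; linarith)
    have h4 : T ≤ T ^ q := by
      calc T = T ^ (1 : ℝ) := (Real.rpow_one T).symm
        _ ≤ T ^ q := Real.rpow_le_rpow_of_exponent_le hT hq1
    have h5 : 0 < T ^ q := by positivity
    rw [mul_div_assoc', div_le_iff₀ h5]
    calc T * (120 * Real.pi) ^ q ≤ T ^ q * (120 * Real.pi) ^ 4 := by gcongr
      _ = _ := mul_comm _ _
  calc 8 * (Real.pi ^ (q - 1) * (∫ t in Ioc 0 T, H t) + T * (120 * Real.pi / T) ^ q)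
      ≤ 8 * (2 * Real.pi ^ 4 * S + (120 * Real.pi) ^ 4) := by gcongr
    _ ≤ C * (1 + S) := by
        rw [hC]
        have h3 : 0 ≤ (120 * Real.pi) ^ 4 * S := by positivity
        have h4 : 0 ≤ Real.pi ^ 4 := by positivity
        nlinarith

end KM

/-- D2 -/
theorem kernelError (h : RightOrder) : KernelError := by
  obtain ⟨C0, T0, hC0, hT0, hR⟩ := h
  obtain ⟨C, hC, hK⟩ := KM.kernel_moment
  refine ⟨C * (1 + 4 * C0 * 16), max T0 4, ?_, ?_, ?_⟩
  · have : 1 ≤ 1 + 4 * C0 * 16 := by linarith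
    nlinarith
  · exact hT0.trans (le_max_left _ _)
  intro T w1 k hT hw hk1 hk2
  have hT1 : T0 ≤ T := (le_max_left _ _).trans hT
  have hT4 : 4 ≤ T := (le_max_right _ _).trans hT
  have hTp : 0 < T := by linarith
  refine (hK (2 * T) w1 (2 * k) (by linarith) hw (by linarith) (by linarith)).2.trans ?_
  have h1 := hR (2 * (2 * T)) k (by linarith) hk1 hk2
  have hlog1 : 1 ≤ Real.log T := by
    rw [Real.le_log_iff_exp_le hTp]
    have := Real.exp_one_lt_d9
    linarith
  have hlog : Real.log (2 * (2 * T)) ≤ 2 * Real.log T := by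
    have e1 : Real.log (2 * (2 * T)) ≤ Real.log (T * T) :=
      Real.log_le_log (by linarith) (by nlinarith)
    rw [Real.log_mul hTp.ne' hTp.ne'] at e1
    linarith
  have hk4 : k ^ 2 ≤ 4 := by nlinarith
  have h2 : Real.log (2 * (2 * T)) ^ (k ^ 2) ≤ 16 * Real.log T ^ (k ^ 2) := by
    calc Real.log (2 * (2 * T)) ^ (k ^ 2) ≤ (2 * Real.log T) ^ (k ^ 2) :=
          Real.rpow_le_rpow (Real.log_nonneg (by linarith)) hlog (by positivity)
      _ = 2 ^ (k ^ 2) * Real.log T ^ (k ^ 2) := Real.mul_rpow (by norm_num) (by linarith)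
      _ ≤ 2 ^ (4 : ℝ) * Real.log T ^ (k ^ 2) := by
          have h3 : (2 : ℝ) ^ (k ^ 2) ≤ 2 ^ (4 : ℝ) :=
            Real.rpow_le_rpow_of_exponent_le (by norm_num) hk4
          gcongr
      _ = 16 * Real.log T ^ (k ^ 2) := by norm_num
  have hL : 1 ≤ Real.log T ^ (k ^ 2) := Real.one_le_rpow hlog1 (by positivity)
  have h3 : 1 ≤ T * Real.log T ^ (k ^ 2) := by nlinarith
  have h4 : ∫ t in (0 : ℝ)..(2 * (2 * T)), ‖riemannZeta (1 / 2 + I * t)‖ ^ (2 * k)
      ≤ 4 * C0 * 16 * (T * Real.log T ^ (k ^ 2)) := by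
    refine h1.trans ?_
    calc C0 * (2 * (2 * T)) * Real.log (2 * (2 * T)) ^ (k ^ 2)
        ≤ C0 * (2 * (2 * T)) * (16 * Real.log T ^ (k ^ 2)) := by gcongr
      _ = _ := by ring
  calc C * (1 + ∫ t in (0 : ℝ)..(2 * (2 * T)), ‖riemannZeta (1 / 2 + I * t)‖ ^ (2 * k))
      ≤ C * (T * Real.log T ^ (k ^ 2) + 4 * C0 * 16 * (T * Real.log T ^ (k ^ 2))) := by gcongr
    _ = C * (1 + 4 * C0 * 16) * T * Real.log T ^ (k ^ 2) := by ring

end Pool.Agent.Lib.N4
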