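import Mathlib
import Pool.Agent.Lib.MP_f9aece_nt_n4.Stmts

/-!
Moments of zeta of order between two and four: coefficients of the window polynomials.
-/

set_option autoImplicit false

namespace Pool.Agent.Lib.N4

open MeasureTheory Set Filter Topology Complex
open Pool.Agent.Lib.MP_f9aece_nt (DP pair BK K1 ev PP VV Smo expo EE pair_sum pair_single
  log_le_of_Omega mul_mem_Smo Smo_mono Smo_pos)
open Pool.Agent.Lib.MP_f9aece_nt_h5 (tw)
open Pool.Agent.Lib.MP_f9aece_nt_h40 (ind indS mem_indS)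
open Pool.Agent.Lib.MP_f9aece_nt_h85 (rz Rst Pst rset mem_rset coeff_rz exists_factor)
open Pool.Agent.Lib.MP_f9aece_nt_h97 (coeff_eq_pair)
open Pool.Agent.Lib.J4 (Sg Yg rg Jok)
open scoped ArithmeticFunction.Omega

/-! ### scales -/

theorem Yg_succ' (v : ℕ) (Y : ℝ) (g : ℕ) :
    Yg v Y (g + 1) = Yg v Y g * Real.exp (-((v : ℝ) * (g + 1))) := by
  unfold Yg
  rw [mul_assoc Y, ← Real.exp_add]
  congr 2
  push_cast
  ring

theorem Yg_pos' {v : ℕ} {Y : ℝ} (hY : 0 < Y) (g : ℕ) : 0 < Yg v Y g := by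
  unfold Yg
  positivity

theorem Yg_succ_le' {v : ℕ} {Y : ℝ} (hY : 0 < Y) (g : ℕ) : Yg v Y (g + 1) ≤ Yg v Y g := by
  rw [Yg_succ']
  have h1 : Real.exp (-((v : ℝ) * (g + 1))) ≤ 1 := by
    rw [Real.exp_le_one_iff]
    have : (0 : ℝ) ≤ v * (g + 1) := by positivity
    linarith
  exact mul_le_of_le_one_right (Yg_pos' hY g).le h1

theorem Yg_le' {v : ℕ} {Y : ℝ} (hY : 0 < Y) (g : ℕ) : Yg v Y g ≤ Y := by
  unfold Yg
  have h1 : Real.exp (-((v : ℝ) * g * (g + 1) / 2)) ≤ 1 := by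
    rw [Real.exp_le_one_iff]
    have : (0 : ℝ) ≤ (v : ℝ) * g * (g + 1) / 2 := by positivity
    linarith
  exact mul_le_of_le_one_right hY.le h1

/-- the lengths decrease fast -/
theorem len_le {v : ℕ} (hv : 2 ≤ v) {Y : ℝ} (hY : 0 < Y) (J i : ℕ) (hi : i < J) :
    (kap v i : ℝ) * Yg v Y i + el v Y J (i + 1) ≤ el v Y J i := by
  have hpos := Yg_pos' (v := v) hY i
  have hv' : (2 : ℝ) ≤ v := by exact_mod_cast hv
  have h1 : el v Y J (i + 1) ≤ ell v Y (i + 1) := by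
    unfold el
    split_ifs
    · exact le_rfl
    · unfold ell
      have := Yg_pos' (v := v) hY (i + 1)
      positivity
  have h2 : el v Y J i = ell v Y i := by
    unfold el
    rw [if_pos hi]
  rw [h2]
  refine le_trans (add_le_add le_rfl h1) ?_
  unfold ell kap
  rw [Yg_succ']
  have h3 : Real.exp (-((v : ℝ) * (i + 1))) ≤ 0.15 := by
    have h4 : (2 : ℝ) ≤ (v : ℝ) * (i + 1) := by
      have : (0 : ℝ) ≤ i := Nat.cast_nonneg i
      nlinarith
    have h5 : Real.exp (-((v : ℝ) * (i + 1))) ≤ Real.exp (-2) := Real.exp_le_exp.2 (by linarith)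
    refine h5.trans ?_
    have h6 := Real.exp_one_gt_d9
    have h7 : Real.exp (-2 : ℝ) = (Real.exp 1 * Real.exp 1)⁻¹ := by
      rw [← Real.exp_add, ← Real.exp_neg]
      norm_num
    rw [h7]
    rw [inv_le_comm₀ (by positivity) (by norm_num)]
    nlinarith
  have h8 : ((i : ℝ) + 1 + 1) ^ 2 ≤ 4 * ((i : ℝ) + 1) ^ 2 := by
    have : (0 : ℝ) ≤ i := Nat.cast_nonneg i
    nlinarith
  push_cast
  have h9 : (1000000 * (v : ℝ) * ((i : ℝ) + 1 + 1) ^ 2 * (Yg v Y i * Real.exp (-((v : ℝ) * (i + 1)))))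
      ≤ 1000000 * (v : ℝ) * (4 * ((i : ℝ) + 1) ^ 2) * (Yg v Y i * 0.15) := by
    gcongr
  have h10 : 0 ≤ (v : ℝ) * ((i : ℝ) + 1) ^ 2 * Yg v Y i := by positivity
  nlinarith

theorem zc_pos {v : ℕ} {Y : ℝ} {J : ℕ} {z : ℝ} (hz : 1 ≤ z) (i : ℕ) : 0 < zc v Y J z i := by
  unfold zc
  positivity

theorem zc_mul_le {v : ℕ} (hv : 2 ≤ v) {Y : ℝ} (hY : 0 < Y) {J i : ℕ} (hi : i < J) {z : ℝ}
    (hz : 1 ≤ z) : zc v Y J z i * Real.exp (kap v i * Yg v Y i) ≤ zc v Y J z (i + 1) := by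
  unfold zc
  rw [mul_assoc, ← Real.exp_add]
  have h := len_le hv hY J i hi
  gcongr
  linarith

/-! ### the groups -/

theorem mem_Sg {v p0 : ℕ} {Y : ℝ} {g p : ℕ} (hY : 0 < Y) : p ∈ Sg v p0 Y g ↔
    p.Prime ∧ p0 < p ∧ Yg v Y (g + 1) < Real.log p ∧ Real.log p ≤ Yg v Y g := by
  unfold Sg
  rw [Finset.mem_filter, Finset.mem_Icc]
  constructor
  · exact fun h => h.2
  · intro h
    refine ⟨⟨h.1.one_le, ?_⟩, h⟩
    apply Nat.le_floor
    have hp : (0 : ℝ) < p := by exact_mod_cast h.1.pos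
    rw [← Real.log_le_iff_le_exp hp]
    exact h.2.2.2.trans (Yg_le' hY g)

theorem Sg_prime {v p0 : ℕ} {Y : ℝ} {g : ℕ} : ∀ p ∈ Sg v p0 Y g, p.Prime := by
  intro p hp
  unfold Sg at hp
  exact (Finset.mem_filter.1 hp).2.1

theorem le_floor_iff' {p : ℕ} (hp : 0 < p) (y : ℝ) : p ≤ ⌊Real.exp y⌋₊ ↔ Real.log p ≤ y := by
  have hp' : (0 : ℝ) < p := by exact_mod_cast hp
  rw [Nat.le_floor_iff (Real.exp_pos y).le, Real.log_le_iff_le_exp hp']

theorem Sg_disj_Rst {v p0 : ℕ} {Y : ℝ} (hY : 0 < Y) {g p : ℕ} (hp : p ∈ Sg v p0 Y g) :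
    p ∉ Rst p0 (Yg v Y g) := by
  rw [mem_Sg hY] at hp
  intro h
  exact h ⟨hp.2.1, (le_floor_iff' hp.1.pos _).2 hp.2.2.2⟩

theorem Sg_sub_Rst {v p0 : ℕ} {Y : ℝ} (hY : 0 < Y) {g p : ℕ} (hp : p ∈ Sg v p0 Y g) :
    p ∈ Rst p0 (Yg v Y (g + 1)) := by
  rw [mem_Sg hY] at hp
  intro h
  exact absurd ((le_floor_iff' hp.1.pos _).1 h.2) (not_le.2 hp.2.2.1)

theorem Rst_mono {p0 : ℕ} {y y' : ℝ} (h : y' ≤ y) : Rst p0 y ⊆ Rst p0 y' := by
  intro p hp h'
  exact hp ⟨h'.1, h'.2.trans (Nat.floor_mono (Real.exp_le_exp.2 h))⟩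

/-- a prime in the smaller rough set is in the larger one or in the group -/
theorem Rst_or {v p0 : ℕ} {Y : ℝ} (hY : 0 < Y) {g p : ℕ} (hpr : p.Prime)
    (hp : p ∈ Rst p0 (Yg v Y (g + 1))) (hS : p ∉ Sg v p0 Y g) : p ∈ Rst p0 (Yg v Y g) := by
  intro h
  apply hS
  rw [mem_Sg hY]
  refine ⟨hpr, h.1, ?_, (le_floor_iff' hpr.pos _).1 h.2⟩
  by_contra h2
  exact hp ⟨h.1, (le_floor_iff' hpr.pos _).2 (not_lt.1 h2)⟩

theorem coprime_of {A B : Set ℕ} (hAB : ∀ p, p.Prime → p ∈ A → p ∉ B) {a b : ℕ} (ha : a ∈ Smo A)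
    (hb : b ∈ Smo B) : Nat.Coprime a b := by
  apply Nat.coprime_of_dvd
  intro p hp h1 h2
  exact hAB p hp (ha.2 p hp h1) (hb.2 p hp h2)

theorem factor_unique {A B : Set ℕ} (hAB : ∀ p, p.Prime → p ∈ A → p ∉ B) {a b a' b' : ℕ}
    (ha : a ∈ Smo A) (hb : b ∈ Smo B) (ha' : a' ∈ Smo A) (hb' : b' ∈ Smo B)
    (h : a * b = a' * b') : a = a' ∧ b = b' := by
  have h1 : a ∣ a' := (coprime_of hAB ha hb').dvd_of_dvd_mul_right (h ▸ Dvd.intro _ rfl)
  have h2 : a' ∣ a := (coprime_of hAB ha' hb).dvd_of_dvd_mul_right (h ▸ Dvd.intro _ rfl)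
  have h3 := Nat.dvd_antisymm h1 h2
  refine ⟨h3, ?_⟩
  subst h3
  exact Nat.eq_of_mul_eq_mul_left (Nat.pos_of_ne_zero ha.1) h

/-- coefficients of the product of two sums over sets of integers with unique products -/
theorem coeff_sum_mul_sum (S T : Finset ℕ)
    (h : ∀ a ∈ S, ∀ b ∈ T, ∀ a' ∈ S, ∀ b' ∈ T, a * b = a' * b' → a = a' ∧ b = b') (n : ℕ) :
    ((∑ a ∈ S, MonoidAlgebra.single a (1 : ℝ)) * ∑ b ∈ T, MonoidAlgebra.single b (1 : ℝ) : DP).coeff n
      = if ∃ a ∈ S, ∃ b ∈ T, a * b = n then 1 else 0 := by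
  classical
  have h1 : ((∑ a ∈ S, MonoidAlgebra.single a (1 : ℝ)) *
      ∑ b ∈ T, MonoidAlgebra.single b (1 : ℝ) : DP) =
      ∑ x ∈ S ×ˢ T, MonoidAlgebra.single (x.1 * x.2) (1 : ℝ) := by
    rw [Finset.sum_mul_sum, Finset.sum_product]
    refine Finset.sum_congr rfl fun a _ => Finset.sum_congr rfl fun b _ => ?_
    rw [MonoidAlgebra.single_mul_single, one_mul]
  rw [h1, coeff_eq_pair, pair_sum]
  simp only [pair_single, one_mul]
  split_ifs with h2
  · obtain ⟨a, ha, b, hb, hab⟩ := h2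
    rw [Finset.sum_eq_single (a, b)]
    · simp [hab]
    · rintro ⟨a', b'⟩ hx hne
      rw [Finset.mem_product] at hx
      rw [if_neg]
      intro h3
      have h4 := h a ha b hb a' hx.1 b' hx.2 (hab.trans h3.symm)
      exact hne (Prod.ext h4.1.symm h4.2.symm)
    · intro h3
      exact absurd (Finset.mem_product.2 ⟨ha, hb⟩) h3
  · apply Finset.sum_eq_zero
    rintro ⟨a, b⟩ hx
    rw [Finset.mem_product] at hx
    rw [if_neg]
    intro h3
    exact h2 ⟨a, hx.1, b, hx.2, h3⟩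

/-- A2: coefficients and support of the window polynomials -/
theorem qCoeff : QCoeff := by
  classical
  intro v p0 Y J hv hp0 hY hJ z hz i hi n
  have hdisj : ∀ p, p.Prime → p ∈ Rst p0 (Yg v Y i) → p ∉ (Sg v p0 Y i : Set ℕ) := by
    intro p _ hp hp2
    exact Sg_disj_Rst hY (Finset.mem_coe.1 hp2) hp
  -- the coefficient of the product
  have hcf : (rz p0 (Yg v Y i) (zc v Y J z i) * ind (kap v i) (Sg v p0 Y i)).coeff n =
      if ∃ a ∈ rset p0 (Yg v Y i) (zc v Y J z i), ∃ b ∈ indS (kap v i) (Sg v p0 Y i), a * b = n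
      then 1 else 0 := by
    unfold rz ind
    apply coeff_sum_mul_sum
    intro a ha b hb a' ha' b' hb' hab
    rw [mem_rset] at ha ha'
    rw [mem_indS Sg_prime] at hb hb'
    exact factor_unique hdisj ha.2 hb.1 ha'.2 hb'.1 hab
  have hco : (QW v p0 Y J z i).coeff n =
      (if n ∈ rset p0 (Yg v Y (i + 1)) (zc v Y J z (i + 1)) then 1 else 0) -
      (if ∃ a ∈ rset p0 (Yg v Y i) (zc v Y J z i), ∃ b ∈ indS (kap v i) (Sg v p0 Y i), a * b = n
      then 1 else 0) := by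
    unfold QW
    rw [MonoidAlgebra.coeff_sub, Finsupp.sub_apply, coeff_rz, hcf]
  -- products are in the larger set
  have himp : (∃ a ∈ rset p0 (Yg v Y i) (zc v Y J z i), ∃ b ∈ indS (kap v i) (Sg v p0 Y i),
      a * b = n) → n ∈ rset p0 (Yg v Y (i + 1)) (zc v Y J z (i + 1)) := by
    rintro ⟨a, ha, b, hb, rfl⟩
    rw [mem_rset] at ha
    rw [mem_indS Sg_prime] at hb
    rw [mem_rset]
    refine ⟨⟨Nat.mul_pos ha.1.1 (Smo_pos hb.1), ?_⟩, ?_⟩
    · apply Nat.le_floor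
      push_cast
      have h1 : (a : ℝ) ≤ zc v Y J z i :=
        (Nat.cast_le.2 ha.1.2).trans (Nat.floor_le (zc_pos hz i).le)
      have h2 : Real.log b ≤ kap v i * Yg v Y i := by
        refine log_le_of_Omega (I := (Sg v p0 Y i : Set ℕ)) ?_ (Yg_pos' hY i).le hb.1 hb.2
        intro p hp
        exact ((mem_Sg hY).1 (Finset.mem_coe.1 hp)).2.2.2
      have hb0 : (0 : ℝ) < b := by exact_mod_cast Smo_pos hb.1
      have h3 : (b : ℝ) ≤ Real.exp (kap v i * Yg v Y i) := by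
        rw [← Real.log_le_iff_le_exp hb0]; exact h2
      calc (a : ℝ) * b ≤ zc v Y J z i * Real.exp (kap v i * Yg v Y i) :=
            mul_le_mul h1 h3 hb0.le (zc_pos hz i).le
        _ ≤ _ := zc_mul_le hv hY hi hz
    · apply mul_mem_Smo
      · exact Smo_mono (Rst_mono (Yg_succ_le' hY i)) ha.2
      · refine Smo_mono ?_ hb.1
        intro p hp
        exact Sg_sub_Rst hY (Finset.mem_coe.1 hp)
  rw [hco]
  by_cases hB : ∃ a ∈ rset p0 (Yg v Y i) (zc v Y J z i), ∃ b ∈ indS (kap v i) (Sg v p0 Y i),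
      a * b = n
  · rw [if_pos hB, if_pos (himp hB)]
    refine ⟨by norm_num, by norm_num, fun h => absurd (sub_self _) h⟩
  · rw [if_neg hB]
    split_ifs with hA
    · refine ⟨by norm_num, by norm_num, fun _ => ?_⟩
      rw [mem_rset] at hA
      refine ⟨hA.2, (Nat.cast_le.2 hA.1.2).trans (Nat.floor_le (zc_pos hz (i + 1)).le), ?_⟩
      by_contra hcon
      rw [not_or, not_lt, not_lt] at hcon
      apply hB
      obtain ⟨x, hx1, hx2, hx3⟩ := exists_factor (Sg v p0 Y i : Set ℕ) (n := n)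
        (Nat.one_le_iff_ne_zero.1 hA.1.1)
      have hd1 : x.1 ∣ n := Dvd.intro _ hx3
      have hd2 : x.2 ∣ n := Dvd.intro_left _ hx3
      have hn0 : n ≠ 0 := Nat.one_le_iff_ne_zero.1 hA.1.1
      refine ⟨x.1, ?_, x.2, ?_, hx3⟩
      · rw [mem_rset]
        refine ⟨⟨Smo_pos hx1, ?_⟩, hx1.1, ?_⟩
        · apply Nat.le_floor
          exact (Nat.cast_le.2 (Nat.le_of_dvd (Nat.pos_of_ne_zero hn0) hd1)).trans hcon.1
        · intro p hp hpd
          refine Rst_or hY hp (hA.2.2 p hp (hpd.trans hd1)) ?_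
          intro hpS
          exact hx1.2 p hp hpd (Finset.mem_coe.2 hpS)
      · rw [mem_indS Sg_prime]
        refine ⟨hx2, le_trans ?_ hcon.2⟩
        rw [ArithmeticFunction.cardFactors_eq_sum_factorization]
        unfold OmS
        rw [Finsupp.sum]
        have hsub : x.2.factorization.support ⊆ Sg v p0 Y i := by
          intro p hp
          rw [Nat.support_factorization] at hp
          exact Finset.mem_coe.1 (hx2.2 p (Nat.prime_of_mem_primeFactors hp)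
            (Nat.dvd_of_mem_primeFactors hp))
        refine (Finset.sum_le_sum_of_subset hsub).trans ?_
        refine Finset.sum_le_sum fun p _ => ?_
        exact (Nat.factorization_le_iff_dvd hx2.1 hn0).2 hd2 p
    · refine ⟨by norm_num, by norm_num, fun h => absurd (sub_self _) h⟩

end Pool.Agent.Lib.N4
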