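import Mathlib
import Pool.Agent.Lib.MP_f9aece_nt_n4.Defs
import Pool.Agent.Lib.MP_f9aece_nt_j4.FPowEnd
import Pool.Agent.Lib.MP_f9aece_nt_j4.I2Sum
import Pool.Agent.Lib.MP_f9aece_nt_h97.Signed
import Pool.Agent.Lib.MP_f9aece_nt_h5.PrimeOff

/-!
Coefficients of squares and Euler product bounds (helper78).
-/

set_option autoImplicit false

namespace Pool.Agent.Lib.N4.H78

open MeasureTheory Set Filter Topology Complex
open Pool.Agent.Lib.MP_f9aece_nt (DP pair BK K1 ev PP VV Smo expo EE Cone pair_def pair_mul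
  mul_mem_Smo prime_mem_Smo)
open Pool.Agent.Lib.MP_f9aece_nt_h5 (tw coeff_tw)
open Pool.Agent.Lib.MP_f9aece_nt_h97 (dv dv_nonneg coeff_eq_pair sum_smo_le dv_smo
  sum_sq_le tail_sq_le)
open Pool.Agent.Lib.J4 (En En_eq_sum)

lemma coeff_mul (f g : DP) (m : ℕ) :
    (f * g).coeff m = pair (fun a => pair (fun b => if a * b = m then 1 else 0) g) f := by
  rw [coeff_eq_pair, pair_mul]

/-- the coefficient of a factor -/
lemma pair_eq_coeff (g : DP) {a m : ℕ} (ha : 1 ≤ a) :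
    pair (fun b => if a * b = m then 1 else 0) g = if a ∣ m then g.coeff (m / a) else 0 := by
  split_ifs with h
  · rw [coeff_eq_pair]
    congr 1
    funext b
    obtain ⟨c, rfl⟩ := h
    rw [Nat.mul_div_cancel_left c (by omega)]
    have : a * b = a * c ↔ b = c := Nat.mul_right_inj (by omega)
    simp only [this]
  · rw [pair_def]
    refine Finset.sum_eq_zero fun b _ => ?_
    rw [if_neg, mul_zero]
    rintro rfl
    exact h (dvd_mul_right _ _)

/-- squares of polynomials with coefficients in `[0,1]` -/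
lemma coeff_sq_le {g : DP} (h0 : ∀ n, 0 ≤ g.coeff n) (h1 : ∀ n, g.coeff n ≤ 1) {n : ℕ}
    (hn : n ≠ 0) : (g * g).coeff n ≤ dv n := by
  classical
  rw [coeff_mul, pair_def]
  have h2 : ∀ a ∈ g.coeff.support,
      g.coeff a * pair (fun b => if a * b = n then 1 else 0) g ≤ if a ∈ n.divisors then 1 else 0 := by
    intro a _
    rcases Nat.eq_zero_or_pos a with ha | ha
    · subst ha
      have h3 : pair (fun b => if 0 * b = n then 1 else 0) g = 0 := by
        rw [pair_def]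
        refine Finset.sum_eq_zero fun b _ => ?_
        rw [if_neg, mul_zero]
        rw [zero_mul]
        exact fun h => hn h.symm
      rw [h3, mul_zero]
      split_ifs <;> norm_num
    · rw [pair_eq_coeff g ha]
      by_cases hd : a ∣ n
      · rw [if_pos hd, if_pos (Nat.mem_divisors.2 ⟨hd, hn⟩)]
        exact mul_le_one₀ (h1 a) (h0 _) (h1 _)
      · rw [if_neg hd, mul_zero]
        split_ifs <;> norm_num
  refine (Finset.sum_le_sum h2).trans ?_
  rw [← Finset.sum_filter, Finset.sum_const, nsmul_eq_mul, mul_one]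
  unfold dv
  have h3 : (g.coeff.support.filter fun a => a ∈ n.divisors) ⊆ n.divisors :=
    fun a ha => (Finset.mem_filter.1 ha).2
  exact_mod_cast Finset.card_le_card h3

/-- energy of a twisted polynomial with nonnegative coefficients -/
lemma En_tw_le {g : DP} {δ : ℝ}
    (h1 : ∀ n, g.coeff n ≠ 0 → 1 ≤ n) :
    En (tw δ g) = ∑ n ∈ (tw δ g).coeff.support, g.coeff n ^ 2 * (n : ℝ) ^ (-(1 + 2 * δ)) := by
  rw [En_eq_sum]
  refine Finset.sum_congr rfl fun n hn => ?_
  have hn0 : 1 ≤ n := by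
    apply h1
    intro h
    rw [Finsupp.mem_support_iff, coeff_tw, h, zero_mul] at hn
    exact hn rfl
  have hn' : (0 : ℝ) < n := by exact_mod_cast hn0
  rw [coeff_tw, mul_pow, mul_assoc]
  congr 1
  rw [← Real.rpow_natCast, ← Real.rpow_mul hn'.le, ← Real.rpow_neg_one (n : ℝ),
    ← Real.rpow_add hn']
  congr 1
  push_cast
  ring

lemma supp_tw {g : DP} {δ : ℝ} {n : ℕ} (hn : n ∈ (tw δ g).coeff.support) : g.coeff n ≠ 0 := by
  intro h
  rw [Finsupp.mem_support_iff, coeff_tw, h, zero_mul] at hn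
  exact hn rfl

/-- the weight -/
noncomputable def qq (δ : ℝ) (p : ℕ) : ℝ := (p : ℝ) ^ (-(1 + 2 * δ))

lemma qq_nonneg (δ : ℝ) (p : ℕ) : 0 ≤ qq δ p := Real.rpow_nonneg (Nat.cast_nonneg _) _

lemma qq_le {δ : ℝ} (hδ : 0 ≤ δ) {p : ℕ} (hp : 1 ≤ p) : qq δ p ≤ (p : ℝ)⁻¹ := by
  unfold qq
  rw [← Real.rpow_neg_one (p : ℝ)]
  exact Real.rpow_le_rpow_of_exponent_le (by exact_mod_cast hp) (by linarith)

lemma qq_half {δ : ℝ} (hδ : 0 ≤ δ) {p : ℕ} (hp : p.Prime) : qq δ p ≤ 1 / 2 := by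
  refine (qq_le hδ hp.one_le).trans ?_
  rw [inv_eq_one_div]
  have : (2 : ℝ) ≤ p := by exact_mod_cast hp.two_le
  exact one_div_le_one_div_of_le (by norm_num) this

/-- the local factor -/
noncomputable def LF (δ : ℝ) (p : ℕ) : ℝ := (1 + qq δ p) / (1 - qq δ p) ^ 3

lemma one_le_LF {δ : ℝ} (hδ : 0 ≤ δ) {p : ℕ} (hp : p.Prime) : 1 ≤ LF δ p := by
  have h1 := qq_half hδ hp
  have h0 := qq_nonneg δ p
  unfold LF
  rw [le_div_iff₀ (by have : 0 < 1 - qq δ p := by linarith
                      positivity), one_mul]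
  have h2 : (1 - qq δ p) ^ 3 ≤ 1 := pow_le_one₀ (by linarith) (by linarith)
  linarith

lemma LF_le {δ : ℝ} (hδ : 0 ≤ δ) {p : ℕ} (hp : p.Prime) : LF δ p ≤ Real.exp (22 * qq δ p) := by
  have h1 := qq_half hδ hp
  have h0 := qq_nonneg δ p
  have h2 := tail_sq_le h1
  have h3 := Real.add_one_le_exp (22 * qq δ p)
  unfold LF
  nlinarith

/-- the weight is multiplicative -/
lemma weight_smo {δ : ℝ} {S : Finset ℕ} {n : ℕ} (hn : n ∈ Smo (S : Set ℕ)) :
    dv n ^ 2 * (n : ℝ) ^ (-(1 + 2 * δ)) =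
      ∏ p ∈ S, (((n.factorization p : ℝ) + 1) ^ 2 * qq δ p ^ n.factorization p) := by
  rw [Finset.prod_mul_distrib, dv_smo hn, Finset.prod_pow]
  congr 1
  have h1 : (n : ℝ) = ∏ p ∈ S, ((p : ℝ) ^ n.factorization p) := by
    have := Nat.prod_factorization_pow_eq_self hn.1
    conv_lhs => rw [← this]
    rw [Finsupp.prod, Nat.support_factorization]
    push_cast
    exact MP_f9aece_nt_h97.prod_factorization_smo hn (fun p k => ((p : ℝ)) ^ k) (fun p => by simp)
  conv_lhs => rw [h1]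
  rw [← Real.finsetProd_rpow _ _ fun p _ => by positivity]
  refine Finset.prod_congr rfl fun p _ => ?_
  unfold qq
  rw [← Real.rpow_natCast, ← Real.rpow_mul (Nat.cast_nonneg _), mul_comm,
    Real.rpow_mul (Nat.cast_nonneg _), Real.rpow_natCast]

/-- Euler product bound -/
lemma euler_le {δ : ℝ} (hδ : 0 ≤ δ) {S : Finset ℕ} (hS : ∀ p ∈ S, p.Prime) (F : Finset ℕ)
    (hF : ∀ n ∈ F, n ∈ Smo (S : Set ℕ)) :
    ∑ n ∈ F, dv n ^ 2 * (n : ℝ) ^ (-(1 + 2 * δ)) ≤ ∏ p ∈ S, LF δ p := by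
  rw [Finset.sum_congr rfl fun n hn => weight_smo (hF n hn)]
  refine sum_smo_le S hS (fun p k => ((k : ℝ) + 1) ^ 2 * qq δ p ^ k) (fun p _ k => ?_) (LF δ)
    (fun p hp N => ?_) F hF
  · have := qq_nonneg δ p
    positivity
  · exact sum_sq_le (qq_nonneg δ p) (by linarith [qq_half hδ (hS p hp)]) N

end Pool.Agent.Lib.N4.H78
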