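import Mathlib
import Pool.Agent.Lib.MP_f9aece_nt_n4.Stmts
import Pool.Agent.Lib.MP_f9aece_nt_n4.H78

/-!
B2: block energies, indicator squared times a power of the prime sum.
-/

set_option autoImplicit false

namespace Pool.Agent.Lib.N4

open MeasureTheory Set Filter Topology Complex
open Pool.Agent.Lib.MP_f9aece_nt (DP pair BK K1 ev PP VV Smo expo EE Cone cone_PP_pow VV_nonneg
  pair_def mul_mem_Smo one_mem_Smo Smo_pos)
open Pool.Agent.Lib.MP_f9aece_nt_h5 (tw coeff_tw)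
open Pool.Agent.Lib.MP_f9aece_nt_h40 (ind cone_ind coeff_ind)
open Pool.Agent.Lib.J4 (En En_eq_sum)
open H78

lemma BlockP.num (r : ℕ) : (19 / 25 : ℝ) ^ (100000 * r) * Real.exp (8010 * r) ≤ 1 := by
  have h1 : (19 / 25 : ℝ) ^ (100000 * r) ≤ (19 / 25 : ℝ) ^ (4 * (8010 * r)) :=
    pow_le_pow_of_le_one (by norm_num) (by norm_num) (by omega)
  have e : Real.exp (8010 * (r : ℝ)) = Real.exp 1 ^ (8010 * r) := by
    rw [← Real.exp_nat_mul]; congr 1; push_cast; ring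
  have h2 : (19 / 25 : ℝ) ^ 4 * Real.exp 1 ≤ 1 := by
    have := Real.exp_one_lt_d9
    norm_num at this ⊢
    linarith
  calc (19 / 25 : ℝ) ^ (100000 * r) * Real.exp (8010 * r)
      ≤ (19 / 25 : ℝ) ^ (4 * (8010 * r)) * Real.exp 1 ^ (8010 * r) := by rw [e]; gcongr
    _ = ((19 / 25 : ℝ) ^ 4 * Real.exp 1) ^ (8010 * r) := by rw [pow_mul, mul_pow]
    _ ≤ 1 := pow_le_one₀ (by positivity) h2

lemma BlockP.coeff_le {S : Finset ℕ} (hS : ∀ p ∈ S, p.Prime) (κ M n : ℕ) (hn : n ≠ 0) :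
    (ind κ S ^ 2 * PP S ^ M).coeff n ≤ MP_f9aece_nt_h97.cvd (PP S ^ M) n := by
  have hcone := cone_PP_pow hS M
  have hi := cone_ind hS κ
  rw [mul_comm, coeff_mul, MP_f9aece_nt_h97.cvd, pair_def, pair_def]
  refine Finset.sum_le_sum fun a ha => ?_
  have ha1 : 1 ≤ a := Smo_pos ((hcone a).2 (Finsupp.mem_support_iff.1 ha)).1
  refine mul_le_mul_of_nonneg_left ?_ (hcone a).1
  rw [pair_eq_coeff _ ha1]
  split_ifs with hd
  · rw [pow_two]
    refine coeff_sq_le (fun n => (hi n).1) (fun n => ?_) ?_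
    · rw [coeff_ind]; split_ifs <;> norm_num
    · rw [Nat.div_ne_zero_iff_of_dvd hd]
      exact ⟨hn, by omega⟩
  · exact le_rfl

theorem blockP : BlockP := by
  intro S r κ δ hS hr hV hδ
  have hSp : ∀ p ∈ S, p.Prime := fun p hp => (hS p hp).1
  set M := 100000 * r with hM
  have hcone : Cone (Smo (S : Set ℕ)) (PP S ^ M) :=
    (cone_PP_pow hSp _).mono fun n hn => hn.1
  have hconei : Cone (Smo (S : Set ℕ)) (ind κ S) := (cone_ind hSp κ).mono fun n hn => hn.1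
  have hconei2 : Cone (Smo (S : Set ℕ)) (ind κ S ^ 2) := by
    rw [pow_two]
    exact hconei.mul hconei fun a ha b hb => mul_mem_Smo ha hb
  have hcg : Cone (Smo (S : Set ℕ)) (ind κ S ^ 2 * PP S ^ M) :=
    hconei2.mul hcone fun a ha b hb => mul_mem_Smo ha hb
  -- energy
  have h1 : En (tw δ (ind κ S ^ 2 * PP S ^ M)) ≤
      MP_f9aece_nt_h97.DS S * BK MP_f9aece_nt_h97.K4 (PP S ^ M) (PP S ^ M) := by
    rw [En_tw_le fun n hn => Smo_pos ((hcg n).2 hn)]
    refine le_trans (Finset.sum_le_sum fun n hn => ?_)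
      (MP_f9aece_nt_h97.energy_cvd_le hSp hcone _ fun n hn => (hcg n).2 (supp_tw hn))
    have hn0 : 1 ≤ n := Smo_pos ((hcg n).2 (supp_tw hn))
    have h2 := BlockP.coeff_le hSp κ M n (by omega)
    have h3 := (hcg n).1
    have h4 : (n : ℝ) ^ (-(1 + 2 * δ)) ≤ (n : ℝ)⁻¹ := qq_le hδ hn0
    have h5 : 0 ≤ (n : ℝ) ^ (-(1 + 2 * δ)) := Real.rpow_nonneg (Nat.cast_nonneg _) _
    gcongr
  have hr0 : (0 : ℝ) ≤ r := Nat.cast_nonneg r
  have hr1 : (1 : ℝ) ≤ r := by exact_mod_cast hr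
  have hV0 := VV_nonneg S
  have h2 := MP_f9aece_nt_h97.PP_pow_K4 hSp (l := M) (by rw [hM]; push_cast; linarith)
  have h3 : (3 * VV S * (M : ℝ)) ^ M ≤ (19 / 25 : ℝ) ^ M * (1000 * (r : ℝ)) ^ (2 * M) := by
    calc (3 * VV S * (M : ℝ)) ^ M ≤ (19 / 25 * (1000 * (r : ℝ)) ^ 2) ^ M := by
          refine pow_le_pow_left₀ (by positivity) ?_ _
          rw [hM]
          push_cast
          calc 3 * VV S * (100000 * (r : ℝ)) ≤ 3 * (2 * r) * (100000 * r) := by gcongr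
            _ ≤ 19 / 25 * (1000 * (r : ℝ)) ^ 2 := by nlinarith
      _ = _ := by rw [mul_pow, ← pow_mul]
  -- the Euler product
  have hDS : MP_f9aece_nt_h97.DS S ≤ Real.exp (9 * r) := by
    refine (MP_f9aece_nt_h97.DS_le hSp).trans (Real.exp_le_exp.2 ?_)
    have h4 : MP_f9aece_nt_h97.V2 S ≤ 1 / 1000 * VV S := by
      unfold MP_f9aece_nt_h97.V2 VV
      rw [Finset.mul_sum]
      refine Finset.sum_le_sum fun p hp => ?_
      have h5 : (p : ℝ)⁻¹ ≤ 1 / 1000 := by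
        rw [inv_eq_one_div]
        have : (1000 : ℝ) ≤ p := by exact_mod_cast (hS p hp).2
        exact one_div_le_one_div_of_le (by norm_num) this
      have h6 : 0 ≤ (p : ℝ)⁻¹ := by positivity
      nlinarith
    linarith
  have hnum := BlockP.num r
  rw [← hM] at hnum
  have hR : 0 < (1000 * (r : ℝ)) ^ (2 * M) := by positivity
  have hB0 : 0 ≤ BK MP_f9aece_nt_h97.K4 (PP S ^ M) (PP S ^ M) :=
    MP_f9aece_nt.BK_nonneg hcone hcone MP_f9aece_nt_h97.K4_nonneg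
  have h4 : En (tw δ (ind κ S ^ 2 * PP S ^ M)) ≤
      Real.exp (9 * r) * ((19 / 25 : ℝ) ^ M * (1000 * (r : ℝ)) ^ (2 * M)) :=
    h1.trans (mul_le_mul hDS (h2.trans h3) hB0 (Real.exp_pos _).le)
  calc Real.exp (8 * (1000 * (r : ℝ))) / (1000 * (r : ℝ)) ^ (2 * M)
        * En (tw δ (ind κ S ^ 2 * PP S ^ M))
      ≤ Real.exp (8 * (1000 * (r : ℝ))) / (1000 * (r : ℝ)) ^ (2 * M)
        * (Real.exp (9 * r) * ((19 / 25 : ℝ) ^ M * (1000 * (r : ℝ)) ^ (2 * M))) := by gcongr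
    _ = ((19 / 25 : ℝ) ^ M * Real.exp (8010 * r)) * Real.exp (-r) := by
        have e : Real.exp (8010 * (r : ℝ)) * Real.exp (-(r : ℝ)) =
            Real.exp (8 * (1000 * (r : ℝ))) * Real.exp (9 * r) := by
          rw [← Real.exp_add, ← Real.exp_add]; congr 1; ring
        rw [mul_assoc ((19 / 25 : ℝ) ^ M), e]
        field_simp
    _ ≤ 1 * Real.exp (-r) := by
        have := Real.exp_pos (-(r : ℝ))
        gcongr
    _ = _ := one_mul _

end Pool.Agent.Lib.N4
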