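import Mathlib
import Pool.Agent.Lib.MP_f9aece_nt_n4.Stmts
import Pool.Agent.Lib.MP_f9aece_nt_j4.I2Base
import Pool.Agent.Lib.MP_f9aece_nt_h5.PrimeOff
import Pool.Agent.Lib.MP_f9aece_nt_h6.Groups

/-!
Moments of zeta of order between two and four, module B5: sums over primes.
-/

set_option autoImplicit false

namespace Pool.Agent.Lib.N4

open MeasureTheory Set Filter Topology Complex
open Pool.Agent.Lib.MP_f9aece_nt (DP PP VV Smo)
open Pool.Agent.Lib.J4 (Sg Yg rg Jok SU Sg_prime Sg_log_le Yg_pos Yg_succ Yg_anti sgDisj)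

namespace B5I

lemma Qd_le_VV {δ : ℝ} (hδ : 0 ≤ δ) {U : Finset ℕ} (hU : ∀ p ∈ U, p.Prime) : Qd δ U ≤ VV U := by
  unfold Qd VV
  refine Finset.sum_le_sum fun p hp => ?_
  have h1 : (1 : ℝ) ≤ p := by exact_mod_cast (hU p hp).one_le
  rw [← Real.rpow_neg_one]
  exact Real.rpow_le_rpow_of_exponent_le h1 (by linarith)

lemma Qd_anti {δ δ' : ℝ} (h : δ ≤ δ') {U : Finset ℕ} (hU : ∀ p ∈ U, p.Prime) :
    Qd δ' U ≤ Qd δ U := by
  unfold Qd
  refine Finset.sum_le_sum fun p hp => ?_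
  have h1 : (1 : ℝ) ≤ p := by exact_mod_cast (hU p hp).one_le
  exact Real.rpow_le_rpow_of_exponent_le h1 (by linarith)

lemma VV_le {x : ℝ} (hx : 0 ≤ x) {U : Finset ℕ} (hU : ∀ p ∈ U, p.Prime ∧ Real.log p ≤ x) :
    VV U ≤ Real.log (x + 1) + 6 := by
  have hl2 : (1 : ℝ) / 2 < Real.log 2 := by
    have := Real.log_two_gt_d9
    linarith
  have hl2' : Real.log 2 < 3 / 4 := by
    have := Real.log_two_lt_d9
    linarith
  have hl4 : Real.log 4 = 2 * Real.log 2 := by
    rw [show (4 : ℝ) = 2 ^ 2 by norm_num, Real.log_pow]; norm_num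
  have h1 := MP_f9aece_nt_h6.VV_le_log (y := 1 / 2) (Y := x + 1) (by norm_num) (by linarith) U (by
    intro p hp
    refine ⟨(hU p hp).1, ?_, by linarith [(hU p hp).2]⟩
    refine hl2.trans_le (Real.log_le_log (by norm_num) ?_)
    exact_mod_cast (hU p hp).1.two_le)
  have h2 : Real.log ((x + 1) / (1 / 2)) = Real.log (x + 1) + Real.log 2 := by
    rw [div_div_eq_mul_div, div_one, Real.log_mul (by linarith) (by norm_num)]
  rw [h2, hl4] at h1
  linarith

lemma Qd_le {δ : ℝ} (hδ : 0 < δ) (hδ4 : δ ≤ 1 / 4) {U : Finset ℕ} (hU : ∀ p ∈ U, p.Prime) :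
    Qd δ U ≤ Real.log (1 / δ + 1) + 12 := by
  have h0 : 0 < 1 / δ := by positivity
  have h4 : 4 ≤ 1 / δ := by
    rw [le_div_iff₀ hδ]; linarith
  have hy : 2 ≤ Real.exp (1 / δ) := by
    have := Real.add_one_le_exp (1 / δ)
    linarith
  unfold Qd
  rw [← Finset.sum_filter_add_sum_filter_not U (fun p => Real.log p ≤ 1 / δ)]
  have h1 := VV_le h0.le (U := U.filter (fun p => Real.log p ≤ 1 / δ)) (fun p hp => by
    rw [Finset.mem_filter] at hp
    exact ⟨hU p hp.1, hp.2⟩)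
  have h2 := Qd_le_VV hδ.le (U := U.filter (fun p => Real.log p ≤ 1 / δ)) (fun p hp =>
    hU p (Finset.mem_filter.mp hp).1)
  have h3 := MP_f9aece_nt_h5.tail_finite hδ hδ4 hy (U.filter (fun p => ¬ Real.log p ≤ 1 / δ))
    (fun p hp => by
      rw [Finset.mem_filter] at hp
      refine ⟨hU p hp.1, ?_⟩
      rw [← Real.lt_log_iff_exp_lt (by exact_mod_cast (hU p hp.1).pos)]
      exact lt_of_not_ge hp.2)
  rw [Real.log_exp] at h3
  have h5 : 6 / (δ * (1 / δ)) = 6 := by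
    rw [mul_one_div_cancel hδ.ne']
    norm_num
  rw [h5] at h3
  unfold Qd at h2
  linarith

end B5I

open B5I

theorem mert : Mert := by
  refine ⟨20, by norm_num, fun v p0 Y i J δ _ _ hY hδ => ?_⟩
  have hU : ∀ p ∈ SU v p0 Y i J, p.Prime ∧ Real.log p ≤ Yg v Y i := by
    intro p hp
    unfold SU at hp
    rw [Finset.mem_biUnion] at hp
    obtain ⟨g, hg, hp⟩ := hp
    exact ⟨Sg_prime p hp, (Sg_log_le p hp).trans (Yg_anti v hY (Finset.mem_Ico.mp hg).1)⟩
  have hQ : Qs δ v p0 Y i J = Qd δ (SU v p0 Y i J) := by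
    unfold Qs SU Qd
    rw [Finset.sum_biUnion]
    intro g _ h _ hgh
    exact sgDisj v p0 Y hY.le g h hgh
  rw [hQ]
  have hY0 := Yg_pos v hY i
  refine ⟨?_, fun hδ0 => ?_⟩
  · have h1 := Qd_le_VV hδ (U := SU v p0 Y i J) fun p hp => (hU p hp).1
    have h2 := VV_le hY0.le hU
    linarith
  · rcases le_or_gt δ (1 / 4) with h4 | h4
    · have := Qd_le hδ0 h4 (U := SU v p0 Y i J) fun p hp => (hU p hp).1
      linarith
    · have h1 := Qd_anti h4.le (U := SU v p0 Y i J) fun p hp => (hU p hp).1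
      have h2 := Qd_le (δ := 1 / 4) (by norm_num) le_rfl (U := SU v p0 Y i J) fun p hp =>
        (hU p hp).1
      have h3 : Real.log (1 / (1 / 4) + 1) ≤ 4 := by
        have := Real.log_le_sub_one_of_pos (show (0 : ℝ) < 1 / (1 / 4) + 1 by norm_num)
        norm_num at this ⊢
        linarith
      have h5 : 0 ≤ Real.log (1 / δ + 1) := Real.log_nonneg (by
        have : 0 < 1 / δ := by positivity
        linarith)
      linarith

end Pool.Agent.Lib.N4
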