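import Pool.Agent.Lib.MP_f9aece_nt_n4.Stmts
import Pool.Agent.Lib.MP_f9aece_nt_h97.EnergyE

/-!
# Block energies: indicator squared times truncated exponential (module B1)
-/

set_option autoImplicit false

namespace Pool.Agent.Lib.N4.BlkE

open MeasureTheory Set Filter Topology Complex
open Pool.Agent.Lib.MP_f9aece_nt (DP pair BK K1 PP VV Smo expo Cone BK_K1_eq pair_def pair_mul
  pair_congr pair_const_mul)
open Pool.Agent.Lib.MP_f9aece_nt_h5 (tw coeff_tw)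
open Pool.Agent.Lib.MP_f9aece_nt_h40 (ind indS mem_indS coeff_ind cone_ind)
open Pool.Agent.Lib.MP_f9aece_nt_h97 (cvg Dom dk FF lh sum_tail_le abs_lh_le lh_one lh_zero cvg_FF
  sum_smo_le prod_factorization_smo dom_diff dom_expo dom_FF abs_pair_le coeff_eq_pair
  cvg_sub cvg_smul abs_cvg_le_of_dom dk_nonneg)
open Pool.Agent.Lib.J4 (En V2 dv)
open scoped ArithmeticFunction.Omega

/-! ### local energies with general weights -/

lemma local_w (c : ℝ) {M : ℕ} (hM : 1 ≤ M) {x : ℝ} (h0 : 0 ≤ x) (hx : x ≤ 1 / 2) (N : ℕ) :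
    ∑ k ∈ Finset.range N, lh c 1 M k ^ 2 * x ^ k
      ≤ Real.exp ((2 + c) ^ 2 * x + 36 * Real.exp (2 * |c|) * x ^ 2) := by
  have hnn : ∀ k, 0 ≤ lh c 1 M k ^ 2 * x ^ k := fun k => by positivity
  have hstep : ∑ k ∈ Finset.range N, lh c 1 M k ^ 2 * x ^ k
      ≤ ∑ k ∈ Finset.range (N + 2), lh c 1 M k ^ 2 * x ^ k :=
    Finset.sum_le_sum_of_subset_of_nonneg (Finset.range_subset_range.mpr (by omega)) fun k _ _ => hnn k
  refine hstep.trans ?_
  rw [Finset.sum_range_succ', Finset.sum_range_succ']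
  have h2 : ∑ k ∈ Finset.range N, lh c 1 M (k + 1 + 1) ^ 2 * x ^ (k + 1 + 1)
      ≤ Real.exp (2 * |c|) * (36 * x ^ 2) := by
    have h3 : ∀ k ∈ Finset.range N, lh c 1 M (k + 1 + 1) ^ 2 * x ^ (k + 1 + 1)
        ≤ Real.exp (2 * |c|) * (((k : ℝ) + 3) ^ 2 * x ^ (k + 2)) := by
      intro k _
      have h4 := abs_lh_le (c := c) (le_refl (1 : ℝ)) M (k + 1 + 1)
      rw [one_pow, mul_one] at h4
      have h5 : lh c 1 M (k + 1 + 1) ^ 2 ≤ (Real.exp |c| * (((k + 1 + 1 : ℕ) : ℝ) + 1)) ^ 2 := by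
        rw [← sq_abs (lh c 1 M (k + 1 + 1))]
        gcongr
      calc lh c 1 M (k + 1 + 1) ^ 2 * x ^ (k + 1 + 1)
          ≤ (Real.exp |c| * (((k + 1 + 1 : ℕ) : ℝ) + 1)) ^ 2 * x ^ (k + 1 + 1) := by
            gcongr
        _ = Real.exp (2 * |c|) * (((k : ℝ) + 3) ^ 2 * x ^ (k + 2)) := by
            have e1 : Real.exp (2 * |c|) = Real.exp |c| ^ 2 := by rw [← Real.exp_nat_mul]; norm_num
            rw [e1]
            push_cast
            ring
    refine (Finset.sum_le_sum h3).trans ?_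
    rw [← Finset.mul_sum]
    gcongr
    exact sum_tail_le h0 hx N
  rw [zero_add, lh_one c 1 hM, lh_zero]
  have h6 := Real.add_one_le_exp ((2 + c) ^ 2 * x + 36 * Real.exp (2 * |c|) * x ^ 2)
  simp only [pow_one, pow_zero, one_pow, mul_one]
  linarith

/-- weights -/
noncomputable def wt (S : Finset ℕ) (x : ℕ → ℝ) (m : ℕ) : ℝ := ∏ p ∈ S, x p ^ m.factorization p

lemma cvg_one {S : Finset ℕ} (hS : ∀ p ∈ S, p.Prime) (c : ℝ) (M : ℕ) {m : ℕ}
    (hm : m ∈ Smo (S : Set ℕ)) :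
    cvg (dk 0) (FF c M S) m = ∏ p ∈ S, lh c 1 M (m.factorization p) := by
  rw [cvg_FF hS 0 c M m hm]
  simp only [Real.rpow_zero]

/-- the energy of the product of local factors, with general weights -/
theorem energy_w {S : Finset ℕ} (hS : ∀ p ∈ S, p.Prime) {x : ℕ → ℝ}
    (hx : ∀ p ∈ S, 0 ≤ x p ∧ x p ≤ 1 / 2) (c : ℝ) {M : ℕ} (hM : 1 ≤ M)
    (F : Finset ℕ) (hF : ∀ m ∈ F, m ∈ Smo (S : Set ℕ)) :
    ∑ m ∈ F, cvg (dk 0) (FF c M S) m ^ 2 * wt S x m
      ≤ Real.exp (∑ p ∈ S, ((2 + c) ^ 2 * x p + 36 * Real.exp (2 * |c|) * x p ^ 2)) := by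
  have h1 : ∀ m ∈ F, cvg (dk 0) (FF c M S) m ^ 2 * wt S x m
      = ∏ p ∈ S, (fun p k => lh c 1 M k ^ 2 * x p ^ k) p (m.factorization p) := by
    intro m hm
    rw [cvg_one hS c M (hF m hm), wt, ← Finset.prod_pow, ← Finset.prod_mul_distrib]
  rw [Finset.sum_congr rfl h1]
  refine (sum_smo_le S hS _ (fun p hp k => ?_) (fun p => Real.exp ((2 + c) ^ 2 * x p
    + 36 * Real.exp (2 * |c|) * x p ^ 2))
    (fun p hp N => local_w c hM (hx p hp).1 (hx p hp).2 N) F hF).trans (le_of_eq ?_)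
  · have := (hx p hp).1
    positivity
  · rw [← Real.exp_sum]

/-- powers as weights -/
lemma rpow_smo {S : Finset ℕ} {n : ℕ} (hn : n ∈ Smo (S : Set ℕ)) (s : ℝ) :
    (n : ℝ) ^ s = wt S (fun p : ℕ => (p : ℝ) ^ s) n := by
  have h1 : (n : ℝ) = ∏ p ∈ n.primeFactors, (p : ℝ) ^ n.factorization p := by
    have := Nat.prod_factorization_pow_eq_self hn.1
    conv_lhs => rw [← this]
    rw [Finsupp.prod, Nat.support_factorization]
    push_cast
    rfl
  rw [h1, ← Real.finsetProd_rpow _ _ (fun p _ => by positivity), wt,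
    ← prod_factorization_smo hn (fun p k => ((p : ℝ) ^ s) ^ k) (fun p => by simp)]
  refine Finset.prod_congr rfl fun p _ => ?_
  rw [← Real.rpow_natCast, ← Real.rpow_mul (Nat.cast_nonneg _), mul_comm,
    Real.rpow_mul (Nat.cast_nonneg _), Real.rpow_natCast]

lemma wt_nonneg {S : Finset ℕ} {x : ℕ → ℝ} (hx : ∀ p ∈ S, 0 ≤ x p) (m : ℕ) : 0 ≤ wt S x m :=
  Finset.prod_nonneg fun p hp => pow_nonneg (hx p hp) _

lemma wt_two {S : Finset ℕ} {n : ℕ} (hn : n ∈ Smo (S : Set ℕ)) (x : ℕ → ℝ) :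
    wt S (fun p => 2 * x p) n = 2 ^ (Ω n) * wt S x n := by
  unfold wt
  simp_rw [mul_pow]
  rw [Finset.prod_mul_distrib, Finset.prod_pow_eq_pow_sum]
  congr 2
  rw [ArithmeticFunction.cardFactors_eq_sum_factorization, Finsupp.sum]
  rw [Nat.support_factorization]
  symm
  refine Finset.sum_subset ?_ fun p _ hp => ?_
  · intro p hp
    exact hn.2 p (Nat.prime_of_mem_primeFactors hp) (Nat.dvd_of_mem_primeFactors hp)
  · rw [← Nat.support_factorization, Finsupp.notMem_support_iff] at hp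
    exact hp

/-! ### the coefficients -/

/-- the square of the indicator polynomial -/
noncomputable def G (κ : ℕ) (S : Finset ℕ) (n : ℕ) : ℝ := (ind κ S ^ 2).coeff n

open Classical in
lemma G_eq (S : Finset ℕ) (κ n : ℕ) :
    G κ S n = (((indS κ S ×ˢ indS κ S).filter fun x => x.1 * x.2 = n).card : ℝ) := by
  unfold G
  rw [coeff_eq_pair, sq, pair_mul]
  simp only [MP_f9aece_nt_h40.pair_ind]
  rw [Finset.card_filter, Finset.sum_product]
  push_cast
  rfl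

lemma G_nonneg (κ : ℕ) (S : Finset ℕ) (n : ℕ) : 0 ≤ G κ S n := by
  rw [G_eq]
  positivity

lemma card_anti {n : ℕ} : (n.divisorsAntidiagonal.card : ℝ) = dk 0 n := by
  rw [← Nat.map_div_right_divisors, Finset.card_map]
  unfold dk MP_f9aece_nt_h97.dv
  rw [Real.rpow_zero, mul_one]

lemma G_le (κ : ℕ) (S : Finset ℕ) {n : ℕ} (hn : n ≠ 0) : G κ S n ≤ dk 0 n := by
  classical
  rw [G_eq, ← card_anti, Nat.cast_le]
  refine Finset.card_le_card fun x hx => ?_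
  rw [Nat.mem_divisorsAntidiagonal]
  exact ⟨(Finset.mem_filter.mp hx).2, hn⟩

lemma G_of_le {S : Finset ℕ} (hS : ∀ p ∈ S, p.Prime) {κ n : ℕ} (hn : n ∈ Smo (S : Set ℕ))
    (hO : Ω n ≤ κ) : G κ S n = dk 0 n := by
  classical
  rw [G_eq, ← card_anti]
  congr 2
  ext x
  rw [Finset.mem_filter, Finset.mem_product, mem_indS hS, mem_indS hS,
    Nat.mem_divisorsAntidiagonal]
  constructor
  · rintro ⟨_, h⟩
    exact ⟨h, hn.1⟩
  · rintro ⟨h, _⟩
    have h0 : x.1 ≠ 0 := by rintro h0; rw [h0, zero_mul] at h; exact hn.1 h.symm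
    have h1 : x.2 ≠ 0 := by rintro h0; rw [h0, mul_zero] at h; exact hn.1 h.symm
    have h2 : Ω x.1 + Ω x.2 ≤ κ := by
      rw [← ArithmeticFunction.cardFactors_mul h0 h1, h]
      exact hO
    exact ⟨⟨⟨MP_f9aece_nt_h97.dvd_smo hn ⟨x.2, h.symm⟩, by omega⟩,
      ⟨MP_f9aece_nt_h97.dvd_smo hn ⟨x.1, by rw [mul_comm]; exact h.symm⟩, by omega⟩⟩, h⟩

lemma coeff_mul_eq {f g : DP} (hf : MP_f9aece_nt_h97.Sup {n | n ≠ 0} f) {n : ℕ} (hn : n ≠ 0) :
    (g * f).coeff n = cvg (fun m => g.coeff m) f n := by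
  rw [mul_comm, coeff_eq_pair, pair_mul]
  unfold cvg
  refine pair_congr _ fun a ha => ?_
  have ha0 : a ≠ 0 := hf a ha
  by_cases h : a ∣ n
  · rw [if_pos h]
    change _ = g.coeff (n / a)
    rw [coeff_eq_pair g]
    refine pair_congr _ fun b _ => ?_
    have : a * b = n ↔ b = n / a := by
      constructor
      · rintro rfl
        rw [Nat.mul_div_cancel_left _ (Nat.pos_of_ne_zero ha0)]
      · rintro rfl
        exact Nat.mul_div_cancel' h
    simp only [this]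
  · rw [if_neg h]
    have : pair (fun b => if a * b = n then (1 : ℝ) else 0) g = pair (fun _ => 0) g :=
      pair_congr _ fun b _ => if_neg fun hb => h ⟨b, hb.symm⟩
    rw [this, pair_def]
    simp

lemma sup_ne {S : Finset ℕ} {f : DP} (hf : MP_f9aece_nt_h97.Sup (Smo (S : Set ℕ)) f) :
    MP_f9aece_nt_h97.Sup {n | n ≠ 0} f := hf.mono fun _ h => h.1

/-- pointwise bound for the coefficients -/
lemma coeff_bound {S : Finset ℕ} (hS : ∀ p ∈ S, p.Prime) {κ M : ℕ} {c : ℝ} (hc : |c| ≤ 1) {n : ℕ}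
    (hn : n ∈ Smo (S : Set ℕ)) :
    (Ω n ≤ κ → |(ind κ S ^ 2 * expo c M S).coeff n - cvg (dk 0) (FF c M S) n|
      ≤ |c| / 2 ^ M * cvg (dk 0) (FF 2 M S) n) ∧
    |(ind κ S ^ 2 * expo c M S).coeff n| ≤ 2 * cvg (dk 0) (FF 2 M S) n := by
  have hsup : MP_f9aece_nt_h97.Sup (Smo (S : Set ℕ)) (expo c M S) := MP_f9aece_nt_h97.sup_expo hS c M
  have hd := dom_diff hS hc M M le_rfl
  have hF2 := dom_FF hS (c := 2) (d := 2) (by norm_num) M
  have e1 : (ind κ S ^ 2 * expo c M S).coeff n = cvg (G κ S) (expo c M S) n :=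
    coeff_mul_eq (sup_ne hsup) hn.1
  constructor
  · intro hO
    have e2 : cvg (G κ S) (expo c M S) n = cvg (dk 0) (expo c M S) n := by
      unfold cvg
      refine pair_congr _ fun a _ => ?_
      split_ifs with h
      · refine G_of_le hS (MP_f9aece_nt_h97.dvd_smo hn (Nat.div_dvd_of_dvd h)) (le_trans ?_ hO)
        have h0 : a * (n / a) = n := Nat.mul_div_cancel' h
        have ha : a ≠ 0 := by rintro rfl; rw [zero_mul] at h0; exact hn.1 h0.symm
        have hb : n / a ≠ 0 := by intro hb; rw [hb, mul_zero] at h0; exact hn.1 h0.symm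
        have := ArithmeticFunction.cardFactors_mul ha hb
        rw [h0] at this
        omega
      · rfl
    have h3 := abs_cvg_le_of_dom (dk_nonneg 0) hd n
    rw [cvg_sub, cvg_smul] at h3
    rw [e1, e2, abs_sub_comm]
    exact h3
  · have hE : Dom (expo c M S) ((2 : ℝ) • FF 2 M S) := by
      intro m
      have h1 := hd m
      have h2 := dom_FF hS (c := c) (d := 2) (hc.trans (by norm_num)) M m
      rw [MonoidAlgebra.coeff_sub, Finsupp.sub_apply] at h1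
      rw [MonoidAlgebra.coeff_smul, Finsupp.smul_apply, smul_eq_mul] at h1 ⊢
      have h3 : |c| / 2 ^ M ≤ 1 := by
        rw [div_le_one (by positivity)]
        exact hc.trans (one_le_pow₀ (by norm_num))
      have h4 := hF2.nonneg m
      have h5 : |c| / 2 ^ M * (FF 2 M S).coeff m ≤ 1 * (FF 2 M S).coeff m := by gcongr
      have h6 : |(expo c M S).coeff m| ≤ |(FF c M S).coeff m|
          + |(FF c M S).coeff m - (expo c M S).coeff m| := by
        have := abs_sub_abs_le_abs_sub ((expo c M S).coeff m) ((FF c M S).coeff m)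
        rw [abs_sub_comm] at this
        linarith
      linarith
    rw [e1]
    unfold cvg
    have h7 := abs_pair_le hE (φ := fun a => if a ∣ n then G κ S (n / a) else 0)
      (ψ := fun a => if a ∣ n then dk 0 (n / a) else 0) (fun a => by
        split_ifs with h
        · rw [abs_of_nonneg (G_nonneg κ S _)]
          refine G_le κ S ?_
          intro hb
          have h0 : a * (n / a) = n := Nat.mul_div_cancel' h
          rw [hb, mul_zero] at h0
          exact hn.1 h0.symm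
        · rw [abs_zero])
    rw [MP_f9aece_nt.pair_smul] at h7
    exact h7

/-- numerical facts -/
lemma exp_four_le : Real.exp 4 ≤ 55 := by
  have h := Real.exp_one_lt_d9
  have e : Real.exp 4 = Real.exp 1 ^ 4 := by
    rw [← Real.exp_nat_mul]; norm_num
  rw [e]
  calc Real.exp 1 ^ 4 ≤ 2.7182818286 ^ 4 := by
        have := Real.exp_pos 1
        gcongr
    _ ≤ 55 := by norm_num

lemma num {r : ℕ} (hr : 1 ≤ r) :
    7 * (1 / 2 ^ (50000 * r)) * Real.exp (80 * r) ≤ Real.exp (-(r : ℝ)) := by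
  have h1 : Real.exp (81 * r) ≤ 2 ^ (162 * r) := by
    have e : Real.exp (81 * (r : ℝ)) = Real.exp 1 ^ (81 * r) := by
      rw [← Real.exp_nat_mul]; congr 1; push_cast; ring
    rw [e]
    calc Real.exp 1 ^ (81 * r) ≤ 4 ^ (81 * r) := by
          have := Real.exp_pos 1
          have := Real.exp_one_lt_d9
          have h4 : Real.exp 1 ≤ 4 := by linarith
          gcongr
      _ = 2 ^ (162 * r) := by
          have : (4 : ℝ) = 2 ^ 2 := by norm_num
          rw [this, ← pow_mul]; congr 1; ring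
  have h2 : (7 : ℝ) * 2 ^ (162 * r) ≤ 2 ^ (50000 * r) := by
    calc (7 : ℝ) * 2 ^ (162 * r) ≤ 2 ^ 3 * 2 ^ (162 * r) := by gcongr; norm_num
      _ = 2 ^ (3 + 162 * r) := by rw [pow_add]
      _ ≤ _ := pow_le_pow_right₀ (by norm_num) (by omega)
  have h3 : (0 : ℝ) < 2 ^ (50000 * r) := by positivity
  have e2 : Real.exp (81 * r) = Real.exp (80 * r) * Real.exp r := by
    rw [← Real.exp_add]; congr 1; ring
  have h4 : Real.exp (-(r : ℝ)) = 1 / Real.exp r := by rw [Real.exp_neg, one_div]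
  rw [h4, le_div_iff₀ (Real.exp_pos _)]
  have e3 : 7 * (1 / 2 ^ (50000 * r)) * Real.exp (80 * r) * Real.exp r
      = 7 * Real.exp (81 * r) / 2 ^ (50000 * r) := by rw [e2]; ring
  rw [e3, div_le_one h3]
  calc 7 * Real.exp (81 * r) ≤ 7 * 2 ^ (162 * r) := by gcongr
    _ ≤ _ := h2

lemma sq_bound {f u w d : ℝ} (hd : 0 ≤ d) (h : |f - u| ≤ d * w) :
    f ^ 2 ≤ (1 + d) * (u ^ 2 + d * w ^ 2) := by
  have h6 : (f - u) ^ 2 ≤ (d * w) ^ 2 := by
    rw [← sq_abs (f - u)]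
    exact pow_le_pow_left₀ (abs_nonneg _) h 2
  have h9 : 0 ≤ d * w := (abs_nonneg _).trans h
  have h10 : 2 * u * (f - u) ≤ d * u ^ 2 + d * w ^ 2 := by
    have h11 : |2 * u * (f - u)| ≤ 2 * |u| * (d * w) := by
      rw [abs_mul, abs_mul, abs_two]
      gcongr
    have h12 : 2 * |u| * (d * w) ≤ d * u ^ 2 + d * w ^ 2 := by
      have h13 := sq_abs u
      have h14 : 0 ≤ d * (|u| - w) ^ 2 := by positivity
      nlinarith
    have := le_abs_self (2 * u * (f - u))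
    linarith
  have e : f ^ 2 = u ^ 2 + 2 * u * (f - u) + (f - u) ^ 2 := by ring
  rw [e]
  nlinarith

end Pool.Agent.Lib.N4.BlkE

namespace Pool.Agent.Lib.N4

open Pool.Agent.Lib.MP_f9aece_nt (DP pair BK K1 PP VV Smo expo Cone BK_K1_eq pair_def)
open Pool.Agent.Lib.MP_f9aece_nt_h5 (tw coeff_tw)
open Pool.Agent.Lib.MP_f9aece_nt_h40 (ind)
open Pool.Agent.Lib.MP_f9aece_nt_h97 (cvg dk FF dom_FF)
open Pool.Agent.Lib.J4 (En V2)
open scoped ArithmeticFunction.Omega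
open BlkE

theorem blockE : BlockE := by
  classical
  refine ⟨36 * Real.exp 2, by positivity, fun S r κ c δ hS hr hV hc1 hc0 hδ hκ => ?_⟩
  have hSp : ∀ p ∈ S, p.Prime := fun p hp => (hS p hp).1
  have hc : |c| ≤ 1 := abs_le.mpr ⟨hc1, by linarith⟩
  obtain ⟨M, hM⟩ : ∃ M, M = 50000 * r := ⟨_, rfl⟩
  rw [← hM] at hκ ⊢
  have hM1 : 1 ≤ M := by omega
  obtain ⟨q, hq⟩ : ∃ q : ℕ → ℝ, q = fun p : ℕ => (p : ℝ) ^ (-(1 + 2 * δ)) := ⟨_, rfl⟩
  have hq0 : ∀ p, 0 ≤ q p := fun p => by rw [hq]; positivity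
  have hqp : ∀ p ∈ S, q p ≤ (p : ℝ)⁻¹ := by
    intro p hp
    rw [hq, ← Real.rpow_neg_one]
    have h1 : (1 : ℝ) ≤ p := by exact_mod_cast (hSp p hp).one_le
    exact Real.rpow_le_rpow_of_exponent_le h1 (by linarith)
  have hqs : ∀ p ∈ S, (p : ℝ)⁻¹ ≤ 1 / 1000 := by
    intro p hp
    have h : (1000 : ℝ) ≤ p := by exact_mod_cast (hS p hp).2
    rw [one_div]; exact inv_anti₀ (by norm_num) h
  obtain ⟨P, hP⟩ : ∃ P : DP, P = ind κ S ^ 2 * expo c M S := ⟨_, rfl⟩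
  rw [← hP]
  have hsup : MP_f9aece_nt_h97.Sup (Smo (S : Set ℕ)) P := by
    rw [hP, sq]
    have h1 : MP_f9aece_nt_h97.Sup (Smo (S : Set ℕ)) (ind κ S) :=
      (MP_f9aece_nt_h97.sup_of_cone (MP_f9aece_nt_h40.cone_ind hSp κ)).mono fun _ h => h.1
    have h2 : MP_f9aece_nt_h97.Sup (Smo (S : Set ℕ)) (expo c M S) :=
      MP_f9aece_nt_h97.sup_expo hSp c M
    exact (h1.mul h1 fun a ha b hb => MP_f9aece_nt.mul_mem_Smo ha hb).mul h2
      fun a ha b hb => MP_f9aece_nt.mul_mem_Smo ha hb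
  obtain ⟨F, hF⟩ : ∃ F : Finset ℕ, F = (tw δ P).coeff.support := ⟨_, rfl⟩
  have hFS : ∀ m ∈ F, m ∈ Smo (S : Set ℕ) := by
    intro m hm
    rw [hF, Finsupp.mem_support_iff, coeff_tw] at hm
    exact hsup m (left_ne_zero_of_mul hm)
  have hEn : En (tw δ P) = ∑ m ∈ F, P.coeff m ^ 2 * wt S q m := by
    unfold En
    rw [BK_K1_eq, pair_def, ← hF]
    refine Finset.sum_congr rfl fun m hm => ?_
    have hm0 : (0 : ℝ) < m := by exact_mod_cast Nat.pos_of_ne_zero (hFS m hm).1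
    rw [coeff_tw, hq, ← rpow_smo (hFS m hm)]
    have e1 : (m : ℝ) ^ (-(1 + 2 * δ)) = (m : ℝ) ^ (-δ) * (m : ℝ) ^ (-δ) * (m : ℝ)⁻¹ := by
      rw [← Real.rpow_neg_one, ← Real.rpow_add hm0, ← Real.rpow_add hm0]
      congr 1
      ring
    rw [e1]
    ring
  rw [hEn]
  obtain ⟨d, hd⟩ : ∃ d : ℝ, d = |c| / 2 ^ M := ⟨_, rfl⟩
  have hd0 : 0 ≤ d := by rw [hd]; positivity
  have hdM : d ≤ 1 / 2 ^ M := by rw [hd]; gcongr
  have hM2 : (0 : ℝ) < 1 / 2 ^ M := by positivity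
  have hM3 : (1 : ℝ) / 2 ^ M ≤ 1 := by
    rw [div_le_one (by positivity)]
    exact one_le_pow₀ (by norm_num)
  have hF2 := fun m => (dom_FF hSp (c := 2) (d := 2) (by norm_num) M).nonneg m
  obtain ⟨u, hu⟩ : ∃ u : ℕ → ℝ, u = fun m => cvg (dk 0) (FF c M S) m := ⟨_, rfl⟩
  obtain ⟨w, hw⟩ : ∃ w : ℕ → ℝ, w = fun m => cvg (dk 0) (FF 2 M S) m := ⟨_, rfl⟩
  have hterm : ∀ m ∈ F, P.coeff m ^ 2 * wt S q m
      ≤ (1 + d) * (u m ^ 2 * wt S q m + d * (w m ^ 2 * wt S q m))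
        + 4 * (1 / 2 ^ M) * (w m ^ 2 * wt S (fun p => 2 * q p) m) := by
    intro m hm
    have hmS := hFS m hm
    have hwt : 0 ≤ wt S q m := wt_nonneg (fun p _ => hq0 p) m
    have hwt2 : 0 ≤ wt S (fun p => 2 * q p) m :=
      wt_nonneg (fun p _ => mul_nonneg (by norm_num) (hq0 p)) m
    have hcb := coeff_bound (κ := κ) (M := M) hSp hc hmS
    rw [← hP] at hcb
    by_cases hO : Ω m ≤ κ
    · have h1 := sq_bound (u := u m) (w := w m) hd0 (by
        rw [hu, hw, hd]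
        exact hcb.1 hO)
      have h2 : 0 ≤ 4 * (1 / 2 ^ M) * (w m ^ 2 * wt S (fun p => 2 * q p) m) := by positivity
      have h3 : P.coeff m ^ 2 * wt S q m ≤ (1 + d) * (u m ^ 2 + d * w m ^ 2) * wt S q m := by
        gcongr
      linarith
    · have h1 : |P.coeff m| ≤ 2 * w m := by
        rw [hw]
        exact hcb.2
      have h2 : P.coeff m ^ 2 ≤ 4 * w m ^ 2 := by
        rw [← sq_abs (P.coeff m)]
        calc |P.coeff m| ^ 2 ≤ (2 * w m) ^ 2 := pow_le_pow_left₀ (abs_nonneg _) h1 2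
          _ = _ := by ring
      have h3 : wt S q m ≤ (1 / 2 ^ M) * wt S (fun p => 2 * q p) m := by
        rw [wt_two hmS]
        have h4 : (2 : ℝ) ^ M ≤ 2 ^ Ω m := pow_le_pow_right₀ (by norm_num) (by omega)
        have h5 : (1 : ℝ) ≤ 1 / 2 ^ M * 2 ^ Ω m := by
          rw [one_div, inv_mul_eq_div, le_div_iff₀ (by positivity), one_mul]
          exact h4
        calc wt S q m = 1 * wt S q m := (one_mul _).symm
          _ ≤ (1 / 2 ^ M * 2 ^ Ω m) * wt S q m := by gcongr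
          _ = _ := by ring
      have h4 : 0 ≤ (1 + d) * (u m ^ 2 * wt S q m + d * (w m ^ 2 * wt S q m)) := by positivity
      have h5 : P.coeff m ^ 2 * wt S q m
          ≤ 4 * w m ^ 2 * ((1 / 2 ^ M) * wt S (fun p => 2 * q p) m) := by
        gcongr
      linarith
  have hqhalf : ∀ p ∈ S, 0 ≤ q p ∧ q p ≤ 1 / 2 := fun p hp =>
    ⟨hq0 p, ((hqp p hp).trans (hqs p hp)).trans (by norm_num)⟩
  have hqhalf2 : ∀ p ∈ S, 0 ≤ 2 * q p ∧ 2 * q p ≤ 1 / 2 := fun p hp =>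
    ⟨mul_nonneg (by norm_num) (hq0 p), by
      have := (hqp p hp).trans (hqs p hp)
      linarith⟩
  have hEc := energy_w hSp hqhalf c hM1 F hFS
  have hE2 := energy_w hSp hqhalf 2 hM1 F hFS
  have hE3 := energy_w hSp hqhalf2 2 hM1 F hFS
  have hexp4 := exp_four_le
  have hb3 : Real.exp (∑ p ∈ S, ((2 + 2) ^ 2 * (2 * q p) + 36 * Real.exp (2 * |2|) * (2 * q p) ^ 2))
      ≤ Real.exp (80 * r) := by
    apply Real.exp_le_exp.mpr
    have h1 : ∑ p ∈ S, ((2 + 2) ^ 2 * (2 * q p) + 36 * Real.exp (2 * |2|) * (2 * q p) ^ 2)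
        ≤ ∑ p ∈ S, 40 * (p : ℝ)⁻¹ := by
      refine Finset.sum_le_sum fun p hp => ?_
      have h2 := hqp p hp
      have h3 := hqs p hp
      have h4 := hq0 p
      have e4 : Real.exp (2 * |(2 : ℝ)|) = Real.exp 4 := by norm_num
      rw [e4]
      have h5 : (2 * q p) ^ 2 ≤ 4 / 1000 * q p := by nlinarith
      have h6 : 36 * Real.exp 4 * (2 * q p) ^ 2 ≤ 36 * 55 * (4 / 1000 * q p) := by gcongr
      nlinarith
    rw [← Finset.mul_sum] at h1
    have h2 : ∑ p ∈ S, (p : ℝ)⁻¹ ≤ 2 * r := hV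
    refine h1.trans ((mul_le_mul_of_nonneg_left h2 (by norm_num : (0 : ℝ) ≤ 40)).trans ?_)
    linarith
  have hb2 : Real.exp (∑ p ∈ S, ((2 + 2) ^ 2 * q p + 36 * Real.exp (2 * |2|) * q p ^ 2))
      ≤ Real.exp (80 * r) := by
    refine le_trans (Real.exp_le_exp.mpr (Finset.sum_le_sum fun p hp => ?_)) hb3
    have h4 := hq0 p
    have h5 : q p ≤ 2 * q p := by linarith
    gcongr
  have hA : Real.exp (∑ p ∈ S, ((2 + c) ^ 2 * q p + 36 * Real.exp (2 * |c|) * q p ^ 2))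
      ≤ Real.exp ((2 + c) ^ 2 * Qd δ S + 36 * Real.exp 2 * V2 S) := by
    apply Real.exp_le_exp.mpr
    unfold Qd V2
    rw [Finset.mul_sum, Finset.mul_sum, ← Finset.sum_add_distrib]
    refine Finset.sum_le_sum fun p hp => ?_
    have h2 := hqp p hp
    have h4 := hq0 p
    have h5 : Real.exp (2 * |c|) ≤ Real.exp 2 := Real.exp_le_exp.mpr (by linarith)
    have h6 : q p = (p : ℝ) ^ (-(1 + 2 * δ)) := by rw [hq]
    rw [← h6]
    gcongr
  obtain ⟨A, hAd⟩ : ∃ A, A = (2 + c) ^ 2 * Qd δ S + 36 * Real.exp 2 * V2 S := ⟨_, rfl⟩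
  rw [← hAd] at hA ⊢
  have hA0 : 0 ≤ A := by
    rw [hAd]
    have h1 : 0 ≤ Qd δ S := Finset.sum_nonneg fun p _ => by positivity
    have h2 : 0 ≤ V2 S := Finset.sum_nonneg fun p _ => by positivity
    positivity
  have hA1 : 1 ≤ Real.exp A := Real.one_le_exp hA0
  have hr80 : 1 ≤ Real.exp (80 * (r : ℝ)) := Real.one_le_exp (by positivity)
  have hnum := num hr
  rw [← hM] at hnum
  have hsum := Finset.sum_le_sum hterm
  rw [Finset.sum_add_distrib, ← Finset.mul_sum, ← Finset.mul_sum, Finset.sum_add_distrib,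
    ← Finset.mul_sum] at hsum
  simp only [hu, hw] at hsum
  obtain ⟨E, hE⟩ : ∃ E, E = Real.exp (80 * (r : ℝ)) := ⟨_, rfl⟩
  obtain ⟨X, hX⟩ : ∃ X, X = Real.exp A := ⟨_, rfl⟩
  obtain ⟨ε, hε⟩ : ∃ ε : ℝ, ε = 1 / 2 ^ M := ⟨_, rfl⟩
  rw [← hE] at hb2 hb3 hr80 hnum
  rw [← hX] at hA hA1
  rw [← hε] at hdM hM2 hM3 hnum hsum
  have h1 := hEc.trans hA
  have h2 := hE2.trans hb2
  have h3 := hE3.trans hb3
  have h4 : ∑ m ∈ F, P.coeff m ^ 2 * wt S q m ≤ (1 + ε) * (X + ε * E) + 4 * ε * E := by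
    refine hsum.trans ?_
    have h2' : 0 ≤ ∑ m ∈ F, cvg (dk 0) (FF 2 M S) m ^ 2 * wt S q m :=
      Finset.sum_nonneg fun m _ => mul_nonneg (sq_nonneg _) (wt_nonneg (fun p _ => hq0 p) m)
    have h1' : 0 ≤ ∑ m ∈ F, cvg (dk 0) (FF c M S) m ^ 2 * wt S q m :=
      Finset.sum_nonneg fun m _ => mul_nonneg (sq_nonneg _) (wt_nonneg (fun p _ => hq0 p) m)
    gcongr
  have h5 : (1 + ε) * (X + ε * E) + 4 * ε * E ≤ X * (1 + 7 * ε * E) := by
    have h6 : ε * X ≤ ε * X * E := le_mul_of_one_le_right (by positivity) hr80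
    have h7 : ε * E ≤ ε * E * X := le_mul_of_one_le_right (by positivity) hA1
    have h8 : ε * (ε * E) ≤ 1 * (ε * E) := by gcongr
    nlinarith
  have h6 : X * (1 + 7 * ε * E) ≤ X * Real.exp (Real.exp (-(r : ℝ))) := by
    have h7 := Real.add_one_le_exp (Real.exp (-(r : ℝ)))
    gcongr
    linarith
  rw [Real.exp_add, ← hX]
  exact h4.trans (h5.trans h6)

end Pool.Agent.Lib.N4
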