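import Mathlib
import Pool.Agent.Lib.MP_f9aece_nt_n4.Stmts
import Pool.Agent.Lib.MP_f9aece_nt_h20.Kern2

/-!
Module E1: zeta at distance `δ` in terms of its values on the line.
-/

set_option autoImplicit false

namespace Pool.Agent.Lib.N4

open MeasureTheory Set Filter Topology Complex
open Pool.Agent.Lib.NL (pt)
open Pool.Agent.H20.Smooth (kernel_formula norm_int_Kk_le norm_pole_le kd c1 c1_nonneg cM cM_nonneg
  PK Kk)

theorem kernelFull : KernelFull := by
  have hc := c1_nonneg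
  have hm := cM_nonneg 6
  refine ⟨c1 + 64 * cM 6 * Real.exp 2, by positivity, ?_⟩
  intro δ hδ hδ1 t ht
  have ht0 : 0 < t := by linarith
  set w : ℝ := 1 / δ with hw'
  have hw : 0 < w := by positivity
  have h1 : 1 ≤ δ * w := by rw [hw']; field_simp; exact le_rfl
  have hδw : δ * w = 1 := by rw [hw']; field_simp
  set x0 : ℝ := -(w + 1) with hx0
  have h := kernel_formula (x0 := x0) hδ hw h1 ht0
  have hs' : pt δ t = ((1 / 2 + δ : ℝ) : ℂ) + I * t := rfl
  rw [← hs'] at h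
  -- the sum is empty
  have h0 : ∫ x in x0..(x0 + w), (kd (x0 + w) w x : ℂ)
          * Pool.Agent.H20.Smooth.PSum (fun n => (n : ℂ) ^ (-(pt δ t))) x = 0 := by
    have : ∀ x ∈ uIcc x0 (x0 + w), (kd (x0 + w) w x : ℂ)
          * Pool.Agent.H20.Smooth.PSum (fun n => (n : ℂ) ^ (-(pt δ t))) x = 0 := by
      intro x hx
      rw [uIcc_of_le (by linarith)] at hx
      have hx1 : x ≤ -1 := by
        have := hx.2
        rw [hx0] at this
        linarith
      have h2 : ⌊Real.exp x⌋₊ = 0 := by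
        rw [Nat.floor_eq_zero]
        exact Real.exp_lt_one_iff.mpr (by linarith)
      unfold Pool.Agent.H20.Smooth.PSum
      rw [h2]
      simp
    rw [intervalIntegral.integral_congr this]
    simp
  rw [h0, zero_sub] at h
  rw [h]
  have b2 := norm_pole_le (x0 := x0) hw hδ hδ1 ht0
  rw [← hs'] at b2
  have b3 := norm_int_Kk_le (x0 := x0) hδ hw h1 t
  have e1 : Real.exp (-(δ * x0)) ≤ Real.exp 2 := by
    refine Real.exp_le_exp.mpr ?_
    rw [hx0]
    nlinarith
  have e2 : Real.exp ((1 / 2 - δ) * (x0 + w)) ≤ 1 := by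
    rw [Real.exp_le_one_iff]
    have : x0 + w = -1 := by rw [hx0]; ring
    rw [this]
    linarith
  have i2 : 0 ≤ ∫ v : ℝ, w / (1 + w * |v|) ^ 6 * ‖riemannZeta (1 / 2 + I * (t + v : ℝ))‖ :=
    integral_nonneg fun v => by positivity
  refine (norm_add_le _ _).trans ?_
  rw [norm_neg]
  have f2 : c1 * Real.exp ((1 / 2 - δ) * (x0 + w)) / t ≤ (c1 + 64 * cM 6 * Real.exp 2) / t := by
    have : c1 * Real.exp ((1 / 2 - δ) * (x0 + w)) ≤ c1 + 64 * cM 6 * Real.exp 2 := by
      calc c1 * Real.exp ((1 / 2 - δ) * (x0 + w)) ≤ c1 * 1 := by gcongr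
        _ ≤ _ := by
          have : 0 ≤ 64 * cM 6 * Real.exp 2 := by positivity
          linarith
    gcongr
  have f3 : 64 * cM 6 * Real.exp (-(δ * x0)) * ∫ v : ℝ, w / (1 + w * |v|) ^ 6
        * ‖riemannZeta (1 / 2 + I * (t + v : ℝ))‖
      ≤ (c1 + 64 * cM 6 * Real.exp 2) * ∫ v : ℝ, w / (1 + w * |v|) ^ 6
        * ‖riemannZeta (1 / 2 + I * (t + v : ℝ))‖ := by
    refine mul_le_mul_of_nonneg_right ?_ i2
    calc 64 * cM 6 * Real.exp (-(δ * x0)) ≤ 64 * cM 6 * Real.exp 2 := by gcongr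
      _ ≤ _ := by linarith
  linarith

end Pool.Agent.Lib.N4
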