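import Pool.Agent.Lib.MP_f9aece_nt_n4.Piece

/-!
Module L1: truncated sums on the critical line.
-/

set_option autoImplicit false

namespace Pool.Agent.Lib.N4

open MeasureTheory Set Filter Topology Complex
open Pool.Agent.Lib.MP_f9aece_nt (DP pair BK K1 ev PP VV Smo expo EE continuous_ev)
open Pool.Agent.Lib.MP_f9aece_nt_h5 (tw coeff_tw ev_tw)
open Pool.Agent.Lib.MP_f9aece_nt_h40 (ind)
open Pool.Agent.Lib.MP_f9aece_nt_h85 (rz Rst Pst rset mem_rset)
open Pool.Agent.Lib.MP_f9aece_nt_h97 (Psm Dsm evs)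
open Pool.Agent.Lib.J4 (Sg Yg rg Jok Bt Wt Vs En Wgt dv V2 SU Rg Iw)
open Pool.Agent.Lib.NL (pt B0 F0 SS ML)

lemma l1_tw_zero (f : DP) : tw 0 f = f := by
  refine MonoidAlgebra.ext (Finsupp.ext fun n => ?_)
  rw [coeff_tw, neg_zero, Real.rpow_zero, mul_one]

lemma l1_powA {l k : ℝ} (hl : 1 ≤ l) (hk2 : k ≤ 2) :
    (l + l) ^ (k / 2) * l ^ (k ^ 2 - k / 2) ≤ 2 * l ^ (k ^ 2) := by
  have hl0 : 0 < l := by linarith
  have e1 : l + l = 2 * l := by ring
  have e3 : l ^ (k / 2) * l ^ (k ^ 2 - k / 2) = l ^ (k ^ 2) := by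
    rw [← Real.rpow_add hl0]
    congr 1
    ring
  have h1 : (2 : ℝ) ^ (k / 2) ≤ 2 := by
    calc (2 : ℝ) ^ (k / 2) ≤ (2 : ℝ) ^ (1 : ℝ) :=
          Real.rpow_le_rpow_of_exponent_le (by norm_num) (by linarith)
      _ = 2 := Real.rpow_one _
  rw [e1, Real.mul_rpow (by norm_num) hl0.le, mul_assoc, e3]
  exact mul_le_mul_of_nonneg_right h1 (by positivity)

lemma l1_powB {l k : ℝ} (hl : 1 ≤ l) (hk2 : k ≤ 2) :
    (2 * l + l) ^ (2 * k) * l ^ (k ^ 2 - 2 * k) ≤ 81 * l ^ (k ^ 2) := by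
  have hl0 : 0 < l := by linarith
  have e1 : 2 * l + l = 3 * l := by ring
  have e3 : l ^ (2 * k) * l ^ (k ^ 2 - 2 * k) = l ^ (k ^ 2) := by
    rw [← Real.rpow_add hl0]
    congr 1
    ring
  have h1 : (3 : ℝ) ^ (2 * k) ≤ 81 := by
    calc (3 : ℝ) ^ (2 * k) ≤ (3 : ℝ) ^ (4 : ℝ) :=
          Real.rpow_le_rpow_of_exponent_le (by norm_num) (by linarith)
      _ = 81 := by norm_num
  rw [e1, Real.mul_rpow (by norm_num) hl0.le, mul_assoc, e3]
  exact mul_le_mul_of_nonneg_right h1 (by positivity)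

lemma l1_rz_zero {p0 : ℕ} {Y z : ℝ} (hz : z < 1) : rz p0 Y z = 0 := by
  unfold rz
  apply Finset.sum_eq_zero
  intro n hn
  rw [mem_rset] at hn
  have h1 : ⌊z⌋₊ = 0 := Nat.floor_eq_zero.2 hz
  omega

theorem sharpLine (h1 : Telescope) (h2 : QCoeff) (h3 : PieceEnergy) (h4 : Level) (h5 : Mert)
    (h6 : PowSum) (h7 : NumWin) (h8 : NumOm) : SharpLine := by
  intro w θ C hθ hw C0 hC0
  obtain ⟨v0, h4⟩ := h4
  obtain ⟨C2, hC2, hlev⟩ := h4 w θ C hθ hw C0 hC0
  obtain ⟨v0', h3⟩ := h3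
  obtain ⟨Cp, hCp, hpe⟩ := h3 1000 le_rfl
  obtain ⟨Cm, hCm, hm⟩ := h5
  obtain ⟨CN, hCN, hno⟩ := h8
  set v : ℕ := max (max v0 v0') 2 with hv
  have hvv0 : v0 ≤ v := le_trans (le_max_left _ _) (le_max_left _ _)
  have hvv0' : v0' ≤ v := le_trans (le_max_right _ _) (le_max_left _ _)
  have hv2 : 2 ≤ v := le_max_right _ _
  obtain ⟨Cv, hCv, hnw⟩ := h7 v (by omega)
  have hE : 1 ≤ Real.exp (4 * Cm) := Real.one_le_exp (by linarith)
  refine ⟨16 * (C2 * Cp * Real.exp (4 * Cm)) * (2 * Cv + 81 * CN), max 1001 (C0 + 1), ?_,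
    le_trans (by norm_num) (le_max_left _ _), ?_⟩
  · have h1 : 1 ≤ C2 * Cp * Real.exp (4 * Cm) := by
      have h2 : 1 ≤ C2 * Cp := one_le_mul_of_one_le_of_one_le hC2 hCp
      exact one_le_mul_of_one_le_of_one_le h2 hE
    nlinarith
  intro T z k hT hz hzT hk hk2
  have hT1 : 1001 ≤ T := (le_max_left _ _).trans hT
  have hTC : C0 + 1 ≤ T := (le_max_right _ _).trans hT
  have hT0 : 0 < T := by linarith
  have hz0 : 0 < z := by linarith
  set l : ℝ := Real.log T with hl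
  have hl1 : 1 < l := by
    rw [hl, Real.lt_log_iff_exp_lt hT0]
    linarith [Real.exp_one_lt_d9]
  have hl0 : 0 < l := by linarith
  have hlp : Real.log (1000 : ℕ) < l := by
    rw [hl]
    exact Real.log_lt_log (by norm_num) (by push_cast; linarith)
  obtain ⟨J, hJ⟩ := J4.existsJ v 1000 (by omega) (by omega) l hl0
  have hJ0 : 0 < J := by
    rcases Nat.eq_zero_or_pos J with h | h
    · exfalso
      have h9 := hJ.1
      rw [h, J4.Yg_zero] at h9
      linarith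
    · exact h
  have hlogz : 2 * Real.log z ≤ Real.log C0 + l := by
    have e1 : Real.log (z ^ 2) = 2 * Real.log z := by
      rw [Real.log_pow]
      norm_num
    rw [← e1, hl, ← Real.log_mul (by linarith) hT0.ne']
    exact Real.log_le_log (by positivity) hzT
  have hlogC : Real.log C0 ≤ l := Real.log_le_log (by linarith) (by linarith)
  have hlz : Real.log z ≤ l := by linarith
  -- the head vanishes
  have hzc : zc v l J z 0 < 1 := by
    rw [← Real.log_neg_iff (pcZc_pos hz0 0), pcLog_zc hz0]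
    have e1 : el v l J 0 = 1000000 * v * l := by
      unfold el ell
      rw [if_pos hJ0, J4.Yg_zero]
      push_cast
      ring
    rw [e1]
    have e2 : (2 : ℝ) ≤ v := by exact_mod_cast hv2
    nlinarith
  have hrz : rz 1000 l (zc v l J z 0) = 0 := l1_rz_zero hzc
  have hdec : al z = ∑ i ∈ Finset.range J, QW v 1000 l J z i * EI v 1000 l (i + 1) J := by
    rw [h1 v 1000 l J (by omega) (by omega) hl0 hJ z hz, hrz, zero_mul, zero_add]
  have hpc : ∀ i ∈ Finset.range J, Iw w T (fun t => ‖ev t (QW v 1000 l J z i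
      * EI v 1000 l (i + 1) J)‖ ^ (2 * k)) ≤
      C2 * Cp * Real.exp (4 * Cm) * (T * l ^ (k ^ 2)) * ((1 / 16) ^ i * (2 * Cv + 81 * CN)) := by
    intro i hi
    have h := pc_piece_le (w := w) (C0 := C0) hv2 le_rfl hC2 hCp hCm hCv hCN
      (hlev v hvv0 1000 le_rfl) h2 (hpe v hvv0')
      (fun Y i J δ hY hδ => (hm v 1000 Y i J δ (by omega) (by omega) hY hδ).1)
      hnw (hno v (by omega)) (Y := l) (T := T) (z := z) (W := 2 * l) (L := l)
      (δ := 0) (k := k) (J := J) (i := i) hl0 hJ (Finset.mem_range.1 hi) (by linarith) hz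
      hzT (by linarith) le_rfl (Or.inl (by linarith)) hl1.le hlz hk hk2
    rw [l1_tw_zero] at h
    unfold Iw
    refine h.trans ?_
    have hA := l1_powA hl1.le hk2
    have hB := l1_powB hl1.le hk2
    have e0 : Real.exp (-(2 * k * 0 * Real.log (zc v l J z i))) = 1 := by
      rw [mul_zero, zero_mul, neg_zero, Real.exp_zero]
    have e1 : Real.exp (-(v : ℝ)) ≤ 1 := Real.exp_le_one_iff.2 (by
      have : (0 : ℝ) ≤ v := Nat.cast_nonneg v
      linarith)
    rw [e0, one_mul]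
    have hlk : 0 < l ^ (k ^ 2) := Real.rpow_pos_of_pos hl0 _
    calc C2 * Cp * Real.exp (4 * Cm) * T * ((1 / 16) ^ i *
        (Cv * ((l + l) ^ (k / 2) * l ^ (k ^ 2 - k / 2))
          + CN * Real.exp (-v) * ((2 * l + l) ^ (2 * k) * l ^ (k ^ 2 - 2 * k))))
        ≤ C2 * Cp * Real.exp (4 * Cm) * T * ((1 / 16) ^ i *
        (Cv * (2 * l ^ (k ^ 2)) + CN * 1 * (81 * l ^ (k ^ 2)))) := by
          refine mul_le_mul_of_nonneg_left ?_ (by positivity)
          refine mul_le_mul_of_nonneg_left ?_ (by positivity)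
          refine add_le_add (mul_le_mul_of_nonneg_left hA (by linarith)) ?_
          refine mul_le_mul (mul_le_mul_of_nonneg_left e1 (by linarith)) hB ?_ (by linarith)
          positivity
      _ = _ := by ring
  have hpt : ∀ t : ℝ, ‖ev t (al z)‖ ^ (2 * k) ≤ 8 * ∑ i ∈ Finset.range J, 8 ^ i * ‖ev t
        (QW v 1000 l J z i * EI v 1000 l (i + 1) J)‖ ^ (2 * k) := by
    intro t
    rw [hdec, map_sum]
    calc _ ≤ (∑ i ∈ Finset.range J, ‖ev t
          (QW v 1000 l J z i * EI v 1000 l (i + 1) J)‖) ^ (2 * k) :=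
          Real.rpow_le_rpow (norm_nonneg _) (norm_sum_le _ _) (by linarith)
      _ ≤ _ := h6 (2 * k) (by linarith) (by linarith) J _ (fun i => norm_nonneg _)
  have d3 : ∀ i ∈ Finset.range J, ContinuousOn (fun t : ℝ => (8 : ℝ) ^ i * ‖ev t
      (QW v 1000 l J z i * EI v 1000 l (i + 1) J)‖ ^ (2 * k))
      (Icc (θ * T) (2 * T)) := fun i _ => continuousOn_const.mul (pcCont hk _).continuousOn
  have hmain : Iw w T (fun t => ‖ev t (al z)‖ ^ (2 * k)) ≤
      8 * ∑ i ∈ Finset.range J, 8 ^ i * Iw w T (fun t => ‖ev t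
        (QW v 1000 l J z i * EI v 1000 l (i + 1) J)‖ ^ (2 * k)) := by
    have d4 : ContinuousOn (fun t : ℝ => 8 * ∑ i ∈ Finset.range J, (8 : ℝ) ^ i * ‖ev t
        (QW v 1000 l J z i * EI v 1000 l (i + 1) J)‖ ^ (2 * k)) (Icc (θ * T) (2 * T)) :=
      continuousOn_const.mul (continuousOn_finsetSum _ d3)
    refine (J4.Iw_mono hw hT0 d4
      (fun t _ => by positivity) (fun t _ => hpt t)).trans (le_of_eq ?_)
    rw [J4.Iw_const_mul, J4.Iw_sum hw hT0 _ d3]
    congr 1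
    exact Finset.sum_congr rfl fun i _ => J4.Iw_const_mul _ _
  have h9 : ∑ i ∈ Finset.range J, 8 ^ i * Iw w T (fun t => ‖ev t
      (QW v 1000 l J z i * EI v 1000 l (i + 1) J)‖ ^ (2 * k)) ≤
      (C2 * Cp * Real.exp (4 * Cm) * (T * l ^ (k ^ 2)) * (2 * Cv + 81 * CN)) *
        ∑ i ∈ Finset.range J, (8 : ℝ) ^ i * (1 / 16) ^ i := by
    rw [Finset.mul_sum]
    refine Finset.sum_le_sum fun i hi => ?_
    calc (8 : ℝ) ^ i * Iw w T (fun t => ‖ev t
        (QW v 1000 l J z i * EI v 1000 l (i + 1) J)‖ ^ (2 * k))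
        ≤ 8 ^ i * (C2 * Cp * Real.exp (4 * Cm) * (T * l ^ (k ^ 2)) *
          ((1 / 16) ^ i * (2 * Cv + 81 * CN))) :=
          mul_le_mul_of_nonneg_left (hpc i hi) (by positivity)
      _ = _ := by ring
  have hlk : 0 < l ^ (k ^ 2) := Real.rpow_pos_of_pos hl0 _
  unfold Iw at hmain h9
  calc _ ≤ _ := hmain
    _ ≤ 8 * ((C2 * Cp * Real.exp (4 * Cm) * (T * l ^ (k ^ 2)) * (2 * Cv + 81 * CN)) * 2) := by
        refine mul_le_mul_of_nonneg_left (h9.trans ?_) (by norm_num)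
        exact mul_le_mul_of_nonneg_left (pc_geo_sum_le J) (by positivity)
    _ = _ := by ring

end Pool.Agent.Lib.N4
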