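import Mathlib
import Pool.Agent.Lib.MP_f9aece_nt_n4.Stmts
import Pool.Agent.Lib.MP_f9aece_nt_h20.Afe1

/-!
Module L2: the approximate functional equation.
-/

set_option autoImplicit false

namespace Pool.Agent.Lib.N4

open MeasureTheory Set Filter Topology Complex
open Pool.Agent.Lib.MP_f9aece_nt (DP ev ev_single)
open Pool.Agent.H20.Smooth (afe_line)

lemma ev_al_exp (t x : ℝ) : ev t (al (Real.exp x))
    = Pool.Agent.H20.Smooth.PSum (fun n => (n : ℂ) ^ (-(1 / 2 + I * t : ℂ))) x := by
  unfold al Pool.Agent.H20.Smooth.PSum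
  rw [map_sum]
  refine Finset.sum_congr rfl fun n _ => ?_
  rw [ev_single]
  simp

theorem afeLine : AfeLine := by
  obtain ⟨C, T0, hC, hT0, h⟩ := afe_line
  refine ⟨4, C, max 3 T0, by norm_num, hC, le_max_left _ _, ?_⟩
  intro T t hT ht1 ht2
  have := h T ((le_max_right _ _).trans hT) t ht1 ht2
  simp only [ev_al_exp]
  exact this

end Pool.Agent.Lib.N4
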