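import Mathlib
import Pool.Agent.Lib.MP_f9aece_nt_r3.Final
import Pool.Agent.Lib.MP_f9aece_nt_u2.Upper
import Pool.Agent.Lib.MP_f9aece_nt_u2.MeanB1
import Pool.Agent.Lib.MP_f9aece_nt_u2.MidForms
import Pool.Agent.Lib.MP_f9aece_nt_u2.FirstMom
import Pool.Agent.Lib.MP_f9aece_nt_u2.MidLower
import Pool.Agent.Lib.MP_f9aece_nt_u2.OffCoreRate
import Pool.Agent.Lib.MP_f9aece_nt_u2.MeanR
import Pool.Agent.Lib.MP_f9aece_nt_u2.TiltR
import Pool.Agent.Lib.MP_f9aece_nt_u2.SmallLower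
import Pool.Agent.Lib.MP_f9aece_nt_u2.Pos

/-!
The size of the moments of zeta on the critical line, uniformly for exponents up to `2 + η`.
-/

set_option autoImplicit false

namespace Pool.Agent.Lib.N4

open Complex MeasureTheory

/-- The moment `E|ζ(1/2 + ix + iωT)|^β` with `ω` uniform on `[0,1]`. -/
noncomputable def mo (β x T : ℝ) : ℝ :=
  ∫ u in (0 : ℝ)..1, ‖riemannZeta (1 / 2 + I * x + I * u * T)‖ ^ β

theorem twoBase :
    ∃ C c η : ℝ, 0 < C ∧ 0 < c ∧ 0 < η ∧ ∀ x : ℝ, ∃ T₀ : ℝ, ∀ β T : ℝ, 0 < β → β ≤ 2 + η →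
      T₀ ≤ T →
      Real.exp (-(C * (β * |β - 2| + Real.log T ^ (-c)))) * Real.log T ^ (β ^ 2 / 4)
        ≤ mo β x T ∧
      mo β x T
        ≤ Real.exp (C * (β * |β - 2| + Real.log T ^ (-c))) * Real.log T ^ (β ^ 2 / 4) := by
  have hM : Pool.Agent.Lib.U2.MidLower := Pool.Agent.Lib.U2.midLower Pool.Agent.Lib.U2.firstMom
    Pool.Agent.Lib.U2.meanB1 Pool.Agent.Lib.U2.midForms
  have hS : Pool.Agent.Lib.U2.SmallLower := Pool.Agent.Lib.U2.smallLower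
    Pool.Agent.Lib.U2.offCoreRate Pool.Agent.Lib.U2.meanR Pool.Agent.Lib.U2.tiltR
  have hN : Pool.Agent.Lib.U2.NearTwo := by
    obtain ⟨C, c, η, hC, hc, hη, h⟩ := Pool.Agent.Lib.MP_f9aece_nt_r3.lipschitz
    refine ⟨C, c, η, hC, hc, hη, fun x => ?_⟩
    obtain ⟨T0, -, h⟩ := h x
    exact ⟨T0, fun β T hβ hT => h T hT β hβ⟩
  exact Pool.Agent.Lib.U2.upToTwo_exp hM
    (Pool.Agent.Lib.U2.upToTwo Pool.Agent.Lib.U2.upperAll hM hS hN)

end Pool.Agent.Lib.N4
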