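import Pool.Agent.Lib.MP_f9aece_nt_n4.Stmts
import Pool.Agent.Lib.MP_f9aece_nt_n4.TwoBase
import Pool.Agent.Lib.MP_f9aece_nt_nl.P

/-!
The size of the moments of zeta on the critical line, uniformly for exponents up to four.
-/

set_option autoImplicit false

namespace Pool.Agent.Lib.N4

open MeasureTheory Set Filter Topology Complex
open Pool.Agent.Lib.NL (pt zeta_bdd continuous_zeta_pt)

lemma mo_eq {β x T : ℝ} (hT : 0 < T) :
    mo β x T = (∫ t in x..(x + T), ‖riemannZeta (1 / 2 + I * t)‖ ^ β) / T := by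
  have h2 := intervalIntegral.integral_comp_mul_add (a := 0) (b := 1)
    (fun t : ℝ => ‖riemannZeta (1 / 2 + I * t)‖ ^ β) hT.ne' x
  simp only [mul_zero, zero_add, mul_one, smul_eq_mul] at h2
  unfold mo
  rw [add_comm T x] at h2
  rw [div_eq_inv_mul (∫ t in x..(x + T), ‖riemannZeta (1 / 2 + I * t)‖ ^ β) T, ← h2]
  refine intervalIntegral.integral_congr fun u _ => ?_
  congr 3
  push_cast
  ring

/-- moments of order between two and four on the line: two-sided bounds of the right order -/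
theorem orderTwoFour (hR : RightOrder) (hL : LowerOrder) : ∃ K : ℝ, 1 ≤ K ∧ ∀ x : ℝ, ∃ T0 : ℝ,
    ∀ β T : ℝ, 2 ≤ β → β ≤ 4 → T0 ≤ T →
    K⁻¹ * Real.log T ^ (β ^ 2 / 4) ≤ mo β x T ∧ mo β x T ≤ K * Real.log T ^ (β ^ 2 / 4) := by
  obtain ⟨C1, T1, hC1, hT1, h1⟩ := hR
  obtain ⟨c2, T2, hc2, hT2, h2⟩ := hL
  set K := max (64 * C1) (64 / c2) with hK
  have hKa : 64 * C1 ≤ K := le_max_left _ _
  have hKb : 64 / c2 ≤ K := le_max_right _ _
  have hK1 : 1 ≤ K := by linarith
  refine ⟨K, hK1, fun x => ?_⟩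
  obtain ⟨M, hM1, hM⟩ := zeta_bdd x
  have hx0 : 0 ≤ |x| := abs_nonneg x
  set A0 := |x| * M ^ 4 with hA0
  have hA00 : 0 ≤ A0 := by positivity
  refine ⟨max (max (2 * T1) (2 * T2)) (max (2 * |x| + 16) (64 * (A0 + 1) * (1 + 1 / c2))),
    fun β T hβ2 hβ4 hT => ?_⟩
  have hTa : 2 * T1 ≤ T := ((le_max_left _ _).trans (le_max_left _ _)).trans hT
  have hTb : 2 * T2 ≤ T := ((le_max_right _ _).trans (le_max_left _ _)).trans hT
  have hTc : 2 * |x| + 16 ≤ T := ((le_max_left _ _).trans (le_max_right _ _)).trans hT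
  have hTd : 64 * (A0 + 1) * (1 + 1 / c2) ≤ T :=
    ((le_max_right _ _).trans (le_max_right _ _)).trans hT
  have hβ0 : 0 < β := by linarith
  have hTp : 0 < T := by linarith
  set k := β / 2 with hk
  have hk1 : 1 ≤ k := by rw [hk]; linarith
  have hk2 : k ≤ 2 := by rw [hk]; linarith
  have hβk : β = 2 * k := by rw [hk]; ring
  have hkk : β ^ 2 / 4 = k ^ 2 := by rw [hk]; ring
  rw [hkk]
  set L := Real.log T with hLd
  have hL2 : 2 ≤ L := by
    rw [hLd, Real.le_log_iff_exp_le hTp]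
    have h3 := Real.exp_one_lt_d9
    have h4 : Real.exp 2 = Real.exp 1 * Real.exp 1 := by rw [← Real.exp_add]; norm_num
    nlinarith [Real.exp_pos 1]
  have hL0 : 0 < L := by linarith
  have hLk : 1 ≤ L ^ (k ^ 2) := Real.one_le_rpow (by linarith) (by positivity)
  set F : ℝ → ℝ := fun t => ‖riemannZeta (1 / 2 + I * t)‖ ^ β with hFd
  have hpt : ∀ t : ℝ, pt 0 t = 1 / 2 + I * t := by
    intro t
    unfold pt
    push_cast
    ring
  have cz := continuous_zeta_pt (δ := 0) (by norm_num)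
  simp only [hpt] at cz
  have hFc : Continuous F := cz.norm.rpow_const fun _ => Or.inr hβ0.le
  have hF0 : ∀ t, 0 ≤ F t := fun t => by rw [hFd]; positivity
  have hFM : ∀ t, |t| ≤ |x| → F t ≤ M ^ 4 := by
    intro t ht
    rw [hFd]
    simp only
    have h3 := hM 0 t le_rfl (by norm_num) ht
    rw [hpt] at h3
    calc ‖riemannZeta (1 / 2 + I * t)‖ ^ β ≤ M ^ β :=
          Real.rpow_le_rpow (norm_nonneg _) h3 hβ0.le
      _ ≤ M ^ ((4 : ℕ) : ℝ) := by
          apply Real.rpow_le_rpow_of_exponent_le hM1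
          push_cast
          exact hβ4
      _ = _ := Real.rpow_natCast _ _
  have hedge : ∀ a b : ℝ, a ≤ b → -|x| ≤ a → b ≤ |x| → b - a ≤ |x| → ∫ t in a..b, F t ≤ A0 := by
    intro a b hab ha hb hba
    calc ∫ t in a..b, F t ≤ ∫ t in a..b, (fun _ => M ^ 4) t := by
          refine intervalIntegral.integral_mono_on hab (hFc.intervalIntegrable _ _)
            (continuous_const.intervalIntegrable _ _) fun t ht => hFM t ?_
          rw [abs_le]
          exact ⟨ha.trans ht.1, ht.2.trans hb⟩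
      _ = (b - a) * M ^ 4 := by simp
      _ ≤ A0 := by rw [hA0]; gcongr
  have hint : ∀ a b : ℝ, IntervalIntegrable F volume a b := fun a b => hFc.intervalIntegrable _ _
  have hFeq : ∀ U : ℝ, ∫ t in (0 : ℝ)..U, ‖riemannZeta (1 / 2 + I * t)‖ ^ (2 * k)
      = ∫ t in (0 : ℝ)..U, F t := by
    intro U
    rw [hFd, hβk]
  have hpow : (2 : ℝ) ^ (k ^ 2) ≤ 16 := by
    calc (2 : ℝ) ^ (k ^ 2) ≤ 2 ^ ((4 : ℕ) : ℝ) := by
          apply Real.rpow_le_rpow_of_exponent_le (by norm_num)
          push_cast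
          nlinarith
      _ = 16 := by rw [Real.rpow_natCast]; norm_num
  have hd1 : A0 ≤ T / 64 := by
    have h3 : 64 * (A0 + 1) * 1 ≤ 64 * (A0 + 1) * (1 + 1 / c2) := by
      apply mul_le_mul_of_nonneg_left _ (by positivity)
      have : 0 < 1 / c2 := by positivity
      linarith
    linarith
  have hd2 : 64 * A0 ≤ c2 * T := by
    have h3 : 64 * A0 * (1 / c2) ≤ 64 * (A0 + 1) * (1 + 1 / c2) := by
      have : 0 < 1 / c2 := by positivity
      apply mul_le_mul (by linarith) (by linarith) this.le (by positivity)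
    have h4 : 64 * A0 * (1 / c2) ≤ T := h3.trans hTd
    rw [mul_one_div, div_le_iff₀ hc2] at h4
    linarith
  rw [mo_eq hTp]
  change K⁻¹ * L ^ (k ^ 2) ≤ (∫ t in x..(x + T), F t) / T ∧
    (∫ t in x..(x + T), F t) / T ≤ K * L ^ (k ^ 2)
  constructor
  · -- lower bound
    rw [le_div_iff₀ hTp]
    have hU : T / 2 ≤ T - |x| := by linarith
    have hlog : L / 2 ≤ Real.log (T - |x|) := by
      have h3 : Real.log (T / 2) ≤ Real.log (T - |x|) := Real.log_le_log (by positivity) hU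
      rw [Real.log_div hTp.ne' two_ne_zero] at h3
      have h4 := Real.log_two_lt_d9
      linarith
    have h3 := h2 (T - |x|) k (by linarith) hk1 hk2
    rw [hFeq] at h3
    have h4 : ∫ t in |x|..(T - |x|), F t ≤ ∫ t in x..(x + T), F t := by
      refine intervalIntegral.integral_mono_interval (le_abs_self x) (by linarith) ?_ ?_ (hint _ _)
      · have := neg_abs_le x
        linarith
      · exact Eventually.of_forall fun t => hF0 t
    have h5 : ∫ t in (0 : ℝ)..|x|, F t ≤ A0 := hedge 0 |x| hx0 (by linarith) le_rfl (by linarith)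
    have h6 := intervalIntegral.integral_add_adjacent_intervals (hint 0 |x|) (hint |x| (T - |x|))
    have h7 : L ^ (k ^ 2) / 16 ≤ Real.log (T - |x|) ^ (k ^ 2) := by
      calc L ^ (k ^ 2) / 16 ≤ L ^ (k ^ 2) / 2 ^ (k ^ 2) := by gcongr
        _ = (L / 2) ^ (k ^ 2) := (Real.div_rpow hL0.le (by norm_num) _).symm
        _ ≤ Real.log (T - |x|) ^ (k ^ 2) := Real.rpow_le_rpow (by positivity) hlog (by positivity)
    have h8 : c2 * (T / 2) * (L ^ (k ^ 2) / 16) ≤ c2 * (T - |x|) * Real.log (T - |x|) ^ (k ^ 2) := by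
      have hTx0 : 0 ≤ T - |x| := by linarith
      gcongr
    have h9 : K⁻¹ ≤ c2 / 64 := by
      rw [inv_le_comm₀ (by linarith) (by positivity)]
      rwa [inv_div]
    have h10 : K⁻¹ * L ^ (k ^ 2) * T ≤ c2 / 64 * L ^ (k ^ 2) * T := by gcongr
    have h11 : A0 ≤ c2 * T / 64 * L ^ (k ^ 2) := by
      have : c2 * T / 64 * 1 ≤ c2 * T / 64 * L ^ (k ^ 2) := by gcongr
      linarith
    have h12 : c2 * (T / 2) * (L ^ (k ^ 2) / 16) = 2 * (c2 / 64 * L ^ (k ^ 2) * T) := by ring
    have h13 : c2 * T / 64 * L ^ (k ^ 2) = c2 / 64 * L ^ (k ^ 2) * T := by ring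
    linarith
  · -- upper bound
    rw [div_le_iff₀ hTp]
    have hlog : Real.log (T + |x|) ≤ 2 * L := by
      have h3 : Real.log (T + |x|) ≤ Real.log (T * 2) := Real.log_le_log (by positivity) (by linarith)
      rw [Real.log_mul hTp.ne' two_ne_zero] at h3
      have h4 := Real.log_two_lt_d9
      linarith
    have hlog0 : 0 ≤ Real.log (T + |x|) := Real.log_nonneg (by linarith)
    have h3 := h1 (T + |x|) k (by linarith) hk1 hk2
    rw [hFeq] at h3
    have h4 : ∫ t in x..(x + T), F t ≤ ∫ t in (-|x|)..(T + |x|), F t := by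
      refine intervalIntegral.integral_mono_interval (neg_abs_le x) (by linarith) ?_ ?_ (hint _ _)
      · have := le_abs_self x
        linarith
      · exact Eventually.of_forall fun t => hF0 t
    have h5 : ∫ t in (-|x|)..0, F t ≤ A0 := hedge (-|x|) 0 (by linarith) le_rfl (by linarith) (by linarith)
    have h6 := intervalIntegral.integral_add_adjacent_intervals (hint (-|x|) 0) (hint 0 (T + |x|))
    have h7 : Real.log (T + |x|) ^ (k ^ 2) ≤ 16 * L ^ (k ^ 2) := by
      calc Real.log (T + |x|) ^ (k ^ 2) ≤ (2 * L) ^ (k ^ 2) :=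
            Real.rpow_le_rpow hlog0 hlog (by positivity)
        _ = 2 ^ (k ^ 2) * L ^ (k ^ 2) := Real.mul_rpow (by norm_num) hL0.le
        _ ≤ 16 * L ^ (k ^ 2) := by gcongr
    have hxT : T + |x| ≤ 2 * T := by linarith
    have h8 : C1 * (T + |x|) * Real.log (T + |x|) ^ (k ^ 2) ≤ C1 * (2 * T) * (16 * L ^ (k ^ 2)) := by
      gcongr
    have h9 : 64 * C1 * L ^ (k ^ 2) * T ≤ K * L ^ (k ^ 2) * T := by gcongr
    have h10 : A0 ≤ C1 * T * L ^ (k ^ 2) := by
      have h11 : T * 1 ≤ T * L ^ (k ^ 2) := by gcongr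
      have h12 : 1 * (T * L ^ (k ^ 2)) ≤ C1 * (T * L ^ (k ^ 2)) := by gcongr
      nlinarith
    have h13 : C1 * (2 * T) * (16 * L ^ (k ^ 2)) = 32 * (C1 * T * L ^ (k ^ 2)) := by ring
    have h14 : 64 * C1 * L ^ (k ^ 2) * T = 64 * (C1 * T * L ^ (k ^ 2)) := by ring
    have h15 : 0 ≤ C1 * T * L ^ (k ^ 2) := by positivity
    linarith

/-- the size of the moments on the line for all exponents up to four -/
theorem lineFour (hR : RightOrder) (hL : LowerOrder) :
    ∃ C c : ℝ, 0 < C ∧ 0 < c ∧ ∀ x : ℝ, ∃ T₀ : ℝ, ∀ β T : ℝ, 0 < β → β ≤ 4 → T₀ ≤ T →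
      Real.exp (-(C * (β * |β - 2| + Real.log T ^ (-c)))) * Real.log T ^ (β ^ 2 / 4)
        ≤ mo β x T ∧
      mo β x T
        ≤ Real.exp (C * (β * |β - 2| + Real.log T ^ (-c))) * Real.log T ^ (β ^ 2 / 4) := by
  obtain ⟨C1, c, η, hC1, hc, hη, h1⟩ := twoBase
  obtain ⟨K, hK, h2⟩ := orderTwoFour hR hL
  have hlK : 0 ≤ Real.log K := Real.log_nonneg hK
  set C := C1 + Real.log K / (2 * η) with hC
  have hC1C : C1 ≤ C := by
    have : 0 ≤ Real.log K / (2 * η) := by positivity
    linarith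
  have hC0 : 0 < C := by linarith
  refine ⟨C, c, hC0, hc, fun x => ?_⟩
  obtain ⟨Ta, ha⟩ := h1 x
  obtain ⟨Tb, hb⟩ := h2 x
  refine ⟨max (max Ta Tb) (Real.exp 1), fun β T hβ hβ4 hT => ?_⟩
  have hTa : Ta ≤ T := ((le_max_left _ _).trans (le_max_left _ _)).trans hT
  have hTb : Tb ≤ T := ((le_max_right _ _).trans (le_max_left _ _)).trans hT
  have hTe : Real.exp 1 ≤ T := (le_max_right _ _).trans hT
  have hTp : 0 < T := (Real.exp_pos 1).trans_le hTe
  have hlog : 1 ≤ Real.log T := by rwa [Real.le_log_iff_exp_le hTp]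
  have hlc : 0 ≤ Real.log T ^ (-c) := by positivity
  have hp : 0 ≤ Real.log T ^ (β ^ 2 / 4) := by positivity
  have hD : 0 ≤ β * |β - 2| + Real.log T ^ (-c) := by positivity
  rcases le_total β (2 + η) with h | h
  · obtain ⟨g1, g2⟩ := ha β T hβ h hTa
    have g3 : C1 * (β * |β - 2| + Real.log T ^ (-c)) ≤ C * (β * |β - 2| + Real.log T ^ (-c)) := by
      gcongr
    constructor
    · refine le_trans ?_ g1
      gcongr
    · refine g2.trans ?_
      gcongr
  · obtain ⟨g1, g2⟩ := hb β T (by linarith) hβ4 hTb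
    have g3 : Real.log K ≤ C * (β * |β - 2| + Real.log T ^ (-c)) := by
      have h3 : 2 * η ≤ β * |β - 2| := by
        rw [abs_of_nonneg (by linarith)]
        nlinarith
      calc Real.log K = Real.log K / (2 * η) * (2 * η) := by field_simp
        _ ≤ C * (β * |β - 2| + Real.log T ^ (-c)) := by
            refine mul_le_mul ?_ (by linarith) (by positivity) hC0.le
            linarith
    have hKp : 0 < K := by linarith
    have g4 : K ≤ Real.exp (C * (β * |β - 2| + Real.log T ^ (-c))) := by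
      rw [← Real.exp_log hKp]
      exact Real.exp_le_exp.2 g3
    constructor
    · refine le_trans ?_ g1
      refine mul_le_mul_of_nonneg_right ?_ hp
      rw [Real.exp_neg]
      exact inv_anti₀ hKp g4
    · exact g2.trans (mul_le_mul_of_nonneg_right g4 hp)

end Pool.Agent.Lib.N4
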