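import Pool.Agent.Lib.MP_f9aece_nt_n4.KernelMoment
import Pool.Agent.Lib.MP_f9aece_nt_nl.Final

/-!
E2: lower bound of the right order for the moments on the critical line, uniformly in the exponent.
-/

set_option autoImplicit false

namespace Pool.Agent.Lib.N4

open MeasureTheory Set Filter Topology Complex
open Pool.Agent.Lib.NL (pt SS ML)

namespace E2

lemma rpow_le_pow4 {x q : ℝ} (hx : 1 ≤ x) (hq4 : q ≤ 4) : x ^ q ≤ x ^ 4 := by
  rw [← Real.rpow_natCast x 4]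
  exact Real.rpow_le_rpow_of_exponent_le hx (by push_cast; exact hq4)

lemma pt_bound {C M a g t q : ℝ} (hC : 0 ≤ C) (hM1 : 1 ≤ M) (ha : 0 ≤ a) (hg : 0 ≤ g)
    (hq1 : 1 ≤ q) (hq4 : q ≤ 4) (h : a ≤ M ∨ (1 ≤ t ∧ a ≤ C * g + C / t)) :
    a ^ q ≤ M ^ 4 + 8 * (C + 1) ^ 4 + 8 * (C + 1) ^ 4 * g ^ q := by
  have hq0 : 0 ≤ q := by linarith
  have hgq : 0 ≤ g ^ q := Real.rpow_nonneg hg q
  have hA : 0 ≤ 8 * (C + 1) ^ 4 := by positivity
  have hAg : 0 ≤ 8 * (C + 1) ^ 4 * g ^ q := mul_nonneg hA hgq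
  rcases h with h | ⟨ht, h⟩
  · have h4 : a ^ q ≤ M ^ 4 := (Real.rpow_le_rpow ha h hq0).trans (rpow_le_pow4 hM1 hq4)
    linarith
  · have h4 : C / t ≤ C := div_le_self hC ht
    have h5 : a ≤ (C + 1) * (g + 1) := by nlinarith
    have h6 : (g + 1) ^ q ≤ 8 * (g ^ q + 1 ^ q) := L3.add_rpow_le hg zero_le_one hq1 hq4
    rw [Real.one_rpow] at h6
    have h7 : a ^ q ≤ (C + 1) ^ 4 * (8 * (g ^ q + 1)) := by
      calc a ^ q ≤ ((C + 1) * (g + 1)) ^ q := Real.rpow_le_rpow ha h5 hq0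
        _ = (C + 1) ^ q * (g + 1) ^ q := Real.mul_rpow (by linarith) (by linarith)
        _ ≤ (C + 1) ^ 4 * (8 * (g ^ q + 1)) :=
            mul_le_mul (rpow_le_pow4 (by linarith) hq4) h6
              (Real.rpow_nonneg (by linarith) q) (by positivity)
    have h8 : 0 ≤ M ^ 4 := by positivity
    linarith

/-- the moment at distance `δ` in terms of the moment on the line -/
lemma ml_le (h1 : KernelFull) : ∃ A B : ℝ, 0 < A ∧ 0 < B ∧ ∀ U δ k : ℝ, 1 ≤ U → 0 < δ →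
    δ ≤ 1 / 4 → 1 ≤ k → k ≤ 2 →
    ML k δ U ≤ A * U + B * (1 + ∫ t in (0 : ℝ)..(2 * U), ‖riemannZeta (1 / 2 + I * t)‖ ^ (2 * k)) := by
  obtain ⟨C, hC, hker⟩ := h1
  obtain ⟨C5, hC5, hKM⟩ := KM.kernel_moment
  obtain ⟨M, hM1, hM⟩ := NL.zeta_bdd 1
  refine ⟨M ^ 4 + 8 * (C + 1) ^ 4, 8 * (C + 1) ^ 4 * C5, by positivity, by positivity, ?_⟩
  intro U δ k hU hδ0 hδ4 hk1 hk2
  have hUp : 0 < U := by linarith
  have hw1 : 1 ≤ 1 / δ := by
    rw [le_div_iff₀ hδ0]; linarith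
  obtain ⟨hGi, hGb⟩ := hKM U (1 / δ) (2 * k) hU hw1 (by linarith) (by linarith)
  have hpt : ∀ t ∈ Ioc 0 U, ‖riemannZeta (pt δ t)‖ ^ (2 * k)
      ≤ M ^ 4 + 8 * (C + 1) ^ 4 + 8 * (C + 1) ^ 4 * (∫ v : ℝ, (1 / δ) / (1 + (1 / δ) * |v|) ^ 6
        * ‖riemannZeta (1 / 2 + I * (t + v : ℝ))‖) ^ (2 * k) := by
    intro t ht
    refine pt_bound (t := t) hC hM1 (norm_nonneg _)
      (integral_nonneg fun v => by positivity) (by linarith) (by linarith) ?_
    rcases le_total t 1 with ht1 | ht1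
    · left
      exact hM δ t hδ0.le hδ4 (by rw [abs_of_pos ht.1, abs_one]; exact ht1)
    · right
      exact ⟨ht1, hker δ hδ0 hδ4 t ht1⟩
  have hcz : Continuous fun t : ℝ => ‖riemannZeta (pt δ t)‖ ^ (2 * k) :=
    (NL.continuous_zeta_pt (δ := δ) (by linarith)).norm.rpow_const fun _ => Or.inr (by linarith)
  have hfin : volume (Ioc 0 U) ≠ ⊤ := by rw [Real.volume_Ioc]; exact ENNReal.ofReal_ne_top
  have hconst : Integrable (fun _ : ℝ => M ^ 4 + 8 * (C + 1) ^ 4) (volume.restrict (Ioc 0 U)) :=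
    integrableOn_const hfin
  have hGc := Integrable.const_mul hGi (8 * (C + 1) ^ 4)
  have e1 : ML k δ U = ∫ t in Ioc 0 U, ‖riemannZeta (pt δ t)‖ ^ (2 * k) := by
    unfold ML
    rw [intervalIntegral.integral_of_le hUp.le]
  rw [e1]
  refine (setIntegral_mono_on ((hcz.integrableOn_Icc (a := 0) (b := U)).mono_set
    Ioc_subset_Icc_self) (hconst.add hGc) measurableSet_Ioc hpt).trans ?_
  rw [integral_add' hconst hGc, integral_const_mul, setIntegral_const,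
    Real.volume_real_Ioc_of_le hUp.le, smul_eq_mul, sub_zero,
    ← intervalIntegral.integral_of_le hUp.le]
  have e4 := mul_le_mul_of_nonneg_left hGb (show 0 ≤ 8 * (C + 1) ^ 4 by positivity)
  linarith

/-- the lower bound at a suitable distance -/
lemma ml_ge (h2 : SSLow) : ∃ c1 Λ : ℝ, 0 < c1 ∧ 2 ≤ Λ ∧ ∀ T k : ℝ, 0 < T → Λ ≤ Real.log T →
    1 ≤ k → k ≤ 2 → ∃ δ : ℝ, 0 < δ ∧ δ ≤ 1 / 4 ∧ 1 ≤ T / 2 ∧
      c1 * (T * Real.log T ^ (k ^ 2)) ≤ ML k δ (T / 2) := by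
  obtain ⟨c0, hc0, hSS⟩ := h2
  obtain ⟨K, hK1, hcore⟩ := NL.moment_core NL.lowerFull NL.upperFull NL.seriesFull NL.meanN 2
    (by norm_num) (1 / 2) (by norm_num)
  refine ⟨c0 / (4 * (2 * K) ^ 4), 4 * K + 2, by positivity, by linarith, ?_⟩
  intro T k hTp hLK hk1 hk2
  have hLU1 : Real.log (T / 2) = Real.log T - Real.log 2 := Real.log_div hTp.ne' two_ne_zero
  have hlog2 : Real.log 2 < 1 := by
    have := Real.log_two_lt_d9
    linarith
  have hLU4 : 4 * K ≤ Real.log (T / 2) := by rw [hLU1]; linarith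
  have hLU0 : 0 < Real.log (T / 2) := by linarith
  have hU1 : 1 ≤ T / 2 := by
    by_contra hcon
    push Not at hcon
    have := Real.log_neg (by positivity) hcon
    linarith
  have hδ0 : 0 < K / Real.log (T / 2) := by positivity
  have hδ4 : K / Real.log (T / 2) ≤ 1 / 4 := by
    rw [div_le_div_iff₀ hLU0 (by norm_num)]
    linarith
  refine ⟨K / Real.log (T / 2), hδ0, hδ4, hU1, ?_⟩
  obtain ⟨-, hlow, -⟩ := hcore k (K / Real.log (T / 2)) (T / 2) (by linarith)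
    (by exact_mod_cast hk2) hδ0 hδ4 hU1 (le_of_eq (by field_simp))
  refine le_trans ?_ hlow
  have e1 := hSS k (K / Real.log (T / 2)) hk1 hk2 hδ0 hδ4
  have e3 : Real.log T / (2 * K) ≤ 1 / (K / Real.log (T / 2)) := by
    rw [one_div_div, div_le_div_iff₀ (by positivity) (by positivity), hLU1]
    nlinarith
  have hk4 : k ^ 2 ≤ 4 := by nlinarith
  have hL0 : 0 ≤ Real.log T := by linarith
  have e4 : Real.log T ^ (k ^ 2) / (2 * K) ^ 4 ≤ (1 / (K / Real.log (T / 2))) ^ (k ^ 2) := by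
    calc Real.log T ^ (k ^ 2) / (2 * K) ^ 4 ≤ Real.log T ^ (k ^ 2) / (2 * K) ^ (k ^ 2) :=
          div_le_div_of_nonneg_left (Real.rpow_nonneg hL0 _) (by positivity)
            (rpow_le_pow4 (by linarith) hk4)
      _ = (Real.log T / (2 * K)) ^ (k ^ 2) := (Real.div_rpow hL0 (by positivity) _).symm
      _ ≤ (1 / (K / Real.log (T / 2))) ^ (k ^ 2) :=
          Real.rpow_le_rpow (by positivity) e3 (by positivity)
  have e5 := (mul_le_mul_of_nonneg_left e4 hc0.le).trans e1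
  have e6 : c0 / (4 * (2 * K) ^ 4) * (T * Real.log T ^ (k ^ 2))
      = (1 - 1 / 2) * (T / 2 * (c0 * (Real.log T ^ (k ^ 2) / (2 * K) ^ 4))) := by
    field_simp
    ring
  rw [e6]
  have e7 := mul_le_mul_of_nonneg_left e5 (show 0 ≤ T / 2 by positivity)
  linarith

lemma final_num {c1 A B T P I : ℝ} (_hc1 : 0 < c1) (hA : 0 < A) (hB : 0 < B) (hT : 1 ≤ T)
    (h : c1 * P ≤ A * (T / 2) + B * (1 + I)) (hP : 2 * (A + B) * T ≤ c1 * P) :
    c1 / (2 * B) * P ≤ I := by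
  have e3 : A * (T / 2) + B ≤ (A + B) * T := by nlinarith
  have e4 : c1 * P ≤ 2 * (B * I) := by nlinarith
  rw [div_mul_eq_mul_div, div_le_iff₀ (by positivity)]
  linarith

end E2

/-- E2 -/
theorem lowerOrder (h1 : KernelFull) (h2 : SSLow) : LowerOrder := by
  obtain ⟨A, B, hA, hB, hle⟩ := E2.ml_le h1
  obtain ⟨c1, Λ1, hc1, hΛ1, hge⟩ := E2.ml_ge h2
  have hpos1 : 0 ≤ 2 * (A + B) / c1 := by positivity
  refine ⟨c1 / (2 * B), Real.exp (2 * (A + B) / c1 + Λ1), by positivity, ?_, ?_⟩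
  · have h4 := Real.add_one_le_exp (2 * (A + B) / c1 + Λ1)
    linarith
  intro T k hT hk1 hk2
  have hTp : 0 < T := (Real.exp_pos _).trans_le hT
  have hLΛ : 2 * (A + B) / c1 + Λ1 ≤ Real.log T := by
    rw [Real.le_log_iff_exp_le hTp]; exact hT
  have hL1 : 1 ≤ Real.log T := by linarith
  obtain ⟨δ, hδ0, hδ4, hU1, hlow⟩ := hge T k hTp (by linarith) hk1 hk2
  have hup := hle (T / 2) δ k hU1 hδ0 hδ4 hk1 hk2
  have e3 : 2 * (T / 2) = T := by ring
  rw [e3] at hup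
  have hLk : Real.log T ≤ Real.log T ^ (k ^ 2) := by
    calc Real.log T = Real.log T ^ (1 : ℝ) := (Real.rpow_one _).symm
      _ ≤ Real.log T ^ (k ^ 2) := Real.rpow_le_rpow_of_exponent_le hL1 (by nlinarith)
  have hLA : 2 * (A + B) / c1 ≤ Real.log T ^ (k ^ 2) := by linarith
  rw [div_le_iff₀ hc1] at hLA
  have hP : 2 * (A + B) * T ≤ c1 * (T * Real.log T ^ (k ^ 2)) := by
    have := mul_le_mul_of_nonneg_right hLA hTp.le
    linarith
  have h5 := E2.final_num hc1 hA hB (by linarith) (hlow.trans hup) hP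
  rw [mul_assoc]
  exact h5

end Pool.Agent.Lib.N4
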