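import Pool.Agent.Lib.MP_f9aece_nt_n4.Stmts

/-!
# Powers of sums
-/

set_option autoImplicit false

namespace Pool.Agent.Lib.N4

private theorem powSum_aux (q : ℝ) (h1 : 1 ≤ q) (h4 : q ≤ 4) (n : ℕ) : ∀ (x : ℕ → ℝ), (∀ i, 0 ≤ x i) →
    (∑ i ∈ Finset.range n, x i) ^ q ≤ 8 * ∑ i ∈ Finset.range n, 8 ^ i * x i ^ q := by
  induction n with
  | zero =>
    intro x _
    simp [Real.zero_rpow (by linarith : q ≠ 0)]
  | succ n ih =>
    intro x hx
    have ih' := ih (fun i => x (i + 1)) fun i => hx (i + 1)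
    rw [Finset.sum_range_succ', Finset.sum_range_succ']
    set S : ℝ := ∑ i ∈ Finset.range n, x (i + 1) with hS
    have hS0 : 0 ≤ S := Finset.sum_nonneg fun i _ => hx _
    have h2 : (S + x 0) ^ q ≤ 2 ^ (q - 1) * (S ^ q + x 0 ^ q) := by
      have := NNReal.rpow_add_le_mul_rpow_add_rpow ⟨S, hS0⟩ ⟨x 0, hx 0⟩ h1
      exact_mod_cast this
    have h3 : (2 : ℝ) ^ (q - 1) ≤ 8 := by
      calc (2 : ℝ) ^ (q - 1) ≤ 2 ^ (3 : ℝ) := Real.rpow_le_rpow_of_exponent_le (by norm_num) (by linarith)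
        _ = 8 := by norm_num
    have h5 : 0 ≤ S ^ q := Real.rpow_nonneg hS0 _
    have h6 : 0 ≤ x 0 ^ q := Real.rpow_nonneg (hx 0) _
    calc (S + x 0) ^ q ≤ 8 * (S ^ q + x 0 ^ q) :=
          h2.trans (mul_le_mul_of_nonneg_right h3 (by positivity))
      _ ≤ 8 * (8 * ∑ i ∈ Finset.range n, 8 ^ i * x (i + 1) ^ q + x 0 ^ q) := by linarith
      _ = 8 * (∑ i ∈ Finset.range n, 8 ^ (i + 1) * x (i + 1) ^ q + 8 ^ 0 * x 0 ^ q) := by
          rw [Finset.mul_sum]
          congr 2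
          · refine Finset.sum_congr rfl fun i _ => ?_
            rw [pow_succ]; ring
          · simp

/-- N1: powers of sums -/
theorem powSum : PowSum := fun q h1 h4 n x hx => powSum_aux q h1 h4 n x hx

end Pool.Agent.Lib.N4
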