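import Pool.Agent.Lib.MP_f9aece_nt_n4.Stmts

/-!
# The windows: the part with many prime factors
-/

set_option autoImplicit false

namespace Pool.Agent.Lib.N4

open Pool.Agent.Lib.J4 (Yg)

namespace N3aux

/-- basic facts about the scales -/
theorem Yg_facts {v : ℕ} {Y : ℝ} (hY : 0 < Y) (i : ℕ) : 0 < Yg v Y i ∧ Yg v Y i ≤ Y ∧
    0 < Yg v Y (i + 1) ∧ Yg v Y (i + 1) = Yg v Y i * Real.exp (-((v : ℝ) * (i + 1))) ∧
      Yg v Y (i + 1) ≤ Yg v Y i := by
  have h0 : 0 < Yg v Y i := mul_pos hY (Real.exp_pos _)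
  have h1 : 0 < Yg v Y (i + 1) := mul_pos hY (Real.exp_pos _)
  have h2 : Yg v Y (i + 1) = Yg v Y i * Real.exp (-((v : ℝ) * (i + 1))) := by
    have e : -((v : ℝ) * ((i + 1 : ℕ) : ℝ) * (((i + 1 : ℕ) : ℝ) + 1) / 2) =
        -((v : ℝ) * i * (i + 1) / 2) + -((v : ℝ) * (i + 1)) := by push_cast; ring
    unfold Yg
    rw [e, Real.exp_add]
    ring
  refine ⟨h0, ?_, h1, h2, ?_⟩
  · unfold Yg
    refine mul_le_of_le_one_right hY.le (Real.exp_le_one_iff.2 ?_)
    have : 0 ≤ (v : ℝ) * i * (i + 1) / 2 := by positivity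
    linarith
  · rw [h2]
    refine mul_le_of_le_one_right h0.le (Real.exp_le_one_iff.2 ?_)
    have : 0 ≤ (v : ℝ) * (i + 1) := by positivity
    linarith

end N3aux

open N3aux

/-- N3: the windows, part two -/
theorem numOm : NumOm := by
  unfold NumOm kap
  refine ⟨81, by norm_num, fun v hv Y W hY hW i hi k hk1 hk2 => ?_⟩
  obtain ⟨y0, yY, y1, -, yle⟩ := Yg_facts (v := v) hY i
  set y : ℝ := Yg v Y i with hy
  set y' : ℝ := Yg v Y (i + 1) with hy'
  have hyY : y = Y * Real.exp (-((v : ℝ) * i * (i + 1) / 2)) := rfl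
  have hv1 : (1 : ℝ) ≤ v := by exact_mod_cast hv
  have hi0 : (0 : ℝ) ≤ i := Nat.cast_nonneg i
  -- first factor
  have f1 : (y' + 1) ^ (k ^ 2) ≤ 81 * y ^ (k ^ 2) := by
    calc (y' + 1) ^ (k ^ 2) ≤ (3 * y) ^ (k ^ 2) :=
          Real.rpow_le_rpow (by linarith) (by linarith) (by positivity)
      _ = 3 ^ (k ^ 2) * y ^ (k ^ 2) := Real.mul_rpow (by norm_num) y0.le
      _ ≤ 81 * y ^ (k ^ 2) := by
          refine mul_le_mul_of_nonneg_right ?_ (by positivity)
          calc (3 : ℝ) ^ (k ^ 2) ≤ 3 ^ (4 : ℝ) :=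
                Real.rpow_le_rpow_of_exponent_le (by norm_num) (by nlinarith)
            _ = 81 := by norm_num
  -- second factor
  have f2 : ((1 / 2) ^ (50000 * v * (i + 1) ^ 2) * Real.exp (40 * (v * (i + 1)))
      * ((W + y) / y) ^ 4) ^ (k / 2) =
      ((1 / 2 : ℝ) ^ (50000 * v * (i + 1) ^ 2)) ^ (k / 2) * Real.exp (20 * k * (v * (i + 1))) *
        ((W + y) ^ (2 * k) * y ^ (-(2 * k))) := by
    rw [Real.mul_rpow (by positivity) (by positivity), Real.mul_rpow (by positivity) (by positivity)]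
    congr 1
    · congr 1
      rw [← Real.exp_mul]
      congr 1
      ring
    · rw [← Real.rpow_natCast, ← Real.rpow_mul (by positivity), Real.div_rpow (by positivity) y0.le,
        Real.rpow_neg y0.le, div_eq_mul_inv]
      have e : ((4 : ℕ) : ℝ) * (k / 2) = 2 * k := by push_cast; ring
      rw [e]
  have f3 : ((1 / 2 : ℝ) ^ (50000 * v * (i + 1) ^ 2)) ^ (k / 2) ≤
      Real.exp (-(10000 * (v * ((i : ℝ) + 1) ^ 2))) := by
    have h2 : (1 / 2 : ℝ) ≤ Real.exp (-(1 / 2)) := by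
      have h3 : Real.exp (1 / 2) ≤ 2 := by
        calc Real.exp (1 / 2) ≤ Real.exp (Real.log 2) := by
              apply Real.exp_le_exp.2
              have := Real.log_two_gt_d9
              linarith
          _ = 2 := Real.exp_log (by norm_num)
      calc (1 / 2 : ℝ) = 2⁻¹ := by norm_num
        _ ≤ (Real.exp (1 / 2))⁻¹ := inv_anti₀ (Real.exp_pos _) h3
        _ = Real.exp (-(1 / 2)) := (Real.exp_neg _).symm
    have h3 : (1 / 2 : ℝ) ^ (50000 * v * (i + 1) ^ 2) ≤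
        Real.exp (-(25000 * (v * ((i : ℝ) + 1) ^ 2))) := by
      calc (1 / 2 : ℝ) ^ (50000 * v * (i + 1) ^ 2) ≤ (Real.exp (-(1 / 2))) ^ (50000 * v * (i + 1) ^ 2) :=
            pow_le_pow_left₀ (by norm_num) h2 _
        _ = Real.exp (-(25000 * (v * ((i : ℝ) + 1) ^ 2))) := by
            rw [← Real.exp_nat_mul]
            congr 1
            push_cast
            ring
    calc ((1 / 2 : ℝ) ^ (50000 * v * (i + 1) ^ 2)) ^ (k / 2)
        ≤ (Real.exp (-(25000 * (v * ((i : ℝ) + 1) ^ 2)))) ^ (k / 2) :=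
          Real.rpow_le_rpow (by positivity) h3 (by positivity)
      _ = Real.exp (-(25000 * (v * ((i : ℝ) + 1) ^ 2)) * (k / 2)) := by rw [← Real.exp_mul]
      _ ≤ Real.exp (-(10000 * (v * ((i : ℝ) + 1) ^ 2))) := by
          apply Real.exp_le_exp.2
          have : 0 ≤ (v : ℝ) * ((i : ℝ) + 1) ^ 2 := by positivity
          nlinarith
  have f4 : (W + y) ^ (2 * k) ≤ (W + Y) ^ (2 * k) :=
    Real.rpow_le_rpow (by positivity) (by linarith) (by positivity)
  have f5 : y ^ (k ^ 2) * y ^ (-(2 * k)) ≤ Real.exp ((v : ℝ) * i * (i + 1) / 2) * Y ^ (k ^ 2 - 2 * k) := by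
    rw [← Real.rpow_add y0, hyY, Real.mul_rpow hY.le (Real.exp_pos _).le, ← Real.exp_mul, mul_comm,
      show k ^ 2 + -(2 * k) = k ^ 2 - 2 * k by ring]
    refine mul_le_mul_of_nonneg_right (Real.exp_le_exp.2 ?_) (by positivity)
    have h1 : 0 ≤ (v : ℝ) * i * (i + 1) / 2 := by positivity
    nlinarith [mul_nonneg h1 (sq_nonneg (k - 1))]
  have f6 : Real.exp (20 * k * (v * (i + 1))) ≤ Real.exp (40 * (v * ((i : ℝ) + 1))) := by
    apply Real.exp_le_exp.2
    have h1 : 0 ≤ (v : ℝ) * (i + 1) := by positivity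
    nlinarith
  have f7 : Real.exp (-(10000 * (v * ((i : ℝ) + 1) ^ 2))) * Real.exp (40 * (v * ((i : ℝ) + 1))) *
      Real.exp ((v : ℝ) * i * (i + 1) / 2) ≤ Real.exp (-v) * (1 / 16) ^ i := by
    have h16 : Real.exp (-3) ≤ 1 / 16 := by
      rw [Real.exp_neg, one_div, inv_le_inv₀ (Real.exp_pos _) (by norm_num)]
      have h1 : (2.7182818283 : ℝ) < Real.exp 1 := Real.exp_one_gt_d9
      have h2 : Real.exp 3 = Real.exp 1 ^ 3 := by rw [← Real.exp_nat_mul]; norm_num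
      rw [h2]
      calc (16 : ℝ) ≤ 2.7182818283 ^ 3 := by norm_num
        _ ≤ Real.exp 1 ^ 3 := pow_le_pow_left₀ (by norm_num) h1.le 3
    have h2 : Real.exp (-(3 * (i : ℝ))) ≤ (1 / 16) ^ i := by
      have e : Real.exp (-(3 * (i : ℝ))) = (Real.exp (-3)) ^ i := by
        rw [← Real.exp_nat_mul]
        congr 1
        ring
      rw [e]
      exact pow_le_pow_left₀ (Real.exp_pos _).le h16 i
    refine le_trans ?_ (mul_le_mul_of_nonneg_left h2 (Real.exp_pos _).le)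
    rw [← Real.exp_add, ← Real.exp_add, ← Real.exp_add]
    apply Real.exp_le_exp.2
    have h3 : (v : ℝ) * ((i : ℝ) + 1) ≤ v * ((i : ℝ) + 1) ^ 2 := by
      refine mul_le_mul_of_nonneg_left ?_ (by linarith)
      nlinarith
    have h4 : (v : ℝ) * i * (i + 1) / 2 ≤ v * ((i : ℝ) + 1) ^ 2 := by nlinarith
    have h5 : (i : ℝ) + v ≤ 2 * (v * ((i : ℝ) + 1)) := by nlinarith
    have h6 : 0 ≤ (v : ℝ) * ((i : ℝ) + 1) := by positivity
    linarith
  set P : ℝ := ((1 / 2 : ℝ) ^ (50000 * v * (i + 1) ^ 2)) ^ (k / 2) with hP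
  have hP0 : 0 ≤ P := by positivity
  rw [f2]
  have g1 : 0 ≤ y ^ (-(2 * k)) := by positivity
  have g2 : 0 ≤ y ^ (k ^ 2) := by positivity
  calc (y' + 1) ^ (k ^ 2) * (P * Real.exp (20 * k * (v * (i + 1))) *
        ((W + y) ^ (2 * k) * y ^ (-(2 * k))))
      ≤ (81 * y ^ (k ^ 2)) * (Real.exp (-(10000 * (v * ((i : ℝ) + 1) ^ 2))) *
        Real.exp (40 * (v * ((i : ℝ) + 1))) * ((W + Y) ^ (2 * k) * y ^ (-(2 * k)))) := by
        refine mul_le_mul f1 (mul_le_mul (mul_le_mul f3 f6 (Real.exp_pos _).le (Real.exp_pos _).le)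
          (mul_le_mul_of_nonneg_right f4 g1) (by positivity) (by positivity)) (by positivity)
          (by positivity)
    _ = 81 * (Real.exp (-(10000 * (v * ((i : ℝ) + 1) ^ 2))) *
        Real.exp (40 * (v * ((i : ℝ) + 1)))) * ((W + Y) ^ (2 * k)) *
          (y ^ (k ^ 2) * y ^ (-(2 * k))) := by ring
    _ ≤ 81 * (Real.exp (-(10000 * (v * ((i : ℝ) + 1) ^ 2))) *
        Real.exp (40 * (v * ((i : ℝ) + 1)))) * ((W + Y) ^ (2 * k)) *
          (Real.exp ((v : ℝ) * i * (i + 1) / 2) * Y ^ (k ^ 2 - 2 * k)) :=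
        mul_le_mul_of_nonneg_left f5 (by positivity)
    _ = 81 * (Real.exp (-(10000 * (v * ((i : ℝ) + 1) ^ 2))) *
        Real.exp (40 * (v * ((i : ℝ) + 1))) * Real.exp ((v : ℝ) * i * (i + 1) / 2)) *
          ((W + Y) ^ (2 * k) * Y ^ (k ^ 2 - 2 * k)) := by ring
    _ ≤ 81 * (Real.exp (-v) * (1 / 16) ^ i) * ((W + Y) ^ (2 * k) * Y ^ (k ^ 2 - 2 * k)) :=
        mul_le_mul_of_nonneg_right (mul_le_mul_of_nonneg_left f7 (by norm_num)) (by positivity)
    _ = _ := by ring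

end Pool.Agent.Lib.N4
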