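import Mathlib
import Pool.Agent.Lib.MP_f9aece_nt_n4.Stmts
import Pool.Agent.Lib.MP_f9aece_nt_j4.RoughA
import Pool.Agent.Lib.MP_f9aece_nt_h5.PrimeOff
import Pool.Agent.Lib.MP_f9aece_nt_h6.Groups

/-!
Energy of the numbers with many prime factors in one group (Rankin's method).
-/

set_option autoImplicit false

namespace Pool.Agent.Lib.N4

open Pool.Agent.Lib.MP_f9aece_nt (VV Smo)
open Pool.Agent.Lib.MP_f9aece_nt_h85 (Rst)
open Pool.Agent.Lib.MP_f9aece_nt_h5 (tail_finite)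
open Pool.Agent.Lib.MP_f9aece_nt_h6 (VV_le_log)
open Pool.Agent.Lib.J4 (dv)
open Pool.Agent.Lib.J4.H6 (dv_mul hasSum_sq_geom lf)

namespace OmE

lemma OmS_one (S : Finset ℕ) : OmS S 1 = 0 := by simp [OmS]

lemma OmS_mul (S : Finset ℕ) {m n : ℕ} (hm : m ≠ 0) (hn : n ≠ 0) :
    OmS S (m * n) = OmS S m + OmS S n := by
  unfold OmS
  rw [Nat.factorization_mul hm hn, ← Finset.sum_add_distrib]
  rfl

open Classical in
lemma OmS_prime_pow (S : Finset ℕ) {p : ℕ} (hp : p.Prime) (k : ℕ) :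
    OmS S (p ^ k) = if p ∈ S then k else 0 := by
  unfold OmS
  rw [hp.factorization_pow]
  by_cases h : p ∈ S
  · rw [if_pos h, Finset.sum_eq_single p]
    · simp
    · intro q _ hq
      simp [hq.symm]
    · intro h'; exact absurd h h'
  · rw [if_neg h]
    apply Finset.sum_eq_zero
    intro q hq
    have : p ≠ q := fun e => h (e ▸ hq)
    simp [this]

/-- the weighted function -/
noncomputable def fO (S : Finset ℕ) (δ : ℝ) (n : ℕ) : ℝ :=
  dv n ^ 2 * (n : ℝ) ^ (-(1 + 2 * δ)) * 2 ^ OmS S n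

open Classical in
/-- the local variable -/
noncomputable def xO (S : Finset ℕ) (δ : ℝ) (p : ℕ) : ℝ :=
  (p : ℝ) ^ (-(1 + 2 * δ)) * (if p ∈ S then 2 else 1)

lemma fO_nonneg (S : Finset ℕ) (δ : ℝ) (n : ℕ) : 0 ≤ fO S δ n := by unfold fO; positivity

lemma fO_one (S : Finset ℕ) (δ : ℝ) : fO S δ 1 = 1 := by simp [fO, dv, OmS_one]

lemma fO_mul (S : Finset ℕ) (δ : ℝ) {m n : ℕ} (h : m.Coprime n) :
    fO S δ (m * n) = fO S δ m * fO S δ n := by
  rcases eq_or_ne m 0 with rfl | hm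
  · simp [fO, dv]
  rcases eq_or_ne n 0 with rfl | hn
  · simp [fO, dv]
  unfold fO
  rw [dv_mul h, OmS_mul S hm hn, pow_add]
  push_cast
  rw [Real.mul_rpow (Nat.cast_nonneg m) (Nat.cast_nonneg n)]
  ring

lemma fO_prime_pow (S : Finset ℕ) (δ : ℝ) {p : ℕ} (hp : p.Prime) (k : ℕ) :
    fO S δ (p ^ k) = ((k : ℝ) + 1) ^ 2 * xO S δ p ^ k := by
  classical
  unfold fO xO dv
  rw [Nat.divisors_prime_pow hp, Finset.card_map, Finset.card_range, OmS_prime_pow S hp, mul_pow]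
  push_cast
  rw [mul_assoc]
  congr 1
  congr 1
  · rw [← Real.rpow_natCast, ← Real.rpow_natCast, ← Real.rpow_mul (Nat.cast_nonneg p),
      ← Real.rpow_mul (Nat.cast_nonneg p), mul_comm (k : ℝ)]
  · by_cases h : p ∈ S <;> simp [h]

lemma q_le {δ : ℝ} (hδ : 0 ≤ δ) {p : ℕ} (hp : p.Prime) : (p : ℝ) ^ (-(1 + 2 * δ)) ≤ (p : ℝ)⁻¹ := by
  have hp1 : (1 : ℝ) ≤ p := by exact_mod_cast hp.one_le
  rw [← Real.rpow_neg_one]
  exact Real.rpow_le_rpow_of_exponent_le hp1 (by linarith)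

variable {p0 : ℕ} {S : Finset ℕ} {δ : ℝ}

lemma xO_nonneg (p : ℕ) : 0 ≤ xO S δ p := by
  unfold xO
  have : (0 : ℝ) ≤ (p : ℝ) ^ (-(1 + 2 * δ)) := by positivity
  split_ifs <;> positivity

lemma xO_lt_one (hp0 : 1000 ≤ p0) (hδ : 0 ≤ δ) (hS : ∀ p ∈ S, p.Prime ∧ p0 < p) {p : ℕ}
    (hp : p.Prime) : xO S δ p < 1 := by
  have h1 := q_le hδ hp
  have h0 : (0 : ℝ) ≤ (p : ℝ) ^ (-(1 + 2 * δ)) := by positivity
  unfold xO
  split_ifs with h
  · have h2 : (1000 : ℝ) < p := by exact_mod_cast lt_of_le_of_lt hp0 (hS p h).2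
    have h3 : (p : ℝ)⁻¹ ≤ 1 / 1000 := by
      rw [← one_div]
      exact one_div_le_one_div_of_le (by norm_num) h2.le
    linarith
  · have h2 : (2 : ℝ) ≤ p := by exact_mod_cast hp.two_le
    have h3 : (p : ℝ)⁻¹ ≤ 1 / 2 := by
      rw [← one_div]
      exact one_div_le_one_div_of_le (by norm_num) h2
    linarith

/-- Euler product bound -/
lemma sum_fO_le (hp0 : 1000 ≤ p0) (hδ : 0 ≤ δ) (hS : ∀ p ∈ S, p.Prime ∧ p0 < p) (P : Finset ℕ)
    (hP : ∀ p ∈ P, p.Prime) (B : Finset ℕ) (hB : ∀ n ∈ B, n ∈ Nat.factoredNumbers P) :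
    ∑ n ∈ B, fO S δ n ≤ ∏ p ∈ P, lf (xO S δ p) := by
  have h1 := (EulerProduct.summable_and_hasSum_factoredNumbers_prod_filter_prime_tsum
    (f := fO S δ) (fO_one S δ) (fun h => fO_mul S δ h) (fun {p} hp => by
      have h2 := (hasSum_sq_geom (x := xO S δ p) (xO_nonneg p) (xO_lt_one hp0 hδ hS hp)).summable
      refine h2.congr fun k => ?_
      rw [Real.norm_of_nonneg (fO_nonneg _ _ _), fO_prime_pow S δ hp]) P).2
  rw [Finset.filter_true_of_mem hP] at h1
  have h3 : (∏ p ∈ P, ∑' n : ℕ, fO S δ (p ^ n)) = ∏ p ∈ P, lf (xO S δ p) := by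
    refine Finset.prod_congr rfl fun p hp => ?_
    rw [tsum_congr fun k => fO_prime_pow S δ (hP p hp) k]
    exact (hasSum_sq_geom (xO_nonneg p) (xO_lt_one hp0 hδ hS (hP p hp))).tsum_eq
  rw [h3] at h1
  replace h1 : HasSum ((Nat.factoredNumbers P).indicator (fO S δ)) (∏ p ∈ P, lf (xO S δ p)) :=
    hasSum_subtype_iff_indicator.mp h1
  calc ∑ m ∈ B, fO S δ m = ∑ m ∈ B, (Nat.factoredNumbers P).indicator (fO S δ) m := by
        refine Finset.sum_congr rfl fun m hm => ?_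
        rw [Set.indicator_of_mem (hB m hm)]
    _ ≤ _ := sum_le_hasSum _ (fun m _ => Set.indicator_nonneg (fun _ _ => fO_nonneg _ _ _) m) h1

/-- a bound for the local factor -/
lemma lf_le_exp {x : ℝ} (h0 : 0 ≤ x) (h1 : x ≤ 1 / 2) : lf x ≤ Real.exp (4 * x + 6 * x ^ 2) := by
  have h2 : 0 < 1 - x := by linarith
  have h3 : 1 + x ≤ Real.exp x := by linarith [Real.add_one_le_exp x]
  have h4 : 1 ≤ (1 - x) * Real.exp (x + 2 * x ^ 2) := by
    have h5 := Real.quadratic_le_exp_of_nonneg (x := x + 2 * x ^ 2) (by positivity)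
    have h6 : 1 ≤ (1 - x) * (1 + (x + 2 * x ^ 2) + (x + 2 * x ^ 2) ^ 2 / 2) := by
      have e : (1 - x) * (1 + (x + 2 * x ^ 2) + (x + 2 * x ^ 2) ^ 2 / 2) - 1
          = x ^ 2 * (3 / 2 - x / 2 - 2 * x ^ 3) := by ring
      have h7 : 0 ≤ 3 / 2 - x / 2 - 2 * x ^ 3 := by
        have : x ^ 3 ≤ (1 / 2) ^ 3 := pow_le_pow_left₀ h0 h1 3
        linarith
      have h8 : 0 ≤ x ^ 2 * (3 / 2 - x / 2 - 2 * x ^ 3) := by positivity
      linarith
    calc (1 : ℝ) ≤ (1 - x) * (1 + (x + 2 * x ^ 2) + (x + 2 * x ^ 2) ^ 2 / 2) := h6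
      _ ≤ _ := by gcongr
  unfold lf
  rw [div_le_iff₀ (by positivity)]
  have h9 : 1 ≤ ((1 - x) * Real.exp (x + 2 * x ^ 2)) ^ 3 := one_le_pow₀ h4
  calc 1 + x ≤ Real.exp x * 1 := by linarith
    _ ≤ Real.exp x * ((1 - x) * Real.exp (x + 2 * x ^ 2)) ^ 3 := by gcongr
    _ = Real.exp (4 * x + 6 * x ^ 2) * (1 - x) ^ 3 := by
        have e : Real.exp (4 * x + 6 * x ^ 2) = Real.exp x * Real.exp (x + 2 * x ^ 2) ^ 3 := by
          rw [← Real.exp_nat_mul, ← Real.exp_add]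
          congr 1
          push_cast
          ring
        rw [e]; ring

/-- the prime sum over the large primes -/
lemma sum_large {y W X : ℝ} (hy : 1 / 2 ≤ y) (hδ : 0 ≤ δ) (hW : 1 ≤ W)
    (hX : X ≤ W ∨ 1 ≤ δ * W) (L : Finset ℕ)
    (hL : ∀ p ∈ L, p.Prime ∧ y < Real.log p ∧ Real.log p ≤ X) :
    ∑ p ∈ L, (p : ℝ) ^ (-(1 + 2 * δ)) ≤ Real.log ((W + y) / y) + 20 := by
  have hy0 : 0 < y := by linarith
  have hlog4 : Real.log 4 ≤ 1.4 := by
    have h5 : Real.log 4 = 2 * Real.log 2 := by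
      rw [show (4 : ℝ) = 2 ^ 2 by norm_num, Real.log_pow]; norm_num
    have := Real.log_two_lt_d9
    linarith
  have hlog40 : 0 ≤ Real.log 4 := Real.log_nonneg (by norm_num)
  have h4y : Real.log 4 / y ≤ 2.8 := by
    rw [div_le_iff₀ hy0]; nlinarith
  have hbase : 0 ≤ Real.log ((W + y) / y) := by
    apply Real.log_nonneg
    rw [le_div_iff₀ hy0]; linarith
  have hle : ∀ L' : Finset ℕ, (∀ p ∈ L', p.Prime) →
      ∑ p ∈ L', (p : ℝ) ^ (-(1 + 2 * δ)) ≤ VV L' := fun L' h =>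
    Finset.sum_le_sum fun p hp => q_le hδ (h p hp)
  have hmert : ∀ (u : ℝ) (L' : Finset ℕ), 0 < u → u ≤ 4 * W →
      (∀ p ∈ L', p.Prime ∧ y < Real.log p ∧ Real.log p ≤ u) →
      VV L' ≤ Real.log ((W + y) / y) + 6 := by
    intro u L' hu huW hL'
    rcases L'.eq_empty_or_nonempty with rfl | ⟨p, hp⟩
    · simp only [VV, Finset.sum_empty]; linarith
    · have hyu : y ≤ u := ((hL' p hp).2.1.le).trans (hL' p hp).2.2
      have h1 := VV_le_log hy0 hyu L' hL'
      have h2 : Real.log (u / y) ≤ Real.log 4 + Real.log ((W + y) / y) := by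
        rw [← Real.log_mul (by norm_num) (by positivity)]
        apply Real.log_le_log (by positivity)
        rw [div_le_iff₀ hy0]
        have : 4 * ((W + y) / y) * y = 4 * (W + y) := by field_simp
        rw [this]; linarith
      linarith
  rcases hX with hX | hX
  · have h1 := hmert W L (by linarith) (by linarith) fun p hp =>
      ⟨(hL p hp).1, (hL p hp).2.1, (hL p hp).2.2.trans hX⟩
    have h2 := hle L fun p hp => (hL p hp).1
    linarith
  · have hδ0 : 0 < δ := by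
      rcases hδ.eq_or_lt with h | h
      · rw [← h] at hX; simp at hX; linarith
      · exact h
    set δ' := min δ (1 / 4) with hδ'
    have hδ'0 : 0 < δ' := lt_min hδ0 (by norm_num)
    have hδ'4 : δ' ≤ 1 / 4 := min_le_right _ _
    have hδ'δ : δ' ≤ δ := min_le_left _ _
    set u := 1 / δ' with hu
    have hu0 : 0 < u := by positivity
    have hu4 : 4 ≤ u := by
      rw [hu, le_div_iff₀ hδ'0]; linarith
    have huW : u ≤ 4 * W := by
      rw [hu, div_le_iff₀ hδ'0]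
      rcases le_total δ (1 / 4) with h | h
      · have : δ' = δ := min_eq_left h
        rw [this]; nlinarith
      · have : δ' = 1 / 4 := min_eq_right h
        rw [this]; linarith
    classical
    rw [← Finset.sum_filter_add_sum_filter_not L (fun p => Real.log p ≤ u)]
    have h1 := hmert u (L.filter fun p : ℕ => Real.log p ≤ u) hu0 huW fun p hp => by
      rw [Finset.mem_filter] at hp
      exact ⟨(hL p hp.1).1, (hL p hp.1).2.1, hp.2⟩
    have h2 := hle (L.filter fun p : ℕ => Real.log p ≤ u) fun p hp =>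
      (hL p (Finset.mem_filter.mp hp).1).1
    have h3 : ∑ p ∈ L.filter (fun p : ℕ => ¬ Real.log p ≤ u), (p : ℝ) ^ (-(1 + 2 * δ)) ≤ 6 := by
      have h4 := tail_finite (y := Real.exp u) hδ'0 hδ'4
        (by linarith [Real.add_one_le_exp u]) (L.filter (fun p : ℕ => ¬ Real.log p ≤ u))
        fun p hp => by
          rw [Finset.mem_filter, not_le] at hp
          have hp1 := (hL p hp.1).1
          exact ⟨hp1, (Real.lt_log_iff_exp_lt (by exact_mod_cast hp1.pos)).mp hp.2⟩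
      rw [Real.log_exp] at h4
      have h5 : 6 / (δ' * u) = 6 := by
        rw [hu]; field_simp
      rw [h5] at h4
      refine le_trans (Finset.sum_le_sum fun p hp => ?_) h4
      have hp1 : (1 : ℝ) ≤ p := by
        exact_mod_cast (hL p (Finset.mem_filter.mp hp).1).1.one_le
      exact Real.rpow_le_rpow_of_exponent_le hp1 (by linarith)
    linarith

end OmE

open OmE in
theorem omEnergy : OmEnergy := by
  classical
  intro p0 hp0
  have hZs : Summable fun n : ℕ => ((n : ℝ) ^ 2)⁻¹ := Real.summable_nat_pow_inv.mpr (by norm_num)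
  set Z := ∑' n : ℕ, ((n : ℝ) ^ 2)⁻¹ with hZ
  have hZ0 : 0 ≤ Z := tsum_nonneg fun n => by positivity
  refine ⟨Real.exp (4 * p0 + 80 + 6 * Z), Real.one_le_exp (by positivity), ?_⟩
  intro y y' W X δ hy' hyy hy hδ hW hX S hS κ B hB
  have hy0 : 0 < y := by linarith
  have hSp : ∀ p ∈ S, p.Prime ∧ p0 < p := fun p hp => ⟨((hS p).mp hp).1, ((hS p).mp hp).2.1⟩
  -- Rankin
  have h1 : ∑ n ∈ B, dv n ^ 2 * (n : ℝ) ^ (-(1 + 2 * δ)) ≤ (1 / 2) ^ κ * ∑ n ∈ B, fO S δ n := by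
    rw [Finset.mul_sum]
    refine Finset.sum_le_sum fun n hn => ?_
    unfold fO
    have h2 : (1 : ℝ) ≤ (1 / 2) ^ κ * 2 ^ OmS S n := by
      have h3 : (2 : ℝ) ^ κ ≤ 2 ^ OmS S n := pow_le_pow_right₀ (by norm_num) (hB n hn).2.2
      calc (1 : ℝ) = (1 / 2) ^ κ * 2 ^ κ := by rw [← mul_pow]; norm_num
        _ ≤ _ := by gcongr
    have h4 : 0 ≤ dv n ^ 2 * (n : ℝ) ^ (-(1 + 2 * δ)) := by positivity
    calc dv n ^ 2 * (n : ℝ) ^ (-(1 + 2 * δ)) = dv n ^ 2 * (n : ℝ) ^ (-(1 + 2 * δ)) * 1 :=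
          (mul_one _).symm
      _ ≤ dv n ^ 2 * (n : ℝ) ^ (-(1 + 2 * δ)) * ((1 / 2) ^ κ * 2 ^ OmS S n) := by gcongr
      _ = _ := by ring
  set P : Finset ℕ := B.biUnion Nat.primeFactors with hP
  have hPp : ∀ p ∈ P, p.Prime := fun p hp => by
    obtain ⟨n, _, h⟩ := Finset.mem_biUnion.mp hp
    exact Nat.prime_of_mem_primeFactors h
  have hPB : ∀ n ∈ B, n ∈ Nat.factoredNumbers P := by
    intro n hn
    have hn0 : n ≠ 0 := (hB n hn).1.1
    rw [Nat.mem_factoredNumbers]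
    refine ⟨hn0, fun p hp => ?_⟩
    rw [Nat.mem_primeFactorsList hn0] at hp
    exact Finset.mem_biUnion.mpr ⟨n, hn, Nat.mem_primeFactors.mpr ⟨hp.1, hp.2, hn0⟩⟩
  have h2 := sum_fO_le hp0 hδ hSp P hPp B hPB
  -- the three kinds of primes
  set L : Finset ℕ := P.filter (fun p => p0 < p ∧ p ∉ S) with hL
  have hLp : ∀ p ∈ L, p.Prime ∧ y < Real.log p ∧ Real.log p ≤ X := by
    intro p hp
    rw [hL, Finset.mem_filter] at hp
    obtain ⟨hpP, hpp0, hpS⟩ := hp
    obtain ⟨n, hn, hpn⟩ := Finset.mem_biUnion.mp hpP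
    obtain ⟨hpr, hpd, hn0⟩ := Nat.mem_primeFactors.mp hpn
    have hp0' : (0 : ℝ) < p := by exact_mod_cast hpr.pos
    have h3 : ¬ (p0 < p ∧ p ≤ ⌊Real.exp y'⌋₊) := (hB n hn).1.2 p hpr hpd
    have h4 : y' < Real.log p := by
      rw [Real.lt_log_iff_exp_lt hp0']
      have h5 : ¬ p ≤ ⌊Real.exp y'⌋₊ := fun h => h3 ⟨hpp0, h⟩
      rwa [Nat.le_floor_iff (Real.exp_pos y').le, not_le] at h5
    refine ⟨hpr, ?_, ?_⟩
    · by_contra hc
      exact hpS ((hS p).mpr ⟨hpr, hpp0, h4, not_lt.mp hc⟩)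
    · refine le_trans ?_ (hB n hn).2.1
      apply Real.log_le_log hp0'
      exact_mod_cast Nat.le_of_dvd (Nat.pos_of_ne_zero hn0) hpd
  have h3 := sum_large hy hδ hW hX L hLp
  -- local factors
  have h4 : ∏ p ∈ P, lf (xO S δ p) ≤ ∏ p ∈ P, Real.exp ((if p ≤ p0 then 4 else 0)
      + ((if p ∈ S then 20 * (p : ℝ)⁻¹ else 0)
        + (if p0 < p ∧ p ∉ S then 4 * (p : ℝ) ^ (-(1 + 2 * δ)) + 6 * ((p : ℝ) ^ 2)⁻¹ else 0))) := by
    apply Finset.prod_le_prod
    · intro p hp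
      have h5 := xO_nonneg (S := S) (δ := δ) p
      have h6 := xO_lt_one hp0 hδ hSp (hPp p hp)
      unfold lf
      have : 0 < 1 - xO S δ p := by linarith
      positivity
    · intro p hp
      have hpr := hPp p hp
      have hp2 : (2 : ℝ) ≤ p := by exact_mod_cast hpr.two_le
      have hpos : (0 : ℝ) < p := by linarith
      have hq := q_le hδ hpr
      have hq0 : (0 : ℝ) ≤ (p : ℝ) ^ (-(1 + 2 * δ)) := by positivity
      have hinv2 : (p : ℝ)⁻¹ ≤ 1 / 2 := by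
        rw [← one_div]
        exact one_div_le_one_div_of_le (by norm_num) hp2
      by_cases hps : p ≤ p0
      · have hnS : p ∉ S := fun h => absurd (hSp p h).2 (by omega)
        have hx : xO S δ p = (p : ℝ) ^ (-(1 + 2 * δ)) := by unfold xO; rw [if_neg hnS, mul_one]
        rw [if_pos hps, if_neg hnS, if_neg (by omega), hx]
        refine (lf_le_exp hq0 (by linarith)).trans ?_
        apply Real.exp_le_exp.mpr
        nlinarith
      · push Not at hps
        have hp1000 : (1000 : ℝ) ≤ p := by exact_mod_cast (by omega : 1000 ≤ p)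
        have hinv : (p : ℝ)⁻¹ ≤ 1 / 1000 := by
          rw [← one_div]
          exact one_div_le_one_div_of_le (by norm_num) hp1000
        have hinv0 : 0 < (p : ℝ)⁻¹ := by positivity
        by_cases hpS : p ∈ S
        · have hx : xO S δ p = (p : ℝ) ^ (-(1 + 2 * δ)) * 2 := by unfold xO; rw [if_pos hpS]
          rw [if_neg (by omega), if_pos hpS, if_neg (by tauto), hx]
          refine (lf_le_exp (by positivity) (by linarith)).trans ?_
          apply Real.exp_le_exp.mpr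
          nlinarith
        · have hx : xO S δ p = (p : ℝ) ^ (-(1 + 2 * δ)) := by unfold xO; rw [if_neg hpS, mul_one]
          rw [if_neg (by omega), if_neg hpS, if_pos ⟨hps, hpS⟩, hx]
          refine (lf_le_exp hq0 (by linarith)).trans ?_
          apply Real.exp_le_exp.mpr
          have h7 : ((p : ℝ) ^ (-(1 + 2 * δ))) ^ 2 ≤ ((p : ℝ) ^ 2)⁻¹ := by
            rw [← inv_pow]
            exact pow_le_pow_left₀ hq0 hq 2
          linarith
  rw [← Real.exp_sum] at h4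
  rw [Finset.sum_add_distrib, Finset.sum_add_distrib] at h4
  have e1 : ∑ p ∈ P, (if p ≤ p0 then (4 : ℝ) else 0) ≤ 4 * p0 := by
    rw [← Finset.sum_filter, Finset.sum_const, nsmul_eq_mul]
    have hsub : P.filter (fun p => p ≤ p0) ⊆ Finset.Icc 1 p0 := by
      intro p hp
      rw [Finset.mem_filter] at hp
      rw [Finset.mem_Icc]
      exact ⟨(hPp p hp.1).one_le, hp.2⟩
    have hc : (P.filter (fun p => p ≤ p0)).card ≤ p0 := by
      calc _ ≤ (Finset.Icc 1 p0).card := Finset.card_le_card hsub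
        _ = p0 := by simp
    have hc' : ((P.filter (fun p => p ≤ p0)).card : ℝ) ≤ p0 := by exact_mod_cast hc
    linarith
  have e2 : ∑ p ∈ P, (if p ∈ S then 20 * (p : ℝ)⁻¹ else 0) ≤ 20 * VV S := by
    rw [← Finset.sum_filter, VV, Finset.mul_sum]
    apply Finset.sum_le_sum_of_subset_of_nonneg
    · intro p hp
      exact (Finset.mem_filter.mp hp).2
    · intro p _ _; positivity
  have e3 : ∑ p ∈ P, (if p0 < p ∧ p ∉ S then 4 * (p : ℝ) ^ (-(1 + 2 * δ)) + 6 * ((p : ℝ) ^ 2)⁻¹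
      else 0) ≤ 4 * (Real.log ((W + y) / y) + 20) + 6 * Z := by
    rw [← Finset.sum_filter, ← hL, Finset.sum_add_distrib, ← Finset.mul_sum, ← Finset.mul_sum]
    have h5 : ∑ p ∈ L, ((p : ℝ) ^ 2)⁻¹ ≤ Z := hZs.sum_le_tsum L fun n _ => by positivity
    linarith
  have h5 : ∑ n ∈ B, fO S δ n ≤ Real.exp (4 * p0 + (20 * VV S
      + (4 * (Real.log ((W + y) / y) + 20) + 6 * Z))) := by
    refine h2.trans (h4.trans ?_)
    apply Real.exp_le_exp.mpr
    linarith
  have hpos : 0 < (W + y) / y := by positivity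
  have h6 : Real.exp (4 * p0 + (20 * VV S + (4 * (Real.log ((W + y) / y) + 20) + 6 * Z)))
      = Real.exp (4 * p0 + 80 + 6 * Z) * (Real.exp (20 * VV S) * ((W + y) / y) ^ 4) := by
    have h7 : ((W + y) / y) ^ 4 = Real.exp (4 * Real.log ((W + y) / y)) := by
      rw [mul_comm, Real.exp_mul, Real.exp_log hpos]
      norm_cast
    rw [h7, ← Real.exp_add, ← Real.exp_add]
    congr 1
    ring
  calc ∑ n ∈ B, dv n ^ 2 * (n : ℝ) ^ (-(1 + 2 * δ)) ≤ (1 / 2) ^ κ * ∑ n ∈ B, fO S δ n := h1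
    _ ≤ (1 / 2) ^ κ * (Real.exp (4 * p0 + 80 + 6 * Z)
        * (Real.exp (20 * VV S) * ((W + y) / y) ^ 4)) := by
        rw [← h6]; gcongr
    _ = _ := by ring

end Pool.Agent.Lib.N4
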