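import Mathlib
import Pool.Agent.Lib.MP_f9aece_nt_n4.Stmts
import Pool.Agent.Lib.MP_f9aece_nt_h17.Pt

/-!
Moments of zeta of order between two and four, module P1: the pointwise inequality.
-/

set_option autoImplicit false

namespace Pool.Agent.Lib.N4

open MeasureTheory Set Filter Topology Complex
open Pool.Agent.Lib.MP_f9aece_nt (DP pair BK K1 ev PP VV Smo expo EE)
open Pool.Agent.Lib.MP_f9aece_nt_h5 (tw)
open Pool.Agent.Lib.MP_f9aece_nt_h40 (ind)
open Pool.Agent.Lib.MP_f9aece_nt_h85 (rz Rst Pst)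
open Pool.Agent.Lib.MP_f9aece_nt_h97 (Psm Dsm evs)
open Pool.Agent.Lib.J4 (Sg Yg rg Jok Bt Wt Vs En Wgt dv V2 SU Rg Kg Mg Eg Pg)
open Pool.Agent.Lib.J4.PtI
open Pool.Agent.Lib.NL (pt B0 F0 SS ML)

namespace P1I

lemma ev_tw_expo (δ t : ℝ) (c : ℝ) (M : ℕ) (I : Finset ℕ) :
    ev t (tw δ (expo c M I)) = EE M (c * ev t (tw δ (PP I))) := by
  rw [expo, map_sum, map_sum, EE]
  refine Finset.sum_congr rfl fun r _ => ?_
  rw [map_smul, map_smul, map_pow, map_pow, Complex.real_smul, mul_pow]
  push_cast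
  ring

/-- expansion of the sum over the sets of groups -/
lemma sum_eq_prod' (c : ℝ) (v p0 : ℕ) (Y : ℝ) (i J : ℕ) (δ t : ℝ) :
    ∑ s ∈ (Finset.Ico i J).powerset, Wt v s * ‖ev t (tw δ (Bt c v p0 Y i J s))‖ ^ 2
      = ∏ g ∈ Finset.Ico i J, (bt v g (ev t (tw δ (Pg v p0 Y g)))
          + ‖EE (Kg v g) (c * ev t (tw δ (Pg v p0 Y g)))‖ ^ 2) := by
  rw [Finset.prod_add]
  refine Finset.sum_congr rfl fun s _ => ?_
  unfold Bt Wt bt
  rw [map_mul, map_mul, map_prod, map_prod, map_prod, map_prod, norm_mul, norm_prod, norm_prod,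
    mul_pow, ← Finset.prod_pow, ← Finset.prod_pow, Finset.prod_mul_distrib]
  have h1 : ∀ g, ‖ev t (tw δ (Eg c v p0 Y g))‖ ^ 2
      = ‖EE (Kg v g) (c * ev t (tw δ (Pg v p0 Y g)))‖ ^ 2 := by
    intro g
    unfold Eg Pg
    rw [ev_tw_expo]
  simp only [h1, map_pow]
  ring

lemma GX_pos (a : ℝ) (v i J : ℕ) (P : ℕ → ℂ) : 0 < GX a v i J P := by
  unfold GX
  refine Finset.prod_pos fun g _ => ?_
  split_ifs
  · exact Real.exp_pos _
  · exact one_pos

end P1I

open P1I

theorem ptYoung : PtYoung := by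
  intro v hv p0 Y i J a ha0 ha1 δ t
  set P : ℕ → ℂ := fun g => ev t (tw δ (Pg v p0 Y g)) with hP
  set H : ℝ := ∏ g ∈ Finset.Ico i J,
    (if ‖P g‖ ≤ Rg v g then Real.exp (4 * (1 - a) * (P g).re) else 1) with hH
  have hH0 : 0 ≤ H := Finset.prod_nonneg fun g _ => by
    split_ifs
    · exact (Real.exp_pos _).le
    · exact zero_le_one
  have hG0 : 0 < GX a v i J P := GX_pos a v i J P
  refine ⟨GX a v i J P, H, hG0, hH0, fun z => ?_, ?_, ?_⟩
  · rcases ha0.eq_or_lt with h0 | h0
    · subst h0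
      have h1 : GX 0 v i J P = 1 := by
        unfold GX
        refine Finset.prod_eq_one fun g _ => ?_
        simp
      rw [h1]
      have h2 : (4 * (1 - 0) : ℝ) = ((4 : ℕ) : ℝ) := by norm_num
      rw [h2, Real.rpow_natCast]
      simp
    · have hy : GX a v i J P ^ (-((1 - a) / a)) = H := by
        rw [hH]
        unfold GX
        rw [← Real.finsetProd_rpow]
        · refine Finset.prod_congr rfl fun g _ => ?_
          split_ifs
          · rw [← Real.exp_mul]
            congr 1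
            field_simp
          · rw [Real.one_rpow]
        · intro g _
          split_ifs
          · exact (Real.exp_pos _).le
          · exact zero_le_one
      have hyoung := Real.geom_mean_le_arith_mean2_weighted (w₁ := 1 - a) (w₂ := a)
        (p₁ := ‖z‖ ^ 4 * GX a v i J P) (p₂ := H) (by linarith) h0.le (by positivity) hH0 (by ring)
      have hl : (‖z‖ ^ 4 * GX a v i J P) ^ (1 - a) * H ^ a = ‖z‖ ^ (4 * (1 - a)) := by
        rw [Real.mul_rpow (by positivity) hG0.le, ← hy, ← Real.rpow_mul hG0.le]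
        have e1 : -((1 - a) / a) * a = -(1 - a) := by field_simp
        rw [e1, mul_assoc, ← Real.rpow_add hG0]
        have e2 : (1 - a) + -(1 - a) = 0 := by ring
        rw [e2, Real.rpow_zero, mul_one, ← Real.rpow_natCast, ← Real.rpow_mul (norm_nonneg z)]
        norm_num
      rw [hl] at hyoung
      exact hyoung
  · rw [sum_eq_prod']
    unfold GX
    exact prod_group_le hv (Finset.Ico i J) (c := -2 * a) (d := -4 * a) (by
      rw [abs_le]; constructor <;> linarith) P (by ring)
  · rw [sum_eq_prod', hH]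
    refine prod_group_le hv _ ?_ P (by ring)
    rw [abs_of_nonneg (by linarith)]
    linarith

end Pool.Agent.Lib.N4
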