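import Mathlib
import Pool.Agent.Lib.MP_f9aece_nt_n4.Stmts
import Pool.Agent.Lib.MP_f9aece_nt_j4.I2Base

/-!
Moments of zeta of order between two and four, module P2: lengths.
-/

set_option autoImplicit false

namespace Pool.Agent.Lib.N4

open MeasureTheory Set Filter Topology Complex
open Pool.Agent.Lib.MP_f9aece_nt (DP pair BK K1 ev PP VV Smo expo EE Smo_mono log_le_of_Omega
  one_mem_Smo mul_mem_Smo)
open Pool.Agent.Lib.MP_f9aece_nt_h40 (ind cone_ind)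
open Pool.Agent.Lib.MP_f9aece_nt_h97 (Sup sup_of_cone sup_prod_Smo)
open Pool.Agent.Lib.J4 (Sg Yg rg Jok Bt Wt Vs En Wgt dv V2 SU Rg Mg Ln sup_Ln_prod sup_bg_Ln Bt_eq
  Sg_prime Sg_log_le Yg_pos Yg_succ sum_MY_le sup_Bt_SU)

namespace P2I

lemma geom_sum_le' (a : ℕ → ℝ) (ha : ∀ g, 0 ≤ a g) (h : ∀ g, a (g + 1) ≤ 3 / 5 * a g) (i J : ℕ) :
    ∑ g ∈ Finset.Ico i J, a g ≤ 5 / 2 * a i := by
  rcases le_total J i with hJ | hJ
  · rw [Finset.Ico_eq_empty_of_le hJ, Finset.sum_empty]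
    have := ha i
    linarith
  · have h1 : ∀ J, i ≤ J → ∑ g ∈ Finset.Ico i J, a g ≤ 5 / 2 * a i - 5 / 2 * a J := by
      intro J hJ
      induction J, hJ using Nat.le_induction with
      | base => simp
      | succ J hJ ih =>
        rw [Finset.sum_Ico_succ_top hJ]
        have := h J
        linarith
    have h2 := h1 J hJ
    have := ha J
    linarith

lemma exp_neg_two_le' : Real.exp (-2) ≤ 3 / 20 := by
  have h1 := Real.exp_one_gt_d9
  have h2 : Real.exp 2 = Real.exp 1 * Real.exp 1 := by rw [← Real.exp_add]; norm_num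
  rw [Real.exp_neg, h2, inv_eq_one_div, div_le_iff₀ (by positivity)]
  nlinarith

lemma sum_kY_le {v : ℕ} (hv : 2 ≤ v) {Y : ℝ} (hY : 0 < Y) (i J : ℕ) :
    ∑ g ∈ Finset.Ico i J, (kap v g : ℝ) * Yg v Y g ≤ 125000 * v * (i + 1) ^ 2 * Yg v Y i := by
  have h0 : ∀ g, (kap v g : ℝ) * Yg v Y g = 50000 * v * ((g : ℝ) + 1) ^ 2 * Yg v Y g := fun g => by
    unfold kap
    push_cast
    ring
  refine (geom_sum_le' (fun g => (kap v g : ℝ) * Yg v Y g)
    (fun g => mul_nonneg (by positivity) (Yg_pos v hY g).le) (fun g => ?_) i J).trans (le_of_eq ?_)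
  · show (kap v (g + 1) : ℝ) * Yg v Y (g + 1) ≤ 3 / 5 * ((kap v g : ℝ) * Yg v Y g)
    rw [h0, h0, Yg_succ]
    have hY0 := Yg_pos v hY g
    have h1 : Real.exp (-(rg v g : ℝ)) ≤ 3 / 20 := by
      refine le_trans ?_ exp_neg_two_le'
      apply Real.exp_le_exp.mpr
      have : (2 : ℝ) ≤ (rg v g : ℝ) := by
        have h2 : 2 ≤ rg v g := by
          unfold rg
          calc 2 ≤ v * 1 := by omega
            _ ≤ v * (g + 1) := Nat.mul_le_mul_left _ (by omega)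
        exact_mod_cast h2
      linarith
    push_cast
    have h2 : (0 : ℝ) ≤ (g : ℝ) := Nat.cast_nonneg g
    have h3 : ((g : ℝ) + 1 + 1) ^ 2 ≤ 4 * ((g : ℝ) + 1) ^ 2 := by nlinarith
    calc 50000 * (v : ℝ) * ((g : ℝ) + 1 + 1) ^ 2 * (Yg v Y g * Real.exp (-(rg v g : ℝ)))
        ≤ 50000 * (v : ℝ) * (4 * ((g : ℝ) + 1) ^ 2) * (Yg v Y g * (3 / 20)) := by gcongr
      _ = 3 / 5 * (50000 * (v : ℝ) * ((g : ℝ) + 1) ^ 2 * Yg v Y g) := by ring
  · rw [h0]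
    ring

lemma sup_ind_Ln (v p0 : ℕ) {Y : ℝ} (hY : 0 < Y) (g : ℕ) :
    Sup (Ln (kap v g * Yg v Y g)) (ind (kap v g) (Sg v p0 Y g)) := by
  refine (sup_of_cone (cone_ind Sg_prime (kap v g))).mono fun n hn =>
    ⟨Nat.one_le_iff_ne_zero.mpr hn.1.1, ?_⟩
  exact log_le_of_Omega (lam := Yg v Y g) (fun p hp => Sg_log_le p hp) (Yg_pos v hY g).le hn.1 hn.2

lemma sup_EI_SU (v p0 : ℕ) (Y : ℝ) (i J : ℕ) :
    Sup (Smo (SU v p0 Y i J : Set ℕ)) (EI v p0 Y i J) := by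
  unfold EI
  refine (sup_prod_Smo _ (Sg v p0 Y) _ fun g _ =>
    (sup_of_cone (cone_ind Sg_prime (kap v g))).mono fun n hn => hn.1).mono (Smo_mono ?_)
  intro p hp
  simp only [Set.mem_iUnion] at hp
  obtain ⟨g, hg, hp⟩ := hp
  unfold SU
  rw [Finset.mem_coe, Finset.mem_biUnion]
  exact ⟨g, hg, hp⟩

lemma sup_EI_Ln (v p0 : ℕ) {Y : ℝ} (hY : 0 < Y) (i J : ℕ) :
    Sup (Ln (∑ g ∈ Finset.Ico i J, (kap v g : ℝ) * Yg v Y g)) (EI v p0 Y i J) :=
  sup_Ln_prod _ _ _ fun g _ => sup_ind_Ln v p0 hY g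

lemma sum_le_el {v : ℕ} (hv : 2 ≤ v) {Y : ℝ} (hY : 0 < Y) {i J : ℕ} (hiJ : i ≤ J) :
    2 * (∑ g ∈ Finset.Ico i J, (kap v g : ℝ) * Yg v Y g)
      + ∑ g ∈ Finset.Ico i J, (Mg v g : ℝ) * Yg v Y g ≤ el v Y J i := by
  unfold el
  split_ifs with h
  · have h1 := sum_kY_le hv hY i J
    have h2 := sum_MY_le hv hY i J
    have hY0 := Yg_pos v hY i
    have h3 : (0 : ℝ) ≤ (i : ℝ) := Nat.cast_nonneg i
    have h4 : 200000 * (v : ℝ) * (i + 1) * Yg v Y i ≤ 200000 * v * (i + 1) ^ 2 * Yg v Y i := by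
      gcongr
      nlinarith
    have h5 : 0 ≤ (v : ℝ) * (i + 1) ^ 2 * Yg v Y i := by positivity
    unfold ell
    nlinarith
  · rw [Finset.Ico_eq_empty_of_le (by omega)]
    simp

end P2I

open P2I

theorem lenEI : LenEI := by
  intro v p0 hv _ Y hY i J hiJ c s hs n
  rw [Finset.mem_powerset] at hs
  have hB1 := sup_Bt_SU c v p0 Y i J hs
  have hB2 : Sup (Ln (∑ g ∈ Finset.Ico i J, (Mg v g : ℝ) * Yg v Y g)) (Bt c v p0 Y i J s) := by
    rw [Bt_eq c v p0 Y i J hs]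
    exact sup_Ln_prod _ _ _ fun g _ => sup_bg_Ln c v p0 hY s g
  have hE1 := sup_EI_SU v p0 Y i J
  have hE2 := sup_EI_Ln v p0 hY i J
  have hs1 := sum_le_el hv hY hiJ
  have hs2 : 0 ≤ ∑ g ∈ Finset.Ico i J, (kap v g : ℝ) * Yg v Y g :=
    Finset.sum_nonneg fun g _ => mul_nonneg (by positivity) (Yg_pos v hY g).le
  constructor
  · intro hn
    have hE1' : Sup (Smo (SU v p0 Y i J : Set ℕ)) (EI v p0 Y i J ^ 2 * Bt c v p0 Y i J s) := by
      rw [sq]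
      exact (hE1.mul hE1 fun a ha b hb => mul_mem_Smo ha hb).mul hB1
        fun a ha b hb => mul_mem_Smo ha hb
    have hE2' : Sup (Ln (el v Y J i)) (EI v p0 Y i J ^ 2 * Bt c v p0 Y i J s) := by
      rw [sq]
      refine ((hE2.mul hE2 fun a ha b hb => Ln.mul ha hb).mul hB2
        fun a ha b hb => Ln.mul ha hb).mono (Ln.mono ?_)
      linarith
    exact ⟨hE1' n hn, (hE2' n hn).1, (hE2' n hn).2⟩
  · intro hn
    have h2 := hB2 n hn
    exact ⟨hB1 n hn, h2.1, h2.2.trans (by linarith)⟩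

end Pool.Agent.Lib.N4
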