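import Pool.Agent.Lib.MP_f9aece_nt_n4.Stmts
import Pool.Agent.Lib.MP_f9aece_nt_h4.NIntA
import Pool.Agent.Lib.MP_f9aece_nt_j4.I2Sum
import Pool.Agent.Lib.MP_f9aece_nt_j4.Iw

/-!
Moments of zeta of order between two and four, module P3: the inequality for one level.
-/

set_option autoImplicit false

namespace Pool.Agent.Lib.N4

open MeasureTheory Set Filter Topology Complex
open Pool.Agent.Lib.MP_f9aece_nt (DP pair BK K1 ev PP VV Smo expo EE mulKer_K1 mul_mem_Smo Smo_pos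
  continuous_ev pair_def)
open Pool.Agent.Lib.MP_f9aece_nt_h5 (tw coeff_tw)
open Pool.Agent.Lib.MP_f9aece_nt_h40 (ind)
open Pool.Agent.Lib.MP_f9aece_nt_h85 (rz Rst Pst)
open Pool.Agent.Lib.MP_f9aece_nt_h97 (Psm Dsm evs Sup BK_mul_sup)
open Pool.Agent.Lib.J4 (Sg Yg rg Jok Bt Wt Vs En Wgt dv V2 SU Rg Iw Iw_mono Iw_const_mul Iw_add
  Iw_sum mem_Sg Yg_anti En_eq_sum En_nonneg')
open Pool.Agent.Lib.NL (pt B0 F0 SS ML)

namespace P3

lemma sup_tw {A : Set ℕ} {f : DP} (δ : ℝ) (hf : Sup A f) : Sup A (tw δ f) := fun n hn => by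
  rw [coeff_tw] at hn
  exact hf n (left_ne_zero_of_mul hn)

lemma Wt_nonneg (v : ℕ) (s : Finset ℕ) : 0 ≤ Wt v s :=
  Finset.prod_nonneg fun g _ => by unfold Rg; positivity

/-- the primes of the groups `≥ i` are at most `exp (Yg v Y i)` -/
lemma disj {v p0 : ℕ} {Y : ℝ} (hY : 0 < Y) (i J : ℕ) :
    Disjoint (Rst p0 (Yg v Y i)) (SU v p0 Y i J : Set ℕ) := by
  rw [Set.disjoint_right]
  intro p hp
  unfold SU at hp
  rw [Finset.mem_coe, Finset.mem_biUnion] at hp
  obtain ⟨g, hg, hp⟩ := hp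
  obtain ⟨-, hpp, hp0, -, hp1⟩ := mem_Sg.1 hp
  have hg' := (Finset.mem_Ico.1 hg).1
  have h1 : Real.log p ≤ Yg v Y i := hp1.trans (Yg_anti v hY hg')
  have h2 : (0 : ℝ) < p := by exact_mod_cast hpp.pos
  have h3 : p ≤ ⌊Real.exp (Yg v Y i)⌋₊ := by
    apply Nat.le_floor
    rw [← Real.exp_log h2]
    exact Real.exp_le_exp.2 h1
  intro h
  exact h ⟨hp0, h3⟩

/-- product of energies -/
lemma En_mul {v p0 : ℕ} {Y : ℝ} (hY : 0 < Y) (i J : ℕ) {f g : DP}
    (hf : Sup (Smo (Rst p0 (Yg v Y i))) f) (hg : Sup (Smo (SU v p0 Y i J : Set ℕ))  g) :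
    En (f * g) = En f * En g :=
  BK_mul_sup K1 hf hf hg hg (mulKer_K1.2 _ _ (disj hY i J))

lemma En_eq_zero {f : DP} (hf : ∀ n, f.coeff n ≠ 0 → 1 ≤ n) (h : En f = 0) : f = 0 := by
  rw [En_eq_sum, Finset.sum_eq_zero_iff_of_nonneg fun a _ => by positivity] at h
  have h1 : f.coeff.support = ∅ := by
    rw [Finset.eq_empty_iff_forall_notMem]
    intro a ha
    have h2 := h a ha
    have h3 : f.coeff a ≠ 0 := Finsupp.mem_support_iff.1 ha
    have h4 : (a : ℝ) ≠ 0 := by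
      have := hf a h3
      exact_mod_cast Nat.one_le_iff_ne_zero.1 this
    rcases mul_eq_zero.1 h2 with h5 | h5
    · exact h3 (pow_eq_zero_iff (two_ne_zero) |>.1 h5)
    · exact h4 (inv_eq_zero.1 h5)
  have h2 : f.coeff = 0 := Finsupp.support_eq_empty.1 h1
  exact MonoidAlgebra.coeff_injective (by rw [h2]; rfl)

/-- the scaled inequality -/
lemma scale {k G H a : ℝ} (ha : a = 1 - k / 2) (_hk : 0 < k)
    (h : ∀ z : ℂ, ‖z‖ ^ (4 * (1 - a)) ≤ (1 - a) * (‖z‖ ^ 4 * G) + a * H)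
    {E : ℝ} (hE : 0 < E) (z : ℂ) :
    ‖z‖ ^ (2 * k) ≤ (1 - a) * (E ^ (-a) * (‖z‖ ^ 4 * G)) + a * (E ^ (1 - a) * H) := by
  set c : ℝ := E ^ (-(1 / 4) : ℝ) with hc
  have hc0 : 0 < c := Real.rpow_pos_of_pos hE _
  have h1 := h (c * z)
  have e1 : ‖(c : ℂ) * z‖ = c * ‖z‖ := by
    rw [norm_mul, Complex.norm_real, Real.norm_eq_abs, abs_of_pos hc0]
  have e2 : 4 * (1 - a) = 2 * k := by rw [ha]; ring
  rw [e1, e2, Real.mul_rpow hc0.le (norm_nonneg _), mul_pow] at h1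
  have e3 : c ^ (2 * k) = E ^ (-(1 - a)) := by
    rw [hc, ← Real.rpow_mul hE.le]
    congr 1
    rw [ha]; ring
  have e4 : c ^ 4 = E ^ (-1 : ℝ) := by
    rw [hc, ← Real.rpow_natCast, ← Real.rpow_mul hE.le]
    congr 1
    norm_num
  rw [e3, e4] at h1
  have h2 : 0 < E ^ (1 - a) := Real.rpow_pos_of_pos hE _
  have h3 := mul_le_mul_of_nonneg_left h1 h2.le
  have e5 : E ^ (1 - a) * E ^ (-(1 - a)) = 1 := by
    rw [← Real.rpow_add hE]; simp
  have e6 : E ^ (1 - a) * E ^ (-1 : ℝ) = E ^ (-a) := by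
    rw [← Real.rpow_add hE]; congr 1; ring
  calc ‖z‖ ^ (2 * k) = E ^ (1 - a) * (E ^ (-(1 - a)) * ‖z‖ ^ (2 * k)) := by
        rw [← mul_assoc, e5, one_mul]
    _ ≤ E ^ (1 - a) * ((1 - a) * (E ^ (-1 : ℝ) * ‖z‖ ^ 4 * G) + a * H) := h3
    _ = (1 - a) * ((E ^ (1 - a) * E ^ (-1 : ℝ)) * (‖z‖ ^ 4 * G)) + a * (E ^ (1 - a) * H) := by ring
    _ = _ := by rw [e6]

end P3

open P3

theorem level (hP1 : PtYoung) (hP2 : LenEI) (hB3 : SumEI) (hB4 : SumB) : Level := by
  obtain ⟨CE, hCE, vE, hE⟩ := hB3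
  obtain ⟨vB, hB⟩ := hB4
  refine ⟨max 2 (max vE vB), fun w θ C hθ hw C0 hC0 => ?_⟩
  obtain ⟨C1, hC1, hI⟩ := J4.NInt.int_sq_le J4.mvt hθ hw
  have hW0 : 0 ≤ ∫ u, w u := integral_nonneg hw.nonneg
  set K : ℝ := (∫ u, w u) + C1 * C0 ^ 2 with hK
  have hK0 : 0 ≤ K := by positivity
  set D : ℝ := Real.exp 1 * K * Real.exp (CE + 4) with hD
  refine ⟨max 1 D, le_max_left _ _, fun v hv p0 hp0 Y hY J hJ i hiJ k hk1 hk2 δ hδ T N hT hN hNT F hF => ?_⟩
  have hv2 : 2 ≤ v := le_trans (le_max_left _ _) hv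
  have hvE : vE ≤ v := le_trans (le_trans (le_max_left _ _) (le_max_right _ _)) hv
  have hvB : vB ≤ v := le_trans (le_trans (le_max_right _ _) (le_max_right _ _)) hv
  have hT0 : 0 < T := by linarith
  set a : ℝ := 1 - k / 2 with ha
  have ha0 : 0 ≤ a := by rw [ha]; linarith
  have ha1 : a ≤ 1 / 2 := by rw [ha]; linarith
  set Q := Qs δ v p0 Y i J with hQ
  set En0 := En (tw δ (F * F)) with hEn0
  have hEn0' : 0 ≤ En0 := En_nonneg' _
  have hRHS : 0 ≤ max 1 D * T * En0 ^ (k / 2) * Real.exp (k ^ 2 * Q) := by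
    have := le_max_left 1 D
    positivity
  -- the support of `F * F`
  have hFs : Sup (Smo (Rst p0 (Yg v Y i))) F := fun n hn => (hF n hn).1
  have hFF : Sup (Smo (Rst p0 (Yg v Y i))) (F * F) := hFs.mul hFs fun a ha b hb => mul_mem_Smo ha hb
  -- trivial case
  have triv : F = 0 → ∫ t : ℝ, w (t / T) * ‖ev t (tw δ (F * EI v p0 Y i J))‖ ^ (2 * k)
      ≤ max 1 D * T * En0 ^ (k / 2) * Real.exp (k ^ 2 * Q) := by
    intro h
    have h2 : (2 * k : ℝ) ≠ 0 := by positivity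
    have h1 : ∀ t : ℝ, w (t / T) * ‖ev t (tw δ (F * EI v p0 Y i J))‖ ^ (2 * k) = 0 := by
      intro t
      rw [h, zero_mul, map_zero, map_zero, norm_zero, Real.zero_rpow h2, mul_zero]
    simp only [h1, integral_zero]
    exact hRHS
  by_cases hEz : En0 = 0
  · have h1 : tw δ (F * F) = 0 := En_eq_zero (fun n hn => Smo_pos (sup_tw δ hFF n hn)) hEz
    have h2 : ∀ t : ℝ, ev t (tw δ F) = 0 := by
      intro t
      have h3 : ev t (tw δ (F * F)) = 0 := by rw [h1, map_zero]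
      rw [map_mul, map_mul] at h3
      exact mul_self_eq_zero.1 h3
    have h2k : (2 * k : ℝ) ≠ 0 := by positivity
    have h4 : ∀ t : ℝ, w (t / T) * ‖ev t (tw δ (F * EI v p0 Y i J))‖ ^ (2 * k) = 0 := by
      intro t
      rw [map_mul, map_mul, h2 t, zero_mul, norm_zero, Real.zero_rpow h2k, mul_zero]
    simp only [h4, integral_zero]
    exact hRHS
  have hEp : 0 < En0 := lt_of_le_of_ne hEn0' (Ne.symm hEz)
  by_cases hN1 : N < 1
  · refine triv ?_
    refine MonoidAlgebra.coeff_injective ?_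
    ext n
    by_contra h
    have h1 := hF n (by simpa using h)
    have h2 : (1 : ℝ) ≤ n := by exact_mod_cast Smo_pos h1.1
    linarith [h1.2]
  push Not at hN1
  have hel : Real.exp (el v Y J i) ≤ C0 * T := by
    have h1 : Real.exp (el v Y J i) ≤ N ^ 2 * Real.exp (el v Y J i) := by
      have h2 : (1 : ℝ) ≤ N ^ 2 := one_le_pow₀ hN1
      nlinarith [Real.exp_pos (el v Y J i)]
    linarith
  have hN' : 1 ≤ C0 * T := by nlinarith
  have hTK : 0 ≤ T * K := mul_nonneg hT0.le hK0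
  have hTKE : 0 ≤ T * K * En0 := mul_nonneg hTK hEn0'
  -- majorants
  set P1 : Finset ℕ → DP := fun s => tw δ ((F * F) * (EI v p0 Y i J ^ 2 * Bt (-2 * a) v p0 Y i J s)) with hP1'
  set P2 : Finset ℕ → DP := fun s => tw δ (Bt (2 * (1 - a)) v p0 Y i J s) with hP2'
  have hlen := hP2 v p0 hv2 hp0 Y hY i J hiJ
  -- integrals of the majorants
  have hint : ∀ P : DP, (∀ n, P.coeff n ≠ 0 → 1 ≤ n ∧ (n : ℝ) ≤ C0 * T) →
      Iw w T (fun t => ‖ev t P‖ ^ 2) ≤ T * K * En P := by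
    intro P hP
    have h1 := hI T (C0 * T) hT hN' P hP
    unfold Iw
    refine h1.trans (le_of_eq ?_)
    rw [hK]
    field_simp
  have hI1 : ∀ s ∈ (Finset.Ico i J).powerset, Iw w T (fun t => ‖ev t (P1 s)‖ ^ 2)
      ≤ T * K * (En0 * En (tw δ (EI v p0 Y i J ^ 2 * Bt (-2 * a) v p0 Y i J s))) := by
    intro s hs
    have hs2 : Sup (Smo (SU v p0 Y i J : Set ℕ)) (EI v p0 Y i J ^ 2 * Bt (-2 * a) v p0 Y i J s) :=
      fun n hn => ((hlen (-2 * a) s hs n).1 hn).1
    have h1 : En (P1 s) = En0 * En (tw δ (EI v p0 Y i J ^ 2 * Bt (-2 * a) v p0 Y i J s)) := by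
      rw [hP1', hEn0]
      simp only [map_mul (tw δ) (F * F)]
      exact En_mul hY i J (sup_tw δ hFF) (sup_tw δ hs2)
    rw [← h1]
    refine hint _ fun n hn => ?_
    have hn' : ((F * F) * (EI v p0 Y i J ^ 2 * Bt (-2 * a) v p0 Y i J s)).coeff n ≠ 0 := by
      intro h
      apply hn
      simp only [hP1', coeff_tw, h, zero_mul]
    obtain ⟨x, y, hx, hy, rfl⟩ := J4.NInt.coeff_mul_ne hn'
    obtain ⟨x1, x2, hx1, hx2, rfl⟩ := J4.NInt.coeff_mul_ne hx
    have g1 := hF x1 hx1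
    have g2 := hF x2 hx2
    have g3 := (hlen (-2 * a) s hs y).1 hy
    have g1' : (1 : ℝ) ≤ x1 := by exact_mod_cast Smo_pos g1.1
    have g2' : (1 : ℝ) ≤ x2 := by exact_mod_cast Smo_pos g2.1
    have g3' : (1 : ℝ) ≤ y := by exact_mod_cast g3.2.1
    refine ⟨Nat.one_le_iff_ne_zero.2 (mul_ne_zero (mul_ne_zero g1.1.1 g2.1.1) g3.1.1), ?_⟩
    have g4 : (y : ℝ) ≤ Real.exp (el v Y J i) := by
      rw [← Real.exp_log (by linarith : (0 : ℝ) < y)]
      exact Real.exp_le_exp.2 g3.2.2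
    push_cast
    calc (x1 : ℝ) * x2 * y ≤ N * N * Real.exp (el v Y J i) := by
          gcongr
          · exact g1.2
          · exact g2.2
      _ = N ^ 2 * Real.exp (el v Y J i) := by ring
      _ ≤ C0 * T := hNT
  have hI2 : ∀ s ∈ (Finset.Ico i J).powerset, Iw w T (fun t => ‖ev t (P2 s)‖ ^ 2)
      ≤ T * K * En (P2 s) := by
    intro s hs
    refine hint _ fun n hn => ?_
    have hn' : (Bt (2 * (1 - a)) v p0 Y i J s).coeff n ≠ 0 := by
      intro h
      apply hn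
      simp only [hP2', coeff_tw, h, zero_mul]
    have g3 := (hlen (2 * (1 - a)) s hs n).2 hn'
    refine ⟨g3.2.1, ?_⟩
    have g3' : (1 : ℝ) ≤ n := by exact_mod_cast g3.2.1
    have g4 : (n : ℝ) ≤ Real.exp (el v Y J i) := by
      rw [← Real.exp_log (by linarith : (0 : ℝ) < n)]
      exact Real.exp_le_exp.2 g3.2.2
    linarith
  set EE0 : ℝ := Real.exp (Real.exp (-(v : ℝ))) with hEE0
  -- pointwise bound
  have hpt : ∀ t ∈ Icc (θ * T) (2 * T), ‖ev t (tw δ (F * EI v p0 Y i J))‖ ^ (2 * k)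
      ≤ (1 - a) * (En0 ^ (-a) * (EE0 * ∑ s ∈ (Finset.Ico i J).powerset, Wt v s * ‖ev t (P1 s)‖ ^ 2))
        + a * (En0 ^ (1 - a) * (EE0 * ∑ s ∈ (Finset.Ico i J).powerset, Wt v s * ‖ev t (P2 s)‖ ^ 2)) := by
    intro t _
    obtain ⟨G, H, hG, hH, hz, hGb, hHb⟩ := hP1 v (by omega) p0 Y i J a ha0 ha1 δ t
    have h1 := scale ha (by linarith) hz hEp (ev t (tw δ (F * EI v p0 Y i J)))
    refine h1.trans (add_le_add ?_ ?_)
    · refine mul_le_mul_of_nonneg_left ?_ (by linarith)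
      refine mul_le_mul_of_nonneg_left ?_ (Real.rpow_nonneg hEn0' _)
      calc ‖ev t (tw δ (F * EI v p0 Y i J))‖ ^ 4 * G
          ≤ ‖ev t (tw δ (F * EI v p0 Y i J))‖ ^ 4 * (EE0 * ∑ s ∈ (Finset.Ico i J).powerset,
              Wt v s * ‖ev t (tw δ (Bt (-2 * a) v p0 Y i J s))‖ ^ 2) :=
            mul_le_mul_of_nonneg_left hGb (pow_nonneg (norm_nonneg _) 4)
        _ = EE0 * ∑ s ∈ (Finset.Ico i J).powerset, Wt v s * ‖ev t (P1 s)‖ ^ 2 := by
            rw [Finset.mul_sum, Finset.mul_sum, Finset.mul_sum]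
            refine Finset.sum_congr rfl fun s _ => ?_
            simp only [hP1', map_mul, map_pow, norm_mul, norm_pow]
            ring
    · refine mul_le_mul_of_nonneg_left ?_ ha0
      exact mul_le_mul_of_nonneg_left hHb (Real.rpow_nonneg hEn0' _)
  have hcont : ∀ (P : Finset ℕ → DP), Continuous fun t : ℝ =>
      ∑ s ∈ (Finset.Ico i J).powerset, Wt v s * ‖ev t (P s)‖ ^ 2 := by
    intro P
    refine continuous_finsetSum _ fun s _ => continuous_const.mul ?_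
    exact (continuous_ev (P s)).norm.pow 2
  have hsum : ∀ (P : Finset ℕ → DP), Iw w T (fun t => ∑ s ∈ (Finset.Ico i J).powerset,
      Wt v s * ‖ev t (P s)‖ ^ 2) = ∑ s ∈ (Finset.Ico i J).powerset,
      Wt v s * Iw w T (fun t => ‖ev t (P s)‖ ^ 2) := by
    intro P
    rw [Iw_sum hw hT0]
    · exact Finset.sum_congr rfl fun s _ => Iw_const_mul _ _
    · intro s _
      exact (continuous_const.mul ((continuous_ev (P s)).norm.pow 2)).continuousOn
  -- the two sums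
  have hS1 : ∑ s ∈ (Finset.Ico i J).powerset, Wt v s * Iw w T (fun t => ‖ev t (P1 s)‖ ^ 2)
      ≤ T * K * En0 * (Real.exp (CE + 4) * Real.exp (k ^ 2 * Q)) := by
    calc ∑ s ∈ (Finset.Ico i J).powerset, Wt v s * Iw w T (fun t => ‖ev t (P1 s)‖ ^ 2)
        ≤ ∑ s ∈ (Finset.Ico i J).powerset, Wt v s * (T * K * (En0 *
            En (tw δ (EI v p0 Y i J ^ 2 * Bt (-2 * a) v p0 Y i J s)))) :=
          Finset.sum_le_sum fun s hs => mul_le_mul_of_nonneg_left (hI1 s hs) (Wt_nonneg v s)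
      _ = T * K * En0 * ∑ s ∈ (Finset.Ico i J).powerset, Wt v s *
            En (tw δ (EI v p0 Y i J ^ 2 * Bt (-2 * a) v p0 Y i J s)) := by
          rw [Finset.mul_sum]
          exact Finset.sum_congr rfl fun s _ => by ring
      _ ≤ T * K * En0 * Real.exp ((2 + -2 * a) ^ 2 * Qs δ v p0 Y i J + CE / p0 + 4 * Real.exp (-v)) := by
          refine mul_le_mul_of_nonneg_left ?_ hTKE
          exact hE v hvE p0 hp0 Y hY i J (-2 * a) δ (by linarith) (by linarith) hδ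
      _ ≤ T * K * En0 * (Real.exp (CE + 4) * Real.exp (k ^ 2 * Q)) := by
          refine mul_le_mul_of_nonneg_left ?_ hTKE
          rw [← Real.exp_add]
          apply Real.exp_le_exp.2
          have e1 : (2 + -2 * a) = k := by rw [ha]; ring
          rw [e1]
          have h1 : Real.exp (-(v : ℝ)) ≤ 1 := Real.exp_le_one_iff.2 (by
            have : (0 : ℝ) ≤ v := Nat.cast_nonneg _
            linarith)
          have h2 : CE / (p0 : ℝ) ≤ CE := by
            apply div_le_self hCE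
            have : (1000 : ℝ) ≤ p0 := by exact_mod_cast hp0
            linarith
          linarith
  have hS2 : ∑ s ∈ (Finset.Ico i J).powerset, Wt v s * Iw w T (fun t => ‖ev t (P2 s)‖ ^ 2)
      ≤ T * K * (Real.exp (CE + 4) * Real.exp (k ^ 2 * Q)) := by
    calc ∑ s ∈ (Finset.Ico i J).powerset, Wt v s * Iw w T (fun t => ‖ev t (P2 s)‖ ^ 2)
        ≤ ∑ s ∈ (Finset.Ico i J).powerset, Wt v s * (T * K * En (P2 s)) :=
          Finset.sum_le_sum fun s hs => mul_le_mul_of_nonneg_left (hI2 s hs) (Wt_nonneg v s)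
      _ = T * K * ∑ s ∈ (Finset.Ico i J).powerset, Wt v s * En (P2 s) := by
          rw [Finset.mul_sum]
          exact Finset.sum_congr rfl fun s _ => by ring
      _ ≤ T * K * Real.exp ((2 * (1 - a)) ^ 2 * Qs δ v p0 Y i J + 4 * Real.exp (-v)) := by
          refine mul_le_mul_of_nonneg_left ?_ hTK
          exact hB v hvB p0 hp0 Y hY i J (2 * (1 - a)) δ hδ
      _ ≤ T * K * (Real.exp (CE + 4) * Real.exp (k ^ 2 * Q)) := by
          refine mul_le_mul_of_nonneg_left ?_ hTK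
          rw [← Real.exp_add]
          apply Real.exp_le_exp.2
          have e1 : (2 * (1 - a)) = k := by rw [ha]; ring
          rw [e1]
          have h1 : Real.exp (-(v : ℝ)) ≤ 1 := Real.exp_le_one_iff.2 (by
            have : (0 : ℝ) ≤ v := Nat.cast_nonneg _
            linarith)
          linarith
  have hEE1 : EE0 ≤ Real.exp 1 := by
    apply Real.exp_le_exp.2
    apply Real.exp_le_one_iff.2
    have : (0 : ℝ) ≤ v := Nat.cast_nonneg _
    linarith
  have hEE0p : 0 ≤ EE0 := (Real.exp_pos _).le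
  have e1a : En0 ^ (-a) * En0 = En0 ^ (1 - a) := by
    nth_rewrite 2 [← Real.rpow_one En0]
    rw [← Real.rpow_add hEp]
    congr 1
    ring
  have e1b : (1 - a) = k / 2 := by rw [ha]; ring
  have hSS1 : 0 ≤ ∑ s ∈ (Finset.Ico i J).powerset, Wt v s * Iw w T (fun t => ‖ev t (P1 s)‖ ^ 2) :=
    Finset.sum_nonneg fun s _ => mul_nonneg (Wt_nonneg v s)
      (integral_nonneg fun t => mul_nonneg (hw.nonneg _) (sq_nonneg _))
  have hSS2 : 0 ≤ ∑ s ∈ (Finset.Ico i J).powerset, Wt v s * Iw w T (fun t => ‖ev t (P2 s)‖ ^ 2) :=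
    Finset.sum_nonneg fun s _ => mul_nonneg (Wt_nonneg v s)
      (integral_nonneg fun t => mul_nonneg (hw.nonneg _) (sq_nonneg _))
  calc ∫ t : ℝ, w (t / T) * ‖ev t (tw δ (F * EI v p0 Y i J))‖ ^ (2 * k)
      = Iw w T (fun t => ‖ev t (tw δ (F * EI v p0 Y i J))‖ ^ (2 * k)) := rfl
    _ ≤ Iw w T (fun t => (1 - a) * (En0 ^ (-a) * (EE0 * ∑ s ∈ (Finset.Ico i J).powerset,
          Wt v s * ‖ev t (P1 s)‖ ^ 2)) + a * (En0 ^ (1 - a) * (EE0 *
          ∑ s ∈ (Finset.Ico i J).powerset, Wt v s * ‖ev t (P2 s)‖ ^ 2))) := by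
        refine Iw_mono hw hT0 ?_ (fun t _ => Real.rpow_nonneg (norm_nonneg _) _) hpt
        refine Continuous.continuousOn ?_
        exact (continuous_const.mul (continuous_const.mul (continuous_const.mul (hcont P1)))).add
          (continuous_const.mul (continuous_const.mul (continuous_const.mul (hcont P2))))
    _ = (1 - a) * (En0 ^ (-a) * (EE0 * ∑ s ∈ (Finset.Ico i J).powerset,
          Wt v s * Iw w T (fun t => ‖ev t (P1 s)‖ ^ 2))) + a * (En0 ^ (1 - a) * (EE0 *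
          ∑ s ∈ (Finset.Ico i J).powerset, Wt v s * Iw w T (fun t => ‖ev t (P2 s)‖ ^ 2))) := by
        rw [Iw_add hw hT0]
        · rw [Iw_const_mul, Iw_const_mul, Iw_const_mul, Iw_const_mul, Iw_const_mul, Iw_const_mul,
            hsum, hsum]
        · exact (continuous_const.mul (continuous_const.mul
            (continuous_const.mul (hcont P1)))).continuousOn
        · exact (continuous_const.mul (continuous_const.mul
            (continuous_const.mul (hcont P2)))).continuousOn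
    _ ≤ (1 - a) * (En0 ^ (-a) * (Real.exp 1 * (T * K * En0 * (Real.exp (CE + 4) *
          Real.exp (k ^ 2 * Q))))) + a * (En0 ^ (1 - a) * (Real.exp 1 * (T * K *
          (Real.exp (CE + 4) * Real.exp (k ^ 2 * Q))))) := by
        have p1 : 0 ≤ 1 - a := by linarith
        have p2 : 0 ≤ En0 ^ (-a) := Real.rpow_nonneg hEn0' _
        have p3 : 0 ≤ En0 ^ (1 - a) := Real.rpow_nonneg hEn0' _
        exact add_le_add
          (mul_le_mul_of_nonneg_left (mul_le_mul_of_nonneg_left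
            (mul_le_mul hEE1 hS1 hSS1 (Real.exp_pos _).le) p2) p1)
          (mul_le_mul_of_nonneg_left (mul_le_mul_of_nonneg_left
            (mul_le_mul hEE1 hS2 hSS2 (Real.exp_pos _).le) p3) ha0)
    _ = D * T * (((1 - a) * (En0 ^ (-a) * En0) + a * En0 ^ (1 - a))) * Real.exp (k ^ 2 * Q) := by
        rw [hD]; ring
    _ = D * T * En0 ^ (k / 2) * Real.exp (k ^ 2 * Q) := by
        rw [e1a, ← e1b]; ring
    _ ≤ max 1 D * T * En0 ^ (k / 2) * Real.exp (k ^ 2 * Q) := by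
        exact mul_le_mul_of_nonneg_right (mul_le_mul_of_nonneg_right
          (mul_le_mul_of_nonneg_right (le_max_right 1 D) hT0.le) (Real.rpow_nonneg hEn0' _))
          (Real.exp_pos _).le

end Pool.Agent.Lib.N4
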