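import Mathlib
import Pool.Agent.Lib.MP_f9aece_nt_n4.Stmts

/-!
R1: reciprocals of rough numbers in a window.
-/

set_option autoImplicit false

namespace Pool.Agent.Lib.N4

open MeasureTheory Set Filter Topology Complex
open Pool.Agent.Lib.MP_f9aece_nt
open Pool.Agent.Lib.MP_f9aece_nt_h85 (Rst Pst sum_smo_le exists_factor)

namespace R1

/-- uniqueness of the factorisation along disjoint sets of primes -/
lemma smo_inj {A B : Set ℕ} (hAB : Disjoint A B) {a a' b b' : ℕ} (ha : a ∈ Smo A) (ha' : a' ∈ Smo A)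
    (hb : b ∈ Smo B) (hb' : b' ∈ Smo B) (h : a * b = a' * b') : a = a' ∧ b = b' := by
  have h1 : a ∣ a' := by
    have h2 : a ∣ a' * b' := ⟨b, h.symm⟩
    exact (coprime_of_Smo hAB ha hb').dvd_of_dvd_mul_right h2
  have h2 : a' ∣ a := by
    have h2 : a' ∣ a * b := ⟨b', h⟩
    exact (coprime_of_Smo hAB ha' hb).dvd_of_dvd_mul_right h2
  have h3 : a = a' := Nat.dvd_antisymm h1 h2
  subst h3
  exact ⟨rfl, Nat.eq_of_mul_eq_mul_left (Nat.pos_of_ne_zero ha.1) h⟩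

/-- reciprocals of consecutive integers -/
lemma sum_inv_Ioc {a b : ℕ} (ha : 1 ≤ a) (hab : a ≤ b) :
    ∑ k ∈ Finset.Ioc a b, (k : ℝ)⁻¹ ≤ Real.log b - Real.log a := by
  induction b, hab using Nat.le_induction with
  | base => simp
  | succ b hb ih =>
    rw [← Finset.insert_Ioc_right_eq_Ioc_add_one hb, Finset.sum_insert (by simp)]
    have hb0 : (0 : ℝ) < b := by exact_mod_cast (by omega : 0 < b)
    have hb1 : (0 : ℝ) < (b : ℝ) + 1 := by linarith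
    have h1 := Real.one_sub_inv_le_log_of_pos (x := ((b : ℝ) + 1) / b) (by positivity)
    rw [Real.log_div hb1.ne' hb0.ne', inv_div] at h1
    have h2 : (((b + 1 : ℕ) : ℝ))⁻¹ = 1 - (b : ℝ) / (b + 1) := by
      push_cast
      field_simp
      ring
    rw [h2]
    push_cast
    linarith

/-- reciprocals of integers in a logarithmic interval -/
lemma sum_inv_log {x X : ℝ} (hX : 0 ≤ X - x + 1) (T : Finset ℕ)
    (hT : ∀ k ∈ T, k ≠ 0 ∧ x < Real.log k ∧ Real.log k ≤ X) : ∑ k ∈ T, (k : ℝ)⁻¹ ≤ X - x + 1 := by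
  rcases T.eq_empty_or_nonempty with rfl | hne
  · simpa using hX
  set a := T.min' hne with ha
  set b := T.max' hne with hb
  have haT : a ∈ T := T.min'_mem hne
  have hbT : b ∈ T := T.max'_mem hne
  have ha1 : 1 ≤ a := Nat.one_le_iff_ne_zero.2 (hT a haT).1
  have hab : a ≤ b := T.min'_le b hbT
  have hsub : T ⊆ insert a (Finset.Ioc a b) := by
    intro k hk
    have h1 := T.min'_le k hk
    have h2 := T.le_max' k hk
    rw [Finset.mem_insert, Finset.mem_Ioc]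
    rcases h1.lt_or_eq with h3 | h3
    · exact Or.inr ⟨h3, h2⟩
    · exact Or.inl h3.symm
  have h1 : ∑ k ∈ T, (k : ℝ)⁻¹ ≤ ∑ k ∈ insert a (Finset.Ioc a b), (k : ℝ)⁻¹ :=
    Finset.sum_le_sum_of_subset_of_nonneg hsub fun k _ _ => by positivity
  rw [Finset.sum_insert (by simp)] at h1
  have h2 := sum_inv_Ioc ha1 hab
  have h3 : (a : ℝ)⁻¹ ≤ 1 := by
    have : (1 : ℝ) ≤ a := by exact_mod_cast ha1
    exact inv_le_one_of_one_le₀ this
  have h4 := (hT a haT).2.1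
  have h5 := (hT b hbT).2.2
  linarith

/-- the constant of the small primes -/
noncomputable def Cp (p0 : ℕ) : ℝ := ∏ p ∈ (Finset.Ioc 0 p0).filter Nat.Prime, (1 - (p : ℝ)⁻¹)⁻¹

lemma one_le_Cp (p0 : ℕ) : 1 ≤ Cp p0 := by
  unfold Cp
  refine Finset.prod_induction _ (fun x : ℝ => 1 ≤ x)
    (fun a b ha hb => one_le_mul_of_one_le_of_one_le ha hb) le_rfl fun p hp => ?_
  have hp2 : (2 : ℝ) ≤ p := by exact_mod_cast (Finset.mem_filter.1 hp).2.two_le
  have h1 : (p : ℝ)⁻¹ ≤ 2⁻¹ := inv_anti₀ (by norm_num) hp2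
  have h2 : (0 : ℝ) ≤ (p : ℝ)⁻¹ := by positivity
  exact (one_le_inv₀ (by linarith)).2 (by linarith)

/-- many smooth numbers -/
lemma smooth_lower (p0 : ℕ) {y : ℝ} (hy : 0 ≤ y) : ∃ M : Finset ℕ,
    (∀ m ∈ M, m ∈ Smo {p | p0 < p ∧ p ≤ ⌊Real.exp y⌋₊} ∧ Real.log m ≤ y) ∧
    (y + 1) / 2 ≤ (∑ m ∈ M, (m : ℝ)⁻¹) * Cp p0 := by
  classical
  set A : Set ℕ := {p | p0 < p ∧ p ≤ ⌊Real.exp y⌋₊} with hA
  have hex : ∀ n : ℕ, ∃ x : ℕ × ℕ, n ≠ 0 → x.1 ∈ Smo Aᶜ ∧ x.2 ∈ Smo A ∧ x.1 * x.2 = n := by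
    intro n
    rcases eq_or_ne n 0 with h | h
    · exact ⟨(0, 0), fun h' => absurd h h'⟩
    · obtain ⟨x, hx⟩ := exists_factor A h
      exact ⟨x, fun _ => hx⟩
  choose F hF using hex
  set N := ⌊Real.exp y⌋₊ with hN
  have hN1 : 1 ≤ N := Nat.le_floor (by simpa using Real.one_le_exp hy)
  set M := (Finset.Icc 1 N).image (fun n => (F n).2) with hM
  set B := (Finset.Icc 1 N).image (fun n => (F n).1) with hB
  refine ⟨M, ?_, ?_⟩
  · intro m hm
    obtain ⟨n, hn, rfl⟩ := Finset.mem_image.mp hm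
    rw [Finset.mem_Icc] at hn
    obtain ⟨h1, h2, h3⟩ := hF n (by omega)
    refine ⟨h2, ?_⟩
    have h4 : (F n).2 ≤ N := (Nat.le_of_dvd (by omega) (Dvd.intro_left _ h3)).trans hn.2
    have h5 : (0 : ℝ) < ((F n).2 : ℝ) := by exact_mod_cast Nat.pos_of_ne_zero h2.1
    rw [Real.log_le_iff_le_exp h5]
    calc ((F n).2 : ℝ) ≤ N := by exact_mod_cast h4
      _ ≤ Real.exp y := Nat.floor_le (Real.exp_pos y).le
  · have h1 : ∑ n ∈ Finset.Icc 1 N, (n : ℝ)⁻¹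
        ≤ ∑ x ∈ B ×ˢ M, ((x.1 : ℝ)⁻¹ * (x.2 : ℝ)⁻¹) := by
      have hinj : Set.InjOn F (Finset.Icc 1 N : Finset ℕ) := by
        intro n hn n' hn' h
        rw [Finset.mem_coe, Finset.mem_Icc] at hn hn'
        rw [← (hF n (by omega)).2.2, ← (hF n' (by omega)).2.2, h]
      calc ∑ n ∈ Finset.Icc 1 N, (n : ℝ)⁻¹
          = ∑ n ∈ Finset.Icc 1 N, (((F n).1 : ℝ)⁻¹ * ((F n).2 : ℝ)⁻¹) := by
            refine Finset.sum_congr rfl fun n hn => ?_
            rw [Finset.mem_Icc] at hn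
            have h3 := (hF n (by omega)).2.2
            rw [← mul_inv]
            congr 1
            exact_mod_cast h3.symm
        _ = ∑ x ∈ (Finset.Icc 1 N).image F, ((x.1 : ℝ)⁻¹ * (x.2 : ℝ)⁻¹) := by
            rw [Finset.sum_image hinj]
        _ ≤ _ := by
            refine Finset.sum_le_sum_of_subset_of_nonneg ?_ fun x _ _ => by positivity
            intro x hx
            obtain ⟨n, hn, rfl⟩ := Finset.mem_image.mp hx
            rw [Finset.mem_product]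
            exact ⟨Finset.mem_image_of_mem _ hn, Finset.mem_image_of_mem _ hn⟩
    have h2 : ∑ x ∈ B ×ˢ M, ((x.1 : ℝ)⁻¹ * (x.2 : ℝ)⁻¹) =
        (∑ m ∈ M, (m : ℝ)⁻¹) * ∑ b ∈ B, (b : ℝ)⁻¹ := by
      rw [Finset.sum_product, mul_comm, Finset.sum_mul_sum]
    have h3 : ∑ b ∈ B, (b : ℝ)⁻¹ ≤ Cp p0 := by
      refine sum_smo_le (Finset.Ioc 0 p0) B fun b hb => ?_
      obtain ⟨n, hn, rfl⟩ := Finset.mem_image.mp hb
      rw [Finset.mem_Icc] at hn
      obtain ⟨h1, h2, h3⟩ := hF n (by omega)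
      refine ⟨h1.1, fun p hp hd => ?_⟩
      have h4 := h1.2 p hp hd
      have h5 : p ≤ N := by
        have h6 : p ∣ n := hd.trans ⟨_, h3.symm⟩
        exact (Nat.le_of_dvd (by omega) h6).trans hn.2
      rw [Finset.mem_coe, Finset.mem_Ioc]
      refine ⟨hp.pos, ?_⟩
      by_contra h7
      exact h4 ⟨by omega, h5⟩
    have h4 : (y + 1) / 2 ≤ ∑ n ∈ Finset.Icc 1 N, (n : ℝ)⁻¹ := by
      have h5 : y ≤ ∑ n ∈ Finset.Icc 1 N, (n : ℝ)⁻¹ := by
        have h6 := log_add_one_le_harmonic N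
        have h7 : ((harmonic N : ℚ) : ℝ) = ∑ n ∈ Finset.Icc 1 N, (n : ℝ)⁻¹ := by
          rw [harmonic_eq_sum_Icc]
          push_cast
          rfl
        rw [h7] at h6
        refine le_trans ?_ h6
        rw [Real.le_log_iff_exp_le (by positivity)]
        have h8 := (Nat.lt_floor_add_one (Real.exp y)).le
        push_cast
        exact h8
      have h6 : (1 : ℝ) ≤ ∑ n ∈ Finset.Icc 1 N, (n : ℝ)⁻¹ := by
        have h7 := Finset.single_le_sum (f := fun n : ℕ => (n : ℝ)⁻¹) (s := Finset.Icc 1 N)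
          (fun n _ => by positivity) (Finset.mem_Icc.2 ⟨le_rfl, hN1⟩)
        simpa using h7
      linarith
    rw [h2] at h1
    refine h4.trans (h1.trans ?_)
    exact mul_le_mul_of_nonneg_left h3 (Finset.sum_nonneg fun m _ => by positivity)

end R1

open R1

/-- R1: reciprocals of rough numbers in a window -/
theorem roughSum : RoughSum := by
  classical
  intro p0 hp0
  refine ⟨2 * Cp p0, by linarith [one_le_Cp p0], ?_⟩
  intro y hy x x' hx B hB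
  obtain ⟨M, hM, hMl⟩ := smooth_lower p0 hy
  set A : Set ℕ := {p | p0 < p ∧ p ≤ ⌊Real.exp y⌋₊} with hA
  have hdis : Disjoint (Rst p0 y) A := by
    rw [Set.disjoint_left]
    intro p hp hpj
    exact hp hpj
  have hBpos : 0 ≤ ∑ n ∈ B, (n : ℝ)⁻¹ := Finset.sum_nonneg fun n _ => by positivity
  have hMpos : 0 ≤ ∑ m ∈ M, (m : ℝ)⁻¹ := Finset.sum_nonneg fun n _ => by positivity
  have hprod : (∑ n ∈ B, (n : ℝ)⁻¹) * ∑ m ∈ M, (m : ℝ)⁻¹ ≤ (x' + y) - x + 1 := by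
    have hinj : Set.InjOn (fun q : ℕ × ℕ => q.1 * q.2) ((B ×ˢ M : Finset (ℕ × ℕ)) : Set (ℕ × ℕ)) := by
      rintro ⟨n, m⟩ h1 ⟨n', m'⟩ h2 h
      rw [Finset.mem_coe, Finset.mem_product] at h1 h2
      have h3 := smo_inj hdis (hB n h1.1).1 (hB n' h2.1).1 (hM m h1.2).1 (hM m' h2.2).1 h
      exact Prod.ext h3.1 h3.2
    have e1 : (∑ n ∈ B, (n : ℝ)⁻¹) * ∑ m ∈ M, (m : ℝ)⁻¹ =
        ∑ k ∈ (B ×ˢ M).image (fun q : ℕ × ℕ => q.1 * q.2), (k : ℝ)⁻¹ := by
      rw [Finset.sum_image hinj, Finset.sum_mul_sum, Finset.sum_product]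
      refine Finset.sum_congr rfl fun n _ => Finset.sum_congr rfl fun m _ => ?_
      push_cast
      rw [mul_inv]
    rw [e1]
    refine sum_inv_log (by linarith) _ fun k hk => ?_
    obtain ⟨⟨n, m⟩, hq, rfl⟩ := Finset.mem_image.mp hk
    rw [Finset.mem_product] at hq
    obtain ⟨h1, h2, h3⟩ := hB n hq.1
    obtain ⟨h4, h5⟩ := hM m hq.2
    have hn0 : (n : ℝ) ≠ 0 := by exact_mod_cast h1.1
    have hm0 : (m : ℝ) ≠ 0 := by exact_mod_cast h4.1
    have hm1 : 0 ≤ Real.log m := Real.log_natCast_nonneg m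
    dsimp only
    refine ⟨Nat.mul_ne_zero h1.1 h4.1, ?_, ?_⟩
    · push_cast
      rw [Real.log_mul hn0 hm0]
      linarith
    · push_cast
      rw [Real.log_mul hn0 hm0]
      linarith
  have hy1 : 0 < y + 1 := by linarith
  have hC := one_le_Cp p0
  rw [show 2 * Cp p0 * ((x' - x + y + 1) / (y + 1)) = (2 * Cp p0 * (x' - x + y + 1)) / (y + 1) by
    ring, le_div_iff₀ hy1]
  have h1 : (∑ n ∈ B, (n : ℝ)⁻¹) * ((y + 1) / 2) ≤
      (∑ n ∈ B, (n : ℝ)⁻¹) * ((∑ m ∈ M, (m : ℝ)⁻¹) * Cp p0) :=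
    mul_le_mul_of_nonneg_left hMl hBpos
  have h2 : (∑ n ∈ B, (n : ℝ)⁻¹) * ((∑ m ∈ M, (m : ℝ)⁻¹) * Cp p0) ≤
      ((x' + y) - x + 1) * Cp p0 := by
    rw [← mul_assoc]
    exact mul_le_mul_of_nonneg_right hprod (by linarith)
  nlinarith

end Pool.Agent.Lib.N4
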