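import Mathlib
import Pool.Agent.Lib.MP_f9aece_nt_n4.Stmts
import Pool.Agent.Lib.MP_f9aece_nt_nl.Q

/-!
D5: size of the series of squares of the divisor function `d_k` near the edge.
-/

set_option autoImplicit false

namespace Pool.Agent.Lib.N4

open MeasureTheory Set Filter Topology Complex
open Pool.Agent.Lib.NL

/-- the arithmetic factor is bounded below -/
private lemma ak_low : ∃ a : ℝ, 0 < a ∧ ∀ k : ℝ, 0 ≤ k → k ≤ 2 → a ≤ ak k := by
  refine ⟨Real.exp (-(cG' 2 * ∑' p : Nat.Primes, (((p : ℕ) : ℝ))⁻¹ ^ 2)), Real.exp_pos _,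
    fun k hk0 hk2 => ?_⟩
  have hk2' : k ≤ ((2 : ℕ) : ℝ) := by simpa using hk2
  rw [ak_eq (N := 2) (by norm_num) hk0 hk2', Real.exp_le_exp, neg_le]
  have hs := summable_gl (N := 2) (by norm_num) hk0 hk2'
    (q := fun p : Nat.Primes => (((p : ℕ) : ℝ))⁻¹) (fun p => by positivity) (fun p => le_rfl)
  rw [← tsum_neg, ← tsum_mul_left]
  refine hs.neg.tsum_le_tsum (fun p => ?_) (summable_prime_inv_sq.mul_left _)
  have h := gl_le (N := 2) (by norm_num) hk0 hk2' (q := (((p : ℕ) : ℝ))⁻¹) (by positivity)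
    (prime_inv_le p.2)
  exact (neg_le_abs _).trans h

/-- D5: size of the series -/
theorem ssLow : SSLow := by
  obtain ⟨a, ha, hak⟩ := ak_low
  obtain ⟨δ0, hδ0, hmain⟩ := main_term 2 (by norm_num) 1 one_pos
  obtain ⟨d, hd⟩ : ∃ d : ℝ, d = min δ0 1 := ⟨_, rfl⟩
  have hd0 : 0 < d := by rw [hd]; positivity
  have hd1 : d ≤ 1 := by rw [hd]; exact min_le_right _ _
  have hdd : d ≤ δ0 := by rw [hd]; exact min_le_left _ _
  refine ⟨min (Real.exp (-1) * a / 16) (d ^ 4), by positivity, fun k δ hk1 hk2 hδ hδ4 => ?_⟩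
  have hk0 : 0 ≤ k := by linarith
  have hk2' : k ≤ ((2 : ℕ) : ℝ) := by simpa using hk2
  have hkk : k ^ 2 ≤ 4 := by nlinarith
  have hkk0 : 0 ≤ k ^ 2 := by positivity
  have hp : 0 < (1 / δ) ^ (k ^ 2) := Real.rpow_pos_of_pos (by positivity) _
  by_cases h : δ ≤ δ0
  · obtain ⟨h1, -⟩ := hmain k hk0 hk2' δ hδ h
    have h2 : Real.exp (-1) * a ≤ (2 * δ) ^ (k ^ 2) * SS k (1 + 2 * δ) :=
      (mul_le_mul_of_nonneg_left (hak k hk0 hk2) (Real.exp_pos _).le).trans h1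
    have h3 : (2 * δ) ^ (k ^ 2) * (1 / δ) ^ (k ^ 2) ≤ 16 := by
      rw [← Real.mul_rpow (by positivity) (by positivity)]
      have e : 2 * δ * (1 / δ) = 2 := by field_simp
      rw [e]
      calc (2 : ℝ) ^ (k ^ 2) ≤ (2 : ℝ) ^ (4 : ℝ) :=
            Real.rpow_le_rpow_of_exponent_le (by norm_num) hkk
        _ = 16 := by norm_num
    have h4 : 0 < (2 * δ) ^ (k ^ 2) := Real.rpow_pos_of_pos (by positivity) _
    have h5 : min (Real.exp (-1) * a / 16) (d ^ 4) * (1 / δ) ^ (k ^ 2)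
        ≤ Real.exp (-1) * a / 16 * (1 / δ) ^ (k ^ 2) :=
      mul_le_mul_of_nonneg_right (min_le_left _ _) hp.le
    refine h5.trans ?_
    have h6 : (2 * δ) ^ (k ^ 2) * (Real.exp (-1) * a / 16 * (1 / δ) ^ (k ^ 2))
        ≤ (2 * δ) ^ (k ^ 2) * SS k (1 + 2 * δ) := by
      refine le_trans ?_ h2
      have h7 : 0 ≤ Real.exp (-1) * a / 16 := by positivity
      calc (2 * δ) ^ (k ^ 2) * (Real.exp (-1) * a / 16 * (1 / δ) ^ (k ^ 2))
          = Real.exp (-1) * a / 16 * ((2 * δ) ^ (k ^ 2) * (1 / δ) ^ (k ^ 2)) := by ring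
        _ ≤ Real.exp (-1) * a / 16 * 16 := mul_le_mul_of_nonneg_left h3 h7
        _ = Real.exp (-1) * a := by ring
    exact le_of_mul_le_mul_left h6 h4
  · rw [not_le] at h
    have h1 : 1 ≤ SS k (1 + 2 * δ) := one_le_SS (N := 2) (by norm_num) hk0 hk2' (by linarith)
    refine le_trans ?_ h1
    have hdδ : d ≤ δ := hdd.trans h.le
    have h2 : (1 / δ) ^ (k ^ 2) ≤ (1 / d) ^ 4 := by
      have h3 : (1 : ℝ) ≤ 1 / d := by
        rw [le_div_iff₀ hd0]
        linarith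
      calc (1 / δ) ^ (k ^ 2) ≤ (1 / d) ^ (k ^ 2) :=
            Real.rpow_le_rpow (by positivity) (one_div_le_one_div_of_le hd0 hdδ) hkk0
        _ ≤ (1 / d) ^ (4 : ℝ) := Real.rpow_le_rpow_of_exponent_le h3 hkk
        _ = (1 / d) ^ 4 := by norm_cast
    calc min (Real.exp (-1) * a / 16) (d ^ 4) * (1 / δ) ^ (k ^ 2)
        ≤ d ^ 4 * (1 / d) ^ 4 := mul_le_mul (min_le_right _ _) h2 hp.le (by positivity)
      _ = 1 := by
          rw [← mul_pow]
          have e : d * (1 / d) = 1 := by field_simp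
          rw [e, one_pow]

end Pool.Agent.Lib.N4
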