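import Pool.Agent.Lib.MP_f9aece_nt_n4.SumW

/-!
Module B4: sums over the sets of groups, second moment side.
-/

set_option autoImplicit false

namespace Pool.Agent.Lib.N4

open Pool.Agent.Lib.MP_f9aece_nt (DP pair BK K1 PP VV Smo Cone expo BK_sum_left BK_sum_right
  BK_smul_left BK_smul_right BK_K1_eq pair_mono pair_congr pair_const_mul pair_def cone_PP_pow
  coeff_PP_pow_le Smo_pos one_mem_Smo ev1 ev1_apply pair_single pair_sum)
open Pool.Agent.Lib.MP_f9aece_nt_h5 (tw coeff_tw cone_tw BK_tw_le tw_single pair_tw)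
open Pool.Agent.Lib.MP_f9aece_nt_h97 (Sup)
open Pool.Agent.Lib.J4 (Sg Yg rg Bt Wt En V2 Rg Mg Pg Eg Kg sgDisj En_nonneg' one_le_rg vvSg
  Sg_prime Sg_gt wt_En_pow)
open scoped ArithmeticFunction.Omega

/-- the twisted prime polynomial at one -/
lemma ev1_tw_PP {δ : ℝ} {I : Finset ℕ} (hI : ∀ p ∈ I, p.Prime) :
    ev1 (tw (2 * δ) (PP I)) = Qd δ I := by
  unfold PP Qd
  rw [map_sum, map_sum]
  refine Finset.sum_congr rfl fun p hp => ?_
  have hp0 : (0 : ℝ) < p := by exact_mod_cast (hI p hp).pos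
  rw [tw_single, ev1_apply, pair_single, one_mul, ← Real.rpow_neg_one (p : ℝ), ← Real.rpow_add hp0]
  congr 1
  ring

lemma En_tw_pow {δ : ℝ} {I : Finset ℕ} (hI : ∀ p ∈ I, p.Prime) (r : ℕ) :
    BK K1 (tw δ (PP I ^ r)) (tw δ (PP I ^ r)) ≤ r.factorial * Qd δ I ^ r := by
  rw [BK_K1_eq]
  have h1 : pair (fun n => (tw δ (PP I ^ r)).coeff n * (n : ℝ)⁻¹) (tw δ (PP I ^ r))
      ≤ pair (fun n => (r.factorial : ℝ) * ((n : ℝ) ^ (-δ) * (n : ℝ)⁻¹)) (tw δ (PP I ^ r)) := by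
    refine pair_mono (cone_tw δ (cone_PP_pow hI r)) fun a _ => ?_
    rw [coeff_tw, mul_assoc]
    have := coeff_PP_pow_le hI r a
    gcongr
  refine h1.trans (le_of_eq ?_)
  rw [pair_const_mul, pair_tw]
  have h2 : pair (fun n => (n : ℝ) ^ (-δ) * ((n : ℝ) ^ (-δ) * (n : ℝ)⁻¹)) (PP I ^ r)
      = pair (fun n => (n : ℝ) ^ (-(2 * δ)) * (n : ℝ)⁻¹) (PP I ^ r) := by
    refine pair_congr _ fun n hn => ?_
    have hn1 : 1 ≤ n := Smo_pos ((cone_PP_pow hI r n).2 hn).1
    have hn0 : (0 : ℝ) < n := by exact_mod_cast hn1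
    rw [← mul_assoc, ← Real.rpow_add hn0]
    congr 2
    ring
  rw [h2, ← pair_tw, ← ev1_apply, map_pow, map_pow, ev1_tw_PP hI]

lemma BK_tw_pow_ne {δ : ℝ} {I : Finset ℕ} (hI : ∀ p ∈ I, p.Prime) {r s : ℕ} (h : r ≠ s) :
    BK K1 (tw δ (PP I ^ r)) (tw δ (PP I ^ s)) = 0 := by
  rw [BK_K1_eq]
  have : pair (fun n => (tw δ (PP I ^ s)).coeff n * (n : ℝ)⁻¹) (tw δ (PP I ^ r))
      = pair (fun _ => 0) (tw δ (PP I ^ r)) := by
    refine pair_congr _ fun a ha => ?_
    rw [coeff_tw] at ha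
    have h1 := ((cone_PP_pow hI r a).2 (left_ne_zero_of_mul ha)).2
    have h2 : (PP I ^ s).coeff a = 0 := by
      by_contra h3
      have h4 := ((cone_PP_pow hI s a).2 h3).2
      exact h (h1.symm.trans h4)
    rw [coeff_tw, h2, zero_mul, zero_mul]
  rw [this, pair_def]
  simp

/-- the energy of a twisted truncated exponential -/
lemma En_tw_expo {I : Finset ℕ} (hI : ∀ p ∈ I, p.Prime) (c δ : ℝ) (M : ℕ) :
    En (tw δ (expo c M I)) ≤ Real.exp (c ^ 2 * Qd δ I) := by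
  have hQ : 0 ≤ Qd δ I := Finset.sum_nonneg fun p _ => by positivity
  have e : tw δ (expo c M I)
      = ∑ r ∈ Finset.range (M + 1), (c ^ r / (r.factorial : ℝ)) • tw δ (PP I ^ r) := by
    unfold expo
    rw [map_sum]
    exact Finset.sum_congr rfl fun r _ => by rw [map_smul]
  unfold En
  rw [e, BK_sum_left]
  have h1 : ∀ r ∈ Finset.range (M + 1),
      BK K1 ((c ^ r / (r.factorial : ℝ)) • tw δ (PP I ^ r))
        (∑ s ∈ Finset.range (M + 1), (c ^ s / (s.factorial : ℝ)) • tw δ (PP I ^ s))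
      ≤ (c ^ 2 * Qd δ I) ^ r / r.factorial := by
    intro r hr
    rw [BK_sum_right, Finset.sum_eq_single r]
    · rw [BK_smul_left, BK_smul_right]
      have h2 := En_tw_pow (δ := δ) hI r
      have h3 : (0 : ℝ) < r.factorial := by positivity
      calc c ^ r / (r.factorial : ℝ) * (c ^ r / (r.factorial : ℝ)
            * BK K1 (tw δ (PP I ^ r)) (tw δ (PP I ^ r)))
          = (c ^ r / (r.factorial : ℝ)) ^ 2 * BK K1 (tw δ (PP I ^ r)) (tw δ (PP I ^ r)) := by ring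
        _ ≤ (c ^ r / (r.factorial : ℝ)) ^ 2 * (r.factorial * Qd δ I ^ r) := by gcongr
        _ = _ := by
            rw [div_pow, mul_pow, ← pow_mul, mul_comm r 2, pow_mul]
            field_simp
    · intro s _ hs
      rw [BK_smul_left, BK_smul_right, BK_tw_pow_ne hI hs.symm]
      simp
    · intro h; exact absurd hr h
  refine (Finset.sum_le_sum h1).trans ?_
  exact Real.sum_le_exp_of_nonneg (mul_nonneg (sq_nonneg _) hQ) _

/-- B4: sums over the sets of groups, second moment side -/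
theorem sumB : SumB := by
  obtain ⟨v1, hv1⟩ := vvSg
  refine ⟨max v1 1, fun v hv p0 hp0 Y hY i J c δ hδ => ?_⟩
  have hv0 : v1 ≤ v := le_trans (le_max_left _ _) hv
  have hv2 : 1 ≤ v := le_trans (le_max_right _ _) hv
  have hVV : ∀ g, VV (Sg v p0 Y g) ≤ 2 * rg v g := fun g => hv1 v hv0 p0 Y g hY
  have hQ : ∀ g, 0 ≤ Qd δ (Sg v p0 Y g) := fun g => Finset.sum_nonneg fun p _ => by positivity
  have h := sum_Wt_tw hv2 p0 hY.le i J c δ (fun _ => 1) (fun g => Sup.one (one_mem_Smo _))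
    (fun g => c ^ 2 * Qd δ (Sg v p0 Y g))
    (fun g _ => by
      have := hQ g
      positivity)
    (fun g _ => by
      refine le_trans ?_ (wt_En_pow (I := Sg v p0 Y g) Sg_prime (one_le_rg hv2 g) (hVV g))
      have h4 : En (tw δ (1 * Pg v p0 Y g ^ Mg v g)) ≤ En (PP (Sg v p0 Y g) ^ (100000 * rg v g)) := by
        rw [one_mul]
        exact BK_tw_le hδ (cone_PP_pow Sg_prime _) fun n hn => Smo_pos hn.1
      unfold Rg Mg at *
      gcongr)
    (fun g _ => by
      rw [one_mul]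
      exact En_tw_expo Sg_prime c δ _)
  simp only [Finset.prod_const_one, one_mul] at h
  refine h.trans (Real.exp_le_exp.mpr ?_)
  rw [← Finset.mul_sum]
  have := Real.exp_pos (-(v : ℝ))
  unfold Qs
  linarith

end Pool.Agent.Lib.N4
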