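import Pool.Agent.Lib.MP_f9aece_nt_n4.SumW

/-!
Module B3: sums over the sets of groups, fourth moment side.
-/

set_option autoImplicit false

namespace Pool.Agent.Lib.N4

open Pool.Agent.Lib.MP_f9aece_nt (DP pair BK K1 PP VV Smo expo mul_mem_Smo one_mem_Smo)
open Pool.Agent.Lib.MP_f9aece_nt_h5 (tw)
open Pool.Agent.Lib.MP_f9aece_nt_h40 (ind cone_ind)
open Pool.Agent.Lib.MP_f9aece_nt_h97 (Sup sup_of_cone)
open Pool.Agent.Lib.J4 (Sg Yg rg Bt Wt En V2 Rg Mg Pg Eg Kg sgDisj En_nonneg' one_le_rg vvSg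
  Sg_prime Sg_gt)

/-- sums of inverse squares over numbers larger than `p0` -/
lemma sum_inv_sq_le {p0 : ℕ} (hp0 : 1 ≤ p0) (s : Finset ℕ) (hs : ∀ p ∈ s, p0 < p) :
    ∑ p ∈ s, ((p : ℝ)⁻¹) ^ 2 ≤ 1 / p0 := by
  have hpos : (0 : ℝ) < p0 := by exact_mod_cast hp0
  have key : ∀ N : ℕ, p0 ≤ N → ∑ p ∈ Finset.Ioc p0 N, ((p : ℝ)⁻¹) ^ 2 ≤ 1 / p0 - 1 / N := by
    intro N hN
    induction N, hN using Nat.le_induction with
    | base => simp
    | succ N hN ih =>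
      rw [← Finset.insert_Ioc_right_eq_Ioc_add_one hN, Finset.sum_insert (by simp)]
      have hN0 : (0 : ℝ) < N := lt_of_lt_of_le hpos (by exact_mod_cast hN)
      have h1 : (((N + 1 : ℕ) : ℝ)⁻¹) ^ 2 ≤ 1 / (N : ℝ) - 1 / ((N + 1 : ℕ) : ℝ) := by
        push_cast
        rw [div_sub_div _ _ hN0.ne' (by positivity), inv_pow, inv_eq_one_div,
          div_le_div_iff₀ (by positivity) (by positivity)]
        nlinarith
      linarith
  obtain ⟨N, hN1, hN2⟩ : ∃ N : ℕ, p0 ≤ N ∧ s ⊆ Finset.Ioc p0 N := by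
    refine ⟨max p0 (s.sup id), le_max_left _ _, fun p hp => ?_⟩
    rw [Finset.mem_Ioc]
    exact ⟨hs p hp, le_trans (Finset.le_sup (f := id) hp) (le_max_right _ _)⟩
  have hN0 : (0 : ℝ) < N := lt_of_lt_of_le hpos (by exact_mod_cast hN1)
  calc ∑ p ∈ s, ((p : ℝ)⁻¹) ^ 2 ≤ ∑ p ∈ Finset.Ioc p0 N, ((p : ℝ)⁻¹) ^ 2 :=
        Finset.sum_le_sum_of_subset_of_nonneg hN2 fun p _ _ => by positivity
    _ ≤ 1 / p0 - 1 / N := key N hN1
    _ ≤ 1 / p0 := by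
        have : 0 < 1 / (N : ℝ) := by positivity
        linarith

lemma sum_V2_le (v : ℕ) {p0 : ℕ} (hp0 : 1 ≤ p0) {Y : ℝ} (hY : 0 ≤ Y) (i J : ℕ) :
    ∑ g ∈ Finset.Ico i J, V2 (Sg v p0 Y g) ≤ 1 / p0 := by
  unfold V2
  rw [← Finset.sum_biUnion]
  · refine sum_inv_sq_le hp0 _ fun p hp => ?_
    rw [Finset.mem_biUnion] at hp
    obtain ⟨g, -, hp⟩ := hp
    exact Sg_gt p hp
  · intro g _ h _ hgh
    exact sgDisj v p0 Y hY g h hgh

lemma sup_ind_sq (κ : ℕ) {I : Finset ℕ} (hI : ∀ p ∈ I, p.Prime) :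
    Sup (Smo (I : Set ℕ)) (ind κ I ^ 2) := by
  have h1 : Sup (Smo (I : Set ℕ)) (ind κ I) := (sup_of_cone (cone_ind hI κ)).mono fun _ h => h.1
  rw [sq]
  exact h1.mul h1 fun a ha b hb => mul_mem_Smo ha hb

lemma Qd_nonneg (δ : ℝ) (S : Finset ℕ) : 0 ≤ Qd δ S :=
  Finset.sum_nonneg fun p _ => by positivity

/-- B3: sums over the sets of groups, fourth moment side -/
theorem sumEI (h1 : BlockE) (h2 : BlockP) : SumEI := by
  obtain ⟨C, hC, hE⟩ := h1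
  obtain ⟨v1, hv1⟩ := vvSg
  refine ⟨C, hC, max v1 1, fun v hv p0 hp0 Y hY i J c δ hc hc0 hδ => ?_⟩
  have hv0 : v1 ≤ v := le_trans (le_max_left _ _) hv
  have hv2 : 1 ≤ v := le_trans (le_max_right _ _) hv
  have hpr : ∀ g, ∀ p ∈ Sg v p0 Y g, p.Prime ∧ 1000 ≤ p := fun g p hp =>
    ⟨Sg_prime p hp, hp0.trans (Sg_gt p hp).le⟩
  have hVV : ∀ g, VV (Sg v p0 Y g) ≤ 2 * rg v g := fun g => hv1 v hv0 p0 Y g hY
  have hV2 : ∀ g, 0 ≤ V2 (Sg v p0 Y g) := fun g => Finset.sum_nonneg fun p _ => by positivity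
  have h := sum_Wt_tw hv2 p0 hY.le i J c δ (fun g => ind (kap v g) (Sg v p0 Y g) ^ 2)
    (fun g => sup_ind_sq _ Sg_prime)
    (fun g => (2 + c) ^ 2 * Qd δ (Sg v p0 Y g) + C * V2 (Sg v p0 Y g) + Real.exp (-(rg v g : ℝ)))
    (fun g _ => by
      have := Qd_nonneg δ (Sg v p0 Y g)
      have := hV2 g
      positivity)
    (fun g _ => by
      have h3 := h2 (Sg v p0 Y g) (rg v g) (kap v g) δ (hpr g) (one_le_rg hv2 g) (hVV g) hδ
      exact h3)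
    (fun g _ => by
      have h3 := hE (Sg v p0 Y g) (rg v g) (kap v g) c δ (hpr g) (one_le_rg hv2 g) (hVV g) hc hc0
        hδ (by
          unfold kap rg
          have : g + 1 ≤ (g + 1) ^ 2 := Nat.le_self_pow (by norm_num) _
          calc 50000 * (v * (g + 1)) = 50000 * v * (g + 1) := by ring
            _ ≤ 50000 * v * (g + 1) ^ 2 := Nat.mul_le_mul_left _ this)
      exact h3)
  have e1 : ∀ s, EI v p0 Y i J ^ 2 * Bt c v p0 Y i J s
      = (∏ g ∈ Finset.Ico i J, ind (kap v g) (Sg v p0 Y g) ^ 2) * Bt c v p0 Y i J s := by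
    intro s
    unfold EI
    rw [Finset.prod_pow]
  simp only [e1]
  refine h.trans (Real.exp_le_exp.mpr ?_)
  rw [Finset.sum_add_distrib, Finset.sum_add_distrib, ← Finset.mul_sum, ← Finset.mul_sum]
  have h5 := sum_exp_rg_le' hv2 (Finset.Ico i J)
  have h6 : C * ∑ g ∈ Finset.Ico i J, V2 (Sg v p0 Y g) ≤ C / p0 := by
    have h7 := mul_le_mul_of_nonneg_left (sum_V2_le v (by omega : 1 ≤ p0) hY.le i J) hC
    rwa [mul_one_div] at h7
  unfold Qs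
  linarith

end Pool.Agent.Lib.N4
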