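import Pool.Agent.Lib.MP_f9aece_nt_n4.A1
import Pool.Agent.Lib.MP_f9aece_nt_n4.A2
import Pool.Agent.Lib.MP_f9aece_nt_n4.B2
import Pool.Agent.Lib.MP_f9aece_nt_n4.B5
import Pool.Agent.Lib.MP_f9aece_nt_n4.BlockE
import Pool.Agent.Lib.MP_f9aece_nt_n4.E1
import Pool.Agent.Lib.MP_f9aece_nt_n4.L1
import Pool.Agent.Lib.MP_f9aece_nt_n4.L2
import Pool.Agent.Lib.MP_f9aece_nt_n4.LowerOrder
import Pool.Agent.Lib.MP_f9aece_nt_n4.N1
import Pool.Agent.Lib.MP_f9aece_nt_n4.N2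
import Pool.Agent.Lib.MP_f9aece_nt_n4.N3
import Pool.Agent.Lib.MP_f9aece_nt_n4.OmEnergy
import Pool.Agent.Lib.MP_f9aece_nt_n4.P1
import Pool.Agent.Lib.MP_f9aece_nt_n4.P2
import Pool.Agent.Lib.MP_f9aece_nt_n4.P3
import Pool.Agent.Lib.MP_f9aece_nt_n4.R1
import Pool.Agent.Lib.MP_f9aece_nt_n4.RightOrder
import Pool.Agent.Lib.MP_f9aece_nt_n4.SSLow
import Pool.Agent.Lib.MP_f9aece_nt_n4.SumB
import Pool.Agent.Lib.MP_f9aece_nt_n4.SumEI
import Pool.Agent.Lib.MP_f9aece_nt_n4.WinEnergy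
import Pool.Agent.Lib.MP_f9aece_nt_n4_h84.R4
import Pool.Agent.Lib.MP_f9aece_nt_n4.LineFour

/-!
Moments of zeta on the critical line, exponents up to four: assembly.
-/

set_option autoImplicit false

namespace Pool.Agent.Lib.N4

open MeasureTheory Complex

theorem levelFull : Level := level ptYoung lenEI (sumEI blockE blockP) sumB

theorem pieceFull : PieceEnergy := pieceEnergy qCoeff (winEnergy roughSum) omEnergy

theorem rightFull : RightOrder := rightOrder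
  (sharpLine telescope qCoeff pieceFull levelFull mert powSum numWin numOm) afeLine

theorem lowerFull4 : LowerOrder := lowerOrder kernelFull ssLow

theorem lineFinal :
    ∃ C c : ℝ, 0 < C ∧ 0 < c ∧ ∀ x : ℝ, ∃ T₀ : ℝ, ∀ β T : ℝ, 0 < β → β ≤ 4 → T₀ ≤ T →
      Real.exp (-(C * (β * |β - 2| + Real.log T ^ (-c)))) * Real.log T ^ (β ^ 2 / 4)
        ≤ mo β x T ∧
      mo β x T
        ≤ Real.exp (C * (β * |β - 2| + Real.log T ^ (-c))) * Real.log T ^ (β ^ 2 / 4) :=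
  lineFour rightFull lowerFull4

end Pool.Agent.Lib.N4
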