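import Mathlib
import Pool.Agent.Lib.MP_f9aece_nt_n4.Stmts
import Pool.Agent.Lib.MP_f9aece_nt_n4.H78

/-!
R5: the part of the head with a large prime factor.
-/

set_option autoImplicit false

namespace Pool.Agent.Lib.N4

open MeasureTheory Set Filter Topology Complex
open Pool.Agent.Lib.MP_f9aece_nt (DP pair BK K1 ev PP VV Smo expo EE Cone cone_PP_pow VV_nonneg
  pair_def mul_mem_Smo one_mem_Smo Smo_pos)
open Pool.Agent.Lib.MP_f9aece_nt_h5 (tw coeff_tw tail_finite)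
open Pool.Agent.Lib.MP_f9aece_nt_h85 (rz Rst Pst rset mem_rset exists_factor)
open Pool.Agent.Lib.MP_f9aece_nt_h97 (Psm Dsm evs dv dv_nonneg dvd_smo)
open Pool.Agent.Lib.J4 (En En_eq_sum)
open H78

lemma HeadEnergy.wmul {δ : ℝ} {m r : ℕ} (hmr : Nat.Coprime m r) :
    dv (m * r) ^ 2 * ((m * r : ℕ) : ℝ) ^ (-(1 + 2 * δ)) =
      (dv m ^ 2 * (m : ℝ) ^ (-(1 + 2 * δ))) * (dv r ^ 2 * (r : ℝ) ^ (-(1 + 2 * δ))) := by
  rw [MP_f9aece_nt_h97.dv_mul hmr]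
  push_cast
  rw [Real.mul_rpow (Nat.cast_nonneg _) (Nat.cast_nonneg _)]
  ring

lemma HeadEnergy.wnonneg (δ : ℝ) (n : ℕ) : 0 ≤ dv n ^ 2 * (n : ℝ) ^ (-(1 + 2 * δ)) :=
  mul_nonneg (sq_nonneg _) (Real.rpow_nonneg (Nat.cast_nonneg _) _)

/-- sums over numbers with a prime factor in `S2` -/
lemma HeadEnergy.split {δ : ℝ} (hδ : 0 ≤ δ) {S1 S2 : Finset ℕ} (h1 : ∀ p ∈ S1, p.Prime)
    (h2 : ∀ p ∈ S2, p.Prime) (F : Finset ℕ)
    (hF : ∀ n ∈ F, n ∈ Smo ((S1 ∪ S2 : Finset ℕ) : Set ℕ) ∧ ∃ p ∈ S2, p ∣ n) :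
    ∑ n ∈ F, dv n ^ 2 * (n : ℝ) ^ (-(1 + 2 * δ)) ≤
      (∏ p ∈ S1, LF δ p) * (∏ p ∈ S2, LF δ p - 1) := by
  classical
  have hex : ∀ n : ℕ, ∃ x : ℕ × ℕ, n ≠ 0 → x.1 ∈ Smo (S2 : Set ℕ)ᶜ ∧ x.2 ∈ Smo (S2 : Set ℕ) ∧
      x.1 * x.2 = n := by
    intro n
    rcases eq_or_ne n 0 with h | h
    · exact ⟨(0, 0), fun h' => absurd h h'⟩
    · obtain ⟨x, hx⟩ := exists_factor (S2 : Set ℕ) h
      exact ⟨x, fun _ => hx⟩
  choose f hf using hex
  have hn0 : ∀ n ∈ F, n ≠ 0 := fun n hn => (hF n hn).1.1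
  have hf1 : ∀ n ∈ F, (f n).1 ∈ Smo (S1 : Set ℕ) := by
    intro n hn
    obtain ⟨ha, hb, hc⟩ := hf n (hn0 n hn)
    refine ⟨ha.1, fun p hp hpd => ?_⟩
    have h3 := (hF n hn).1.2 p hp (hpd.trans (Dvd.intro _ hc))
    rw [Finset.mem_coe, Finset.mem_union] at h3
    rcases h3 with h3 | h3
    · exact h3
    · exact absurd (Finset.mem_coe.2 h3) (ha.2 p hp hpd)
  have hf2 : ∀ n ∈ F, (f n).2 ≠ 1 := by
    intro n hn h
    obtain ⟨ha, hb, hc⟩ := hf n (hn0 n hn)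
    obtain ⟨p, hp, hpn⟩ := (hF n hn).2
    rw [h, mul_one] at hc
    rw [← hc] at hpn
    exact ha.2 p (h2 p hp) hpn (Finset.mem_coe.2 hp)
  have hcop : ∀ n ∈ F, Nat.Coprime (f n).1 (f n).2 := by
    intro n hn
    obtain ⟨ha, hb, hc⟩ := hf n (hn0 n hn)
    refine Nat.Coprime.symm (Nat.coprime_of_dvd fun p hp hp1 hp2 => ?_)
    exact ha.2 p hp hp2 (hb.2 p hp hp1)
  set M := F.image fun n => (f n).1 with hM
  set R := F.image fun n => (f n).2 with hR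
  have hR1 : 1 ∉ R := by
    intro h
    rw [hR, Finset.mem_image] at h
    obtain ⟨n, hn, h⟩ := h
    exact hf2 n hn h
  have hinj : Set.InjOn f (F : Set ℕ) := by
    intro a ha b hb hab
    rw [← (hf a (hn0 a ha)).2.2, ← (hf b (hn0 b hb)).2.2, hab]
  have hw := HeadEnergy.wnonneg δ
  have e1 : ∑ n ∈ F, dv n ^ 2 * (n : ℝ) ^ (-(1 + 2 * δ)) ≤
      ∑ x ∈ M ×ˢ R, (dv x.1 ^ 2 * (x.1 : ℝ) ^ (-(1 + 2 * δ))) *
        (dv x.2 ^ 2 * (x.2 : ℝ) ^ (-(1 + 2 * δ))) := by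
    calc ∑ n ∈ F, dv n ^ 2 * (n : ℝ) ^ (-(1 + 2 * δ))
        = ∑ n ∈ F, (dv (f n).1 ^ 2 * ((f n).1 : ℝ) ^ (-(1 + 2 * δ))) *
            (dv (f n).2 ^ 2 * ((f n).2 : ℝ) ^ (-(1 + 2 * δ))) := by
          refine Finset.sum_congr rfl fun n hn => ?_
          rw [← HeadEnergy.wmul (hcop n hn), (hf n (hn0 n hn)).2.2]
      _ = ∑ x ∈ F.image f, (dv x.1 ^ 2 * (x.1 : ℝ) ^ (-(1 + 2 * δ))) *
            (dv x.2 ^ 2 * (x.2 : ℝ) ^ (-(1 + 2 * δ))) := by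
          rw [Finset.sum_image hinj]
      _ ≤ _ := by
          refine Finset.sum_le_sum_of_subset_of_nonneg ?_ fun x _ _ =>
            mul_nonneg (hw x.1) (hw x.2)
          intro x hx
          obtain ⟨n, hn, rfl⟩ := Finset.mem_image.1 hx
          exact Finset.mem_product.2 ⟨Finset.mem_image_of_mem _ hn, Finset.mem_image_of_mem _ hn⟩
  have e2 : ∑ n ∈ M, dv n ^ 2 * (n : ℝ) ^ (-(1 + 2 * δ)) ≤ ∏ p ∈ S1, LF δ p := by
    refine euler_le hδ h1 M fun m hm => ?_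
    obtain ⟨n, hn, rfl⟩ := Finset.mem_image.1 hm
    exact hf1 n hn
  have e3 : ∑ n ∈ R, dv n ^ 2 * (n : ℝ) ^ (-(1 + 2 * δ)) ≤ ∏ p ∈ S2, LF δ p - 1 := by
    have h3 := euler_le hδ h2 (insert 1 R) fun m hm => by
      rcases Finset.mem_insert.1 hm with rfl | hm
      · exact one_mem_Smo _
      · obtain ⟨n, hn, rfl⟩ := Finset.mem_image.1 hm
        exact (hf n (hn0 n hn)).2.1
    rw [Finset.sum_insert hR1, MP_f9aece_nt_h97.dv_one] at h3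
    simp only [Nat.cast_one, Real.one_rpow, one_pow, mul_one] at h3
    linarith
  have hM0 : 0 ≤ ∑ n ∈ M, dv n ^ 2 * (n : ℝ) ^ (-(1 + 2 * δ)) :=
    Finset.sum_nonneg fun n _ => hw n
  have hR0 : 0 ≤ ∑ n ∈ R, dv n ^ 2 * (n : ℝ) ^ (-(1 + 2 * δ)) :=
    Finset.sum_nonneg fun n _ => hw n
  refine e1.trans ?_
  rw [Finset.sum_product]
  have e4 := Finset.sum_mul_sum M R (fun n => dv n ^ 2 * (n : ℝ) ^ (-(1 + 2 * δ)))
    (fun n => dv n ^ 2 * (n : ℝ) ^ (-(1 + 2 * δ)))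
  rw [← e4]
  exact mul_le_mul e2 e3 hR0 (hM0.trans e2)

/-- primes above the scales -/
noncomputable def HeadEnergy.S2 (p0 : ℕ) (Y z : ℝ) : Finset ℕ :=
  (Finset.Icc 1 ⌊z⌋₊).filter fun p => p.Prime ∧ p0 < p ∧ ⌊Real.exp Y⌋₊ < p

open Classical in
lemma HeadEnergy.coeff_rho (p0 : ℕ) (Y z : ℝ) (n : ℕ) :
    (rz p0 Y z - smz p0 z).coeff n =
      (if n ∈ rset p0 Y z then 1 else 0) -
        (if (1 ≤ n ∧ n ≤ ⌊z⌋₊) ∧ n ∈ Smo (Psm p0 : Set ℕ) then 1 else 0) := by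
  have h1 : ∀ s : Finset ℕ, (∑ m ∈ s, MonoidAlgebra.single m (1 : ℝ) : DP).coeff n =
      if n ∈ s then 1 else 0 := by
    intro s
    rw [MP_f9aece_nt_h97.coeff_eq_pair, MP_f9aece_nt.pair_sum]
    simp
  rw [MonoidAlgebra.coeff_sub, Finsupp.sub_apply]
  unfold rz smz
  rw [h1, h1]
  congr 1
  simp only [Finset.mem_filter, Finset.mem_Icc]

lemma HeadEnergy.cone_rho (p0 : ℕ) (Y z : ℝ) :
    (∀ n, (rz p0 Y z - smz p0 z).coeff n ≤ 1) ∧
    Cone {n | n ∈ Smo ((Psm p0 ∪ HeadEnergy.S2 p0 Y z : Finset ℕ) : Set ℕ) ∧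
      ∃ p ∈ HeadEnergy.S2 p0 Y z, p ∣ n} (rz p0 Y z - smz p0 z) := by
  classical
  have hsub : ∀ n, ((1 ≤ n ∧ n ≤ ⌊z⌋₊) ∧ n ∈ Smo (Psm p0 : Set ℕ)) → n ∈ rset p0 Y z := by
    rintro n ⟨h1, h2⟩
    rw [mem_rset]
    refine ⟨h1, h2.1, fun p hp hpn hc => ?_⟩
    have h3 := Finset.mem_Ioc.1 (Finset.mem_filter.1 (Finset.mem_coe.1 (h2.2 p hp hpn))).1
    omega
  refine ⟨fun n => ?_, fun n => ⟨?_, fun hn => ?_⟩⟩
  · rw [HeadEnergy.coeff_rho]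
    split_ifs <;> norm_num
  · rw [HeadEnergy.coeff_rho]
    by_cases h : (1 ≤ n ∧ n ≤ ⌊z⌋₊) ∧ n ∈ Smo (Psm p0 : Set ℕ)
    · rw [if_pos h, if_pos (hsub n h)]; norm_num
    · rw [if_neg h, sub_zero]
      split_ifs <;> norm_num
  · rw [HeadEnergy.coeff_rho] at hn
    by_cases h1 : n ∈ rset p0 Y z
    · by_cases h2 : (1 ≤ n ∧ n ≤ ⌊z⌋₊) ∧ n ∈ Smo (Psm p0 : Set ℕ)
      · rw [if_pos h1, if_pos h2] at hn
        norm_num at hn
      · rw [mem_rset] at h1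
        have h3 : n ∉ Smo (Psm p0 : Set ℕ) := fun h => h2 ⟨h1.1, h⟩
        have key : ∀ p, p.Prime → p ∣ n → p ∈ Psm p0 ∨ p ∈ HeadEnergy.S2 p0 Y z := by
          intro p hp hpn
          have h4 := h1.2.2 p hp hpn
          have hpz : p ≤ ⌊z⌋₊ := (Nat.le_of_dvd (by omega) hpn).trans h1.1.2
          by_cases h5 : p ≤ p0
          · left
            exact Finset.mem_filter.2 ⟨Finset.mem_Ioc.2 ⟨hp.pos, h5⟩, hp⟩
          · right
            refine Finset.mem_filter.2 ⟨Finset.mem_Icc.2 ⟨hp.one_le, hpz⟩, hp, by omega, ?_⟩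
            by_contra h6
            exact h4 ⟨by omega, by omega⟩
        refine ⟨⟨h1.2.1, fun p hp hpn => ?_⟩, ?_⟩
        · rw [Finset.mem_coe, Finset.mem_union]
          exact key p hp hpn
        · by_contra hc
          push Not at hc
          exact h3 ⟨h1.2.1, fun p hp hpn => Finset.mem_coe.2
            ((key p hp hpn).resolve_right fun h => hc p h hpn)⟩
    · have h2 : ¬ ((1 ≤ n ∧ n ≤ ⌊z⌋₊) ∧ n ∈ Smo (Psm p0 : Set ℕ)) := fun h => h1 (hsub n h)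
      rw [if_neg h1, if_neg h2] at hn
      norm_num at hn

theorem headEnergy : HeadEnergy := by
  intro p0 hp0
  have hPsm : ∀ p ∈ Psm p0, p.Prime := fun p hp => (Finset.mem_filter.1 hp).2
  have hs0 : 0 ≤ ∑ p ∈ Psm p0, (p : ℝ)⁻¹ := Finset.sum_nonneg fun p _ => by positivity
  refine ⟨Real.exp (22 * ∑ p ∈ Psm p0, (p : ℝ)⁻¹) * (132 * Real.exp 132), ?_, ?_⟩
  · have h1 : 1 ≤ Real.exp (22 * ∑ p ∈ Psm p0, (p : ℝ)⁻¹) := Real.one_le_exp (by positivity)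
    have h2 : 1 ≤ Real.exp 132 := Real.one_le_exp (by norm_num)
    nlinarith
  · intro δ Y hδ hδ4 hδY z hz
    have hY0 : 0 < Y := by
      by_contra h
      nlinarith
    have hY4 : 4 ≤ Y := by nlinarith
    set S2 := HeadEnergy.S2 p0 Y z with hS2
    obtain ⟨hle, hcone⟩ := HeadEnergy.cone_rho p0 Y z
    set ρ := rz p0 Y z - smz p0 z with hρ
    have hcone2 : Cone {n | n ∈ Smo ((Psm p0 ∪ S2 : Finset ℕ) : Set ℕ) ∧ ∃ p ∈ S2, p ∣ n}
        (ρ * ρ) := hcone.mul hcone fun a ha b hb =>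
      ⟨mul_mem_Smo ha.1 hb.1, ha.2.imp fun p hp => ⟨hp.1, hp.2.mul_right b⟩⟩
    have hS2p : ∀ p ∈ S2, p.Prime := fun p hp => (Finset.mem_filter.1 hp).2.1
    have h1 : En (tw δ (ρ * ρ)) ≤ (∏ p ∈ Psm p0, LF δ p) * (∏ p ∈ S2, LF δ p - 1) := by
      rw [En_tw_le fun n hn => Smo_pos ((hcone2 n).2 hn).1]
      refine le_trans (Finset.sum_le_sum fun n hn => ?_)
        (HeadEnergy.split hδ.le hPsm hS2p _ fun n hn => (hcone2 n).2 (supp_tw hn))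
      have hn0 : 1 ≤ n := Smo_pos ((hcone2 n).2 (supp_tw hn)).1
      have h2 := coeff_sq_le (fun n => (hcone n).1) hle (n := n) (by omega)
      have h3 := (hcone2 n).1
      have h5 : 0 ≤ (n : ℝ) ^ (-(1 + 2 * δ)) := Real.rpow_nonneg (Nat.cast_nonneg _) _
      gcongr
    have h2 : ∏ p ∈ Psm p0, LF δ p ≤ Real.exp (22 * ∑ p ∈ Psm p0, (p : ℝ)⁻¹) := by
      rw [Finset.mul_sum, Real.exp_sum]
      refine Finset.prod_le_prod (fun p hp => zero_le_one.trans (one_le_LF hδ.le (hPsm p hp)))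
        fun p hp => (LF_le hδ.le (hPsm p hp)).trans (Real.exp_le_exp.2 ?_)
      have := qq_le hδ.le (hPsm p hp).one_le
      linarith
    have h3 : ∏ p ∈ S2, LF δ p ≤ Real.exp (22 * ∑ p ∈ S2, qq δ p) := by
      rw [Finset.mul_sum, Real.exp_sum]
      exact Finset.prod_le_prod (fun p hp => zero_le_one.trans (one_le_LF hδ.le (hS2p p hp)))
        fun p hp => LF_le hδ.le (hS2p p hp)
    have h4 : ∑ p ∈ S2, qq δ p ≤ 6 / (δ * Y) := by
      have h5 := tail_finite (y := Real.exp Y) hδ hδ4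
        (by have := Real.add_one_le_exp Y; linarith) S2 fun p hp => ⟨hS2p p hp, ?_⟩
      · rw [Real.log_exp] at h5
        exact h5
      · exact (Nat.floor_lt (Real.exp_pos _).le).1 (Finset.mem_filter.1 hp).2.2.2
    set x := 132 / (δ * Y) with hx
    have hx0 : 0 ≤ x := by positivity
    have hx1 : x ≤ 132 := by
      rw [hx, div_le_iff₀ (by positivity)]
      nlinarith
    have h5 : ∏ p ∈ S2, LF δ p - 1 ≤ x * Real.exp 132 := by
      have h6 : ∏ p ∈ S2, LF δ p ≤ Real.exp x := by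
        refine h3.trans (Real.exp_le_exp.2 ?_)
        calc 22 * ∑ p ∈ S2, qq δ p ≤ 22 * (6 / (δ * Y)) := by gcongr
          _ = x := by rw [hx]; ring
      have h7 : Real.exp x - 1 ≤ x * Real.exp x := by
        have h8 := Real.add_one_le_exp (-x)
        have h9 := Real.exp_pos x
        have h10 : Real.exp (-x) * Real.exp x = 1 := by rw [← Real.exp_add]; simp
        nlinarith
      have h11 : x * Real.exp x ≤ x * Real.exp 132 :=
        mul_le_mul_of_nonneg_left (Real.exp_le_exp.2 hx1) hx0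
      linarith
    have h6 : 0 ≤ ∏ p ∈ Psm p0, LF δ p :=
      Finset.prod_nonneg fun p hp => zero_le_one.trans (one_le_LF hδ.le (hPsm p hp))
    calc En (tw δ (ρ * ρ)) ≤ (∏ p ∈ Psm p0, LF δ p) * (∏ p ∈ S2, LF δ p - 1) := h1
      _ ≤ (∏ p ∈ Psm p0, LF δ p) * (x * Real.exp 132) := mul_le_mul_of_nonneg_left h5 h6
      _ ≤ Real.exp (22 * ∑ p ∈ Psm p0, (p : ℝ)⁻¹) * (x * Real.exp 132) :=
          mul_le_mul_of_nonneg_right h2 (by positivity)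
      _ = _ := by rw [hx]; ring

end Pool.Agent.Lib.N4
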