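import Pool.Agent.Lib.MP_f9aece_nt_n4.Stmts
import Pool.Agent.Lib.MP_f9aece_nt_nl.Final

/-!
Moments of zeta of order between two and four: the moments over shifted intervals.
-/

set_option autoImplicit false

namespace Pool.Agent.Lib.N4

open MeasureTheory Set Filter Topology Complex
open Pool.Agent.Lib.NL

/-- upper bound for the shifted moments at distance `δ`, order between two and four -/
theorem shiftUpper (hD : UpperNear) (x ε : ℝ) (hε : 0 < ε) : ∃ C : ℝ, 1 ≤ C ∧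
    ∀ β δ T : ℝ, 2 ≤ β → β ≤ 4 → 0 < δ → δ ≤ 1 / 4 → 1 ≤ T → C ≤ δ * Real.log T →
    momL β x δ T ≤ (1 + ε) * SS (β / 2) (1 + 2 * δ) := by
  obtain ⟨C1, hC1, hcore⟩ := hD (ε / 4) (by positivity)
  obtain ⟨M, hM1, hM⟩ := zeta_bdd x
  set A0 := |x| * M ^ 4 with hA0
  have hx0 : 0 ≤ |x| := abs_nonneg x
  have hA00 : 0 ≤ A0 := by positivity
  set C := max (C1 + 1) ((|x| + A0 + 1) * (8 / ε + 2)) with hC
  have hCa : C1 + 1 ≤ C := le_max_left _ _
  have hCb : (|x| + A0 + 1) * (8 / ε + 2) ≤ C := le_max_right _ _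
  refine ⟨C, by linarith, ?_⟩
  intro β δ T hβ2 hβ4 hδ0 hδ4 hT1 hCT
  have hβ0 : 0 < β := by linarith
  have hTp : 0 < T := by linarith
  have hlogT0 : 0 ≤ Real.log T := Real.log_nonneg hT1
  have hlogT : 4 * C ≤ Real.log T := by
    have : δ * Real.log T ≤ 1 / 4 * Real.log T := by gcongr
    linarith
  have hTC : C ≤ T := by
    have h1 := Real.log_le_sub_one_of_pos hTp
    linarith
  have hTb : (|x| + A0 + 1) * (8 / ε + 2) ≤ T := hCb.trans hTC
  have hTx : 2 * |x| + 2 ≤ T := by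
    have h2 : (|x| + A0 + 1) * 2 ≤ (|x| + A0 + 1) * (8 / ε + 2) := by
      apply mul_le_mul_of_nonneg_left _ (by positivity)
      have : 0 < 8 / ε := by positivity
      linarith
    linarith
  have hTε : 8 * (|x| + A0) ≤ ε * T := by
    have h2 : (|x| + A0) * (8 / ε) ≤ T := by
      refine le_trans ?_ hTb
      have : 0 < 8 / ε := by positivity
      exact mul_le_mul (by linarith) (by linarith) this.le (by positivity)
    have h3 : (|x| + A0) * (8 / ε) * ε = 8 * (|x| + A0) := by field_simp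
    rw [← h3]
    calc (|x| + A0) * (8 / ε) * ε ≤ T * ε := by gcongr
      _ = _ := by ring
  set k := β / 2 with hk
  have hk0 : 0 < k := by positivity
  have hk1 : 1 ≤ k := by rw [hk]; linarith
  have hk2 : k ≤ 2 := by rw [hk]; linarith
  have hβk : β = 2 * k := by rw [hk]; ring
  set S := SS k (1 + 2 * δ) with hS
  have hS2 : 1 ≤ S := one_le_SS (N := 2) (by norm_num) hk0.le (by exact_mod_cast hk2) (by linarith)
  set F : ℝ → ℝ := fun t => ‖riemannZeta (pt δ t)‖ ^ β with hFd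
  have cz := continuous_zeta_pt (δ := δ) (by linarith)
  have hFc : Continuous F := cz.norm.rpow_const fun _ => Or.inr hβ0.le
  have hF0 : ∀ t, 0 ≤ F t := fun t => by rw [hFd]; positivity
  have hFM : ∀ t, |t| ≤ |x| → F t ≤ M ^ 4 := by
    intro t ht
    rw [hFd]
    simp only
    calc ‖riemannZeta (pt δ t)‖ ^ β ≤ M ^ β :=
          Real.rpow_le_rpow (norm_nonneg _) (hM δ t hδ0.le hδ4 ht) hβ0.le
      _ ≤ M ^ ((4 : ℕ) : ℝ) := by
          apply Real.rpow_le_rpow_of_exponent_le hM1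
          push_cast
          exact hβ4
      _ = _ := Real.rpow_natCast _ _
  have hedge : ∀ a b : ℝ, a ≤ b → -|x| ≤ a → b ≤ |x| → b - a ≤ |x| → ∫ t in a..b, F t ≤ A0 := by
    intro a b hab ha hb hba
    calc ∫ t in a..b, F t ≤ ∫ t in a..b, (fun _ => M ^ 4) t := by
          refine intervalIntegral.integral_mono_on hab (hFc.intervalIntegrable _ _)
            (continuous_const.intervalIntegrable _ _) fun t ht => hFM t ?_
          rw [abs_le]
          exact ⟨ha.trans ht.1, ht.2.trans hb⟩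
      _ = (b - a) * M ^ 4 := by simp
      _ ≤ A0 := by rw [hA0]; gcongr
  have hint : ∀ a b : ℝ, IntervalIntegrable F volume a b := fun a b => hFc.intervalIntegrable _ _
  have hMLeq : ∀ U : ℝ, ML k δ U = ∫ t in (0 : ℝ)..U, F t := by
    intro U
    unfold ML
    rw [hFd, hβk]
  rw [momL_eq hTp, div_le_iff₀ hTp]
  have hT2 : 1 ≤ T + |x| := by linarith
  have hC1T : C1 ≤ δ * Real.log (T + |x|) := by
    have h2 : Real.log T ≤ Real.log (T + |x|) := Real.log_le_log hTp (by linarith)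
    have h4 : δ * Real.log T ≤ δ * Real.log (T + |x|) := by gcongr
    linarith
  have hup' := hcore δ (T + |x|) k hδ0 hδ4 hT2 hC1T hk1 hk2
  rw [← hS, hMLeq] at hup'
  have h3 : ∫ t in x..(x + T), F t ≤ ∫ t in (-|x|)..(T + |x|), F t := by
    refine intervalIntegral.integral_mono_interval (neg_abs_le x) (by linarith) ?_ ?_ (hint _ _)
    · have := le_abs_self x
      linarith
    · exact Eventually.of_forall fun t => hF0 t
  have h4 : ∫ t in (-|x|)..0, F t ≤ A0 := hedge (-|x|) 0 (by linarith) le_rfl (by linarith) (by linarith)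
  have h5 := intervalIntegral.integral_add_adjacent_intervals (hint (-|x|) 0) (hint 0 (T + |x|))
  have h6 : ∫ t in x..(x + T), F t ≤ A0 + (1 + ε / 4) * ((T + |x|) * S) := by linarith
  have h7 : 8 * (|x| + A0) * S ≤ ε * T * S := by gcongr
  have h8 : A0 ≤ 2 * A0 * S := by nlinarith
  have hxT : |x| ≤ T := by linarith
  have h9 : ε / 4 * (|x| * S) ≤ ε / 4 * (T * S) := by gcongr
  nlinarith

/-- moments at distance `δ`, in terms of the Dirichlet series, upper bounds for order up to four -/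
theorem near_line_series4 (hD : UpperNear) (N : ℕ) (hN : 1 ≤ N) (x ε : ℝ) (hε : 0 < ε) :
    ∃ C : ℝ, 1 ≤ C ∧
    ∀ β δ T : ℝ, 0 < β → β ≤ 2 * N → 0 < δ → δ ≤ 1 / 4 → 1 ≤ T → C ≤ δ * Real.log T →
    (1 - ε) * SS (β / 2) (1 + 2 * δ) ≤ momL β x δ T ∧
    (β ≤ 4 → momL β x δ T ≤ (1 + ε) * SS (β / 2) (1 + 2 * δ)) := by
  obtain ⟨C1, hC1, h1⟩ := near_line_series N hN x ε hε
  obtain ⟨C2, hC2, h2⟩ := shiftUpper hD x ε hε
  refine ⟨max C1 C2, hC1.trans (le_max_left _ _), fun β δ T hβ hβN hδ hδ4 hT hCT => ?_⟩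
  have h3 := h1 β δ T hβ hβN hδ hδ4 hT ((le_max_left _ _).trans hCT)
  refine ⟨h3.1, fun hβ4 => ?_⟩
  rcases le_total β 2 with h | h
  · exact h3.2 h
  · exact h2 β δ T h hβ4 hδ hδ4 hT ((le_max_right _ _).trans hCT)

/-- moments at distance `δ`, with the arithmetic factor -/
theorem near_line_crisp4 (hD : UpperNear) (N : ℕ) (hN : 1 ≤ N) (x ε : ℝ) (hε : 0 < ε) :
    ∃ C : ℝ, 0 < C ∧
    ∀ β δ T : ℝ, 0 < β → β ≤ 2 * N → 0 < δ → δ ≤ 1 / C → 1 ≤ T → C ≤ δ * Real.log T →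
      0 < (∏' p : Nat.Primes, ((1 - ((p : ℕ) : ℝ)⁻¹) ^ (β ^ 2 / 4)
        * ∑' i : ℕ, bk (β / 2) i ^ 2 * (((p : ℕ) : ℝ)⁻¹) ^ i)) ∧
      (1 - ε) * ((∏' p : Nat.Primes, ((1 - ((p : ℕ) : ℝ)⁻¹) ^ (β ^ 2 / 4)
        * ∑' i : ℕ, bk (β / 2) i ^ 2 * (((p : ℕ) : ℝ)⁻¹) ^ i)) * (2 * δ) ^ (-(β ^ 2 / 4)))
        ≤ momL β x δ T ∧
      (β ≤ 4 → momL β x δ T ≤ (1 + ε) * ((∏' p : Nat.Primes, ((1 - ((p : ℕ) : ℝ)⁻¹) ^ (β ^ 2 / 4)
        * ∑' i : ℕ, bk (β / 2) i ^ 2 * (((p : ℕ) : ℝ)⁻¹) ^ i)) * (2 * δ) ^ (-(β ^ 2 / 4)))) := by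
  set η := min (ε / 4) (1 / 4) with hη
  have hη0 : 0 < η := by positivity
  have hη1 : η ≤ ε / 4 := min_le_left _ _
  have hη2 : η ≤ 1 / 4 := min_le_right _ _
  obtain ⟨C1, hC1, h1⟩ := near_line_series4 hD N hN x η hη0
  obtain ⟨δ0, hδ0, h2⟩ := main_term N hN η hη0
  refine ⟨max (max C1 4) (1 / δ0), lt_of_lt_of_le (by positivity) (le_max_left _ _), ?_⟩
  intro β δ T hβ0 hβN hδ hδC hT hCT
  set k := β / 2 with hk
  have hk0 : 0 < k := by rw [hk]; positivity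
  have hkN : k ≤ N := by rw [hk]; linarith
  have hk2 : β ^ 2 / 4 = k ^ 2 := by rw [hk]; ring
  have hC4 : 4 ≤ max (max C1 4) (1 / δ0) := (le_max_right _ _).trans (le_max_left _ _)
  have hCC1 : C1 ≤ max (max C1 4) (1 / δ0) := (le_max_left _ _).trans (le_max_left _ _)
  have hCδ : 1 / δ0 ≤ max (max C1 4) (1 / δ0) := le_max_right _ _
  have hδ4 : δ ≤ 1 / 4 := hδC.trans (one_div_le_one_div_of_le (by norm_num) hC4)
  have hδδ : δ ≤ δ0 := by
    refine hδC.trans ((one_div_le_one_div_of_le (by positivity) hCδ).trans ?_)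
    rw [one_div_one_div]
  obtain ⟨hlow, hup⟩ := h1 β δ T hβ0 hβN hδ hδ4 hT (hCC1.trans hCT)
  obtain ⟨m1, m2⟩ := h2 k hk0.le hkN δ hδ hδδ
  have hA : (∏' p : Nat.Primes, ((1 - ((p : ℕ) : ℝ)⁻¹) ^ (β ^ 2 / 4)
      * ∑' i : ℕ, bk k i ^ 2 * (((p : ℕ) : ℝ)⁻¹) ^ i)) = ak k := by
    unfold ak Fi
    rw [hk2]
  rw [hA, hk2]
  have hA0 : 0 < ak k := ak_pos hN hk0.le hkN
  set A := ak k with hAdef
  set S := SS k (1 + 2 * δ) with hS
  have hD' : 0 < (2 * δ) ^ (k ^ 2) := Real.rpow_pos_of_pos (by positivity) _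
  have hinv : (2 * δ) ^ (-(k ^ 2)) = ((2 * δ) ^ (k ^ 2))⁻¹ := Real.rpow_neg (by positivity) _
  set D := (2 * δ) ^ (k ^ 2) with hDdef
  rw [hinv]
  -- bounds of the main term
  have b1 : (1 - η) * (A * D⁻¹) ≤ S := by
    have e1 : 1 - η ≤ Real.exp (-η) := by
      have := Real.add_one_le_exp (-η)
      linarith
    have e2 : (1 - η) * A ≤ D * S := (mul_le_mul_of_nonneg_right e1 hA0.le).trans m1
    calc (1 - η) * (A * D⁻¹) = ((1 - η) * A) * D⁻¹ := by ring
      _ ≤ (D * S) * D⁻¹ := mul_le_mul_of_nonneg_right e2 (by positivity)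
      _ = S := by field_simp
  have b2 : S ≤ (1 + 2 * η) * (A * D⁻¹) := by
    have e1 : Real.exp η ≤ 1 + 2 * η := by
      have h3 := Real.one_sub_le_exp_neg η
      rw [Real.exp_neg] at h3
      have h4 : Real.exp η ≤ (1 - η)⁻¹ := by
        rw [le_inv_comm₀ (Real.exp_pos _) (by linarith)]
        exact h3
      refine h4.trans ?_
      rw [inv_le_iff_one_le_mul₀ (by linarith)]
      nlinarith
    have e2 : D * S ≤ (1 + 2 * η) * A := m2.trans (mul_le_mul_of_nonneg_right e1 hA0.le)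
    calc S = (D * S) * D⁻¹ := by field_simp
      _ ≤ ((1 + 2 * η) * A) * D⁻¹ := mul_le_mul_of_nonneg_right e2 (by positivity)
      _ = _ := by ring
  have hX : 0 < A * D⁻¹ := by positivity
  set X := A * D⁻¹ with hXdef
  refine ⟨hA0, ?_, fun hβ4 => ?_⟩
  · refine le_trans ?_ hlow
    have h3 : (1 - η) * ((1 - η) * X) ≤ (1 - η) * S := mul_le_mul_of_nonneg_left b1 (by linarith)
    have h4 : (1 - ε) * X ≤ (1 - η) * ((1 - η) * X) := by
      have h5 : 1 - ε ≤ (1 - η) * (1 - η) := by nlinarith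
      calc (1 - ε) * X ≤ ((1 - η) * (1 - η)) * X := mul_le_mul_of_nonneg_right h5 hX.le
        _ = _ := by ring
    exact h4.trans h3
  · refine (hup hβ4).trans ?_
    have h3 : (1 + η) * S ≤ (1 + η) * ((1 + 2 * η) * X) := mul_le_mul_of_nonneg_left b2 (by linarith)
    have h4 : (1 + η) * ((1 + 2 * η) * X) ≤ (1 + ε) * X := by
      have h5 : (1 + η) * (1 + 2 * η) ≤ 1 + ε := by nlinarith
      calc (1 + η) * ((1 + 2 * η) * X) = ((1 + η) * (1 + 2 * η)) * X := by ring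
        _ ≤ _ := mul_le_mul_of_nonneg_right h5 hX.le
    exact h3.trans h4

end Pool.Agent.Lib.N4
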