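import Mathlib
import Pool.Agent.Lib.MP_f9aece_nt_n4.Stmts
import Pool.Agent.Lib.MP_f9aece_nt_nl.G

/-!
The tail of the small primes.
-/

set_option autoImplicit false

namespace Pool.Agent.Lib.N4

open MeasureTheory Set Filter Topology Complex
open Pool.Agent.Lib.MP_f9aece_nt (DP Smo)
open Pool.Agent.Lib.MP_f9aece_nt_h97 (Psm Dsm evs)
open Pool.Agent.Lib.NL (pt)

namespace R6

lemma smo_eq (S : Finset ℕ) : Smo (S : Set ℕ) = Nat.factoredNumbers S := by
  ext n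
  constructor
  · rintro ⟨h0, h⟩
    refine ⟨h0, fun p hp => ?_⟩
    have hp' := (Nat.mem_primeFactorsList h0).1 hp
    exact Finset.mem_coe.1 (h p hp'.1 hp'.2)
  · rintro ⟨h0, h⟩
    refine ⟨h0, fun p hp hpn => ?_⟩
    exact Finset.mem_coe.2 (h p ((Nat.mem_primeFactorsList h0).2 ⟨hp, hpn⟩))

lemma psm_filter (p0 : ℕ) : (Psm p0).filter Nat.Prime = Psm p0 := by
  unfold Psm
  rw [Finset.filter_filter]
  simp

open Classical in
/-- the summand -/
noncomputable def F (p0 : ℕ) (s : ℂ) (n : ℕ) : ℂ :=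
  if n ∈ Smo (Psm p0 : Set ℕ) then (n : ℂ) ^ (-s) else 0

open Classical in
/-- the majorant -/
noncomputable def H (p0 : ℕ) (n : ℕ) : ℝ :=
  if n ∈ Smo (Psm p0 : Set ℕ) then (n : ℝ) ^ (-(1 / 4) : ℝ) else 0

lemma H_nonneg (p0 n : ℕ) : 0 ≤ H p0 n := by
  unfold H
  split_ifs <;> positivity

lemma norm_term {s : ℂ} {p : ℕ} (hp : p.Prime) : ‖(p : ℂ) ^ (-s)‖ = (p : ℝ) ^ (-s.re) := by
  rw [Complex.norm_natCast_cpow_of_pos hp.pos, Complex.neg_re]

lemma hasSum_F (p0 : ℕ) {s : ℂ} (hs : 0 < s.re) :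
    HasSum (F p0 s) (∏ p ∈ Psm p0, (1 - (p : ℂ) ^ (-s)))⁻¹ ∧ Summable fun n => ‖F p0 s n‖ := by
  have hs0 : s ≠ 0 := by
    rintro rfl
    simp at hs
  have h := EulerProduct.summable_and_hasSum_factoredNumbers_prod_filter_prime_geometric
    (f := (riemannZetaSummandHom hs0).toMonoidHom) (by
      intro p hp
      change ‖(p : ℂ) ^ (-s)‖ < 1
      rw [norm_term hp]
      exact Real.rpow_lt_one_of_one_lt_of_neg (by exact_mod_cast hp.one_lt) (by linarith)) (Psm p0)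
  rw [psm_filter] at h
  have e : F p0 s = Set.indicator (Nat.factoredNumbers (Psm p0)) (fun n => (n : ℂ) ^ (-s)) := by
    funext n
    unfold F
    rw [smo_eq]
    by_cases hn : n ∈ Nat.factoredNumbers (Psm p0)
    · rw [if_pos hn, Set.indicator_of_mem hn]
    · rw [if_neg hn, Set.indicator_of_notMem hn]
  constructor
  · rw [e, ← Finset.prod_inv_distrib]
    exact hasSum_subtype_iff_indicator.1 h.2
  · have e2 : (fun n => ‖F p0 s n‖)
        = Set.indicator (Nat.factoredNumbers (Psm p0)) (fun n : ℕ => ‖(n : ℂ) ^ (-s)‖) := by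
      funext n
      rw [e]
      exact (norm_indicator_eq_indicator_norm _ _)
    rw [e2]
    exact summable_subtype_iff_indicator.1 h.1

lemma summable_H (p0 : ℕ) : Summable (H p0) := by
  have h := (hasSum_F p0 (s := (1 / 4 : ℝ)) (by rw [Complex.ofReal_re]; norm_num)).2
  refine h.congr fun n => ?_
  unfold F H
  split_ifs with hn
  · rw [Complex.norm_natCast_cpow_of_pos (Nat.pos_of_ne_zero hn.1)]
    simp
  · simp

lemma norm_F {p0 : ℕ} {s : ℂ} (hs : 1 / 2 ≤ s.re) (n : ℕ) : ‖F p0 s n‖ ≤ H p0 n := by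
  unfold F H
  split_ifs with hn
  · rw [Complex.norm_natCast_cpow_of_pos (Nat.pos_of_ne_zero hn.1), Complex.neg_re]
    exact Real.rpow_le_rpow_of_exponent_le (by exact_mod_cast Nat.pos_of_ne_zero hn.1)
      (by linarith)
  · simp

lemma norm_F_tail {p0 : ℕ} {s : ℂ} (hs : 1 / 2 ≤ s.re) {z : ℝ} (hz : 1 ≤ z) {n : ℕ}
    (hn : z ≤ n) : ‖F p0 s n‖ ≤ z ^ (-(1 / 4) : ℝ) * H p0 n := by
  unfold F H
  have hz0 : 0 < z := by linarith
  have hn0 : (0 : ℝ) < n := by linarith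
  have hn1 : (1 : ℝ) ≤ n := by linarith
  split_ifs with hn
  · rw [Complex.norm_natCast_cpow_of_pos (Nat.pos_of_ne_zero hn.1), Complex.neg_re]
    calc (n : ℝ) ^ (-s.re) ≤ (n : ℝ) ^ ((-(1 / 4) : ℝ) + (-(1 / 4) : ℝ)) :=
          Real.rpow_le_rpow_of_exponent_le hn1 (by linarith)
      _ = (n : ℝ) ^ (-(1 / 4) : ℝ) * (n : ℝ) ^ (-(1 / 4) : ℝ) := Real.rpow_add hn0 _ _
      _ ≤ z ^ (-(1 / 4) : ℝ) * (n : ℝ) ^ (-(1 / 4) : ℝ) := by
          refine mul_le_mul_of_nonneg_right ?_ (by positivity)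
          exact Real.rpow_le_rpow_of_nonpos hz0 (by assumption) (by norm_num)
  · simp

lemma evs_smz (p0 : ℕ) (z : ℝ) (s : ℂ) :
    evs s (smz p0 z) = ∑ n ∈ Finset.range (⌊z⌋₊ + 1), F p0 s n := by
  classical
  rw [← Pool.Agent.Lib.MP_f9aece_nt_h5.evS_apply, smz, map_sum]
  have e : ∀ n ∈ Finset.range (⌊z⌋₊ + 1), F p0 s n
      = if n ∈ Smo (Psm p0 : Set ℕ) then (n : ℂ) ^ (-s) else 0 := fun n _ => by
    unfold F
    congr
  rw [Finset.sum_congr rfl e, ← Finset.sum_filter]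
  refine Finset.sum_congr ?_ fun n _ => ?_
  · ext n
    simp only [Finset.mem_filter, Finset.mem_Icc, Finset.mem_range]
    constructor
    · rintro ⟨⟨h1, h2⟩, h3⟩
      exact ⟨by omega, h3⟩
    · rintro ⟨h1, h3⟩
      exact ⟨⟨Nat.pos_of_ne_zero h3.1, by omega⟩, h3⟩
  · rw [Pool.Agent.Lib.MP_f9aece_nt_h5.evS_single]
    simp

end R6

open R6 in
theorem smallTail : SmallTail := by
  intro p0 _
  refine ⟨max 1 (∑' n, H p0 n), le_max_left _ _, ?_⟩
  intro δ t z hδ hz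
  have hre : 1 / 2 ≤ (pt δ t).re := by
    unfold pt
    simp
    linarith
  have hre0 : 0 < (pt δ t).re := by linarith
  obtain ⟨hS, hN⟩ := hasSum_F p0 hre0
  rw [Pool.Agent.Lib.NL.GSm.evs_Dsm]
  constructor
  · rw [evs_smz]
    have h1 := (hasSum_nat_add_iff' (⌊z⌋₊ + 1)).2 hS
    rw [← norm_neg, neg_sub, ← h1.tsum_eq]
    have h2 : Summable fun n => z ^ (-(1 / 4) : ℝ) * H p0 (n + (⌊z⌋₊ + 1)) :=
      ((summable_nat_add_iff (⌊z⌋₊ + 1)).2 (summable_H p0)).mul_left _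
    refine (tsum_of_norm_bounded h2.hasSum fun i => norm_F_tail hre hz ?_).trans ?_
    · have := Nat.lt_floor_add_one z
      push_cast
      have hi : (0 : ℝ) ≤ i := Nat.cast_nonneg i
      linarith
    · rw [tsum_mul_left, mul_comm]
      refine mul_le_mul_of_nonneg_right ?_ (by positivity)
      refine le_trans ?_ (le_max_right _ _)
      have h3 := (summable_H p0).sum_add_tsum_nat_add (⌊z⌋₊ + 1)
      rw [← h3]
      exact le_add_of_nonneg_left (Finset.sum_nonneg fun n _ => H_nonneg p0 n)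
  · rw [← hS.tsum_eq]
    refine (tsum_of_norm_bounded (summable_H p0).hasSum fun i => norm_F hre i).trans
      (le_max_right _ _)

end Pool.Agent.Lib.N4
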