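import Pool.Agent.Lib.MP_f9aece_nt_n4.D1
import Pool.Agent.Lib.MP_f9aece_nt_n4.D3
import Pool.Agent.Lib.MP_f9aece_nt_n4.D6
import Pool.Agent.Lib.MP_f9aece_nt_n4.D7
import Pool.Agent.Lib.MP_f9aece_nt_n4.KernelMoment
import Pool.Agent.Lib.MP_f9aece_nt_n4.LineFinal
import Pool.Agent.Lib.MP_f9aece_nt_n4.R5
import Pool.Agent.Lib.MP_f9aece_nt_n4.Shift
import Pool.Agent.Lib.MP_f9aece_nt_n4.SmallTail
import Pool.Agent.Lib.MP_f9aece_nt_n4_h84.D4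

/-!
Moments of zeta near the critical line, exponents up to four: assembly.
-/

set_option autoImplicit false

namespace Pool.Agent.Lib.N4

open MeasureTheory Complex
open Pool.Agent.Lib.NL

theorem sharpNearFull : SharpNear := sharpNear telescope qCoeff pieceFull levelFull mert powSum
  numWin numOm headEnergy smallTail lenEI

theorem mainNearFull : MainNear := mainNear ptYoung lenEI (sumEI blockE blockP) sumB

theorem upperNearFull : UpperNear := upperNear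
  (upperWN sharpNearFull mainNearFull kernelFormula (kernelError rightFull) ssLow) ssLow

/-- moments at distance `δ`, with the arithmetic factor -/
theorem nearFinal (N : ℕ) (hN : 1 ≤ N) (x ε : ℝ) (hε : 0 < ε) :
    ∃ C : ℝ, 0 < C ∧
    ∀ β δ T : ℝ, 0 < β → β ≤ 2 * N → 0 < δ → δ ≤ 1 / C → 1 ≤ T → C ≤ δ * Real.log T →
      0 < (∏' p : Nat.Primes, ((1 - ((p : ℕ) : ℝ)⁻¹) ^ (β ^ 2 / 4)
        * ∑' i : ℕ, bk (β / 2) i ^ 2 * (((p : ℕ) : ℝ)⁻¹) ^ i)) ∧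
      (1 - ε) * ((∏' p : Nat.Primes, ((1 - ((p : ℕ) : ℝ)⁻¹) ^ (β ^ 2 / 4)
        * ∑' i : ℕ, bk (β / 2) i ^ 2 * (((p : ℕ) : ℝ)⁻¹) ^ i)) * (2 * δ) ^ (-(β ^ 2 / 4)))
        ≤ momL β x δ T ∧
      (β ≤ 4 → momL β x δ T ≤ (1 + ε) * ((∏' p : Nat.Primes, ((1 - ((p : ℕ) : ℝ)⁻¹) ^ (β ^ 2 / 4)
        * ∑' i : ℕ, bk (β / 2) i ^ 2 * (((p : ℕ) : ℝ)⁻¹) ^ i)) * (2 * δ) ^ (-(β ^ 2 / 4)))) :=
  near_line_crisp4 upperNearFull N hN x ε hε

end Pool.Agent.Lib.N4
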