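import Mathlib
import Pool.Agent.Lib.MP_f9aece_nt_n4.Stmts
import Pool.Agent.Lib.MP_f9aece_nt_h20.Kern2

/-!
Module D1: zeta at distance `δ` from the critical line.
-/

set_option autoImplicit false

namespace Pool.Agent.Lib.N4

open MeasureTheory Set Filter Topology Complex
open Pool.Agent.Lib.MP_f9aece_nt (DP ev)
open Pool.Agent.Lib.MP_f9aece_nt_h5 (evS evS_apply evS_single)
open Pool.Agent.Lib.MP_f9aece_nt_h97 (evs)
open Pool.Agent.Lib.NL (pt)
open Pool.Agent.H20.Smooth (kernel_formula norm_int_Kk_le norm_pole_le kd abs_kd_le int_kd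
  continuous_kd c1 c1_nonneg cM cM_nonneg PK Kk intervalIntegrable_PSum)

lemma evs_al_exp (s : ℂ) (x : ℝ) : evs s (al (Real.exp x))
    = Pool.Agent.H20.Smooth.PSum (fun n => (n : ℂ) ^ (-s)) x := by
  unfold al Pool.Agent.H20.Smooth.PSum
  rw [← evS_apply, map_sum]
  refine Finset.sum_congr rfl fun n _ => ?_
  rw [evS_single]
  simp

theorem kernelFormula : KernelFormula := by
  have hc := c1_nonneg
  have hm := cM_nonneg 6
  refine ⟨c1 + 64 * cM 6, by positivity, ?_⟩
  intro δ x0 w1 hδ hδ1 hx0 hw h1 t ht M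
  have ht0 : 0 < t := by linarith
  have h := kernel_formula (x0 := x0) hδ hw h1 ht0
  set s : ℂ := pt δ t with hs
  have hs' : s = ((1 / 2 + δ : ℝ) : ℂ) + I * t := rfl
  rw [← hs'] at h
  simp only [evs_al_exp]
  set c : ℕ → ℂ := fun n => (n : ℂ) ^ (-s) with hcd
  have hint := intervalIntegrable_PSum c x0 (x0 + w1)
  have hkc := continuous_kd (x0 + w1) w1
  have hkc' : Continuous (fun x => (kd (x0 + w1) w1 x : ℂ)) := Complex.continuous_ofReal.comp hkc
  have hM : ∫ x in x0..(x0 + w1), (kd (x0 + w1) w1 x : ℂ) * M = M := by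
    rw [intervalIntegral.integral_mul_const, intervalIntegral.integral_ofReal, int_kd,
      add_sub_cancel_left, div_self hw.ne', Real.smoothTransition.one_of_one_le le_rfl]
    simp
  have e : riemannZeta s - M
      = (∫ x in x0..(x0 + w1), (kd (x0 + w1) w1 x : ℂ)
          * (Pool.Agent.H20.Smooth.PSum c x - M))
        - PK x0 w1 (1 - s) / (1 - s)
        + 1 / (2 * Real.pi) * ∫ v : ℝ, Kk δ x0 w1 v * riemannZeta (1 / 2 + I * (t + v : ℝ)) := by
    have e2 : ∫ x in x0..(x0 + w1), (kd (x0 + w1) w1 x : ℂ)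
          * (Pool.Agent.H20.Smooth.PSum c x - M)
        = (∫ x in x0..(x0 + w1), (kd (x0 + w1) w1 x : ℂ) * Pool.Agent.H20.Smooth.PSum c x)
          - ∫ x in x0..(x0 + w1), (kd (x0 + w1) w1 x : ℂ) * M := by
      rw [← intervalIntegral.integral_sub]
      · refine intervalIntegral.integral_congr fun x _ => ?_
        ring
      · exact hint.continuousOn_mul hkc'.continuousOn
      · exact (hkc'.mul continuous_const).intervalIntegrable _ _
    rw [e2, hM, h]
    ring
  rw [e]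
  have b1 : ‖∫ x in x0..(x0 + w1), (kd (x0 + w1) w1 x : ℂ)
          * (Pool.Agent.H20.Smooth.PSum c x - M)‖
      ≤ c1 / w1 * ∫ x in x0..(x0 + w1), ‖Pool.Agent.H20.Smooth.PSum c x - M‖ := by
    rw [← intervalIntegral.integral_const_mul]
    refine intervalIntegral.norm_integral_le_of_norm_le (by linarith)
      (Eventually.of_forall fun x _ => ?_)
      (((hint.sub (continuous_const.intervalIntegrable _ _)).norm).const_mul _)
    rw [norm_mul, Complex.norm_real, Real.norm_eq_abs]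
    exact mul_le_mul_of_nonneg_right (abs_kd_le hw _ x) (norm_nonneg _)
  have b2 := norm_pole_le (x0 := x0) hw hδ hδ1 ht0
  rw [← hs'] at b2
  have b3 := norm_int_Kk_le (x0 := x0) hδ hw h1 t
  have b2' : ‖PK x0 w1 (1 - s) / (1 - s)‖ ≤ c1 * Real.exp ((x0 + w1) / 2) / t := by
    refine b2.trans ?_
    have : (1 / 2 - δ) * (x0 + w1) ≤ (x0 + w1) / 2 := by nlinarith
    gcongr
  have i1 : 0 ≤ ∫ x in x0..(x0 + w1), ‖Pool.Agent.H20.Smooth.PSum c x - M‖ :=
    intervalIntegral.integral_nonneg (by linarith) fun x _ => norm_nonneg _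
  have i2 : 0 ≤ ∫ v : ℝ, w1 / (1 + w1 * |v|) ^ 6 * ‖riemannZeta (1 / 2 + I * (t + v : ℝ))‖ :=
    integral_nonneg fun v => by positivity
  refine (norm_add_le _ _).trans ?_
  refine (add_le_add_left (norm_sub_le _ _) _).trans ?_
  have f1 : c1 / w1 * ∫ x in x0..(x0 + w1), ‖Pool.Agent.H20.Smooth.PSum c x - M‖
      ≤ (c1 + 64 * cM 6) / w1 * ∫ x in x0..(x0 + w1), ‖Pool.Agent.H20.Smooth.PSum c x - M‖ := by
    gcongr
    linarith
  have f2 : c1 * Real.exp ((x0 + w1) / 2) / t ≤ (c1 + 64 * cM 6) * Real.exp ((x0 + w1) / 2) / t := by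
    gcongr
    linarith
  have f3 : 64 * cM 6 * Real.exp (-(δ * x0)) * ∫ v : ℝ, w1 / (1 + w1 * |v|) ^ 6
        * ‖riemannZeta (1 / 2 + I * (t + v : ℝ))‖
      ≤ (c1 + 64 * cM 6) * Real.exp (-(δ * x0)) * ∫ v : ℝ, w1 / (1 + w1 * |v|) ^ 6
        * ‖riemannZeta (1 / 2 + I * (t + v : ℝ))‖ := by
    gcongr
    linarith
  linarith

end Pool.Agent.Lib.N4
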