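import Mathlib
import Pool.Agent.Lib.MP_f9aece_nt_n4.Stmts

/-!
Moments of zeta of order between two and four: the telescoping decomposition.
-/

set_option autoImplicit false

namespace Pool.Agent.Lib.N4

open MeasureTheory Set Filter Topology Complex
open Pool.Agent.Lib.MP_f9aece_nt (DP pair BK K1 ev PP VV Smo expo EE)
open Pool.Agent.Lib.MP_f9aece_nt_h5 (tw)
open Pool.Agent.Lib.MP_f9aece_nt_h40 (ind)
open Pool.Agent.Lib.MP_f9aece_nt_h85 (rz Rst Pst rset mem_rset)
open Pool.Agent.Lib.J4 (Sg Yg rg Jok)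

theorem Yg_zero' (v : ℕ) (Y : ℝ) : Yg v Y 0 = Y := by
  unfold Yg
  simp

/-- no condition when the scale is below the smallest prime -/
theorem rz_eq_al {p0 : ℕ} {y : ℝ} (hp0 : 1 ≤ p0) (hy : y ≤ Real.log p0) (z : ℝ) :
    rz p0 y z = al z := by
  have hp : (0 : ℝ) < p0 := by exact_mod_cast hp0
  have h1 : ⌊Real.exp y⌋₊ ≤ p0 := by
    have h2 : Real.exp y ≤ p0 := by
      calc Real.exp y ≤ Real.exp (Real.log p0) := Real.exp_le_exp.2 hy
        _ = p0 := Real.exp_log hp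
    calc ⌊Real.exp y⌋₊ ≤ ⌊(p0 : ℝ)⌋₊ := Nat.floor_mono h2
      _ = p0 := Nat.floor_natCast p0
  unfold rz al
  have h3 : rset p0 y z = Finset.Icc 1 ⌊z⌋₊ := by
    ext n
    rw [mem_rset, Finset.mem_Icc]
    constructor
    · exact fun h => h.1
    · intro h
      refine ⟨h, Nat.one_le_iff_ne_zero.1 h.1, ?_⟩
      intro p _ _ hp2
      exact absurd (lt_of_lt_of_le hp2.1 (hp2.2.trans h1)) (lt_irrefl _)
  rw [h3]

theorem EI_succ {v p0 : ℕ} {Y : ℝ} {i J : ℕ} (h : i < J) :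
    EI v p0 Y i J = ind (kap v i) (Sg v p0 Y i) * EI v p0 Y (i + 1) J := by
  unfold EI
  exact Finset.prod_eq_prod_Ico_succ_bot h _

theorem zc_self (v : ℕ) (Y : ℝ) (J : ℕ) (z : ℝ) : zc v Y J z J = z := by
  unfold zc el
  simp

/-- A1: telescoping -/
theorem telescope : Telescope := by
  intro v p0 Y J _ hp0 _ hJ z _
  set T : ℕ → DP := fun i => rz p0 (Yg v Y i) (zc v Y J z i) * EI v p0 Y i J with hT
  have hstep : ∀ i ∈ Finset.range J, QW v p0 Y J z i * EI v p0 Y (i + 1) J = T (i + 1) - T i := by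
    intro i hi
    simp only [hT]
    rw [EI_succ (Finset.mem_range.1 hi), QW, sub_mul, mul_assoc]
  rw [Finset.sum_congr rfl hstep, Finset.sum_range_sub]
  have h0 : T 0 = rz p0 Y (zc v Y J z 0) * EI v p0 Y 0 J := by
    simp only [hT]
    rw [Yg_zero']
  have hTJ : T J = al z := by
    simp only [hT]
    rw [zc_self, rz_eq_al (by omega) hJ.1]
    unfold EI
    rw [Finset.Ico_self, Finset.prod_empty, mul_one]
  rw [h0, hTJ]
  abel

end Pool.Agent.Lib.N4
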