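import Pool.Agent.Lib.MP_f9aece_nt_n4.Stmts
import Pool.Agent.Lib.MP_f9aece_nt_j4.I2Sum
import Pool.Agent.Lib.MP_f9aece_nt_h5.MeanB

/-!
Sums over the sets of groups (modules B3, B4): general part.
-/

set_option autoImplicit false

namespace Pool.Agent.Lib.N4

open Pool.Agent.Lib.MP_f9aece_nt (DP pair BK K1 PP VV Smo expo mulKer_K1 mul_mem_Smo)
open Pool.Agent.Lib.MP_f9aece_nt_h5 (tw coeff_tw)
open Pool.Agent.Lib.MP_f9aece_nt_h97 (Sup)
open Pool.Agent.Lib.J4 (Sg Yg rg Bt Wt En V2 Rg Mg Pg Eg Kg bg sgDisj BK_prod_sup' En_nonneg'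
  one_le_rg Bt_eq sup_bg_Smo)

lemma sup_tw {A : Set ℕ} {f : DP} (δ : ℝ) (hf : Sup A f) : Sup A (tw δ f) := by
  intro n hn
  rw [coeff_tw] at hn
  exact hf n (left_ne_zero_of_mul hn)

/-- the energy of a twisted product over the groups -/
lemma En_tw_prod (δ : ℝ) (v p0 : ℕ) {Y : ℝ} (hY : 0 ≤ Y) (t : Finset ℕ) (f : ℕ → DP)
    (hf : ∀ g ∈ t, Sup (Smo (Sg v p0 Y g : Set ℕ)) (f g)) :
    En (tw δ (∏ g ∈ t, f g)) = ∏ g ∈ t, En (tw δ (f g)) := by
  rw [map_prod]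
  exact BK_prod_sup' mulKer_K1 _ (Sg v p0 Y) (fun g _ h _ hgh => sgDisj v p0 Y hY g h hgh) _ _
    (fun g hg => sup_tw δ (hf g hg)) (fun g hg => sup_tw δ (hf g hg))

lemma sum_exp_rg_le' {v : ℕ} (hv : 1 ≤ v) (t : Finset ℕ) :
    ∑ g ∈ t, Real.exp (-(rg v g : ℝ)) ≤ 2 * Real.exp (-(v : ℝ)) := by
  have hv1 : (1 : ℝ) ≤ v := by exact_mod_cast hv
  have hhalf : Real.exp (-(v : ℝ)) ≤ 1 / 2 := by
    have h1 : Real.exp (-(v : ℝ)) ≤ Real.exp (-1) := Real.exp_le_exp.mpr (by linarith)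
    refine h1.trans ?_
    rw [Real.exp_neg, inv_eq_one_div]
    apply one_div_le_one_div_of_le (by norm_num)
    have := Real.exp_one_gt_d9
    linarith
  have h1 : ∀ g, Real.exp (-(rg v g : ℝ)) ≤ Real.exp (-(v : ℝ)) * (1 / 2 : ℝ) ^ g := by
    intro g
    have h2 : Real.exp (-(rg v g : ℝ)) = Real.exp (-(v : ℝ)) * Real.exp (-(v : ℝ)) ^ g := by
      rw [← Real.exp_nat_mul, ← Real.exp_add]
      congr 1
      unfold rg
      push_cast
      ring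
    rw [h2]
    have := Real.exp_pos (-(v : ℝ))
    gcongr
  have hs : Summable fun g : ℕ => Real.exp (-(v : ℝ)) * (1 / 2 : ℝ) ^ g :=
    summable_geometric_two.mul_left _
  calc ∑ g ∈ t, Real.exp (-(rg v g : ℝ)) ≤ ∑ g ∈ t, Real.exp (-(v : ℝ)) * (1 / 2 : ℝ) ^ g :=
        Finset.sum_le_sum fun g _ => h1 g
    _ ≤ ∑' g : ℕ, Real.exp (-(v : ℝ)) * (1 / 2 : ℝ) ^ g :=
        hs.sum_le_tsum t fun g _ => by positivity
    _ = 2 * Real.exp (-(v : ℝ)) := by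
        rw [tsum_mul_left, tsum_geometric_two]
        ring

/-- sums over the sets of groups -/
lemma sum_Wt_gen {v : ℕ} (hv : 1 ≤ v) (i J : ℕ) (a b u : ℕ → ℝ)
    (ha : ∀ g ∈ Finset.Ico i J, 0 ≤ a g) (hb : ∀ g ∈ Finset.Ico i J, 0 ≤ b g)
    (hu : ∀ g ∈ Finset.Ico i J, 0 ≤ u g)
    (hwa : ∀ g ∈ Finset.Ico i J, Real.exp (8 * Rg v g) / Rg v g ^ (2 * Mg v g) * a g
      ≤ Real.exp (-(rg v g : ℝ)))
    (hbu : ∀ g ∈ Finset.Ico i J, b g ≤ Real.exp (u g)) :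
    ∑ s ∈ (Finset.Ico i J).powerset, Wt v s * ∏ g ∈ Finset.Ico i J, (if g ∈ s then a g else b g)
      ≤ Real.exp (∑ g ∈ Finset.Ico i J, u g + 2 * Real.exp (-(v : ℝ))) := by
  have h1 : ∀ s ∈ (Finset.Ico i J).powerset,
      Wt v s * ∏ g ∈ Finset.Ico i J, (if g ∈ s then a g else b g)
      ≤ (∏ g ∈ s, Real.exp (-(rg v g : ℝ)) * Real.exp (u g))
        * ∏ g ∈ Finset.Ico i J \ s, Real.exp (u g) := by
    intro s hs
    rw [Finset.mem_powerset] at hs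
    rw [← Finset.prod_sdiff hs, mul_comm (∏ g ∈ Finset.Ico i J \ s, _), ← mul_assoc]
    unfold Wt
    rw [← Finset.prod_mul_distrib]
    refine mul_le_mul ?_ ?_ (Finset.prod_nonneg fun g hg => ?_)
      (Finset.prod_nonneg fun g _ => by positivity)
    · refine Finset.prod_le_prod (fun g hg => mul_nonneg ?_ ?_) fun g hg => ?_
      · unfold Rg; positivity
      · rw [if_pos hg]
        exact ha g (hs hg)
      rw [if_pos hg]
      calc Real.exp (8 * Rg v g) / Rg v g ^ (2 * Mg v g) * a g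
          ≤ Real.exp (-(rg v g : ℝ)) := hwa g (hs hg)
        _ = Real.exp (-(rg v g : ℝ)) * 1 := (mul_one _).symm
        _ ≤ _ := by
          have := Real.one_le_exp (hu g (hs hg))
          gcongr
    · refine Finset.prod_le_prod (fun g hg => ?_) fun g hg => ?_
      · rw [if_neg (Finset.mem_sdiff.mp hg).2]
        exact hb g (Finset.mem_sdiff.mp hg).1
      · rw [if_neg (Finset.mem_sdiff.mp hg).2]
        exact hbu g (Finset.mem_sdiff.mp hg).1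
    · rw [if_neg (Finset.mem_sdiff.mp hg).2]
      exact hb g (Finset.mem_sdiff.mp hg).1
  refine (Finset.sum_le_sum h1).trans ?_
  rw [← Finset.prod_add]
  have h4 : ∀ g ∈ Finset.Ico i J, Real.exp (-(rg v g : ℝ)) * Real.exp (u g) + Real.exp (u g)
      ≤ Real.exp (Real.exp (-(rg v g : ℝ)) + u g) := by
    intro g _
    rw [Real.exp_add (Real.exp (-(rg v g : ℝ)))]
    have := Real.add_one_le_exp (Real.exp (-(rg v g : ℝ)))
    have e : Real.exp (-(rg v g : ℝ)) * Real.exp (u g) + Real.exp (u g)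
      = (Real.exp (-(rg v g : ℝ)) + 1) * Real.exp (u g) := by ring
    rw [e]
    gcongr
  refine (Finset.prod_le_prod (fun g _ => by positivity) h4).trans ?_
  rw [← Real.exp_sum, Finset.sum_add_distrib]
  apply Real.exp_le_exp.mpr
  have h5 := sum_exp_rg_le' hv (Finset.Ico i J)
  linarith

/-- twisted block products -/
lemma sum_Wt_tw {v : ℕ} (hv : 1 ≤ v) (p0 : ℕ) {Y : ℝ} (hY : 0 ≤ Y) (i J : ℕ) (c δ : ℝ)
    (h : ℕ → DP) (hh : ∀ g, Sup (Smo (Sg v p0 Y g : Set ℕ)) (h g)) (u : ℕ → ℝ)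
    (hu : ∀ g ∈ Finset.Ico i J, 0 ≤ u g)
    (hwa : ∀ g ∈ Finset.Ico i J, Real.exp (8 * Rg v g) / Rg v g ^ (2 * Mg v g)
      * En (tw δ (h g * Pg v p0 Y g ^ Mg v g)) ≤ Real.exp (-(rg v g : ℝ)))
    (hbu : ∀ g ∈ Finset.Ico i J, En (tw δ (h g * Eg c v p0 Y g)) ≤ Real.exp (u g)) :
    ∑ s ∈ (Finset.Ico i J).powerset,
      Wt v s * En (tw δ ((∏ g ∈ Finset.Ico i J, h g) * Bt c v p0 Y i J s))
      ≤ Real.exp (∑ g ∈ Finset.Ico i J, u g + 2 * Real.exp (-(v : ℝ))) := by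
  refine le_trans (le_of_eq ?_) (sum_Wt_gen hv i J
    (fun g => En (tw δ (h g * Pg v p0 Y g ^ Mg v g))) (fun g => En (tw δ (h g * Eg c v p0 Y g))) u
    (fun g _ => En_nonneg' _) (fun g _ => En_nonneg' _) hu hwa hbu)
  refine Finset.sum_congr rfl fun s hs => ?_
  rw [Finset.mem_powerset] at hs
  congr 1
  rw [Bt_eq c v p0 Y i J hs, ← Finset.prod_mul_distrib,
    En_tw_prod δ v p0 hY _ _ fun g _ => (hh g).mul (sup_bg_Smo c v p0 Y s g)
      fun a ha b hb => mul_mem_Smo ha hb]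
  refine Finset.prod_congr rfl fun g _ => ?_
  unfold bg
  split_ifs <;> rfl

end Pool.Agent.Lib.N4
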