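import Pool.Agent.Lib.MP_f9aece_nt_n4.N3

/-!
# The windows: the main part
-/

set_option autoImplicit false

namespace Pool.Agent.Lib.N4

open Pool.Agent.Lib.J4 (Yg)
open N3aux

/-- N2: the windows, part one -/
theorem numWin : NumWin := by
  unfold NumWin ell
  intro v hv
  have hv1 : (1 : ℝ) ≤ v := by exact_mod_cast hv
  set B : ℝ := v + (9 + 3 * v / 4) ^ 2 / v with hB
  have hB0 : 0 ≤ B := by positivity
  refine ⟨3 * (2000000 * v) ^ 3 * Real.exp B, ?_, fun Y L hY hL i hi k hk1 hk2 => ?_⟩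
  · have h1 : 1 ≤ Real.exp B := Real.one_le_exp hB0
    have h2 : (1 : ℝ) ≤ 3 * (2000000 * v) ^ 3 := by
      have : (1 : ℝ) ≤ (2000000 * v) ^ 3 := one_le_pow₀ (by linarith)
      linarith
    nlinarith
  obtain ⟨y0, yY, y1, yeq, yle⟩ := Yg_facts (v := v) hY i
  set y : ℝ := Yg v Y i with hy
  set y' : ℝ := Yg v Y (i + 1) with hy'
  have hyY : y = Y * Real.exp (-((v : ℝ) * i * (i + 1) / 2)) := rfl
  have hi0 : (0 : ℝ) ≤ i := Nat.cast_nonneg i
  set E : ℝ := 1000000 * v * (i + 1) ^ 2 * y with hE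
  have hz : 0 < y' + 1 := by linarith
  have hvi : (1 : ℝ) ≤ v * (i + 1) ^ 2 := by
    have : (1 : ℝ) ≤ ((i : ℝ) + 1) ^ 2 := by nlinarith
    nlinarith
  have hEy : 1000000 * y ≤ E := by
    rw [hE]
    have : 1000000 * (v : ℝ) * (i + 1) ^ 2 * y = 1000000 * y * (v * (i + 1) ^ 2) := by ring
    rw [this]
    exact le_mul_of_one_le_right (by positivity) hvi
  have hE0 : 0 < E := by linarith
  -- the left side
  have e1 : (y' + 1) ^ (k ^ 2) * (((L + y' + 1) / (y' + 1)) * ((E + y' + 1) / (y' + 1)) ^ 3) ^ (k / 2) =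
      (y' + 1) ^ (k ^ 2 - 2 * k) * ((L + y' + 1) ^ (k / 2) * (E + y' + 1) ^ (3 * k / 2)) := by
    have hL' : 0 < L + y' + 1 := by linarith
    have hE' : 0 < E + y' + 1 := by linarith
    have e : ((L + y' + 1) / (y' + 1)) * ((E + y' + 1) / (y' + 1)) ^ 3 =
        (L + y' + 1) * (E + y' + 1) ^ 3 * ((y' + 1) ^ 4)⁻¹ := by
      field_simp
    rw [e, Real.mul_rpow (by positivity) (by positivity), Real.mul_rpow (by positivity) (by positivity),
      Real.inv_rpow (by positivity), ← Real.rpow_natCast (y' + 1) 4, ← Real.rpow_mul hz.le,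
      ← Real.rpow_natCast (E + y' + 1) 3, ← Real.rpow_mul hE'.le]
    have e4 : ((4 : ℕ) : ℝ) * (k / 2) = 2 * k := by push_cast; ring
    have e3 : ((3 : ℕ) : ℝ) * (k / 2) = 3 * k / 2 := by push_cast; ring
    rw [e4, e3, Real.rpow_sub hz, div_eq_mul_inv]
    ring
  rw [e1]
  -- the three factors
  have g1 : (y' + 1) ^ (k ^ 2 - 2 * k) ≤ y ^ (k ^ 2 - 2 * k) * Real.exp (v * (i + 1)) := by
    calc (y' + 1) ^ (k ^ 2 - 2 * k) ≤ y' ^ (k ^ 2 - 2 * k) :=
          Real.rpow_le_rpow_of_nonpos y1 (by linarith) (by nlinarith)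
      _ = y ^ (k ^ 2 - 2 * k) * Real.exp (-((v : ℝ) * (i + 1)) * (k ^ 2 - 2 * k)) := by
          rw [yeq, Real.mul_rpow y0.le (Real.exp_pos _).le, ← Real.exp_mul]
      _ ≤ y ^ (k ^ 2 - 2 * k) * Real.exp (v * (i + 1)) := by
          refine mul_le_mul_of_nonneg_left (Real.exp_le_exp.2 ?_) (by positivity)
          have h1 : 0 ≤ (v : ℝ) * (i + 1) := by positivity
          nlinarith [mul_nonneg h1 (sq_nonneg (k - 1))]
  have g2 : (L + y' + 1) ^ (k / 2) ≤ 3 * (L + Y) ^ (k / 2) := by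
    calc (L + y' + 1) ^ (k / 2) ≤ (3 * (L + Y)) ^ (k / 2) :=
          Real.rpow_le_rpow (by linarith) (by linarith) (by positivity)
      _ = 3 ^ (k / 2) * (L + Y) ^ (k / 2) := Real.mul_rpow (by norm_num) (by linarith)
      _ ≤ 3 * (L + Y) ^ (k / 2) := by
          refine mul_le_mul_of_nonneg_right ?_ (by positivity)
          calc (3 : ℝ) ^ (k / 2) ≤ 3 ^ (1 : ℝ) :=
                Real.rpow_le_rpow_of_exponent_le (by norm_num) (by linarith)
            _ = 3 := by norm_num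
  have g3 : (E + y' + 1) ^ (3 * k / 2) ≤ ((2000000 * v) ^ 3 * ((i : ℝ) + 1) ^ 6) * y ^ (3 * k / 2) := by
    calc (E + y' + 1) ^ (3 * k / 2) ≤ ((2000000 * v * (i + 1) ^ 2) * y) ^ (3 * k / 2) := by
          refine Real.rpow_le_rpow (by linarith) ?_ (by positivity)
          have : (2000000 * (v : ℝ) * (i + 1) ^ 2) * y = 2 * E := by rw [hE]; ring
          rw [this]
          linarith
      _ = (2000000 * v * ((i : ℝ) + 1) ^ 2) ^ (3 * k / 2) * y ^ (3 * k / 2) :=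
          Real.mul_rpow (by positivity) y0.le
      _ ≤ ((2000000 * v) ^ 3 * ((i : ℝ) + 1) ^ 6) * y ^ (3 * k / 2) := by
          refine mul_le_mul_of_nonneg_right ?_ (by positivity)
          calc (2000000 * v * ((i : ℝ) + 1) ^ 2) ^ (3 * k / 2)
              ≤ (2000000 * v * ((i : ℝ) + 1) ^ 2) ^ (3 : ℝ) := by
                refine Real.rpow_le_rpow_of_exponent_le ?_ (by linarith)
                have : 2000000 * (v : ℝ) * ((i : ℝ) + 1) ^ 2 = 2000000 * (v * (i + 1) ^ 2) := by ring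
                rw [this]
                linarith
            _ = (2000000 * v * ((i : ℝ) + 1) ^ 2) ^ 3 := by
                rw [← Real.rpow_natCast]; norm_num
            _ = (2000000 * v) ^ 3 * ((i : ℝ) + 1) ^ 6 := by ring
  -- the power of the scale
  have g4 : y ^ (k ^ 2 - 2 * k) * y ^ (3 * k / 2) ≤
      Y ^ (k ^ 2 - k / 2) * Real.exp (-((v : ℝ) * i * (i + 1) / 4)) := by
    rw [← Real.rpow_add y0, show k ^ 2 - 2 * k + 3 * k / 2 = k ^ 2 - k / 2 by ring, hyY,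
      Real.mul_rpow hY.le (Real.exp_pos _).le, ← Real.exp_mul]
    refine mul_le_mul_of_nonneg_left (Real.exp_le_exp.2 ?_) (by positivity)
    have h1 : 0 ≤ (v : ℝ) * i * (i + 1) / 2 := by positivity
    have h2 : (1 : ℝ) / 2 ≤ k ^ 2 - k / 2 := by nlinarith
    nlinarith
  -- the sum over the scales
  have g5 : ((i : ℝ) + 1) ^ 6 * (Real.exp (v * (i + 1)) * Real.exp (-((v : ℝ) * i * (i + 1) / 4))) ≤
      Real.exp B * (1 / 16) ^ i := by
    have h16 : Real.exp (-3) ≤ 1 / 16 := by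
      rw [Real.exp_neg, one_div]
      refine inv_anti₀ (by norm_num) ?_
      have h1 : (2.7182818283 : ℝ) < Real.exp 1 := Real.exp_one_gt_d9
      have h2 : Real.exp 3 = Real.exp 1 ^ 3 := by rw [← Real.exp_nat_mul]; norm_num
      rw [h2]
      calc (16 : ℝ) ≤ 2.7182818283 ^ 3 := by norm_num
        _ ≤ Real.exp 1 ^ 3 := pow_le_pow_left₀ (by norm_num) h1.le 3
    have h2 : Real.exp (-(3 * (i : ℝ))) ≤ (1 / 16) ^ i := by
      have e : Real.exp (-(3 * (i : ℝ))) = (Real.exp (-3)) ^ i := by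
        rw [← Real.exp_nat_mul]
        congr 1
        ring
      rw [e]
      exact pow_le_pow_left₀ (Real.exp_pos _).le h16 i
    have h3 : ((i : ℝ) + 1) ^ 6 ≤ Real.exp (6 * i) := by
      have h4 : (i : ℝ) + 1 ≤ Real.exp i := Real.add_one_le_exp _
      calc ((i : ℝ) + 1) ^ 6 ≤ (Real.exp i) ^ 6 := pow_le_pow_left₀ (by positivity) h4 6
        _ = Real.exp (6 * i) := by rw [← Real.exp_nat_mul]; norm_num
    refine le_trans ?_ (mul_le_mul_of_nonneg_left h2 (Real.exp_pos _).le)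
    refine le_trans (mul_le_mul_of_nonneg_right h3 (by positivity)) ?_
    rw [← Real.exp_add, ← Real.exp_add, ← Real.exp_add]
    apply Real.exp_le_exp.2
    have hvpos : (0 : ℝ) < v := by linarith
    have h5 : 0 ≤ (v * (i : ℝ) / 2 - (9 + 3 * v / 4)) ^ 2 / v := by positivity
    have h6 : (v * (i : ℝ) / 2 - (9 + 3 * v / 4)) ^ 2 / v =
        v * i ^ 2 / 4 - (9 + 3 * v / 4) * i + (9 + 3 * v / 4) ^ 2 / v := by
      field_simp
      ring
    rw [h6] at h5
    rw [hB]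
    have e1 : (v : ℝ) * i * (i + 1) / 4 = v * i ^ 2 / 4 + v * i / 4 := by ring
    have e2 : (v : ℝ) * (i + 1) = v * i + v := by ring
    have e3 : (9 + 3 * (v : ℝ) / 4) * i = 9 * i + 3 * (v * i) / 4 := by ring
    rw [e3] at h5
    rw [e1, e2]
    linarith
  have p1 : 0 ≤ y ^ (3 * k / 2) := by positivity
  calc (y' + 1) ^ (k ^ 2 - 2 * k) * ((L + y' + 1) ^ (k / 2) * (E + y' + 1) ^ (3 * k / 2))
      ≤ (y ^ (k ^ 2 - 2 * k) * Real.exp (v * (i + 1))) * ((3 * (L + Y) ^ (k / 2)) *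
        (((2000000 * v) ^ 3 * ((i : ℝ) + 1) ^ 6) * y ^ (3 * k / 2))) := by
        refine mul_le_mul g1 (mul_le_mul g2 g3 (by positivity) (by positivity)) (by positivity)
          (by positivity)
    _ = 3 * (2000000 * v) ^ 3 * (L + Y) ^ (k / 2) * (((i : ℝ) + 1) ^ 6 * Real.exp (v * (i + 1))) *
        (y ^ (k ^ 2 - 2 * k) * y ^ (3 * k / 2)) := by ring
    _ ≤ 3 * (2000000 * v) ^ 3 * (L + Y) ^ (k / 2) * (((i : ℝ) + 1) ^ 6 * Real.exp (v * (i + 1))) *
        (Y ^ (k ^ 2 - k / 2) * Real.exp (-((v : ℝ) * i * (i + 1) / 4))) :=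
        mul_le_mul_of_nonneg_left g4 (by positivity)
    _ = 3 * (2000000 * v) ^ 3 * ((L + Y) ^ (k / 2) * Y ^ (k ^ 2 - k / 2)) * (((i : ℝ) + 1) ^ 6 *
        (Real.exp (v * (i + 1)) * Real.exp (-((v : ℝ) * i * (i + 1) / 4)))) := by ring
    _ ≤ 3 * (2000000 * v) ^ 3 * ((L + Y) ^ (k / 2) * Y ^ (k ^ 2 - k / 2)) *
        (Real.exp B * (1 / 16) ^ i) := mul_le_mul_of_nonneg_left g5 (by positivity)
    _ = _ := by ring

end Pool.Agent.Lib.N4
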