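import Pool.Agent.Lib.MP_f9aece_nt_n4.Stmts
import Pool.Agent.Lib.MP_f9aece_nt_j4.Iw
import Pool.Agent.Lib.MP_f9aece_nt_j4.I2Sum
import Pool.Agent.Lib.MP_f9aece_nt_j4.GroupsH

/-!
The mean value of one piece of the level decomposition.
-/

set_option autoImplicit false

namespace Pool.Agent.Lib.N4

open MeasureTheory Set Filter Topology Complex
open Pool.Agent.Lib.MP_f9aece_nt (DP pair BK K1 ev PP VV Smo expo EE continuous_ev)
open Pool.Agent.Lib.MP_f9aece_nt_h5 (tw coeff_tw ev_tw)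
open Pool.Agent.Lib.MP_f9aece_nt_h40 (ind)
open Pool.Agent.Lib.MP_f9aece_nt_h85 (rz Rst Pst)
open Pool.Agent.Lib.MP_f9aece_nt_h97 (Psm Dsm evs)
open Pool.Agent.Lib.J4 (Sg Yg rg Jok Bt Wt Vs En Wgt dv V2 SU Rg Iw)
open Pool.Agent.Lib.NL (pt B0 F0 SS ML)

lemma pcEn_nonneg (f : DP) : 0 ≤ En f := by
  rw [J4.En_eq_sum]
  exact Finset.sum_nonneg fun a _ => by positivity

lemma pcEll_nonneg (v : ℕ) {Y : ℝ} (hY : 0 < Y) (g : ℕ) : 0 ≤ ell v Y g := by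
  unfold ell
  have := J4.Yg_pos v hY g
  positivity

lemma pcEl_nonneg (v : ℕ) {Y : ℝ} (hY : 0 < Y) (J g : ℕ) : 0 ≤ el v Y J g := by
  unfold el
  split_ifs
  · exact pcEll_nonneg v hY g
  · exact le_rfl

lemma pcEl_le (v : ℕ) {Y : ℝ} (hY : 0 < Y) (J g : ℕ) : el v Y J g ≤ ell v Y g := by
  unfold el
  split_ifs
  · exact le_rfl
  · exact pcEll_nonneg v hY g

lemma pcZc_pos {v J : ℕ} {Y z : ℝ} (hz : 0 < z) (i : ℕ) : 0 < zc v Y J z i := by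
  unfold zc
  positivity

lemma pcLog_zc {v J : ℕ} {Y z : ℝ} (hz : 0 < z) (i : ℕ) :
    Real.log (zc v Y J z i) = Real.log z - el v Y J i := by
  unfold zc
  rw [Real.log_mul hz.ne' (Real.exp_pos _).ne', Real.log_exp]
  ring

lemma pcZc_sq {v J : ℕ} {Y z : ℝ} (hY : 0 < Y) (i : ℕ) :
    zc v Y J z i ^ 2 * Real.exp (el v Y J i) ≤ z ^ 2 := by
  have h0 := pcEl_nonneg v hY J i
  have h1 : Real.exp (-el v Y J i) ≤ 1 := Real.exp_le_one_iff.2 (by linarith)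
  have h2 : Real.exp (-el v Y J i) * Real.exp (el v Y J i) = 1 := by
    rw [← Real.exp_add]
    simp
  unfold zc
  calc (z * Real.exp (-el v Y J i)) ^ 2 * Real.exp (el v Y J i)
      = z ^ 2 * Real.exp (-el v Y J i) * (Real.exp (-el v Y J i) * Real.exp (el v Y J i)) := by
        ring
    _ = z ^ 2 * Real.exp (-el v Y J i) := by rw [h2, mul_one]
    _ ≤ z ^ 2 * 1 := mul_le_mul_of_nonneg_left h1 (sq_nonneg z)
    _ = z ^ 2 := mul_one _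

lemma pcCont {k : ℝ} (hk : 1 ≤ k) (f : DP) : Continuous (fun t : ℝ => ‖ev t f‖ ^ (2 * k)) :=
  (continuous_ev f).norm.rpow_const fun _ => Or.inr (by linarith)

/-- mean value of one piece -/
lemma pc_piece_le {w : ℝ → ℝ} {C0 C2 Cp Cm Cv CN : ℝ} {v p0 : ℕ} (hv : 2 ≤ v) (hp0 : 1000 ≤ p0)
    (hC2 : 1 ≤ C2) (hCp : 1 ≤ Cp) (hCm : 0 ≤ Cm) (hCv : 1 ≤ Cv) (hCN : 1 ≤ CN)
    (hlev : ∀ Y : ℝ, 0 < Y → ∀ J : ℕ,
      Jok v p0 Y J → ∀ i : ℕ, i ≤ J → ∀ k : ℝ, 1 ≤ k → k ≤ 2 → ∀ δ : ℝ, 0 ≤ δ → ∀ T N : ℝ, 1 ≤ T →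
      0 ≤ N → N ^ 2 * Real.exp (el v Y J i) ≤ C0 * T → ∀ F : DP,
      (∀ n, F.coeff n ≠ 0 → n ∈ Smo (Rst p0 (Yg v Y i)) ∧ (n : ℝ) ≤ N) →
      ∫ t : ℝ, w (t / T) * ‖ev t (tw δ (F * EI v p0 Y i J))‖ ^ (2 * k)
        ≤ C2 * T * En (tw δ (F * F)) ^ (k / 2) * Real.exp (k ^ 2 * Qs δ v p0 Y i J))
    (hq : QCoeff)
    (hpe : ∀ Y : ℝ, 0 < Y → ∀ J : ℕ, Jok v p0 Y J → ∀ z W δ : ℝ, 1 ≤ z → 1 ≤ W → 0 ≤ δ →
      (2 * Real.log z ≤ W ∨ 1 ≤ δ * W) → ∀ i < J,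
      En (tw δ (QW v p0 Y J z i * QW v p0 Y J z i)) ≤ Cp * WE v Y J z W δ i)
    (hm : ∀ (Y : ℝ) (i J : ℕ) (δ : ℝ), 0 < Y → 0 ≤ δ →
      Qs δ v p0 Y i J ≤ Real.log (Yg v Y i + 1) + Cm)
    (hnw : ∀ Y L : ℝ, 0 < Y → 1 ≤ L → ∀ i : ℕ,
      1 / 2 ≤ Yg v Y i → ∀ k : ℝ, 1 ≤ k → k ≤ 2 →
      (Yg v Y (i + 1) + 1) ^ (k ^ 2) * (((L + Yg v Y (i + 1) + 1) / (Yg v Y (i + 1) + 1))
        * ((ell v Y i + Yg v Y (i + 1) + 1) / (Yg v Y (i + 1) + 1)) ^ 3) ^ (k / 2)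
      ≤ Cv * (1 / 16) ^ i * ((L + Y) ^ (k / 2) * Y ^ (k ^ 2 - k / 2)))
    (hno : ∀ Y W : ℝ, 0 < Y → 1 ≤ W → ∀ i : ℕ,
      1 / 2 ≤ Yg v Y i → ∀ k : ℝ, 1 ≤ k → k ≤ 2 →
      (Yg v Y (i + 1) + 1) ^ (k ^ 2) * ((1 / 2) ^ kap v i * Real.exp (40 * (v * (i + 1)))
        * ((W + Yg v Y i) / Yg v Y i) ^ 4) ^ (k / 2)
      ≤ CN * Real.exp (-v) * (1 / 16) ^ i * ((W + Y) ^ (2 * k) * Y ^ (k ^ 2 - 2 * k)))
    {Y T z W L δ k : ℝ} {J i : ℕ} (hY : 0 < Y) (hJ : Jok v p0 Y J) (hi : i < J) (hT : 1 ≤ T)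
    (hz : 1 ≤ z) (hzT : z ^ 2 ≤ C0 * T) (hW : 1 ≤ W) (hδ : 0 ≤ δ)
    (hzW : 2 * Real.log z ≤ W ∨ 1 ≤ δ * W) (hL : 1 ≤ L) (hzL : Real.log z ≤ L) (hk : 1 ≤ k)
    (hk2 : k ≤ 2) :
    ∫ t : ℝ, w (t / T) * ‖ev t (tw δ (QW v p0 Y J z i * EI v p0 Y (i + 1) J))‖ ^ (2 * k)
      ≤ C2 * Cp * Real.exp (4 * Cm) * T * ((1 / 16) ^ i *
        (Real.exp (-(2 * k * δ * Real.log (zc v Y J z i))) * Cv *
            ((L + Y) ^ (k / 2) * Y ^ (k ^ 2 - k / 2))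
          + CN * Real.exp (-v) * ((W + Y) ^ (2 * k) * Y ^ (k ^ 2 - 2 * k)))) := by
  have hz0 : 0 < z := by linarith
  have hlog : 0 ≤ Real.log z := Real.log_nonneg hz
  have hyp : 0 < Yg v Y (i + 1) := J4.Yg_pos v hY (i + 1)
  have hyi : 0 < Yg v Y i := J4.Yg_pos v hY i
  have hyi2 : 1 / 2 ≤ Yg v Y i := by
    have h1 := hJ.2 i hi
    have h2 : Real.exp 1 ≤ (p0 : ℝ) := by
      have : (1000 : ℝ) ≤ p0 := by exact_mod_cast hp0
      linarith [Real.exp_one_lt_d9]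
    have h3 : 1 ≤ Real.log p0 := by
      rw [Real.le_log_iff_exp_le (by linarith [Real.exp_pos 1])]
      exact h2
    linarith
  have hell := pcEll_nonneg v hY i
  -- the mean value over one level
  have h1 := hlev Y hY J hJ (i + 1) hi k hk hk2 δ hδ T (zc v Y J z (i + 1)) hT
    (pcZc_pos hz0 _).le ((pcZc_sq hY (i + 1)).trans hzT) (QW v p0 Y J z i)
    (fun n hn => ⟨((hq v p0 Y J hv (by omega) hY hJ z hz i hi n).2.2 hn).1,
      ((hq v p0 Y J hv (by omega) hY hJ z hz i hi n).2.2 hn).2.1⟩)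
  refine h1.trans ?_
  -- energies
  set y : ℝ := Yg v Y (i + 1) with hy
  set a : ℝ := Real.exp (-(4 * δ * Real.log (zc v Y J z i))) with ha
  set A : ℝ := ((L + y + 1) / (y + 1)) * ((ell v Y i + y + 1) / (y + 1)) ^ 3 with hA
  set B : ℝ := (1 / 2) ^ kap v i * Real.exp (40 * (v * (i + 1)))
    * ((W + Yg v Y i) / Yg v Y i) ^ 4 with hB
  have ha0 : 0 < a := Real.exp_pos _
  have hA0 : 0 ≤ A := by positivity
  have hB0 : 0 ≤ B := by positivity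
  have hE0 : 0 ≤ En (tw δ (QW v p0 Y J z i * QW v p0 Y J z i)) := pcEn_nonneg _
  have hE : En (tw δ (QW v p0 Y J z i * QW v p0 Y J z i)) ≤ Cp * (a * A + B) := by
    refine (hpe Y hY J hJ z W δ hz hW hδ hzW i hi).trans ?_
    refine mul_le_mul_of_nonneg_left ?_ (by linarith)
    unfold WE
    refine add_le_add ?_ le_rfl
    refine mul_le_mul_of_nonneg_left ?_ ha0.le
    refine mul_le_mul_of_nonneg_right ?_ (by positivity)
    refine div_le_div_of_nonneg_right ?_ (by positivity)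
    linarith
  have hkk : 0 ≤ k / 2 := by linarith
  have hkk1 : k / 2 ≤ 1 := by linarith
  have hEp : En (tw δ (QW v p0 Y J z i * QW v p0 Y J z i)) ^ (k / 2) ≤
      Cp * (a ^ (k / 2) * A ^ (k / 2) + B ^ (k / 2)) := by
    calc _ ≤ (Cp * (a * A + B)) ^ (k / 2) := Real.rpow_le_rpow hE0 hE hkk
      _ = Cp ^ (k / 2) * (a * A + B) ^ (k / 2) :=
          Real.mul_rpow (by linarith) (by positivity)
      _ ≤ Cp * (a ^ (k / 2) * A ^ (k / 2) + B ^ (k / 2)) := by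
          refine mul_le_mul ?_ ?_ (by positivity) (by linarith)
          · calc Cp ^ (k / 2) ≤ Cp ^ (1 : ℝ) := Real.rpow_le_rpow_of_exponent_le hCp hkk1
              _ = Cp := Real.rpow_one Cp
          · rw [← Real.mul_rpow ha0.le hA0]
            exact Real.rpow_add_le_add_rpow (by positivity) hB0 hkk hkk1
  have hak : a ^ (k / 2) = Real.exp (-(2 * k * δ * Real.log (zc v Y J z i))) := by
    rw [ha, ← Real.exp_mul]
    congr 1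
    ring
  have hyl : 0 ≤ Real.log (y + 1) := Real.log_nonneg (by linarith)
  have hk4 : k ^ 2 ≤ 4 := by nlinarith
  have hexp : Real.exp (k ^ 2 * Qs δ v p0 Y (i + 1) J) ≤
      (y + 1) ^ (k ^ 2) * Real.exp (4 * Cm) := by
    rw [Real.rpow_def_of_pos (by linarith), ← Real.exp_add]
    apply Real.exp_le_exp.2
    have h2 := hm Y (i + 1) J δ hY hδ
    have h3 : k ^ 2 * Qs δ v p0 Y (i + 1) J ≤ k ^ 2 * (Real.log (y + 1) + Cm) :=
      mul_le_mul_of_nonneg_left h2 (sq_nonneg k)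
    nlinarith
  have hnw' := hnw Y L hY hL i hyi2 k hk hk2
  have hno' := hno Y W hY hW i hyi2 k hk hk2
  rw [← hy, ← hA] at hnw'
  rw [← hy, ← hB] at hno'
  have hyk : 0 < (y + 1) ^ (k ^ 2) := Real.rpow_pos_of_pos (by linarith) _
  have hAk : 0 ≤ A ^ (k / 2) := Real.rpow_nonneg hA0 _
  have hBk : 0 ≤ B ^ (k / 2) := Real.rpow_nonneg hB0 _
  have hakp : 0 < a ^ (k / 2) := Real.rpow_pos_of_pos ha0 _
  have hsum : Cp * (a ^ (k / 2) * A ^ (k / 2) + B ^ (k / 2)) *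
      ((y + 1) ^ (k ^ 2) * Real.exp (4 * Cm)) ≤
      Cp * Real.exp (4 * Cm) * ((1 / 16) ^ i *
        (a ^ (k / 2) * Cv * ((L + Y) ^ (k / 2) * Y ^ (k ^ 2 - k / 2))
          + CN * Real.exp (-v) * ((W + Y) ^ (2 * k) * Y ^ (k ^ 2 - 2 * k)))) := by
    have e1 : Cp * (a ^ (k / 2) * A ^ (k / 2) + B ^ (k / 2)) *
        ((y + 1) ^ (k ^ 2) * Real.exp (4 * Cm)) =
        Cp * Real.exp (4 * Cm) * (a ^ (k / 2) * ((y + 1) ^ (k ^ 2) * A ^ (k / 2)) +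
          (y + 1) ^ (k ^ 2) * B ^ (k / 2)) := by ring
    rw [e1]
    refine mul_le_mul_of_nonneg_left ?_ (by positivity)
    have e2 := mul_le_mul_of_nonneg_left hnw' hakp.le
    calc _ ≤ a ^ (k / 2) * (Cv * (1 / 16) ^ i * ((L + Y) ^ (k / 2) * Y ^ (k ^ 2 - k / 2))) +
          CN * Real.exp (-v) * (1 / 16) ^ i * ((W + Y) ^ (2 * k) * Y ^ (k ^ 2 - 2 * k)) :=
          add_le_add e2 hno'
      _ = _ := by ring
  rw [hak] at hsum hEp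
  have hT0 : 0 ≤ C2 * T := by positivity
  calc C2 * T * En (tw δ (QW v p0 Y J z i * QW v p0 Y J z i)) ^ (k / 2) *
        Real.exp (k ^ 2 * Qs δ v p0 Y (i + 1) J)
      ≤ C2 * T * (Cp * (Real.exp (-(2 * k * δ * Real.log (zc v Y J z i))) * A ^ (k / 2) +
          B ^ (k / 2))) * ((y + 1) ^ (k ^ 2) * Real.exp (4 * Cm)) := by
        refine mul_le_mul (mul_le_mul_of_nonneg_left hEp hT0) hexp (Real.exp_pos _).le ?_
        positivity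
    _ = C2 * T * (Cp * (Real.exp (-(2 * k * δ * Real.log (zc v Y J z i))) * A ^ (k / 2) +
          B ^ (k / 2)) * ((y + 1) ^ (k ^ 2) * Real.exp (4 * Cm))) := by ring
    _ ≤ C2 * T * (Cp * Real.exp (4 * Cm) * ((1 / 16) ^ i *
        (Real.exp (-(2 * k * δ * Real.log (zc v Y J z i))) * Cv *
            ((L + Y) ^ (k / 2) * Y ^ (k ^ 2 - k / 2))
          + CN * Real.exp (-v) * ((W + Y) ^ (2 * k) * Y ^ (k ^ 2 - 2 * k))))) :=
        mul_le_mul_of_nonneg_left hsum hT0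
    _ = _ := by ring

lemma pc_geo_sum_le (n : ℕ) : ∑ i ∈ Finset.range n, (8 : ℝ) ^ i * (1 / 16) ^ i ≤ 2 := by
  have h1 : ∀ i ∈ Finset.range n, (8 : ℝ) ^ i * (1 / 16) ^ i = (1 / 2) ^ i := by
    intro i _
    rw [← mul_pow]
    norm_num
  rw [Finset.sum_congr rfl h1]
  have h2 : ∑ i ∈ Finset.range n, (1 / 2 : ℝ) ^ i = 2 - 2 * (1 / 2) ^ n := by
    induction n with
    | zero => simp
    | succ m ih =>
      rw [Finset.sum_range_succ, ih (fun i hi => h1 i (Finset.mem_range.2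
        ((Finset.mem_range.1 hi).trans (Nat.lt_succ_self m))))]
      rw [pow_succ]
      ring
  rw [h2]
  have : (0 : ℝ) ≤ (1 / 2) ^ n := by positivity
  linarith

end Pool.Agent.Lib.N4
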