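import Mathlib
import Pool.Agent.Lib.MP_f9aece_nt_n4.Stmts

/-!
Moments of zeta of order between two and four: energy of the square of a window.
-/

set_option autoImplicit false

namespace Pool.Agent.Lib.N4

open Pool.Agent.Lib.MP_f9aece_nt (DP pair BK K1 Smo pair_mul pair_def)
open Pool.Agent.Lib.MP_f9aece_nt_h85 (Rst)
open Pool.Agent.Lib.J4 (En)

namespace WinE

/-- the energy of a square as a sum over quadruples -/
lemma En_sq (f : DP) : En (f * f) = ∑ u ∈ f.coeff.support, ∑ v ∈ f.coeff.support,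
    ∑ u' ∈ f.coeff.support, ∑ v' ∈ f.coeff.support,
      f.coeff u * (f.coeff v * (f.coeff u' * (f.coeff v' * K1 (u * v) (u' * v')))) := by
  unfold En BK
  rw [pair_mul, pair_def]
  refine Finset.sum_congr rfl fun u _ => ?_
  rw [pair_def, Finset.mul_sum]
  refine Finset.sum_congr rfl fun v _ => ?_
  rw [pair_mul, pair_def, Finset.mul_sum, Finset.mul_sum]
  refine Finset.sum_congr rfl fun u' _ => ?_
  rw [pair_def, Finset.mul_sum, Finset.mul_sum, Finset.mul_sum]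

lemma K1_nonneg (a b : ℕ) : 0 ≤ K1 a b := by
  unfold K1
  split_ifs <;> positivity

/-- bound by the number of quadruples, weighted -/
lemma En_sq_le (f : DP) (h0 : ∀ n, 0 ≤ f.coeff n) (h1 : ∀ n, f.coeff n ≤ 1) :
    En (f * f) ≤ ∑ q ∈ (f.coeff.support ×ˢ (f.coeff.support ×ˢ (f.coeff.support ×ˢ
        f.coeff.support))).filter (fun q => q.1 * q.2.1 = q.2.2.1 * q.2.2.2),
      ((q.1 * q.2.1 : ℕ) : ℝ)⁻¹ := by
  rw [En_sq, Finset.sum_filter, Finset.sum_product]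
  refine Finset.sum_le_sum fun u _ => ?_
  rw [Finset.sum_product]
  refine Finset.sum_le_sum fun v _ => ?_
  rw [Finset.sum_product]
  refine Finset.sum_le_sum fun u' _ => ?_
  refine Finset.sum_le_sum fun v' _ => ?_
  have hK := K1_nonneg (u * v) (u' * v')
  have e : (if u * v = u' * v' then ((u * v : ℕ) : ℝ)⁻¹ else 0) = K1 (u * v) (u' * v') := rfl
  show _ ≤ (if u * v = u' * v' then ((u * v : ℕ) : ℝ)⁻¹ else 0)
  rw [e]
  have a1 : f.coeff v' * K1 (u * v) (u' * v') ≤ K1 (u * v) (u' * v') :=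
    mul_le_of_le_one_left hK (h1 v')
  have a1' : 0 ≤ f.coeff v' * K1 (u * v) (u' * v') := mul_nonneg (h0 _) hK
  have a2 : f.coeff u' * (f.coeff v' * K1 (u * v) (u' * v')) ≤ K1 (u * v) (u' * v') :=
    (mul_le_of_le_one_left a1' (h1 u')).trans a1
  have a2' : 0 ≤ f.coeff u' * (f.coeff v' * K1 (u * v) (u' * v')) := mul_nonneg (h0 _) a1'
  have a3 : f.coeff v * (f.coeff u' * (f.coeff v' * K1 (u * v) (u' * v'))) ≤
      K1 (u * v) (u' * v') := (mul_le_of_le_one_left a2' (h1 v)).trans a2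
  have a3' : 0 ≤ f.coeff v * (f.coeff u' * (f.coeff v' * K1 (u * v) (u' * v'))) :=
    mul_nonneg (h0 _) a2'
  exact (mul_le_of_le_one_left a3' (h1 u)).trans a3

/-- the parametrisation of the solutions of `u v = u' v'` -/
def par (q : ℕ × ℕ × ℕ × ℕ) : ℕ × ℕ × ℕ × ℕ :=
  (Nat.gcd q.1 q.2.2.1, q.1 / Nat.gcd q.1 q.2.2.1, q.2.2.1 / Nat.gcd q.1 q.2.2.1,
    q.2.1 / (q.2.2.1 / Nat.gcd q.1 q.2.2.1))

lemma par_spec {u v u' v' : ℕ} (hu : 0 < u) (hu' : 0 < u') (h : u * v = u' * v') :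
    ∃ a b c d : ℕ, par (u, v, u', v') = (a, b, c, d) ∧ u = a * b ∧ v = c * d ∧ u' = a * c ∧
      v' = b * d := by
  obtain ⟨a, ha⟩ : ∃ a, a = Nat.gcd u u' := ⟨_, rfl⟩
  have ha0 : 0 < a := by rw [ha]; exact Nat.gcd_pos_of_pos_left _ hu
  obtain ⟨b, hb⟩ : a ∣ u := by rw [ha]; exact Nat.gcd_dvd_left _ _
  obtain ⟨c, hc⟩ : a ∣ u' := by rw [ha]; exact Nat.gcd_dvd_right _ _
  have hcop : Nat.Coprime b c := by
    have h1 : Nat.gcd (a * b) (a * c) = a := by rw [← hb, ← hc, ← ha]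
    rw [Nat.gcd_mul_left] at h1
    exact Nat.eq_of_mul_eq_mul_left ha0 (by rw [h1, mul_one])
  have hc0 : 0 < c := by
    rcases Nat.eq_zero_or_pos c with h0 | h0
    · rw [h0, mul_zero] at hc; omega
    · exact h0
  have hb0 : 0 < b := by
    rcases Nat.eq_zero_or_pos b with h0 | h0
    · rw [h0, mul_zero] at hb; omega
    · exact h0
  have hbv : b * v = c * v' := by
    rw [hb, hc, mul_assoc, mul_assoc] at h
    exact Nat.eq_of_mul_eq_mul_left ha0 h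
  obtain ⟨d, hd⟩ : c ∣ v := (hcop.symm).dvd_of_dvd_mul_left ⟨v', hbv⟩
  have hv' : v' = b * d := by
    have h2 : c * v' = c * (b * d) := by rw [← hbv, hd]; ring
    exact Nat.eq_of_mul_eq_mul_left hc0 h2
  refine ⟨a, b, c, d, ?_, hb, hd, hc, hv'⟩
  have e1 : u / a = b := by rw [hb]; exact Nat.mul_div_cancel_left b ha0
  have e2 : u' / a = c := by rw [hc]; exact Nat.mul_div_cancel_left c ha0
  have e3 : v / c = d := by rw [hd]; exact Nat.mul_div_cancel_left d hc0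
  show (Nat.gcd u u', u / Nat.gcd u u', u' / Nat.gcd u u', v / (u' / Nat.gcd u u')) = _
  rw [← ha, e1, e2, e3]

/-- weighted sums over a window -/
noncomputable def win (R : Finset ℕ) (x x' : ℝ) (t : ℕ) : ℝ :=
  ∑ b ∈ R, if x < Real.log ((t * b : ℕ) : ℝ) ∧ Real.log ((t * b : ℕ) : ℝ) ≤ x' then (b : ℝ)⁻¹
    else 0

/-- the summand in the new variables -/
noncomputable def gg (x x' : ℝ) (t : ℕ × ℕ × ℕ × ℕ) : ℝ :=
  (t.1 : ℝ)⁻¹ * ((if x < Real.log ((t.1 * t.2.1 : ℕ) : ℝ) ∧ Real.log ((t.1 * t.2.1 : ℕ) : ℝ) ≤ x'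
      then (t.2.1 : ℝ)⁻¹ else 0)
    * ((if x < Real.log ((t.1 * t.2.2.1 : ℕ) : ℝ) ∧ Real.log ((t.1 * t.2.2.1 : ℕ) : ℝ) ≤ x'
      then (t.2.2.1 : ℝ)⁻¹ else 0)
    * (if x < Real.log ((t.2.1 * t.2.2.2 : ℕ) : ℝ) ∧ Real.log ((t.2.1 * t.2.2.2 : ℕ) : ℝ) ≤ x'
      then (t.2.2.2 : ℝ)⁻¹ else 0)))

lemma gg_nonneg (x x' : ℝ) (t : ℕ × ℕ × ℕ × ℕ) : 0 ≤ gg x x' t := by
  unfold gg
  refine mul_nonneg (by positivity) (mul_nonneg ?_ (mul_nonneg ?_ ?_)) <;>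
    (split_ifs <;> positivity)

lemma sum_gg (R : Finset ℕ) (x x' : ℝ) {B : ℝ} (hB : 0 ≤ B) (hw : ∀ t ∈ R, win R x x' t ≤ B) :
    ∑ t ∈ R ×ˢ (R ×ˢ (R ×ˢ R)), gg x x' t ≤ (∑ a ∈ R, (a : ℝ)⁻¹) * B ^ 3 := by
  have hw0 : ∀ t, 0 ≤ win R x x' t := fun t => Finset.sum_nonneg fun b _ => by
    split_ifs <;> positivity
  rw [Finset.sum_product, Finset.sum_mul]
  refine Finset.sum_le_sum fun a ha => ?_
  have e : ∑ t ∈ R ×ˢ (R ×ˢ R), gg x x' (a, t) = (a : ℝ)⁻¹ *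
      ∑ b ∈ R, (if x < Real.log ((a * b : ℕ) : ℝ) ∧ Real.log ((a * b : ℕ) : ℝ) ≤ x'
      then (b : ℝ)⁻¹ else 0) * (win R x x' a * win R x x' b) := by
    rw [Finset.sum_product, Finset.mul_sum]
    refine Finset.sum_congr rfl fun b _ => ?_
    rw [Finset.sum_product]
    unfold win gg
    rw [Finset.sum_mul_sum, Finset.mul_sum, Finset.mul_sum]
    refine Finset.sum_congr rfl fun c _ => ?_
    rw [Finset.mul_sum, Finset.mul_sum]
  rw [e]
  refine mul_le_mul_of_nonneg_left ?_ (by positivity)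
  have e2 : ∑ b ∈ R, (if x < Real.log ((a * b : ℕ) : ℝ) ∧ Real.log ((a * b : ℕ) : ℝ) ≤ x'
      then (b : ℝ)⁻¹ else 0) * (win R x x' a * win R x x' b) ≤
      ∑ b ∈ R, (if x < Real.log ((a * b : ℕ) : ℝ) ∧ Real.log ((a * b : ℕ) : ℝ) ≤ x'
      then (b : ℝ)⁻¹ else 0) * (B * B) := by
    refine Finset.sum_le_sum fun b hb => ?_
    refine mul_le_mul_of_nonneg_left ?_ (by split_ifs <;> positivity)
    exact mul_le_mul (hw a ha) (hw b hb) (hw0 b) hB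
  refine e2.trans ?_
  rw [← Finset.sum_mul]
  have e3 : ∑ b ∈ R, (if x < Real.log ((a * b : ℕ) : ℝ) ∧ Real.log ((a * b : ℕ) : ℝ) ≤ x'
      then (b : ℝ)⁻¹ else 0) = win R x x' a := rfl
  rw [e3]
  calc win R x x' a * (B * B) ≤ B * (B * B) :=
        mul_le_mul_of_nonneg_right (hw a ha) (mul_nonneg hB hB)
    _ = B ^ 3 := by ring

lemma mem_Smo_of_dvd {I : Set ℕ} {n d : ℕ} (hn : n ∈ Smo I) (hd : d ∣ n) : d ∈ Smo I :=
  ⟨fun h => hn.1 (Nat.eq_zero_of_zero_dvd (h ▸ hd)), fun p hp hpd => hn.2 p hp (hpd.trans hd)⟩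

end WinE

open WinE

theorem winEnergy (h : RoughSum) : WinEnergy := by
  intro p0 hp0
  obtain ⟨C, hC1, hC⟩ := h p0 hp0
  have hC0 : 0 < C := by linarith
  refine ⟨2 * C ^ 4, by nlinarith [one_le_pow₀ (n := 4) hC1], ?_⟩
  intro y hy x x' hx hx' f hf
  have hy1 : 0 < y + 1 := by linarith
  obtain ⟨F, hF⟩ : ∃ F, F = f.coeff.support := ⟨_, rfl⟩
  have hmem : ∀ n ∈ F, n ∈ Smo (Rst p0 y) ∧ x < Real.log n ∧ Real.log n ≤ x' := by
    intro n hn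
    rw [hF, Finsupp.mem_support_iff] at hn
    exact (hf n).2.2 hn
  refine (En_sq_le f (fun n => (hf n).1) (fun n => (hf n).2.1)).trans ?_
  rw [← hF]
  obtain ⟨R, hR⟩ : ∃ R, R = F.biUnion Nat.divisors := ⟨_, rfl⟩
  have hRm : ∀ n ∈ F, ∀ d, d ∣ n → d ∈ R := by
    intro n hn d hd
    rw [hR, Finset.mem_biUnion]
    exact ⟨n, hn, Nat.mem_divisors.2 ⟨hd, (hmem n hn).1.1⟩⟩
  have hRs : ∀ d ∈ R, d ∈ Smo (Rst p0 y) ∧ Real.log d ≤ x' := by
    intro d hd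
    rw [hR, Finset.mem_biUnion] at hd
    obtain ⟨n, hn, hdn⟩ := hd
    have hdn' := (Nat.mem_divisors.1 hdn).1
    have h1 := mem_Smo_of_dvd (hmem n hn).1 hdn'
    refine ⟨h1, le_trans ?_ (hmem n hn).2.2⟩
    have hd0 : 0 < d := Nat.pos_of_ne_zero h1.1
    apply Real.log_le_log (by exact_mod_cast hd0)
    exact_mod_cast Nat.le_of_dvd (Nat.pos_of_ne_zero (hmem n hn).1.1) hdn'
  obtain ⟨B, hB⟩ : ∃ B, B = C * ((x' - x + y + 1) / (y + 1)) := ⟨_, rfl⟩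
  have hB0 : 0 ≤ B := by
    rw [hB]
    exact mul_nonneg hC0.le (div_nonneg (by linarith) hy1.le)
  have hwin : ∀ t ∈ R, win R x x' t ≤ B := by
    intro t ht
    have ht0 : t ≠ 0 := (hRs t ht).1.1
    have ht' : (t : ℝ) ≠ 0 := by exact_mod_cast ht0
    unfold win
    rw [← Finset.sum_filter]
    have h2 := hC y hy (x - Real.log t) (x' - Real.log t) (by linarith)
      (R.filter (fun b => x < Real.log ((t * b : ℕ) : ℝ) ∧ Real.log ((t * b : ℕ) : ℝ) ≤ x'))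
      (fun b hb => by
        rw [Finset.mem_filter] at hb
        obtain ⟨hb1, hb2, hb3⟩ := hb
        have hb0 : (b : ℝ) ≠ 0 := by exact_mod_cast (hRs b hb1).1.1
        rw [Nat.cast_mul, Real.log_mul ht' hb0] at hb2 hb3
        exact ⟨(hRs b hb1).1, by linarith, by linarith⟩)
    refine h2.trans (le_of_eq ?_)
    rw [hB]
    congr 2
    ring
  have hA : ∑ a ∈ R, (a : ℝ)⁻¹ ≤ C * ((x' + 1 + y + 1) / (y + 1)) := by
    have h3 := hC y hy (-1) x' (by linarith) R (fun b hb => by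
      refine ⟨(hRs b hb).1, ?_, (hRs b hb).2⟩
      have := Real.log_natCast_nonneg b
      linarith)
    refine h3.trans (le_of_eq ?_)
    congr 2
    ring
  -- the parametrisation
  obtain ⟨Q, hQ⟩ : ∃ Q, Q = (F ×ˢ (F ×ˢ (F ×ˢ F))).filter
    (fun q => q.1 * q.2.1 = q.2.2.1 * q.2.2.2) := ⟨_, rfl⟩
  rw [← hQ]
  have hsp : ∀ q ∈ Q, ∃ a b c d : ℕ, par q = (a, b, c, d) ∧ q.1 = a * b ∧ q.2.1 = c * d ∧
      q.2.2.1 = a * c ∧ q.2.2.2 = b * d ∧ q.1 ∈ F ∧ q.2.1 ∈ F ∧ q.2.2.1 ∈ F ∧ q.2.2.2 ∈ F := by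
    rintro ⟨u, v, u', v'⟩ hq
    rw [hQ, Finset.mem_filter, Finset.mem_product, Finset.mem_product, Finset.mem_product] at hq
    obtain ⟨⟨hu, hv, hu', hv'⟩, heq⟩ := hq
    obtain ⟨a, b, c, d, h1, h2, h3, h4, h5⟩ := par_spec
      (Nat.pos_of_ne_zero (hmem u hu).1.1) (Nat.pos_of_ne_zero (hmem u' hu').1.1) heq
    exact ⟨a, b, c, d, h1, h2, h3, h4, h5, hu, hv, hu', hv'⟩
  have hinj : Set.InjOn par (Q : Set (ℕ × ℕ × ℕ × ℕ)) := by
    intro q hq q' hq' heq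
    obtain ⟨a, b, c, d, h1, h2, h3, h4, h5, -⟩ := hsp q hq
    obtain ⟨a', b', c', d', h1', h2', h3', h4', h5', -⟩ := hsp q' hq'
    rw [h1, h1'] at heq
    simp only [Prod.mk.injEq] at heq
    obtain ⟨rfl, rfl, rfl, rfl⟩ := heq
    exact Prod.ext (by rw [h2, h2']) (Prod.ext (by rw [h3, h3']) (Prod.ext (by rw [h4, h4'])
      (by rw [h5, h5'])))
  have hval : ∀ q ∈ Q, ((q.1 * q.2.1 : ℕ) : ℝ)⁻¹ = gg x x' (par q) := by
    intro q hq
    obtain ⟨a, b, c, d, h1, h2, h3, h4, h5, m1, m2, m3, m4⟩ := hsp q hq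
    have c1 := (hmem _ m1).2
    have c3 := (hmem _ m3).2
    have c4 := (hmem _ m4).2
    rw [h2] at c1
    rw [h4] at c3
    rw [h5] at c4
    rw [h1]
    unfold gg
    simp only
    rw [if_pos c1, if_pos c3, if_pos c4, h2, h3]
    push_cast
    rw [mul_inv, mul_inv, mul_inv]
    ring
  have himg : Q.image par ⊆ R ×ˢ (R ×ˢ (R ×ˢ R)) := by
    intro t ht
    obtain ⟨q, hq, rfl⟩ := Finset.mem_image.1 ht
    obtain ⟨a, b, c, d, h1, h2, h3, h4, h5, m1, m2, m3, m4⟩ := hsp q hq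
    rw [h1]
    simp only [Finset.mem_product]
    refine ⟨hRm _ m1 a ?_, hRm _ m1 b ?_, hRm _ m2 c ?_, hRm _ m2 d ?_⟩
    · rw [h2]; exact dvd_mul_right a b
    · rw [h2]; exact dvd_mul_left b a
    · rw [h3]; exact dvd_mul_right c d
    · rw [h3]; exact dvd_mul_left d c
  calc ∑ q ∈ Q, ((q.1 * q.2.1 : ℕ) : ℝ)⁻¹ = ∑ q ∈ Q, gg x x' (par q) :=
        Finset.sum_congr rfl hval
    _ = ∑ t ∈ Q.image par, gg x x' t := (Finset.sum_image hinj).symm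
    _ ≤ ∑ t ∈ R ×ˢ (R ×ˢ (R ×ˢ R)), gg x x' t :=
        Finset.sum_le_sum_of_subset_of_nonneg himg fun t _ _ => gg_nonneg x x' t
    _ ≤ (∑ a ∈ R, (a : ℝ)⁻¹) * B ^ 3 := sum_gg R x x' hB0 hwin
    _ ≤ (C * ((x' + 1 + y + 1) / (y + 1))) * B ^ 3 :=
        mul_le_mul_of_nonneg_right hA (pow_nonneg hB0 3)
    _ ≤ (C * (2 * ((x' + y + 1) / (y + 1)))) * B ^ 3 := by
        refine mul_le_mul_of_nonneg_right (mul_le_mul_of_nonneg_left ?_ hC0.le)
          (pow_nonneg hB0 3)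
        rw [← mul_div_assoc]
        refine div_le_div_of_nonneg_right ?_ hy1.le
        linarith
    _ = 2 * C ^ 4 * ((x' + y + 1) / (y + 1) * ((x' - x + y + 1) / (y + 1)) ^ 3) := by
        rw [hB]; ring

end Pool.Agent.Lib.N4
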